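import Pool.Agent.W808.HB.Stm

/-! Project HB, task bs: the value without other strands. -/

set_option autoImplicit false

namespace Pool.Agent.W808.HB
open Pool.Agent.H863R2.Cyl
open Pool.Agent.H988R2.Perc (Word PD)
open Pool.Agent.H160R2.ML (pfq Gn)

namespace Tbs

theorem cases_word (w : Word) : (∃ a b : ℕ, w = List.replicate a false ++ List.replicate b true) ∨
    ∃ s t : Word, w = s ++ true :: false :: t := by
  induction w with
  | nil => exact Or.inl ⟨0, 0, rfl⟩
  | cons x v ih =>
    rcases ih with ⟨a, b, rfl⟩ | ⟨s, t, rfl⟩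
    · cases x
      · exact Or.inl ⟨a + 1, b, rfl⟩
      · rcases a with _ | a
        · exact Or.inl ⟨0, b + 1, rfl⟩
        · exact Or.inr ⟨[], List.replicate a false ++ List.replicate b true, rfl⟩
    · exact Or.inr ⟨x :: s, t, rfl⟩

/-- a word different from `bwm p` contains a small arc -/
theorem exists_arc (p : ℕ) (w : Word) (hl : w.length = p) (hw : Ok w)
    (hne : w ≠ bwm p) : ∃ (i : ℕ) (u : Word), w = lins i u ∧ Ok u ∧
      u.length + 2 = p ∧ i + 2 ≤ p := by
  rcases cases_word w with ⟨a, b, rfl⟩ | ⟨s, t, rfl⟩
  · exfalso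
    apply hne
    unfold Pool.Agent.H863R2.Cyl.Ok at hw
    rw [List.length_append, List.length_replicate, List.length_replicate] at hl
    rw [List.count_append, List.count_replicate_self, List.count_replicate, List.length_append,
      List.length_replicate, List.length_replicate] at hw
    simp at hw
    unfold bwm
    have h1 : a = p / 2 := by omega
    have h2 : b = p - p / 2 := by omega
    rw [← h2, ← h1]
  · refine ⟨s.length, s ++ t, ?_, ?_, ?_, ?_⟩
    · show _ = (s ++ t).take s.length ++ true :: false :: (s ++ t).drop s.length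
      rw [List.take_left, List.drop_left]
    · unfold Pool.Agent.H863R2.Cyl.Ok at hw ⊢
      rw [List.count_append, List.length_append] at hw ⊢
      simp at hw
      omega
    · rw [List.length_append] at hl ⊢
      simp at hl
      omega
    · rw [List.length_append] at hl
      simp at hl
      omega

theorem lin_single (f : Word → ℂ) (v : VW) (w0 : Word)
    (h : ∀ w ∈ v.support, w ≠ w0 → f w = 0) :
    Finsupp.linearCombination ℂ f v = v w0 * f w0 := by
  rw [Finsupp.linearCombination_apply, Finsupp.sum, Finset.sum_eq_single w0]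
  · rfl
  · intro w hw hne
    rw [h w hw hne, smul_zero]
  · intro h0
    rw [Finsupp.notMem_support_iff.mp h0, zero_smul]

end Tbs

open Tbs in
theorem t_bs (h : S_comp) : S_bs := by
  intro q e Ψ hD A hG
  have hAs : ∀ w ∈ (Ψ A).support, w.length = A.length ∧ Ok w := fun w hw =>
    (Finsupp.mem_supported ℂ _).mp (hD.h.mem A) hw
  have hGG : GG e Ψ A [] = Ψ A (bwm A.length) := by
    unfold GG
    rw [List.append_nil, lin_single (e A.length) (Ψ A) (bwm A.length), hD.he.base, mul_one]
    intro w hw hne
    obtain ⟨l1, o1⟩ := hAs w hw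
    obtain ⟨i, u, rfl, hu, hul, hi⟩ := exists_arc A.length w l1 o1 hne
    exact hD.he.zero A.length 0 i u hu (by omega) hi
  rw [hGG]
  exact h q Ψ hD.hq hD.h A hG

end Pool.Agent.W808.HB
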