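import Pool.Agent.W808.HB.Stm
import Pool.Agent.H906R2.Arm.Box

/-!
# HB, task P5 (first half): averaging over the rows
-/

set_option autoImplicit false

namespace Pool.Agent.W808.HB
open Pool.Agent.H863R2.Cyl
open Pool.Agent.H988R2.Perc (Word PD)
open H974 H906.Cyl
open MeasureTheory

namespace TX5

theorem ber (p : unitInterval) (hp : (p : ℝ) = 1 / 2) (b : Bool) :
    ((ProbabilityTheory.bernoulliMeasure true false p : Measure Bool) {b}).toReal = 1 / 2 := by
  rw [← measureReal_def]
  cases b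
  · rw [ProbabilityTheory.bernoulliMeasure_real_apply_of_notMem_of_mem p
      (measurableSet_singleton _) (by simp) (by simp), hp]
    norm_num
  · rw [ProbabilityTheory.bernoulliMeasure_real_apply_of_mem_of_notMem p
      (measurableSet_singleton _) (by simp) (by simp), hp]

theorem prob {J : Type} [Fintype J] (c : J → ℤ × ℕ) (hc : Function.Injective c) (v : J → Bool) :
    coinsH.real {ω | ∀ x, ω (c x) = v x} = (1 / 2 : ℝ) ^ Fintype.card J := by
  classical
  have h1 : {ω : ℤ × ℕ → Bool | ∀ x, ω (c x) = v x} =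
      Set.pi ((Finset.univ.map ⟨c, hc⟩ : Finset (ℤ × ℕ)) : Set (ℤ × ℕ))
        (fun i => {Function.extend c v (fun _ => true) i}) := by
    ext ω
    simp only [Set.mem_setOf_eq, Set.mem_pi, Finset.mem_coe, Finset.mem_map, Finset.mem_univ,
      true_and, Set.mem_singleton_iff, Function.Embedding.coeFn_mk]
    constructor
    · rintro h _ ⟨x, rfl⟩
      rw [h x, hc.extend_apply]
    · intro h x
      rw [h _ ⟨x, rfl⟩, hc.extend_apply]
  rw [h1, measureReal_def]
  unfold coinsH
  rw [Measure.infinitePi_pi _ (fun i _ => measurableSet_singleton _), ENNReal.toReal_prod,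
    Finset.prod_congr rfl fun i _ => ber _ rfl _, Finset.prod_const, Finset.card_map,
    Finset.card_univ]

/-- the sites of the coins -/
def site (N M : ℕ) (x : Fin M × Fin N) : ℤ × ℕ := ((x.2.val : ℤ), M - 1 - x.1.val)

theorem site_inj (N M : ℕ) : Function.Injective (site N M) := by
  rintro ⟨t, j⟩ ⟨t', j'⟩ h
  have h1 := t.2
  have h2 := t'.2
  simp only [site, Prod.mk.injEq] at h
  obtain ⟨h3, h4⟩ := h
  have h5 : j = j' := Fin.ext (by omega)
  have h6 : t = t' := Fin.ext (by omega)
  rw [h5, h6]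

abbrev Rws (n M : ℕ) : Type := Fin M → (Fin (n + 1) → Bool)

/-- the rows -/
def AB (n M : ℕ) (ω : ℤ × ℕ → Bool) : Rws n M := fun t => crow (n + 1) M ω t

/-- the values of the coins -/
def val (n M : ℕ) (x : Rws n M) : Fin M × Fin (n + 1) → Bool := fun y => !(x y.1 y.2)

theorem AB_iff (n M : ℕ) (x : Rws n M) (ω : ℤ × ℕ → Bool) :
    AB n M ω = x ↔ ∀ y, ω (site (n + 1) M y) = val n M x y := by
  constructor
  · rintro rfl ⟨t, j⟩
    simp [site, val, AB, crow]
  · intro h
    refine funext fun t => funext fun j => ?_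
    have h1 := h (t, j)
    simp only [site, val] at h1
    simp only [AB, crow]
    rw [h1, Bool.not_not]

open Classical in
theorem split (n M : ℕ) (P : Rws n M → Prop) :
    coinsH.real {ω | P (AB n M ω)} =
      ∑ a, (if P a then (1 / 2 : ℝ) ^ (M * (n + 1)) else 0) := by
  have h1 : {ω | P (AB n M ω)} =
      ⋃ x ∈ (Finset.univ.filter fun x : Rws n M => P x),
        {ω : ℤ × ℕ → Bool | AB n M ω = x} := by
    ext ω
    simp only [Set.mem_setOf_eq, Set.mem_iUnion, Finset.mem_filter, Finset.mem_univ, true_and,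
      exists_prop]
    constructor
    · intro h
      exact ⟨_, h, rfl⟩
    · rintro ⟨x, hx, h⟩
      rw [h]
      exact hx
  have h2 : ∀ x : Rws n M, {ω : ℤ × ℕ → Bool | AB n M ω = x} =
      {ω | ∀ y, ω (site (n + 1) M y) = val n M x y} := by
    intro x
    ext ω
    exact AB_iff n M x ω
  have hm : ∀ x : Rws n M, MeasurableSet {ω : ℤ × ℕ → Bool | AB n M ω = x} := by
    intro x
    rw [h2]
    have : {ω : ℤ × ℕ → Bool | ∀ y, ω (site (n + 1) M y) = val n M x y} =
        ⋂ y, (fun ω : ℤ × ℕ → Bool => ω (site (n + 1) M y)) ⁻¹' {val n M x y} := by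
      ext ω
      simp
    rw [this]
    exact MeasurableSet.iInter fun y => measurable_pi_apply _ (measurableSet_singleton _)
  have hp : ∀ x : Rws n M, coinsH.real {ω : ℤ × ℕ → Bool | AB n M ω = x} =
      (1 / 2 : ℝ) ^ (M * (n + 1)) := by
    intro x
    rw [h2, prob _ (site_inj _ _)]
    congr 1
    simp only [Fintype.card_prod, Fintype.card_fin]
  have hprob : IsProbabilityMeasure coinsH := by
    unfold coinsH
    infer_instance
  rw [h1, measureReal_biUnion_finset]
  · rw [Finset.sum_congr rfl fun x _ => hp x, Finset.sum_filter]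
  · intro x _ y _ hxy
    rw [Function.onFun, Set.disjoint_left]
    intro ω h3 h4
    exact hxy (h3.symm.trans h4)
  · intro x _
    exact hm x

end TX5

open TX5

theorem t_X5 : S_X5 := by
  classical
  intro n M m μ hst
  obtain ⟨N, hN⟩ : ∃ N : ℝ, N = (1 / 2 : ℝ) ^ (M * (n + 1)) := ⟨_, rfl⟩
  have h1 : ∀ σ : Wd (n + 1), coinsH.real {ω | Gd m (rows n (crow (n + 1) M ω) M σ).1} =
      ∑ a : Rws n M, N * (if Gd m (rows n (ext a) M σ).1 then 1 else 0) := by
    intro σ
    have h2 := split n M (fun a => Gd m (rows n (ext a) M σ).1)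
    have h3 : {ω : ℤ × ℕ → Bool | Gd m (rows n (crow (n + 1) M ω) M σ).1} =
        {ω | Gd m (rows n (ext (AB n M ω)) M σ).1} := by
      ext ω
      have e1 : rows n (crow (n + 1) M ω) M σ = rows n (ext (AB n M ω)) M σ := by
        apply rows_congr
        intro t ht
        unfold ext
        rw [dif_pos ht]
        rfl
      simp only [Set.mem_setOf_eq, e1]
    rw [h3, h2, ← hN]
    refine Finset.sum_congr rfl fun a _ => ?_
    split_ifs <;> simp
  have h2 := rows_stat hst M (fun σ => if Gd m σ.1 then (1 : ℝ) else 0)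
  have h3 : ∑ σ, μ σ * coinsH.real {ω | Gd m (rows n (crow (n + 1) M ω) M σ).1} =
      N * ∑ a : Rws n M, ∑ σ, μ σ * (if Gd m (rows n (ext a) M σ).1 then (1 : ℝ) else 0) := by
    simp only [h1, Finset.mul_sum]
    rw [Finset.sum_comm]
    refine Finset.sum_congr rfl fun a _ => ?_
    refine Finset.sum_congr rfl fun σ _ => ?_
    ring
  rw [h3, h2]
  have h4 : N * (2 ^ (n + 1)) ^ M = 1 := by
    rw [hN, ← pow_mul, mul_comm M (n + 1), ← mul_pow]
    norm_num
  calc N * ((2 ^ (n + 1)) ^ M * ∑ σ, μ σ * (if Gd m σ.1 then (1 : ℝ) else 0))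
      = (N * (2 ^ (n + 1)) ^ M) * ∑ σ, μ σ * (if Gd m σ.1 then (1 : ℝ) else 0) := by ring
    _ = ∑ σ, (if Gd m σ.1 then μ σ else 0) := by
      rw [h4, one_mul]
      refine Finset.sum_congr rfl fun σ _ => ?_
      split_ifs <;> simp

end Pool.Agent.W808.HB
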