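import Pool.Agent.W808.HB.Stm

/-! Task P4: an alternating row decides the connections of the half-infinite cylinder. -/

set_option autoImplicit false

namespace Pool.Agent.W808.HB
open Pool.Agent.H863R2.Cyl
open Pool.Agent.H863R2.Cyl.Sem1Aux
open Pool.Agent.H988R2.Perc (Word PD)

namespace TX3

/-- the alternating word -/
def w0 : ℕ → Word
  | 0 => []
  | 1 => [true]
  | (N + 2) => true :: false :: w0 N

theorem length_w0 : ∀ N, (w0 N).length = N
  | 0 => rfl
  | 1 => rfl
  | (N + 2) => by simp [w0, length_w0 N]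

theorem count_w0 : ∀ N, (w0 N).count true = (N + 1) / 2
  | 0 => rfl
  | 1 => rfl
  | (N + 2) => by
    have := count_w0 N
    simp only [w0, List.count_cons, this]
    simp
    omega

theorem getD_w0 : ∀ N r, r < N → (w0 N).getD r true = decide (r % 2 = 0)
  | 0, r, h => by omega
  | 1, r, h => by
    have : r = 0 := by omega
    subst this; rfl
  | (N + 2), 0, h => rfl
  | (N + 2), 1, h => rfl
  | (N + 2), (r + 2), h => by
    have := getD_w0 N r (by omega)
    simp only [w0, List.getD_cons_succ, this]
    congr 1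
    simp

def W0 (n : ℕ) : Wd (n + 1) := ⟨w0 (n + 1), length_w0 _, by unfold Ok; rw [count_w0, length_w0]⟩

theorem first_right {H : ℤ → ℤ} (h1 : ∀ x, H (x + 1) - H x = 1 ∨ H (x + 1) - H x = -1) {a b : ℤ}
    (hab : a < b) (h2 : H (a + 1) = H a + 1) (h3 : H b ≤ H a) : ∃ c, a < c ∧ RH H a c := by
  classical
  have hex : ∃ k : ℕ, H (a + 1 + k) ≤ H a := ⟨(b - a - 1).toNat, by
    rw [show a + 1 + ((b - a - 1).toNat : ℤ) = b by omega]; exact h3⟩
  have hmin : ∀ m : ℕ, m < Nat.find hex → ¬ H (a + 1 + m) ≤ H a := fun m hm => Nat.find_min hex hm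
  have hspec := Nat.find_spec hex
  set k := Nat.find hex with hk
  have hk0 : k ≠ 0 := by
    intro h0
    rw [h0] at hspec
    simp only [Nat.cast_zero, add_zero] at hspec
    omega
  refine ⟨a + 1 + k, by omega, ?_⟩
  have hprev := hmin (k - 1) (by omega)
  have h4 := h1 (a + 1 + ((k - 1 : ℕ) : ℤ))
  rw [show a + 1 + ((k - 1 : ℕ) : ℤ) + 1 = a + 1 + (k : ℤ) by omega] at h4
  refine RH.of_le (by omega) (by omega) ?_
  intro l hl hl'
  by_cases hla : l = a
  · rw [hla]
  by_cases hlk : l = a + 1 + k
  · rw [hlk]; omega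
  have h5 := hmin (l - a - 1).toNat (by omega)
  rw [show a + 1 + ((l - a - 1).toNat : ℤ) = l by omega] at h5
  omega

theorem first_left {H : ℤ → ℤ} (h1 : ∀ x, H (x + 1) - H x = 1 ∨ H (x + 1) - H x = -1) {a b : ℤ}
    (hab : b < a) (h2 : H (a - 1) = H a + 1) (h3 : H b ≤ H a) : ∃ c, c < a ∧ RH H a c := by
  have h4 := first_right (H := fun x => H (-x)) (a := -a) (b := -b) (by
    intro x
    have := h1 (-x - 1)
    rw [show -(x + 1) = -x - 1 by ring]
    rw [show -x - 1 + 1 = -x by ring] at this
    omega) (by omega) (by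
    show H (-(-a + 1)) = H (- -a) + 1
    rw [show -(-a + 1) = a - 1 by ring, neg_neg, h2]) (by simpa using h3)
  obtain ⟨c, hc, hR⟩ := h4
  refine ⟨-c, by omega, ?_⟩
  refine ⟨?_, ?_⟩
  · have := hR.1
    simpa using this
  · intro l hl
    have := hR.2 (-l) (by omega)
    simpa using this

theorem ht_per {w : Word} {H : ℤ → ℤ} (h : Inc (sg w) H) (x : ℤ) :
    H (x + w.length) = H x + lsum w := by
  have h0 := ht_take h 0 w.length le_rfl
  simp only [zero_mul, zero_add, List.take_length] at h0
  have h1 : Inc (sg w) (fun x => H (x + w.length) - lsum w) := by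
    intro y
    have := h (y + w.length)
    have h2 := sg_per w y 1
    rw [one_mul] at h2
    show H (y + 1 + w.length) - lsum w = H (y + w.length) - lsum w + sg w y
    rw [show y + 1 + (w.length : ℤ) = y + w.length + 1 by ring, this, h2]
    ring
  have h2 := Inc.unique h h1 0 (by simp only [zero_add]; omega) x
  omega

theorem isolated_arc {w : Word} (hw : Ok w) (h2 : 2 ≤ w.length) {a : ℤ}
    (h : ∀ b, Rw w a b → a = b) : sg w (a - 1) = 1 ∧ sg w a = -1 := by
  obtain ⟨H, hH, -⟩ := exists_ht (sg w)
  have hs : ∀ x, sg w x = 1 ∨ sg w x = -1 := by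
    intro x
    unfold sg
    split_ifs <;> simp
  have hstep : ∀ x, H (x + 1) - H x = 1 ∨ H (x + 1) - H x = -1 := by
    intro x
    rw [hH x]
    have := hs x
    omega
  have hsum : lsum w = 0 ∨ lsum w = 1 := by
    rw [lsum_count]
    unfold Ok at hw
    rw [hw]
    push_cast
    omega
  have hper := ht_per hH
  have hiso : ∀ b, RH H a b → a = b := fun b hb => h b ((Rw_iff hH a b).2 hb)
  have e1 : H a = H (a - 1) + sg w (a - 1) := by
    have := hH (a - 1)
    rwa [sub_add_cancel] at this
  have e2 := hH a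
  have hleft : sg w (a - 1) = 1 := by
    by_contra hne
    have h3 : sg w (a - 1) = -1 := by
      have := hs (a - 1)
      tauto
    obtain ⟨c, hc, hR⟩ := first_left hstep (a := a) (b := a - w.length) (by omega) (by omega) (by
      have := hper (a - w.length)
      rw [sub_add_cancel] at this
      omega)
    have := hiso c hR
    omega
  refine ⟨hleft, ?_⟩
  by_contra hne
  have h3 : sg w a = 1 := by
    have := hs a
    tauto
  obtain ⟨c, hc, hR⟩ := first_right hstep (a := a) (b := a - 1 + w.length) (by omega) (by omega) (by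
    rw [hper (a - 1)]
    omega)
  have := hiso c hR
  omega

theorem arcAt_of_sg {w : Word} {i : ℕ} (hi : i + 2 ≤ w.length) (h1 : sg w i = 1)
    (h2 : sg w ((i : ℤ) + 1) = -1) : arcAt i w := by
  have e1 := sg_nat (w := w) (r := i) (by omega)
  have e2 := sg_nat (w := w) (r := i + 1) (by omega)
  push_cast at e2
  rw [h1, List.getD_eq_getElem _ _ (by omega)] at e1
  rw [h2, List.getD_eq_getElem _ _ (by omega)] at e2
  have f1 : w[i]'(by omega) = true := by
    cases h : w[i]'(by omega) with
    | true => rfl
    | false => rw [h] at e1; simp [ep] at e1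
  have f2 : w[i + 1]'(by omega) = false := by
    cases h : w[i + 1]'(by omega) with
    | false => rfl
    | true => rw [h] at e2; simp [ep] at e2
  have g1 : (w.rotate i)[0]? = some true := by
    rw [List.getElem?_eq_getElem (by rw [List.length_rotate]; omega), List.getElem_rotate]
    have e : (0 + i) % w.length = i := by rw [zero_add, Nat.mod_eq_of_lt (by omega)]
    simp only [e, f1]
  have g2 : (w.rotate i)[1]? = some false := by
    rw [List.getElem?_eq_getElem (by rw [List.length_rotate]; omega), List.getElem_rotate]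
    have e : (1 + i) % w.length = i + 1 := by rw [add_comm 1 i, Nat.mod_eq_of_lt (by omega)]
    simp only [e, f2]
  unfold arcAt
  revert g1 g2
  generalize w.rotate i = u
  intro g1 g2
  match u, g1, g2 with
  | x :: y :: v, g1, g2 =>
    simp only [List.getElem?_cons_zero, List.getElem?_cons_succ, Option.some.injEq] at g1 g2
    exact ⟨v, by rw [g1, g2]⟩
  | [_], _, g2 => simp at g2
  | [], g1, _ => simp at g1

theorem arcAt_w0 (N j : ℕ) (h : 2 * (j + 1) ≤ N) : arcAt (2 * j) (w0 N) := by
  have hl := length_w0 N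
  apply arcAt_of_sg (by omega)
  · rw [sg_nat (by omega), getD_w0 N _ (by omega)]
    simp [ep]
  · have := sg_nat (w := w0 N) (r := 2 * j + 1) (by omega)
    push_cast at this
    push_cast
    rw [this, getD_w0 N _ (by omega)]
    have : ¬ ((2 * j + 1) % 2 = 0) := by omega
    simp [ep]

/-- residue of a face -/
theorem cl_alt {n : ℕ} {c : Fin (n + 1) → Bool} (hc : ∀ j : Fin (n + 1), c j = decide (j.val % 2 = 0))
    (a : ℤ) : cl c a = decide ((a % (n + 1 : ℤ)) % 2 = 0) := by
  unfold cl
  rw [hc]
  have h1 := Int.emod_nonneg a (show (n + 1 : ℤ) ≠ 0 by omega)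
  have h2 := Int.emod_lt_of_pos a (show (0 : ℤ) < (n + 1 : ℤ) by omega)
  have h3 : (ix n (a % (n + 1 : ℤ)).toNat).val = (a % (n + 1 : ℤ)).toNat := by
    show (a % (n + 1 : ℤ)).toNat % (n + 1) = _
    apply Nat.mod_eq_of_lt
    omega
  rw [h3]
  congr 1
  apply propext
  omega

theorem Tc_alt {n : ℕ} (hn : 1 ≤ n) {c : Fin (n + 1) → Bool}
    (hc : ∀ j : Fin (n + 1), c j = decide (j.val % 2 = 0)) (τ : Wd (n + 1)) :
    Tc n c τ = W0 n := by
  apply MK.std_unique
  · intro j hj
    have hlen := (Tc n c τ).2.1
    have hiso : ∀ b, Rw (Tc n c τ).1 ((2 * j + 1 : ℕ) : ℤ) b → ((2 * j + 1 : ℕ) : ℤ) = b := by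
      intro b hb
      rw [Rw_Tc n hn c τ] at hb
      have hres : ((2 * j + 1 : ℕ) : ℤ) % (n + 1 : ℤ) = 2 * j + 1 := by
        push_cast
        apply Int.emod_eq_of_lt <;> omega
      have hres2 : ((2 * j + 1 : ℕ) : ℤ) - 1 = 2 * j := by push_cast; ring
      have hres3 : (2 * j : ℤ) % (n + 1 : ℤ) = 2 * j := by
        apply Int.emod_eq_of_lt <;> omega
      have hh : ((b, true) : ℤ × Bool) = (((2 * j + 1 : ℕ) : ℤ), true) := by
        refine Sem2Aux.eqv_isolated ?_ ?_ hb
        · intro y hy
          exfalso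
          generalize hz : ((((2 * j + 1 : ℕ) : ℤ), true) : ℤ × Bool) = z at hy
          cases hy with
          | low a b _ => simp at hz
          | link0 i h => simp at hz
          | link1 i h => simp at hz
        · intro y hy
          exfalso
          generalize hz : ((((2 * j + 1 : ℕ) : ℤ), true) : ℤ × Bool) = z at hy
          cases hy with
          | low a b _ => simp at hz
          | link0 i h =>
            have e : ((2 * j + 1 : ℕ) : ℤ) = i + 1 := (Prod.mk.inj hz).1
            have e' : i = 2 * j := by omega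
            rw [cl_alt hc, e', hres3] at h
            simp only [decide_eq_false_iff_not] at h
            omega
          | link1 i h =>
            have e : ((2 * j + 1 : ℕ) : ℤ) = i := (Prod.mk.inj hz).1
            rw [cl_alt hc, ← e, hres] at h
            simp only [decide_eq_true_eq] at h
            omega
      exact ((Prod.mk.inj hh).1).symm
    have h1 := isolated_arc (Tc n c τ).2.2 (by omega) hiso
    have h2 : ((2 * j + 1 : ℕ) : ℤ) - 1 = ((2 * j : ℕ) : ℤ) := by push_cast; ring
    have h3 : ((2 * j + 1 : ℕ) : ℤ) = ((2 * j : ℕ) : ℤ) + 1 := by push_cast; ring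
    rw [h2, h3] at h1
    exact arcAt_of_sg (by omega) h1.1 h1.2
  · intro j hj
    exact arcAt_w0 _ _ hj

/-- rows -/
theorem rows_add (n : ℕ) (c : ℕ → Fin (n + 1) → Bool) (a b : ℕ) (σ : Wd (n + 1)) :
    rows n c (a + b) σ = rows n (fun s => c (a + s)) b (rows n c a σ) := by
  induction b with
  | zero => rfl
  | succ b ih =>
    rw [← add_assoc]
    show Tc n (c (a + b)) (rows n c (a + b) σ) = Tc n (c (a + b)) _
    rw [ih]

theorem rows_congr {n : ℕ} {c c' : ℕ → Fin (n + 1) → Bool} {M : ℕ} (h : ∀ t < M, c t = c' t)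
    (σ : Wd (n + 1)) : rows n c M σ = rows n c' M σ := by
  induction M with
  | zero => rfl
  | succ M ih =>
    show Tc n (c M) _ = Tc n (c' M) _
    rw [ih (fun t ht => h t (by omega)), h M (by omega)]

theorem rows_alt {n : ℕ} (hn : 1 ≤ n) {ω : ℤ × ℕ → Bool} {t M : ℕ} (ht : t < M)
    (hA : Alt (n + 1) ω t) (σ : Wd (n + 1)) :
    rows n (crow (n + 1) M ω) M σ = rows n (crow (n + 1) (t + 1) ω) (t + 1) (W0 n) := by
  have key : ∀ τ τ' : Wd (n + 1), rows n (crow (n + 1) (t + 1) ω) (t + 1) τ
      = rows n (crow (n + 1) (t + 1) ω) (t + 1) τ' := by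
    intro τ τ'
    have h1 : ∀ τ : Wd (n + 1), rows n (crow (n + 1) (t + 1) ω) 1 τ = W0 n := by
      intro τ
      show Tc n (crow (n + 1) (t + 1) ω 0) τ = W0 n
      apply Tc_alt hn
      intro j
      unfold crow
      have := hA j.val j.isLt
      simp only [Nat.add_sub_cancel, Nat.sub_zero]
      rw [this]
      rcases Nat.mod_two_eq_zero_or_one j.val with h | h <;> simp [h]
    have h2 : t + 1 = 1 + t := by omega
    have h3 : ∀ τ : Wd (n + 1), rows n (crow (n + 1) (t + 1) ω) (t + 1) τ
        = rows n (fun s => crow (n + 1) (t + 1) ω (1 + s)) t (W0 n) := by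
      intro τ
      conv_lhs => rw [show rows n (crow (n + 1) (t + 1) ω) (t + 1) τ =
        rows n (crow (n + 1) (t + 1) ω) (1 + t) τ by rw [add_comm 1 t]]
      rw [rows_add, h1]
    rw [h3, h3]
  obtain ⟨a, rfl⟩ : ∃ a, M = a + (t + 1) := ⟨M - (t + 1), by omega⟩
  have h4 : rows n (fun s => crow (n + 1) (a + (t + 1)) ω (a + s)) (t + 1)
      (rows n (crow (n + 1) (a + (t + 1)) ω) a σ) = rows n (crow (n + 1) (t + 1) ω) (t + 1)
      (rows n (crow (n + 1) (a + (t + 1)) ω) a σ) := by
    apply rows_congr
    intro s hs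
    funext j
    unfold crow
    congr 3
    omega
  rw [rows_add, h4, key _ (W0 n)]

theorem cl_crow (n M : ℕ) (ω : ℤ × ℕ → Bool) (t : ℕ) (j : ℤ) :
    cl (crow (n + 1) M ω t) j = !(ω (j % ((n + 1 : ℕ) : ℤ), M - 1 - t)) := by
  unfold cl crow
  have h1 := Int.emod_nonneg j (show ((n + 1 : ℕ) : ℤ) ≠ 0 by omega)
  have h2 := Int.emod_lt_of_pos j (show (0 : ℤ) < ((n + 1 : ℕ) : ℤ) by omega)
  have h3 : ((ix n (j % (n + 1 : ℤ)).toNat).val : ℤ) = j % ((n + 1 : ℕ) : ℤ) := by
    show (((j % (n + 1 : ℤ)).toNat % (n + 1) : ℕ) : ℤ) = _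
    push_cast at h1 h2 ⊢
    rw [Int.toNat_of_nonneg h1, Int.emod_emod_of_dvd _ (dvd_refl _)]
  rw [h3]

/-- paths of the half-infinite cylinder are paths of a finite one -/
theorem finite_of_inf {n m : ℕ} {ω : ℤ × ℕ → Bool} (σ : Word) {x y : ℤ × ℕ}
    (h : Relation.EqvGen (HL (n + 1) m ω) x y) : ∃ M0 : ℕ, ∀ M, M0 ≤ M →
      Relation.EqvGen (BH n M m (crow (n + 1) M ω) σ) (x.1, M - x.2) (y.1, M - y.2) := by
  induction h with
  | refl x => exact ⟨0, fun M _ => Relation.EqvGen.refl _⟩
  | symm x y _ ih =>
    obtain ⟨M0, h⟩ := ih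
    exact ⟨M0, fun M hM => (h M hM).symm⟩
  | trans x y z _ _ ih1 ih2 =>
    obtain ⟨M1, h1⟩ := ih1
    obtain ⟨M2, h2⟩ := ih2
    exact ⟨max M1 M2, fun M hM => (h1 M ((le_max_left _ _).trans hM)).trans _ _ _
      (h2 M ((le_max_right _ _).trans hM))⟩
  | rel x y h =>
    cases h with
    | rise j t h =>
      refine ⟨t + 1, fun M hM => ?_⟩
      simp only
      have h1 : cl (crow (n + 1) M ω (M - (t + 1))) j = true := by
        rw [cl_crow, show M - 1 - (M - (t + 1)) = t by omega, h]
        rfl
      have h2 := BH.low (n := n) (M := M) (m := m) (c := crow (n + 1) M ω) (σ := σ) _ _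
        (Lk.link1 (c := crow (n + 1) M ω) (w := σ) j (M - (t + 1)) (by omega) h1)
      rw [show M - (t + 1) + 1 = M - t by omega] at h2
      exact (Relation.EqvGen.rel _ _ h2).symm
    | fall j t h =>
      refine ⟨t + 1, fun M hM => ?_⟩
      simp only
      have h1 : cl (crow (n + 1) M ω (M - (t + 1))) j = false := by
        rw [cl_crow, show M - 1 - (M - (t + 1)) = t by omega, h]
        rfl
      have h2 := BH.low (n := n) (M := M) (m := m) (c := crow (n + 1) M ω) (σ := σ) _ _
        (Lk.link0 (c := crow (n + 1) M ω) (w := σ) j (M - (t + 1)) (by omega) h1)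
      rw [show M - (t + 1) + 1 = M - t by omega] at h2
      exact (Relation.EqvGen.rel _ _ h2).symm
    | wire s i h =>
      refine ⟨0, fun M hM => ?_⟩
      exact Relation.EqvGen.rel _ _ (BH.wire s i h)

theorem sg_w0 (n : ℕ) (x : ℤ) :
    sg (w0 (n + 1)) x = if (x % (n + 1 : ℤ)) % 2 = 0 then 1 else -1 := by
  have hN : (0 : ℤ) < (n + 1 : ℤ) := by omega
  have h1 := Int.emod_nonneg x (show (n + 1 : ℤ) ≠ 0 by omega)
  have h2 := Int.emod_lt_of_pos x hN
  have h3 := Int.mul_ediv_add_emod x (n + 1 : ℤ)
  have hl := length_w0 (n + 1)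
  have e1 : x = ((x % (n + 1 : ℤ)).toNat : ℤ) + (x / (n + 1 : ℤ)) * (w0 (n + 1)).length := by
    rw [hl]
    push_cast
    rw [Int.toNat_of_nonneg h1]
    linarith
  conv_lhs => rw [e1]
  rw [sg_per, sg_nat (by rw [hl]; omega), getD_w0 _ _ (by omega)]
  unfold ep
  split_ifs with h4 h5 h5 <;> simp only [decide_eq_true_eq] at h4 <;> omega

theorem odd_isol {n : ℕ} (hn : 1 ≤ n) {a b : ℤ} (h : Rw (w0 (n + 1)) a b)
    (ha : (a % (n + 1 : ℤ)) % 2 = 1) : a = b := by
  have hN : (0 : ℤ) < (n + 1 : ℤ) := by omega
  apply Sem4Aux.rw_peak _ _ h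
  · rw [sg_w0, if_neg (by omega)]
  · rw [sg_w0, if_pos]
    have h1 := Int.emod_nonneg a (show (n + 1 : ℤ) ≠ 0 by omega)
    have h2 := Int.emod_lt_of_pos a hN
    have h3 := Int.mul_ediv_add_emod a (n + 1 : ℤ)
    have h4 : a - 1 = (a % (n + 1 : ℤ) - 1) + (n + 1 : ℤ) * (a / (n + 1 : ℤ)) := by linarith
    have h5 : (a - 1) % (n + 1 : ℤ) = a % (n + 1 : ℤ) - 1 := by
      conv_lhs => rw [h4]
      rw [Int.add_mul_emod_self_left, Int.emod_eq_of_lt (by omega) (by omega)]
    omega

/-- the sheet of an even face of the alternating word -/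
theorem sheet {n : ℕ} (hodd : n % 2 = 0) (hn : 1 ≤ n) {a b : ℤ} (h : Rw (w0 (n + 1)) a b)
    (ha : (a % (n + 1 : ℤ)) % 2 = 0) (hb : (b % (n + 1 : ℤ)) % 2 = 0) :
    a / (n + 1 : ℤ) = b / (n + 1 : ℤ) := by
  have hN : (0 : ℤ) < (n + 1 : ℤ) := by omega
  set H : ℤ → ℤ := fun x => x / (n + 1 : ℤ) + (x % (n + 1 : ℤ)) % 2 with hH
  have hInc : Inc (sg (w0 (n + 1))) H := by
    intro x
    have h1 := Int.emod_nonneg x (show (n + 1 : ℤ) ≠ 0 by omega)
    have h2 := Int.emod_lt_of_pos x hN
    have h3 := Int.mul_ediv_add_emod x (n + 1 : ℤ)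
    have hsg := sg_w0 n x
    rw [hsg]
    have h5 := emod_succ x (n + 1 : ℤ) hN
    have h6 := Int.mul_ediv_add_emod (x + 1) (n + 1 : ℤ)
    show (x + 1) / (n + 1 : ℤ) + ((x + 1) % (n + 1 : ℤ)) % 2 = x / (n + 1 : ℤ) + (x % (n + 1 : ℤ)) % 2 + _
    by_cases h7 : x % (n + 1 : ℤ) = n + 1 - 1
    · rw [if_pos h7] at h5
      rw [h5] at h6 ⊢
      have h8 : (n + 1 : ℤ) * ((x + 1) / (n + 1 : ℤ)) = (n + 1 : ℤ) * (x / (n + 1 : ℤ) + 1) := by
        rw [mul_add]; linarith
      have h9 := mul_left_cancel₀ (by omega) h8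
      rw [h9, h7]
      split_ifs <;> omega
    · rw [if_neg h7] at h5
      rw [h5] at h6 ⊢
      have h8 : (n + 1 : ℤ) * ((x + 1) / (n + 1 : ℤ)) = (n + 1 : ℤ) * (x / (n + 1 : ℤ)) := by
        linarith
      have h9 := mul_left_cancel₀ (by omega) h8
      rw [h9]
      split_ifs <;> omega
  rw [Rw_iff hInc] at h
  have := h.1
  simp only [hH] at this
  omega

end TX3

open TX3 in
theorem t_X3 (h1 : S_X1) : S_X3 := by
  intro n M m t hn ht ω hA σ a b
  constructor
  · intro h
    obtain ⟨M0, hM0⟩ := finite_of_inf (σ := (W0 n).1) h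
    have h2 := hM0 (max M0 M) (le_max_left _ _)
    simp only [Nat.sub_zero] at h2
    rw [h1 n (max M0 M) m hn] at h2
    rw [rows_alt hn (lt_of_lt_of_le ht (le_max_right _ _)) hA] at h2
    rw [rows_alt hn ht hA]
    exact h2
  · intro h
    rw [rows_alt hn ht hA, ← h1 n (t + 1) m hn] at h
    classical
    set N : ℤ := ((n + 1 : ℕ) : ℤ) with hN
    have hN0 : 0 < N := by rw [hN]; omega
    have hNn : N = (n + 1 : ℤ) := by rw [hN]; push_cast; rfl
    -- the map
    let g : ℤ → ℤ := fun a => if (a % N) % 2 = 0 then (if n % 2 = 0 then (a / N) * N else 0) else a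
    let f : ℤ × ℕ → ℤ × ℕ := fun x => if x.2 = 0 then (g x.1, t + 1) else (x.1, t + 1 - x.2)
    have key : ∀ x y, Relation.EqvGen (BH n (t + 1) m (crow (n + 1) (t + 1) ω) (W0 n).1) x y →
        Relation.EqvGen (HL (n + 1) m ω) (f x) (f y) := by
      intro x y hxy
      induction hxy with
      | refl x => exact Relation.EqvGen.refl _
      | symm x y _ ih => exact ih.symm
      | trans x y z _ _ ih1 ih2 => exact ih1.trans _ _ _ ih2
      | rel x y hxy =>
        cases hxy with
        | low x y hl =>
          cases hl with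
          | bot a b hab =>
            have hg : g a = g b := by
              rcases Int.emod_two_eq_zero_or_one (a % (n + 1 : ℤ)) with ha | ha
              · rcases Int.emod_two_eq_zero_or_one (b % (n + 1 : ℤ)) with hb | hb
                · by_cases hp : n % 2 = 0
                  · have h3 := sheet hp hn hab ha hb
                    simp only [g, hNn, if_pos ha, if_pos hb, if_pos hp, h3]
                  · simp only [g, hNn, if_pos ha, if_pos hb, if_neg hp]
                · rw [odd_isol hn ((Rw_equiv _).symm hab) hb]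
              · rw [odd_isol hn hab ha]
            simp only [f, if_true, hg]
            exact Relation.EqvGen.refl _
          | link0 j s hs hc =>
            rw [cl_crow, Bool.not_eq_false', show t + 1 - 1 - s = t - s by omega] at hc
            have h3 := HL.fall (N := n + 1) (m := m) (ω := ω) j (t - s) hc
            rw [show t - s + 1 = t + 1 - s by omega] at h3
            have hx : f (j, s) = (j, t + 1 - s) := by
              by_cases hs0 : s = 0
              · subst hs0
                simp only [f, if_true, Nat.sub_zero]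
                have h4 := hA (j % N).toNat (by
                  have := Int.emod_lt_of_pos j hN0
                  omega)
                rw [Int.toNat_of_nonneg (Int.emod_nonneg j hN0.ne')] at h4
                rw [Nat.sub_zero, h4] at hc
                simp only [decide_eq_true_eq] at hc
                have h5 : ¬ (j % N) % 2 = 0 := by omega
                simp only [g, if_neg h5]
              · simp only [f, if_neg hs0]
            have hy : f (j + 1, s + 1) = (j + 1, t - s) := by
              simp only [f, Nat.succ_ne_zero, if_false, Nat.add_sub_add_right]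
            rw [hx, hy]
            exact (Relation.EqvGen.rel _ _ h3).symm
          | link1 j s hs hc =>
            rw [cl_crow, Bool.not_eq_true', show t + 1 - 1 - s = t - s by omega] at hc
            have h3 := HL.rise (N := n + 1) (m := m) (ω := ω) j (t - s) hc
            rw [show t - s + 1 = t + 1 - s by omega] at h3
            have hx : f (j + 1, s) = (j + 1, t + 1 - s) := by
              by_cases hs0 : s = 0
              · subst hs0
                simp only [f, if_true, Nat.sub_zero]
                have h4 := hA (j % N).toNat (by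
                  have := Int.emod_lt_of_pos j hN0
                  omega)
                rw [Int.toNat_of_nonneg (Int.emod_nonneg j hN0.ne')] at h4
                rw [Nat.sub_zero, h4] at hc
                simp only [decide_eq_false_iff_not] at hc
                have h6 := Int.emod_nonneg j hN0.ne'
                have h7 := Int.emod_lt_of_pos j hN0
                have h5 := emod_succ j N hN0
                have h8 : g (j + 1) = j + 1 := by
                  by_cases h9 : j % N = N - 1
                  · rw [if_pos h9] at h5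
                    have hp : n % 2 = 0 := by omega
                    have h10 := Int.mul_ediv_add_emod (j + 1) N
                    simp only [g, h5]
                    simp only [hp, if_true, Int.zero_emod]
                    linarith
                  · rw [if_neg h9] at h5
                    have h10 : ¬ ((j + 1) % N) % 2 = 0 := by rw [h5]; omega
                    simp only [g, if_neg h10]
                rw [h8]
              · simp only [f, if_neg hs0]
            have hy : f (j, s + 1) = (j, t - s) := by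
              simp only [f, Nat.succ_ne_zero, if_false, Nat.add_sub_add_right]
            rw [hx, hy]
            exact (Relation.EqvGen.rel _ _ h3).symm
        | wire s i hi =>
          have h3 := HL.wire (N := n + 1) (m := m) (ω := ω) s i hi
          simp only [f, Nat.succ_ne_zero, if_false, Nat.sub_self]
          exact Relation.EqvGen.rel _ _ h3
    have h3 := key _ _ h
    simpa [f] using h3

end Pool.Agent.W808.HB
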