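import Pool.Agent.W808.HB.Stm
import Mathlib.Probability.Independence.InfinitePi

/-!
# HB, task P5 (second half): alternating rows exist
-/

set_option autoImplicit false

namespace Pool.Agent.W808.HB
open MeasureTheory ProbabilityTheory

namespace TX6

noncomputable abbrev ber : Measure Bool :=
  ProbabilityTheory.bernoulliMeasure true false ⟨1/2, by norm_num, by norm_num⟩

instance : IsProbabilityMeasure coinsH := by
  unfold coinsH; infer_instance

lemma ber_sing (b : Bool) : ber {b} = ENNReal.ofReal (1/2) := by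
  have h : (ber).real {b} = 1/2 := by
    rw [bernoulliMeasure_real_apply _ (MeasurableSet.of_discrete)]
    cases b <;> simp
    norm_num
  rw [← h, ofReal_measureReal]

lemma meas_pattern (T : Finset (ℤ × ℕ)) (v : ℤ × ℕ → Bool) :
    coinsH {ω | ∀ c ∈ T, ω c = v c} = ENNReal.ofReal (1/2) ^ T.card := by
  have : {ω : ℤ × ℕ → Bool | ∀ c ∈ T, ω c = v c} = Set.pi (T : Set (ℤ × ℕ)) (fun c => {v c}) := by
    ext ω; simp [Set.mem_pi]
  rw [this]
  unfold coinsH
  rw [Measure.infinitePi_pi _ (fun i _ => MeasurableSet.of_discrete)]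
  rw [Finset.prod_congr rfl (fun c _ => ber_sing (v c))]
  simp

lemma meas_ext (S : Finset (ℤ × ℕ)) (E : Set (ℤ × ℕ → Bool))
    (hE : ∀ ω ω' : ℤ × ℕ → Bool, (∀ c ∈ S, ω c = ω' c) → ω ∈ E → ω' ∈ E) :
    ∃ E' : Set (S → Bool), E = (fun (ω : ℤ × ℕ → Bool) (i : S) => ω i) ⁻¹' E' := by
  classical
  refine ⟨{g | (fun c => if h : c ∈ S then g ⟨c, h⟩ else false) ∈ E}, ?_⟩
  ext ω
  simp only [Set.mem_preimage, Set.mem_ofPred_eq]
  constructor
  · intro h
    refine hE _ _ (fun c hc => ?_) h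
    simp [hc]
  · intro h
    refine hE _ _ (fun c hc => ?_) h
    simp [hc]

lemma indep (S T : Finset (ℤ × ℕ)) (hST : Disjoint S T) (E F : Set (ℤ × ℕ → Bool))
    (hE : ∀ ω ω' : ℤ × ℕ → Bool, (∀ c ∈ S, ω c = ω' c) → ω ∈ E → ω' ∈ E)
    (hF : ∀ ω ω' : ℤ × ℕ → Bool, (∀ c ∈ T, ω c = ω' c) → ω ∈ F → ω' ∈ F) :
    coinsH (E ∩ F) = coinsH E * coinsH F := by
  obtain ⟨E', rfl⟩ := meas_ext S E hE
  obtain ⟨F', rfl⟩ := meas_ext T F hF
  have h1 : iIndepFun (fun (i : ℤ × ℕ) (ω : ℤ × ℕ → Bool) => ω i) coinsH := by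
    unfold coinsH
    exact iIndepFun_infinitePi (X := fun _ (x : Bool) => x) (fun _ => measurable_id)
  have h2 := iIndepFun.indepFun_finset S T hST h1 (fun i => measurable_pi_apply i)
  exact h2.measure_inter_preimage_eq_mul _ _ (MeasurableSet.of_discrete) (MeasurableSet.of_discrete)

lemma key (T : ℕ → Finset (ℤ × ℕ)) (hd : ∀ i j, i ≠ j → Disjoint (T i) (T j)) (N : ℕ)
    (hN : ∀ i, (T i).card = N) (v : ℤ × ℕ → Bool) (m : ℕ) :
    coinsH.real {ω | ∀ i < m, ¬ ∀ c ∈ T i, ω c = v c} = (1 - (1/2 : ℝ) ^ N) ^ m := by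
  classical
  induction m with
  | zero => simp
  | succ m ih =>
    have hset : {ω : ℤ × ℕ → Bool | ∀ i < m + 1, ¬ ∀ c ∈ T i, ω c = v c}
        = {ω | ∀ i < m, ¬ ∀ c ∈ T i, ω c = v c} ∩ {ω | ¬ ∀ c ∈ T m, ω c = v c} := by
      ext ω
      simp only [Set.mem_ofPred_eq, Set.mem_inter_iff]
      constructor
      · intro h
        exact ⟨fun i hi => h i (by omega), h m (by omega)⟩
      · rintro ⟨h1, h2⟩ i hi
        rcases Nat.lt_succ_iff_lt_or_eq.mp hi with h | h
        · exact h1 i h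
        · subst h; exact h2
    have hi := indep ((Finset.range m).biUnion T) (T m)
      (by
        rw [Finset.disjoint_biUnion_left]
        intro i hi
        exact hd i m (by have := Finset.mem_range.mp hi; omega))
      {ω | ∀ i < m, ¬ ∀ c ∈ T i, ω c = v c} {ω | ¬ ∀ c ∈ T m, ω c = v c}
      (by
        intro ω ω' hh h i hi hc
        refine h i hi (fun c hcT => ?_)
        rw [hh c (Finset.mem_biUnion.mpr ⟨i, Finset.mem_range.mpr hi, hcT⟩)]
        exact hc c hcT)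
      (by
        intro ω ω' hh h hc
        refine h (fun c hcT => ?_)
        rw [hh c hcT]
        exact hc c hcT)
    rw [hset, measureReal_def, hi, ENNReal.toReal_mul, ← measureReal_def, ih, ← measureReal_def, pow_succ]
    congr 1
    have hm : MeasurableSet {ω : ℤ × ℕ → Bool | ∀ c ∈ T m, ω c = v c} := by
      have : {ω : ℤ × ℕ → Bool | ∀ c ∈ T m, ω c = v c}
          = ⋂ c ∈ T m, (fun ω : ℤ × ℕ → Bool => ω c) ⁻¹' {v c} := by
        ext ω; simp
      rw [this]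
      exact Finset.measurableSet_biInter _ (fun c _ => measurable_pi_apply c MeasurableSet.of_discrete)
    have hcompl : {ω : ℤ × ℕ → Bool | ¬ ∀ c ∈ T m, ω c = v c}
        = {ω : ℤ × ℕ → Bool | ∀ c ∈ T m, ω c = v c}ᶜ := rfl
    rw [hcompl, probReal_compl_eq_one_sub hm]
    congr 1
    rw [measureReal_def, meas_pattern, hN]
    rw [ENNReal.toReal_pow, ENNReal.toReal_ofReal (by norm_num)]

/-- a row -/
noncomputable def TR (N t : ℕ) : Finset (ℤ × ℕ) := Finset.Ico (0 : ℤ) N ×ˢ {t}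

lemma mem_TR (N t : ℕ) (a : ℤ) (b : ℕ) :
    (a, b) ∈ TR N t ↔ (0 ≤ a ∧ a < N) ∧ b = t := by
  simp only [TR, Finset.mem_product, Finset.mem_Ico, Finset.mem_singleton]

lemma card_TR (N t : ℕ) : (TR N t).card = N := by
  unfold TR
  rw [Finset.card_product]
  simp

end TX6

open TX6 in
theorem t_X6 : S_X6 := by
  intro n ε hε
  classical
  have h0 : (0:ℝ) < (1/2 : ℝ) ^ (n + 1) := by positivity
  have h1 : (1/2 : ℝ) ^ (n + 1) ≤ 1 := pow_le_one₀ (by norm_num) (by norm_num)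
  obtain ⟨M, hM⟩ := exists_pow_lt_of_lt_one hε (show 1 - (1/2 : ℝ) ^ (n + 1) < 1 by linarith)
  refine ⟨M, ?_⟩
  have hk := key (fun t => TR (n + 1) t)
    (by
      intro i j hij
      rw [Finset.disjoint_left]
      rintro ⟨a, b⟩ h1 h2
      rw [mem_TR] at h1 h2
      omega)
    (n + 1) (fun i => card_TR _ _) (fun c => decide (c.1 % 2 = 1)) M
  refine le_trans (measureReal_mono (s₂ := {ω | ∀ i < M, ¬ ∀ c ∈ TR (n + 1) i, ω c =
      decide (c.1 % 2 = 1)}) ?_ (measure_ne_top _ _)) (hk.trans_le hM.le)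
  intro ω hω
  simp only [Set.mem_ofPred_eq] at hω ⊢
  intro i hi hc
  refine hω ⟨i, hi, fun j hj => ?_⟩
  have := hc ((j : ℤ), i) ((mem_TR _ _ _ _).mpr ⟨⟨by omega, by omega⟩, rfl⟩)
  rw [this]
  simp only [decide_eq_decide]
  omega

end Pool.Agent.W808.HB
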