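import Pool.Agent.W808.HB.Defs

/-!
# Legs at the boundary of the half-infinite cylinder: the steps
(every step is a `Prop`; the file `T_X.lean` proves `t_X` from its hypotheses)
-/

set_option autoImplicit false

namespace Pool.Agent.W808.HB
open Pool.Agent.H863R2.Cyl
open Pool.Agent.H988R2.Perc (Word PD)
open Pool.Agent.H160R2.ML (pfq Gn)
open Filter Topology MeasureTheory

/-! ## E: the leg functional -/

def S_Ez : Prop := ∀ (m M i : ℕ) (u : Word), Ok u → u.length + 2 = m + 2 * M → i + 2 ≤ m →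
  ¬ Gd m (lins i u)

def S_Ei : Prop := ∀ (m M i : ℕ) (u : Word), Ok u → u.length = m + 2 * M → m ≤ i + 1 →
  i ≤ u.length → (Gd m (lins i u) ↔ Gd m u)

def S_Ec : Prop := ∀ (m M j : ℕ) (w : Word), Ok w → w.length = m + 2 * M + 2 → j ≤ M →
  (Gd m (cap (m + 2 * j) w) ↔ Gd m w)

def S_Es : Prop := ∀ (m M : ℕ) (u : Word), Ok u → u.length = m + 2 * M → 1 ≤ m →
  (Gd m (seam u) ↔ Gd m (rotr u))

def S_Eb : Prop := (∀ m : ℕ, Gd m (bwm m)) ∧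
  (∀ (M : ℕ) (w : Word), Ok w → w.length = 2 * M → Gd 0 w) ∧
  (∀ (M : ℕ) (w : Word), Ok w → w.length = 2 * M + 1 → Gd 1 w)

def S_E : Prop := ESp el

/-! ## G: the partition function with legs -/

/-- exchange of legs -/
def S_legx : Prop := ∀ (q : ℂ) (e : ℕ → Word → ℂ) (Ψ : List ℂ → VW), Dat q e Ψ →
  ∀ (u v z : List ℂ) (x y : ℂ), Even z.length →
  (q * y - q ^ 2 * x) * GG e Ψ (u ++ y :: x :: v) z =
    (q * x - q ^ 2 * y) * GG e Ψ (u ++ x :: y :: v) z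

/-- exchange inside a pair -/
def S_flip : Prop := ∀ (q : ℂ) (e : ℕ → Word → ℂ) (Ψ : List ℂ → VW), Dat q e Ψ →
  ∀ (A u v : List ℂ) (x y : ℂ), Even u.length → Even v.length → q * y - q ^ 2 * x ≠ 0 →
  GG e Ψ A (u ++ y :: x :: v) = GG e Ψ A (u ++ x :: y :: v)

/-- exchange of pairs -/
def S_pex : Prop := ∀ (q : ℂ) (e : ℕ → Word → ℂ) (Ψ : List ℂ → VW), Dat q e Ψ →
  ∀ (A u v : List ℂ) (x y : ℂ), Even u.length → Even v.length → Gn [x, x⁻¹, y, y⁻¹] →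
  GG e Ψ A (u ++ x :: x⁻¹ :: y :: y⁻¹ :: v) = GG e Ψ A (u ++ y :: y⁻¹ :: x :: x⁻¹ :: v)

/-- symmetry in the pairs -/
def S_sym : Prop := ∀ (q : ℂ) (e : ℕ → Word → ℂ) (Ψ : List ℂ → VW), Dat q e Ψ →
  ∀ (A l : List ℂ), Gn (prs l) →
  (∀ l' : List ℂ, l.Perm l' → GG e Ψ A (prs l) = GG e Ψ A (prs l')) ∧
  (∀ (u v : List ℂ) (x : ℂ), l = u ++ x :: v → GG e Ψ A (prs (u ++ x⁻¹ :: v)) = GG e Ψ A (prs l))

def S_mvR : Prop := ∀ (q : ℂ) (e : ℕ → Word → ℂ) (Ψ : List ℂ → VW), Dat q e Ψ →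
  ∀ (A z : List ℂ) (x y : ℂ), Even z.length →
  GG e Ψ (A ++ [x]) ((q * x) :: y :: z) = fac q x (A ++ y :: z) * GG e Ψ (A ++ [y]) z

def S_mvL : Prop := ∀ (q : ℂ) (e : ℕ → Word → ℂ) (Ψ : List ℂ → VW), Dat q e Ψ →
  ∀ (A z : List ℂ) (x y : ℂ), Even z.length →
  GG e Ψ ((q * y) :: A) (z ++ [x, y]) = fac q y (A ++ z ++ [x]) * GG e Ψ (x :: A) z

def S_deg : Prop := ∀ (q : ℂ) (e : ℕ → Word → ℂ) (Ψ : List ℂ → VW), Dat q e Ψ →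
  ∀ (A B z : List ℂ), ∃ P : Polynomial ℂ, P.natDegree ≤ A.length + B.length + z.length ∧
    ∀ x, P.eval x = GG e Ψ (A ++ x :: B) z

/-- the component without arcs -/
def S_comp : Prop := ∀ (q : ℂ) (Ψ : List ℂ → VW), q ^ 2 + q + 1 = 0 → Fam q Ψ →
  ∀ A : List ℂ, Gn A → Ψ A (bwm A.length) * kap q A.length = pfq q A

def S_bs : Prop := ∀ (q : ℂ) (e : ℕ → Word → ℂ) (Ψ : List ℂ → VW), Dat q e Ψ →
  ∀ A : List ℂ, Gn A → GG e Ψ A [] * kap q A.length = pfq q A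

/-! ## T: the determinant -/

/-- polynomial in a leg; symmetric; invariant under the inversions -/
def S_TP : Prop := ∀ (q : ℂ) (C : List ℂ) (M : ℕ) (x : Fin M → ℂ),
  (∃ P : Polynomial ℂ, P.natDegree ≤ 2 * M ∧ ∀ a, P.eval a = TT q (a :: C) x) ∧
  (∀ C', C.Perm C' → TT q C x = TT q C' x) ∧
  (∀ s : Equiv.Perm (Fin M), TT q C (x ∘ s) = TT q C x) ∧
  (∀ i, x i ≠ 0 → TT q C (Function.update x i (x i)⁻¹) = TT q C x) ∧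
  (q ^ 2 + q + 1 = 0 → (∀ i, x i ≠ 0) → ∀ a, a ≠ 0 →
    TT q (a⁻¹ :: C) x * a ^ (2 * M) = TT q (a :: C) x) ∧
  (q ^ 2 + q + 1 = 0 → (∀ i, x i ≠ 0) → TT q (0 :: C) x = TT q C x)

/-- recursion -/
def S_TR : Prop := ∀ q : ℂ, q ^ 2 + q + 1 = 0 → ∀ (C : List ℂ) (M : ℕ) (x0 : ℂ) (x : Fin M → ℂ),
  Gn (prs (x0 :: List.ofFn x)) →
  TT q ((q ^ 2 * x0) :: C) (Fin.cons x0 x : Fin (M + 1) → ℂ) * ∏ j, (Xf (x j) - Yf q x0) ^ 2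
    = (x0⁻¹ - q * x0) ^ 2 * q ^ (2 * M + 2) * x0 ^ (2 * M + 1) * lp q C x0
      * (∏ j, (Xf x0 - Xf (x j)) ^ 2) * TT q (x0⁻¹ :: C) x

/-- **the exact formula** (generic parameters) -/
def S_M1 : Prop := ∀ (q : ℂ) (e : ℕ → Word → ℂ) (Ψ : List ℂ → VW), Dat q e Ψ →
  ∀ (m M : ℕ), 1 ≤ m → ∀ (A : List ℂ) (x : Fin M → ℂ), A.length = m →
  Gn (A ++ prs (List.ofFn x)) →
  GG e Ψ A (prs (List.ofFn x)) * kap q m * vdx x ^ 2 = pfq q A * (wdx x * TT q A x)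

/-- the same for arbitrary legs -/
def S_M2 : Prop := ∀ (q : ℂ) (e : ℕ → Word → ℂ) (Ψ : List ℂ → VW), Dat q e Ψ →
  ∀ (m M : ℕ), 1 ≤ m → ∀ (A : List ℂ) (x : Fin M → ℂ), A.length = m →
  Gn (prs (List.ofFn x)) →
  GG e Ψ A (prs (List.ofFn x)) * kap q m * vdx x ^ 2 = pfq q A * (wdx x * TT q A x)

/-- no legs -/
def S_M0 : Prop := ∀ (q : ℂ) (e : ℕ → Word → ℂ) (Ψ : List ℂ → VW), Dat q e Ψ →
  ∀ (M : ℕ) (x : Fin M → ℂ), Gn (prs (List.ofFn x)) →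
  GG e Ψ [] (prs (List.ofFn x)) * vdx x ^ 2 = wdx x * TT q [] x

/-! ## H: the homogeneous limit -/

/-- expansions -/
def S_U : Prop := ∀ (m k : ℕ) (Y : ℂ), Y ≠ 0 → Y - Y⁻¹ ≠ 0 →
  ((2 * Y - 1) * Y ^ m * (Y * (Y - 1)) ^ k
    - (2 * Y⁻¹ - 1) * Y⁻¹ ^ m * (Y⁻¹ * (Y⁻¹ - 1)) ^ k) / (Y - Y⁻¹)
  = ∑ l ∈ Finset.range (m + 2 * k + 1), (cc m k l : ℂ) * bet Y ^ l

/-- limit of the determinant -/
def S_KL : Prop := ∀ m M : ℕ,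
  Tendsto (fun t : ℝ => (Matrix.of fun i j : Fin M => Kf m (bet (Yv t i)) (Yv t j)).det
      / (Matrix.vandermonde (fun i : Fin M => bet (Yv t i))).det ^ 2) (𝓝[>] 0)
    (𝓝 (Matrix.of fun k l : Fin M => (cc m k l : ℂ)).det)

/-- the determinant in the variables `Y` -/
def S_TK : Prop := ∀ q : ℂ, q ^ 2 + q + 1 = 0 → ∀ (m M : ℕ) (Y : Fin M → ℝ),
  (∀ i, 0 < Y i) → (∀ i, Y i ≠ 1) →
  (∀ i j, 1 - bet (Y i) * ((Y j : ℂ) * (Y j - 1)) ≠ 0) →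
  (∀ i j, 1 - bet (Y i) * ((Y j : ℂ)⁻¹ * ((Y j : ℂ)⁻¹ - 1)) ≠ 0) →
  TT q (List.replicate m 1) (fun i => xY q (Y i)) * ∏ j, (1 + bet (Y j)) ^ m
    = (-q * 3 ^ m) ^ M * (∏ j, (1 - 2 * bet (Y j)))
      * (Matrix.of fun i j : Fin M => Kf m (bet (Y i)) (Y j)).det

/-- the homogeneous value -/
def S_HV : Prop := ∀ (q : ℂ) (e : ℕ → Word → ℂ) (Ψ : List ℂ → VW), Dat q e Ψ → ∀ m M : ℕ,
  ‖GG e Ψ (List.replicate m 1) (List.replicate (2 * M) 1)‖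
    = 3 ^ ((m + 2 * M - 1) ^ 2 / 4) * |Dc m M|

/-! ## D: evaluation and asymptotics -/

/-- Krattenthaler's determinant -/
def S_KR : Prop := ∀ (n : ℕ) (x y : ℤ), 1 ≤ x + y → (KM n x y).det = KP n x y

def S_DC : Prop := ∀ m M : ℕ, Dc m M = Cn m M

def S_AS : Prop := ∀ m : ℕ, ∃ c C : ℝ, 0 < c ∧ 0 < C ∧ ∀ M : ℕ,
  c * ((M : ℝ) + 1) ^ (-((m : ℝ) * (m - 1) / 6)) ≤ Pn m M ∧
  Pn m M ≤ C * ((M : ℝ) + 1) ^ (-((m : ℝ) * (m - 1) / 6))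

/-! ## P: probability -/

/-- the stationary probability of the leg event -/
def S_PW : Prop := ∀ n m M : ℕ, n + 1 = m + 2 * M → ∀ μ : Wd (n + 1) → ℝ,
  (∀ σ, 0 ≤ μ σ) → ∑ σ, μ σ = 1 →
  (∀ σ, ∑ c : Fin (n + 1) → Bool, push (Tc n c) μ σ = 2 ^ (n + 1) * μ σ) →
  ∑ σ, (if Gd m σ.1 then μ σ else 0) = Pn m M

/-- words and connections -/
def S_WG : Prop := ∀ (m M : ℕ) (w : Word), Ok w → w.length = m + 2 * M → 1 ≤ w.length →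
  (Gd m w ↔ Sec m w.length (Relation.EqvGen (Lw w.length m w)))

/-- finite half cylinder -/
def S_X1 : Prop := ∀ (n M m : ℕ), 1 ≤ n → ∀ (c : ℕ → Fin (n + 1) → Bool) (σ : Wd (n + 1)) (a b : ℤ),
  Relation.EqvGen (BH n M m c σ.1) (a, M) (b, M) ↔
    Relation.EqvGen (Lw (n + 1) m (rows n c M σ).1) a b

/-- an alternating row decides the connections of the half-infinite cylinder -/
def S_X3 : Prop := ∀ (n M m t : ℕ), 1 ≤ n → t < M → ∀ ω : ℤ × ℕ → Bool, Alt (n + 1) ω t →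
  ∀ (σ : Wd (n + 1)) (a b : ℤ),
  Relation.EqvGen (HL (n + 1) m ω) (a, 0) (b, 0) ↔
    Relation.EqvGen (Lw (n + 1) m (rows n (crow (n + 1) M ω) M σ).1) a b

/-- averaging over the rows -/
def S_X5 : Prop := ∀ (n M m : ℕ), ∀ μ : Wd (n + 1) → ℝ,
  (∀ σ, ∑ c : Fin (n + 1) → Bool, push (Tc n c) μ σ = 2 ^ (n + 1) * μ σ) →
  ∑ σ, μ σ * coinsH.real {ω | Gd m (rows n (crow (n + 1) M ω) M σ).1}
    = ∑ σ, (if Gd m σ.1 then μ σ else 0)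

/-- alternating rows exist -/
def S_X6 : Prop := ∀ n : ℕ, ∀ ε : ℝ, 0 < ε → ∃ M : ℕ,
  coinsH.real {ω | ¬ ∃ t < M, Alt (n + 1) ω t} ≤ ε

/-- **the exact probability on the half-infinite cylinder** -/
def S_X7 : Prop := ∀ m M : ℕ, 1 ≤ m + 2 * M →
  coinsH.real {ω | LegEv (m + 2 * M) m ω} = Pn m M

/-! ## B: the half-plane -/

/-- deterministic comparison: the box of radius `R`, circumference `N ≥ 4 R + 2 m` -/
def S_B1 : Prop := ∀ (N m R : ℕ), m ≤ R → 4 * R + 2 * m ≤ N → Even (N - m) →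
  ∀ ω : ℤ × ℕ → Bool, LegEv N m ω → HArm m R (fun p => ω (p.1 % N, p.2))

def S_B2 : Prop := ∀ (N m R : ℕ), 4 * R + 2 * m ≤ N →
  coinsH.real {ω | HArm m R (fun p => ω (p.1 % N, p.2))} = coinsH.real {ω | HArm m R ω}

/-- **lower bound in the half-plane** -/
def S_LB : Prop := ∀ m : ℕ, 2 ≤ m → ∃ c : ℝ, 0 < c ∧ ∀ R : ℕ, m ≤ R →
  c * (R : ℝ) ^ (-((m : ℝ) * (m - 1) / 6)) ≤ coinsH.real {ω | HArm m R ω}

end Pool.Agent.W808.HB
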