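import Pool.Agent.W808.HB.Stm
set_option autoImplicit false

/-! Deterministic comparison of the half-infinite cylinder with the box in the half-plane. -/

namespace Pool.Agent.W808.HB
open Relation

namespace TB1

lemma eqv_inv {α : Type} {r : α → α → Prop} {S : α → Prop} (h : ∀ x y, r x y → (S x ↔ S y)) {a b : α}
    (hab : EqvGen r a b) : S a ↔ S b := by
  induction hab with
  | rel x y hxy => exact h x y hxy
  | refl x => exact Iff.rfl
  | symm x y _ ih => exact ih.symm
  | trans x y z _ _ h1 h2 => exact h1.trans h2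

lemma mono {α : Type} {r r' : α → α → Prop} (h : ∀ x y, r x y → r' x y) {a b : α}
    (hab : EqvGen r a b) : EqvGen r' a b := by
  induction hab with
  | rel x y hxy => exact EqvGen.rel _ _ (h x y hxy)
  | refl x => exact EqvGen.refl _
  | symm x y _ ih => exact EqvGen.symm _ _ ih
  | trans x y z _ _ h1 h2 => exact EqvGen.trans _ _ _ h1 h2

lemma BL_HL {N m R : ℕ} (hN : 4 * R + 2 * m ≤ N) (hev : Even (N - m))
    {ω : ℤ × ℕ → Bool} {x y : ℤ × ℕ} (h : BL m R (fun p => ω (p.1 % N, p.2)) x y) :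
    EqvGen (HL N m ω) x y := by
  cases h with
  | rise j t h1 _ _ _ => exact EqvGen.rel _ _ (HL.rise j t h1)
  | fall j t h1 _ _ _ => exact EqvGen.rel _ _ (HL.fall j t h1)
  | wireL i h1 =>
    obtain ⟨k, hk⟩ := hev
    have h2 : m + 2 * (k - i - 1) + 2 ≤ N := by omega
    have h3 := HL.wire (N := N) (m := m) (ω := ω) (-1) (k - i - 1) h2
    have e1 : (-1 : ℤ) * N + m + 2 * ((k - i - 1 : ℕ) : ℤ) = -(2 * i : ℤ) - 2 := by omega
    have e2 : (-1 : ℤ) * N + m + 2 * ((k - i - 1 : ℕ) : ℤ) + 2 = -(2 * i : ℤ) := by omega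
    rw [e2, e1] at h3
    exact EqvGen.rel _ _ h3
  | wireR i h1 =>
    have h2 : m + 2 * i + 2 ≤ N := by omega
    have h3 := HL.wire (N := N) (m := m) (ω := ω) 0 i h2
    rw [zero_mul, zero_add] at h3
    exact EqvGen.rel _ _ h3

lemma box {m R : ℕ} {ω : ℤ × ℕ → Bool} {x y : ℤ × ℕ} (h : BL m R ω x y) :
    (-(R : ℤ) ≤ x.1 ∧ x.1 ≤ R ∧ x.2 ≤ R) ∧ (-(R : ℤ) ≤ y.1 ∧ y.1 ≤ R ∧ y.2 ≤ R) := by
  cases h with
  | rise j t _ h1 h2 h3 => dsimp only; omega
  | fall j t _ h1 h2 h3 => dsimp only; omega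
  | wireL i h1 => dsimp only; omega
  | wireR i h1 => dsimp only; omega

lemma wiredR {m R : ℕ} {ω : ℤ × ℕ → Bool} (k : ℕ) (h : m + 2 * k ≤ R) :
    EqvGen (BL m R ω) ((m : ℤ) + 2 * k, 0) ((m : ℤ), 0) := by
  induction k with
  | zero =>
    have : ((m : ℤ) + 2 * ((0 : ℕ) : ℤ), 0) = ((m : ℤ), 0) := by simp
    rw [this]
    exact EqvGen.refl _
  | succ k ih =>
    have h1 := BL.wireR (m := m) (R := R) (ω := ω) k (by omega)
    have e : (m : ℤ) + 2 * ((k + 1 : ℕ) : ℤ) = (m : ℤ) + 2 * k + 2 := by push_cast; ring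
    rw [e]
    exact EqvGen.trans _ _ _ (EqvGen.symm _ _ (EqvGen.rel _ _ h1)) (ih (by omega))

lemma wiredL {m R : ℕ} {ω : ℤ × ℕ → Bool} (k : ℕ) (h : 2 * k ≤ R) :
    EqvGen (BL m R ω) (-(2 * k : ℤ), 0) (0, 0) := by
  induction k with
  | zero =>
    have : ((-(2 * ((0 : ℕ) : ℤ)) : ℤ), 0) = ((0 : ℤ), 0) := by simp
    rw [this]
    exact EqvGen.refl _
  | succ k ih =>
    have h1 := BL.wireL (m := m) (R := R) (ω := ω) k (by omega)
    have e : -(2 * ((k + 1 : ℕ) : ℤ)) = -(2 * k : ℤ) - 2 := by push_cast; ring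
    rw [e]
    exact EqvGen.trans _ _ _ (EqvGen.rel _ _ h1) (ih (by omega))

end TB1
open TB1

theorem t_B1 : S_B1 := by
  intro N m R hmR hN hev ω hleg
  obtain ⟨hl1, hl2⟩ := hleg
  have hup : ∀ {x y : ℤ × ℕ}, EqvGen (BL m R (fun p => ω (p.1 % N, p.2))) x y → EqvGen (HL N m ω) x y := by
    intro x y h
    induction h with
    | rel x y hxy => exact BL_HL hN hev hxy
    | refl x => exact EqvGen.refl _
    | symm x y _ ih => exact EqvGen.symm _ _ ih
    | trans x y z _ _ h1 h2 => exact EqvGen.trans _ _ _ h1 h2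
  have h1 : ∀ c d : ℕ, 1 ≤ c → c < m → d ≤ m → c ≠ d →
      ¬ EqvGen (BL m R (fun p => ω (p.1 % N, p.2))) ((c : ℤ), 0) ((d : ℤ), 0) :=
    fun c d hc hcm hd hcd h => hl1 c d hc hcm hd hcd (hup h)
  refine ⟨h1, ?_⟩
  intro c hc hcm
  by_contra hno
  push Not at hno
  obtain ⟨s, hs, d, hd, hdm, hcon⟩ := hl2 c hc hcm
  -- the component in the box
  have hbox : ∀ x, EqvGen (BL m R (fun p => ω (p.1 % N, p.2))) ((c : ℤ), 0) x →
      (-(R : ℤ) < x.1 ∧ x.1 < R ∧ x.2 < R) := by
    intro x hx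
    have hin : (-(R : ℤ) ≤ x.1 ∧ x.1 ≤ R ∧ x.2 ≤ R) := by
      refine (eqv_inv (S := fun x : ℤ × ℕ => (-(R : ℤ) ≤ x.1 ∧ x.1 ≤ R ∧ x.2 ≤ R)) ?_ hx).mp ?_
      · intro a b hab
        have := box hab
        exact ⟨fun _ => this.2, fun _ => this.1⟩
      · dsimp only
        omega
    have h3 : ¬ (|x.1| = (R : ℤ) ∨ x.2 = R) := fun h => hno x h hx
    have h4 : x.1 ≠ R := by
      intro h
      apply h3
      left
      rw [h]
      exact abs_of_nonneg (by positivity)
    have h5 : x.1 ≠ -(R : ℤ) := by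
      intro h
      apply h3
      left
      rw [h, abs_neg]
      exact abs_of_nonneg (by positivity)
    have h6 : x.2 ≠ R := fun h => h3 (Or.inr h)
    omega
  -- no wired point in the component
  have hwire : ∀ (s : ℤ) (i : ℕ), m + 2 * i ≤ N →
      ¬ EqvGen (BL m R (fun p => ω (p.1 % N, p.2))) ((c : ℤ), 0) (s * N + m + 2 * i, 0) := by
    intro s i hi hx
    have hb := hbox _ hx
    dsimp only at hb
    rcases lt_trichotomy s 0 with hs0 | hs0 | hs0
    · rcases lt_or_eq_of_le (Int.le_sub_one_of_lt hs0) with hs1 | hs1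
      · have : s ≤ -2 := by omega
        have h5 : s * N ≤ -2 * N := by nlinarith
        omega
      · have hs1' : s = -1 := by omega
        subst hs1'
        obtain ⟨k, hk⟩ := hev
        have e : (-1 : ℤ) * N + m + 2 * (i : ℤ) = -(2 * ((k - i : ℕ) : ℤ)) := by omega
        rw [e] at hx
        have h6 := EqvGen.trans _ _ _ hx (wiredL (k - i) (by omega))
        exact h1 c 0 hc hcm (by omega) (by omega) h6
    · subst hs0
      rw [zero_mul, zero_add] at hx
      have h6 := EqvGen.trans _ _ _ hx (wiredR i (by omega))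
      exact h1 c m hc hcm le_rfl (by omega) h6
    · have h5 : (N : ℤ) ≤ s * N := by nlinarith
      omega
  have hcl : ∀ x y, HL N m ω x y →
      (EqvGen (BL m R (fun p => ω (p.1 % N, p.2))) ((c : ℤ), 0) x ↔
        EqvGen (BL m R (fun p => ω (p.1 % N, p.2))) ((c : ℤ), 0) y) := by
    intro x y hxy
    cases hxy with
    | rise j t h =>
      have key : (-(R : ℤ) ≤ j ∧ j + 1 ≤ R ∧ t + 1 ≤ R) →
          EqvGen (BL m R (fun p => ω (p.1 % N, p.2))) (j, t) (j + 1, t + 1) :=
        fun hh => EqvGen.rel _ _ (BL.rise j t h hh.1 hh.2.1 hh.2.2)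
      constructor
      · intro hx
        have hb := hbox _ hx
        dsimp only at hb
        exact EqvGen.trans _ _ _ hx (key (by omega))
      · intro hx
        have hb := hbox _ hx
        dsimp only at hb
        exact EqvGen.trans _ _ _ hx (EqvGen.symm _ _ (key (by omega)))
    | fall j t h =>
      have key : (-(R : ℤ) ≤ j ∧ j + 1 ≤ R ∧ t + 1 ≤ R) →
          EqvGen (BL m R (fun p => ω (p.1 % N, p.2))) (j + 1, t) (j, t + 1) :=
        fun hh => EqvGen.rel _ _ (BL.fall j t h hh.1 hh.2.1 hh.2.2)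
      constructor
      · intro hx
        have hb := hbox _ hx
        dsimp only at hb
        exact EqvGen.trans _ _ _ hx (key (by omega))
      · intro hx
        have hb := hbox _ hx
        dsimp only at hb
        exact EqvGen.trans _ _ _ hx (EqvGen.symm _ _ (key (by omega)))
    | wire s i h =>
      constructor
      · intro hx
        exact absurd hx (hwire s i (by omega))
      · intro hx
        have e : s * (N : ℤ) + m + 2 * i + 2 = s * N + m + 2 * ((i + 1 : ℕ) : ℤ) := by push_cast; ring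
        rw [e] at hx
        exact absurd hx (hwire s (i + 1) (by omega))
  have hfin : EqvGen (BL m R (fun p => ω (p.1 % N, p.2))) ((c : ℤ), 0) (s * N + d, 0) :=
    (eqv_inv hcl hcon).mp (EqvGen.refl _)
  have hb := hbox _ hfin
  dsimp only at hb
  rcases lt_or_gt_of_ne hs with hs0 | hs0
  · have h5 : s * N ≤ -(N : ℤ) := by nlinarith
    omega
  · have h5 : (N : ℤ) ≤ s * N := by nlinarith
    omega

end Pool.Agent.W808.HB
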