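import Pool.Agent.W808.HB.Stm

/-!
# HB, task B2: the box of the periodic coins has the law of the box of the free coins
-/

set_option autoImplicit false

namespace Pool.Agent.W808.HB
open Pool.Agent.H863R2.Cyl
open Filter Topology MeasureTheory

namespace TB2

theorem BL_congr {m R : ℕ} {ω ω' : ℤ × ℕ → Bool}
    (h : ∀ (j : ℤ) (t : ℕ), -(R : ℤ) ≤ j → j + 1 ≤ R → t + 1 ≤ R → ω (j, t) = ω' (j, t))
    {x y : ℤ × ℕ} (hb : BL m R ω x y) : BL m R ω' x y := by
  cases hb with
  | rise j t h1 h2 h3 h4 => exact BL.rise j t ((h j t h2 h3 h4).symm.trans h1) h2 h3 h4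
  | fall j t h1 h2 h3 h4 => exact BL.fall j t ((h j t h2 h3 h4).symm.trans h1) h2 h3 h4
  | wireL i h1 => exact BL.wireL i h1
  | wireR i h1 => exact BL.wireR i h1

theorem BL_iff {m R : ℕ} {ω ω' : ℤ × ℕ → Bool}
    (h : ∀ (j : ℤ) (t : ℕ), -(R : ℤ) ≤ j → j + 1 ≤ R → t + 1 ≤ R → ω (j, t) = ω' (j, t)) :
    BL m R ω = BL m R ω' := by
  funext x y
  exact propext ⟨BL_congr h, BL_congr fun j t h1 h2 h3 => (h j t h1 h2 h3).symm⟩

theorem HArm_iff {m R : ℕ} {ω ω' : ℤ × ℕ → Bool}
    (h : ∀ (j : ℤ) (t : ℕ), -(R : ℤ) ≤ j → j + 1 ≤ R → t + 1 ≤ R → ω (j, t) = ω' (j, t)) :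
    HArm m R ω ↔ HArm m R ω' := by
  unfold HArm
  rw [BL_iff h]

theorem ber (p : unitInterval) (hp : (p : ℝ) = 1 / 2) (b : Bool) :
    ((ProbabilityTheory.bernoulliMeasure true false p : Measure Bool) {b}).toReal = 1 / 2 := by
  rw [← measureReal_def]
  cases b
  · rw [ProbabilityTheory.bernoulliMeasure_real_apply_of_notMem_of_mem p
      (measurableSet_singleton _) (by simp) (by simp), hp]
    norm_num
  · rw [ProbabilityTheory.bernoulliMeasure_real_apply_of_mem_of_notMem p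
      (measurableSet_singleton _) (by simp) (by simp), hp]

instance : IsProbabilityMeasure coinsH := by
  unfold coinsH
  infer_instance

theorem prob {J : Type} [Fintype J] (c : J → ℤ × ℕ) (hc : Function.Injective c) (v : J → Bool) :
    coinsH.real {ω | ∀ x, ω (c x) = v x} = (1 / 2 : ℝ) ^ Fintype.card J := by
  classical
  have h1 : {ω : ℤ × ℕ → Bool | ∀ x, ω (c x) = v x} =
      Set.pi ((Finset.univ.map ⟨c, hc⟩ : Finset (ℤ × ℕ)) : Set (ℤ × ℕ))
        (fun i => {Function.extend c v (fun _ => true) i}) := by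
    ext ω
    simp only [Set.mem_ofPred_eq, Set.mem_pi, Finset.mem_coe, Finset.mem_map, Finset.mem_univ,
      true_and, Set.mem_singleton_iff, Function.Embedding.coeFn_mk]
    constructor
    · rintro h _ ⟨x, rfl⟩
      rw [h x, hc.extend_apply]
    · intro h x
      rw [h _ ⟨x, rfl⟩, hc.extend_apply]
  rw [h1, measureReal_def]
  unfold coinsH
  rw [Measure.infinitePi_pi _ (fun i _ => measurableSet_singleton _), ENNReal.toReal_prod,
    Finset.prod_congr rfl fun i _ => ber _ rfl _, Finset.prod_const, Finset.card_map,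
    Finset.card_univ]

open Classical in
theorem split {J : Type} [Fintype J] (c : J → ℤ × ℕ) (hc : Function.Injective c)
    (P : (J → Bool) → Prop) :
    coinsH.real {ω | P (fun x => ω (c x))} =
      ∑ v : J → Bool, (if P v then (1 / 2 : ℝ) ^ Fintype.card J else 0) := by
  have h1 : {ω : ℤ × ℕ → Bool | P (fun x => ω (c x))} =
      ⋃ v ∈ (Finset.univ.filter fun v : J → Bool => P v),
        {ω : ℤ × ℕ → Bool | ∀ x, ω (c x) = v x} := by
    ext ω
    simp only [Set.mem_ofPred_eq, Set.mem_iUnion, Finset.mem_filter, Finset.mem_univ, true_and,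
      exists_prop]
    constructor
    · intro h
      exact ⟨_, h, fun x => rfl⟩
    · rintro ⟨x, hx, h⟩
      rw [show (fun x => ω (c x)) = x from funext h]
      exact hx
  have hm : ∀ v : J → Bool, MeasurableSet {ω : ℤ × ℕ → Bool | ∀ x, ω (c x) = v x} := by
    intro v
    have : {ω : ℤ × ℕ → Bool | ∀ y, ω (c y) = v y} =
        ⋂ y, (fun ω : ℤ × ℕ → Bool => ω (c y)) ⁻¹' {v y} := by
      ext ω
      simp
    rw [this]
    exact MeasurableSet.iInter fun y => measurable_pi_apply _ (measurableSet_singleton _)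
  rw [h1, measureReal_biUnion_finset]
  · rw [Finset.sum_congr rfl fun x _ => prob c hc x, Finset.sum_filter]
  · intro x _ y _ hxy
    rw [Function.onFun, Set.disjoint_left]
    intro ω h3 h4
    exact hxy (funext fun z => (h3 z).symm.trans (h4 z))
  · intro x _
    exact hm x

/-- the sites of the box -/
def c1 (R : ℕ) : Fin (2 * R) × Fin R → ℤ × ℕ := fun x => ((x.1.val : ℤ) - R, x.2.val)

def c2 (N R : ℕ) : Fin (2 * R) × Fin R → ℤ × ℕ := fun x => (((x.1.val : ℤ) - R) % N, x.2.val)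

theorem c1_inj (R : ℕ) : Function.Injective (c1 R) := by
  rintro ⟨i, t⟩ ⟨i', t'⟩ h
  have h1 : ((i.val : ℤ) - R) = ((i'.val : ℤ) - R) := congrArg Prod.fst h
  have h2 : t.val = t'.val := congrArg Prod.snd h
  have h3 : i.val = i'.val := by omega
  exact Prod.ext (Fin.ext h3) (Fin.ext h2)

theorem c2_inj (N R : ℕ) (h : 4 * R ≤ N) : Function.Injective (c2 N R) := by
  rintro ⟨i, t⟩ ⟨i', t'⟩ h1
  have h2 : ((i.val : ℤ) - R) % N = ((i'.val : ℤ) - R) % N := congrArg Prod.fst h1
  have h3 : t.val = t'.val := congrArg Prod.snd h1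
  have hi := i.2
  have hi' := i'.2
  have hN : (0 : ℤ) < N := by omega
  have h4 : ((N : ℤ)) ∣ (((i.val : ℤ) - R) - ((i'.val : ℤ) - R)) :=
    Int.ModEq.dvd (Int.ModEq.symm h2)
  obtain ⟨k, hk⟩ := h4
  have hk0 : k = 0 := by
    have h5 : (N : ℤ) * k < N * 1 := by
      rw [← hk]
      omega
    have h6 : (N : ℤ) * (-1) < N * k := by
      rw [← hk]
      omega
    have h7 := lt_of_mul_lt_mul_left h5 hN.le
    have h8 := lt_of_mul_lt_mul_left h6 hN.le
    omega
  rw [hk0] at hk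
  have h9 : i.val = i'.val := by omega
  exact Prod.ext (Fin.ext h9) (Fin.ext h3)

/-- the coins of the box -/
noncomputable def bx (R : ℕ) (v : Fin (2 * R) × Fin R → Bool) : ℤ × ℕ → Bool :=
  Function.extend (c1 R) v (fun _ => true)

theorem bx_apply (R : ℕ) (v : Fin (2 * R) × Fin R → Bool) (j : ℤ) (t : ℕ) (h1 : -(R : ℤ) ≤ j)
    (h2 : j + 1 ≤ R) (h3 : t + 1 ≤ R) :
    bx R v (j, t) = v (⟨(j + R).toNat, by omega⟩, ⟨t, by omega⟩) := by
  have h4 : (j, t) = c1 R (⟨(j + R).toNat, by omega⟩, ⟨t, by omega⟩) := by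
    simp only [c1, Prod.mk.injEq, and_true]
    omega
  rw [h4, bx, (c1_inj R).extend_apply]

end TB2

open TB2

theorem t_B2 : S_B2 := by
  classical
  intro N m R hN
  have h1 : ∀ ω : ℤ × ℕ → Bool, HArm m R ω ↔ HArm m R (bx R (fun x => ω (c1 R x))) := by
    intro ω
    refine HArm_iff fun j t h1 h2 h3 => ?_
    rw [bx_apply R _ j t h1 h2 h3]
    congr 1
    simp only [c1, Prod.mk.injEq, and_true]
    omega
  have h2 : ∀ ω : ℤ × ℕ → Bool, HArm m R (fun p => ω (p.1 % N, p.2)) ↔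
      HArm m R (bx R (fun x => ω (c2 N R x))) := by
    intro ω
    refine HArm_iff fun j t h1 h2 h3 => ?_
    rw [bx_apply R _ j t h1 h2 h3]
    have h4 : (((j + R).toNat : ℕ) : ℤ) - R = j := by omega
    simp only [c2, h4]
  have e1 : {ω : ℤ × ℕ → Bool | HArm m R ω} =
      {ω | (fun v => HArm m R (bx R v)) (fun x => ω (c1 R x))} := by
    ext ω
    exact h1 ω
  have e2 : {ω : ℤ × ℕ → Bool | HArm m R (fun p => ω (p.1 % N, p.2))} =
      {ω | (fun v => HArm m R (bx R v)) (fun x => ω (c2 N R x))} := by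
    ext ω
    exact h2 ω
  rw [e1, e2]
  exact (split (c2 N R) (c2_inj N R (by omega)) (fun v => HArm m R (bx R v))).trans
    (split (c1 R) (c1_inj R) (fun v => HArm m R (bx R v))).symm

end Pool.Agent.W808.HB
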