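import Pool.Agent.W808.HB.Stm
import Pool.Agent.Helper80.Fisk.Alg

/-!
# Krattenthaler's determinant (task HB-D1)
-/

set_option autoImplicit false

namespace Pool.Agent.W808.HB

namespace KR

theorem rf_mul (k : ℤ) : (k : ℚ) * rf k = rf (k - 1) := by
  unfold rf
  rcases lt_trichotomy k 0 with h | h | h
  · rw [if_pos h, if_pos (by omega), mul_zero]
  · subst h; simp
  · rw [if_neg (by omega), if_neg (by omega)]
    obtain ⟨n, rfl⟩ : ∃ n : ℕ, k = n + 1 := ⟨(k - 1).toNat, by omega⟩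
    have e1 : ((n : ℤ) + 1).toNat = n + 1 := by omega
    have e2 : ((n : ℤ) + 1 - 1).toNat = n := by omega
    rw [e1, e2, Nat.factorial_succ]
    push_cast
    have : ((n : ℚ) + 1) ≠ 0 := by positivity
    have h2 : (n.factorial : ℚ) ≠ 0 := by exact_mod_cast Nat.factorial_ne_zero n
    field_simp

theorem rf_mul' (k : ℤ) : rf k * (k : ℚ) = rf (k - 1) := by rw [mul_comm, rf_mul]

/-- factorial at integers -/
def fz (k : ℤ) : ℚ := (k.toNat.factorial : ℚ)

theorem fz_mul (k : ℤ) (h : 1 ≤ k) : fz k = k * fz (k - 1) := by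
  unfold fz
  obtain ⟨n, rfl⟩ : ∃ n : ℕ, k = n + 1 := ⟨(k - 1).toNat, by omega⟩
  have e1 : ((n : ℤ) + 1).toNat = n + 1 := by omega
  have e2 : ((n : ℤ) + 1 - 1).toNat = n := by omega
  rw [e1, e2, Nat.factorial_succ]
  push_cast
  ring

/-- the `i`-th factor -/
def ka (i : ℕ) (x y : ℤ) : ℚ := (i.factorial : ℚ) * fz (x + y + i - 1) * rf (x + 2 * i) * rf (y + 2 * i)
    * ∏ t ∈ Finset.range i, ((2 * x + y + 2 * i + t : ℤ) * (x + 2 * y + 2 * i + t : ℤ) : ℚ)

theorem KP_succ (n : ℕ) (x y : ℤ) : KP (n + 1) x y = KP n x y * ka n x y := by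
  unfold KP ka fz
  rw [Finset.prod_range_succ]

theorem KP_zero (x y : ℤ) : KP 0 x y = 1 := by simp [KP]

/-- [B] -/
theorem ka_B (m : ℕ) (x y : ℤ) (h : 1 ≤ x + y) :
    ka m (x + 2) (y - 1) * ka m (x - 1) (y + 2) * (x + y + m + 1) * (x + 2 * m + 2) * (y + 2 * m + 2) =
    (x + y + m) * (x + 2 * m) * (y + 2 * m) * (ka m x y * ka m (x + 1) (y + 1)) := by
  unfold ka
  have f1 : fz ((x + 2) + (y - 1) + m - 1) = fz (x + y + m) := by congr 1; ring
  have f2 : fz ((x - 1) + (y + 2) + m - 1) = fz (x + y + m) := by congr 1; ring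
  have f3 : fz ((x + 1) + (y + 1) + m - 1) = (x + y + m + 1) * fz (x + y + m) := by
    have := fz_mul (x + y + m + 1) (by omega)
    rw [show (x + 1) + (y + 1) + (m : ℤ) - 1 = x + y + m + 1 by ring, this]
    push_cast
    congr 2
    ring
  have f4 : fz (x + y + m) = (x + y + m) * fz (x + y + m - 1) := by
    have := fz_mul (x + y + m) (by omega)
    rw [this]; push_cast; ring
  have r1 : rf ((x + 2) + 2 * m) * (x + 2 * m + 2) = rf (x + 1 + 2 * m) := by
    have := rf_mul' (x + 2 + 2 * m)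
    rw [show (x + 2 + 2 * (m : ℤ) - 1) = x + 1 + 2 * m by ring] at this
    rw [← this]; push_cast; ring
  have r2 : rf ((y + 2) + 2 * m) * (y + 2 * m + 2) = rf (y + 1 + 2 * m) := by
    have := rf_mul' (y + 2 + 2 * m)
    rw [show (y + 2 + 2 * (m : ℤ) - 1) = y + 1 + 2 * m by ring] at this
    rw [← this]; push_cast; ring
  have r3 : rf ((x - 1) + 2 * m) = rf (x + 2 * m) * (x + 2 * m) := by
    have := rf_mul' (x + 2 * m)
    rw [show (x - 1 + 2 * (m : ℤ)) = x + 2 * m - 1 by ring, ← this]; push_cast; ring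
  have r4 : rf ((y - 1) + 2 * m) = rf (y + 2 * m) * (y + 2 * m) := by
    have := rf_mul' (y + 2 * m)
    rw [show (y - 1 + 2 * (m : ℤ)) = y + 2 * m - 1 by ring, ← this]; push_cast; ring
  have hp : (∏ t ∈ Finset.range m, ((2 * (x + 2) + (y - 1) + 2 * m + t : ℤ) * ((x + 2) + 2 * (y - 1) + 2 * m + t : ℤ) : ℚ))
      * (∏ t ∈ Finset.range m, ((2 * (x - 1) + (y + 2) + 2 * m + t : ℤ) * ((x - 1) + 2 * (y + 2) + 2 * m + t : ℤ) : ℚ)) =
      (∏ t ∈ Finset.range m, ((2 * x + y + 2 * m + t : ℤ) * (x + 2 * y + 2 * m + t : ℤ) : ℚ)) *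
      (∏ t ∈ Finset.range m, ((2 * (x + 1) + (y + 1) + 2 * m + t : ℤ) * ((x + 1) + 2 * (y + 1) + 2 * m + t : ℤ) : ℚ)) := by
    rw [← Finset.prod_mul_distrib, ← Finset.prod_mul_distrib]
    refine Finset.prod_congr rfl fun t _ => ?_
    push_cast
    ring
  rw [f1, f2, f3, r3, r4]
  set P1 := ∏ t ∈ Finset.range m, ((2 * (x + 2) + (y - 1) + 2 * m + t : ℤ) * ((x + 2) + 2 * (y - 1) + 2 * m + t : ℤ) : ℚ)
  set P2 := ∏ t ∈ Finset.range m, ((2 * (x - 1) + (y + 2) + 2 * m + t : ℤ) * ((x - 1) + 2 * (y + 2) + 2 * m + t : ℤ) : ℚ)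
  set P3 := ∏ t ∈ Finset.range m, ((2 * x + y + 2 * m + t : ℤ) * (x + 2 * y + 2 * m + t : ℤ) : ℚ)
  set P4 := ∏ t ∈ Finset.range m, ((2 * (x + 1) + (y + 1) + 2 * m + t : ℤ) * ((x + 1) + 2 * (y + 1) + 2 * m + t : ℤ) : ℚ)
  calc _ = (m.factorial : ℚ) ^ 2 * fz (x + y + m) ^ 2 * (rf ((x + 2) + 2 * m) * (x + 2 * m + 2)) *
        (rf ((y + 2) + 2 * m) * (y + 2 * m + 2)) * (rf (x + 2 * m) * (x + 2 * m)) *
        (rf (y + 2 * m) * (y + 2 * m)) * (x + y + m + 1) * (P1 * P2) := by ring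
    _ = (m.factorial : ℚ) ^ 2 * (fz (x + y + m) * ((x + y + m) * fz (x + y + m - 1))) * rf (x + 1 + 2 * m) *
        rf (y + 1 + 2 * m) * (rf (x + 2 * m) * (x + 2 * m)) *
        (rf (y + 2 * m) * (y + 2 * m)) * (x + y + m + 1) * (P3 * P4) := by
          rw [r1, r2, hp, ← f4]; ring
    _ = _ := by ring

/-- [A] -/
theorem KP_A (m : ℕ) (x y : ℤ) (h : 1 ≤ x + y) :
    KP m (x + 2) (y - 1) * KP m (x - 1) (y + 2) * ((x + y + m) * (x + 2 * m) * (y + 2 * m)) =
    x * y * (x + y) * (KP m x y * KP m (x + 1) (y + 1)) := by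
  induction m with
  | zero => simp [KP_zero]; ring
  | succ m ih =>
    rw [KP_succ, KP_succ, KP_succ, KP_succ]
    have hB := ka_B m x y h
    push_cast
    linear_combination (KP m (x + 2) (y - 1) * KP m (x - 1) (y + 2)) * hB +
      (ka m x y * ka m (x + 1) (y + 1)) * ih

/-- [C] -/
theorem ka_C (m : ℕ) (x y : ℤ) (h : 1 ≤ x + y) :
    ka (m + 1) x y * ((x + y + (m + 1)) * (x + 2 * (m + 1)) * (y + 2 * (m + 1))) =
    (m + 1) * (2 * x + y + 2 * (m + 1)) * (x + 2 * y + 2 * (m + 1)) * ka m (x + 1) (y + 1) := by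
  unfold ka
  have f1 : (x + y + (m + 1)) * fz (x + y + (m + 1 : ℕ) - 1) = fz (x + 1 + (y + 1) + m - 1) := by
    have := fz_mul (x + y + m + 1) (by omega)
    rw [show x + 1 + (y + 1) + (m : ℤ) - 1 = x + y + m + 1 by ring, this,
      show x + y + ((m + 1 : ℕ) : ℤ) - 1 = x + y + m + 1 - 1 by push_cast; ring]
    push_cast
    ring
  have r1 : rf (x + 2 * (m + 1 : ℕ)) * (x + 2 * (m + 1)) = rf (x + 1 + 2 * m) := by
    have := rf_mul' (x + 2 * (m + 1 : ℕ))
    rw [show (x + 2 * ((m + 1 : ℕ) : ℤ) - 1) = x + 1 + 2 * m by push_cast; ring] at this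
    rw [← this]; push_cast; ring
  have r2 : rf (y + 2 * (m + 1 : ℕ)) * (y + 2 * (m + 1)) = rf (y + 1 + 2 * m) := by
    have := rf_mul' (y + 2 * (m + 1 : ℕ))
    rw [show (y + 2 * ((m + 1 : ℕ) : ℤ) - 1) = y + 1 + 2 * m by push_cast; ring] at this
    rw [← this]; push_cast; ring
  have hp : (∏ t ∈ Finset.range (m + 1), ((2 * x + y + 2 * (m + 1 : ℕ) + t : ℤ) * (x + 2 * y + 2 * (m + 1 : ℕ) + t : ℤ) : ℚ)) =
      (2 * x + y + 2 * (m + 1)) * (x + 2 * y + 2 * (m + 1)) *
      ∏ t ∈ Finset.range m, ((2 * (x + 1) + (y + 1) + 2 * m + t : ℤ) * ((x + 1) + 2 * (y + 1) + 2 * m + t : ℤ) : ℚ) := by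
    rw [Finset.prod_range_succ', mul_comm]
    congr 1
    · push_cast; ring
    · refine Finset.prod_congr rfl fun t _ => ?_
      push_cast
      ring
  rw [hp, Nat.factorial_succ, ← r1, ← r2, ← f1]
  push_cast
  ring

theorem rf_pos (k : ℤ) (h : 0 ≤ k) : 0 < rf k := by
  unfold rf
  rw [if_neg (by omega)]
  have : (0 : ℚ) < k.toNat.factorial := by exact_mod_cast Nat.factorial_pos _
  positivity

theorem ka_pos (i : ℕ) (x y : ℤ) (hx : 0 ≤ x) (hy : 0 ≤ y) (h : 1 ≤ x + y) : 0 < ka i x y := by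
  unfold ka
  have h1 := rf_pos (x + 2 * i) (by omega)
  have h2 := rf_pos (y + 2 * i) (by omega)
  have h3 : 0 < fz (x + y + i - 1) := by
    unfold fz; exact_mod_cast Nat.factorial_pos _
  have h4 : (0 : ℚ) < i.factorial := by exact_mod_cast Nat.factorial_pos _
  have h5 : (0 : ℚ) < ∏ t ∈ Finset.range i, ((2 * x + y + 2 * i + t : ℤ) * (x + 2 * y + 2 * i + t : ℤ) : ℚ) := by
    apply Finset.prod_pos
    intro t _
    have a1 : (0 : ℤ) < 2 * x + y + 2 * i + t := by omega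
    have a2 : (0 : ℤ) < x + 2 * y + 2 * i + t := by omega
    have b1 : (0 : ℚ) < ((2 * x + y + 2 * i + t : ℤ) : ℚ) := by exact_mod_cast a1
    have b2 : (0 : ℚ) < ((x + 2 * y + 2 * i + t : ℤ) : ℚ) := by exact_mod_cast a2
    positivity
  positivity

theorem KP_pos (n : ℕ) (x y : ℤ) (hx : 0 ≤ x) (hy : 0 ≤ y) (h : 1 ≤ x + y) : 0 < KP n x y := by
  induction n with
  | zero => simp [KP_zero]
  | succ n ih => rw [KP_succ]; exact mul_pos ih (ka_pos n x y hx hy h)

theorem cond (m : ℕ) (x y : ℤ) :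
    (KM (m + 2) x y).det * (KM m (x + 1) (y + 1)).det =
      (KM (m + 1) (x + 1) (y + 1)).det * (KM (m + 1) x y).det -
      (KM (m + 1) (x + 2) (y - 1)).det * (KM (m + 1) (x - 1) (y + 2)).det := by
  have h := Pool.Agent.Helper80.Fisk.desnanot_jacobi m (KM (m + 2) x y)
  have e1 : (KM (m + 2) x y).submatrix
      (fun i : Fin m => i.succ.castSucc) (fun j : Fin m => j.succ.castSucc) = KM m (x + 1) (y + 1) := by
    ext i j
    simp only [KM, Matrix.submatrix_apply, Matrix.of_apply, Fin.val_castSucc, Fin.val_succ]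
    congr 1
    · congr 1
      · congr 3; push_cast; ring
      · congr 1; push_cast; ring
    · congr 1; push_cast; ring
  have e2 : (KM (m + 2) x y).submatrix
      (Fin.succ : Fin (m+1) → Fin (m+2)) (Fin.succ : Fin (m+1) → Fin (m+2)) = KM (m + 1) (x + 1) (y + 1) := by
    ext i j
    simp only [KM, Matrix.submatrix_apply, Matrix.of_apply, Fin.val_succ]
    congr 1
    · congr 1
      · congr 3; push_cast; ring
      · congr 1; push_cast; ring
    · congr 1; push_cast; ring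
  have e3 : (KM (m + 2) x y).submatrix
      (Fin.castSucc : Fin (m+1) → Fin (m+2)) (Fin.castSucc : Fin (m+1) → Fin (m+2)) = KM (m + 1) x y := by
    ext i j
    simp only [KM, Matrix.submatrix_apply, Matrix.of_apply, Fin.val_castSucc]
  have e4 : (KM (m + 2) x y).submatrix
      (Fin.succ : Fin (m+1) → Fin (m+2)) (Fin.castSucc : Fin (m+1) → Fin (m+2)) = KM (m + 1) (x + 2) (y - 1) := by
    ext i j
    simp only [KM, Matrix.submatrix_apply, Matrix.of_apply, Fin.val_castSucc, Fin.val_succ]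
    congr 1
    · congr 1
      · congr 3; push_cast; ring
      · congr 1; push_cast; ring
    · congr 1; push_cast; ring
  have e5 : (KM (m + 2) x y).submatrix
      (Fin.castSucc : Fin (m+1) → Fin (m+2)) (Fin.succ : Fin (m+1) → Fin (m+2)) = KM (m + 1) (x - 1) (y + 2) := by
    ext i j
    simp only [KM, Matrix.submatrix_apply, Matrix.of_apply, Fin.val_castSucc, Fin.val_succ]
    congr 1
    · congr 1
      · congr 3; push_cast; ring
      · congr 1; push_cast; ring
    · congr 1; push_cast; ring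
  rw [e1, e2, e3, e4, e5] at h
  exact h

theorem KP_cond (m : ℕ) (x y : ℤ) (hx : 0 ≤ x) (hy : 0 ≤ y) (h : 1 ≤ x + y) :
    KP (m + 2) x y * KP m (x + 1) (y + 1) =
      KP (m + 1) (x + 1) (y + 1) * KP (m + 1) x y -
      KP (m + 1) (x + 2) (y - 1) * KP (m + 1) (x - 1) (y + 2) := by
  have hA := KP_A (m + 1) x y h
  have hC := ka_C m x y h
  have hPne : ((x : ℚ) + y + (m + 1)) * (x + 2 * (m + 1)) * (y + 2 * (m + 1)) ≠ 0 := by
    have hx' : (0 : ℚ) ≤ x := by exact_mod_cast hx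
    have hy' : (0 : ℚ) ≤ y := by exact_mod_cast hy
    positivity
  apply mul_right_cancel₀ hPne
  have e1 : KP (m + 2) x y = KP (m + 1) x y * ka (m + 1) x y := KP_succ _ _ _
  have e2 : KP (m + 1) (x + 1) (y + 1) = KP m (x + 1) (y + 1) * ka m (x + 1) (y + 1) := KP_succ _ _ _
  rw [e1]
  push_cast at hA
  rw [e2] at hA ⊢
  linear_combination (KP (m + 1) x y * KP m (x + 1) (y + 1)) * hC + hA

theorem main_nonneg (n : ℕ) : ∀ x y : ℤ, 1 ≤ x + y → (KM n x y).det = KP n x y := by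
  induction n using Nat.strong_induction_on with
  | _ n ih =>
    intro x y h
    rcases n with _ | n
    · simp [KP_zero]
    by_cases hx : x < 0
    · rw [Matrix.det_eq_zero_of_row_eq_zero 0]
      · rw [KP, Finset.prod_eq_zero (i := 0) (by simp)]
        simp [rf, hx]
      · intro j
        simp only [KM, Matrix.of_apply]
        have : rf (x + 2 * ((0 : Fin (n + 1)) : ℕ) - (j : ℕ)) = 0 := by
          unfold rf
          rw [if_pos]
          simp
          omega
        rw [this]; simp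
    by_cases hy : y < 0
    · rw [Matrix.det_eq_zero_of_column_eq_zero 0]
      · rw [KP, Finset.prod_eq_zero (i := 0) (by simp)]
        simp [rf, hy]
      · intro j
        simp only [KM, Matrix.of_apply]
        have : rf (y - (j : ℕ) + 2 * ((0 : Fin (n + 1)) : ℕ)) = 0 := by
          unfold rf
          rw [if_pos]
          simp
          omega
        rw [this]; simp
    push Not at hx hy
    rcases n with _ | m
    · simp [KM, KP]
    have hc := cond m x y
    rw [ih (m + 1) (by omega) x y h, ih (m + 1) (by omega) (x + 1) (y + 1) (by omega),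
      ih m (by omega) (x + 1) (y + 1) (by omega), ih (m + 1) (by omega) (x + 2) (y - 1) (by omega),
      ih (m + 1) (by omega) (x - 1) (y + 2) (by omega), ← KP_cond m x y hx hy h] at hc
    exact mul_right_cancel₀ (KP_pos m (x + 1) (y + 1) (by omega) (by omega) (by omega)).ne' hc

end KR

/-- Krattenthaler's determinant -/
theorem t_KR : S_KR := KR.main_nonneg

end Pool.Agent.W808.HB
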