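import Pool.Agent.W808.HB.Stm
import Pool.Agent.W808.HB.T_KR

/-!
# Evaluation of `Dc` (task HB-D2)
-/

set_option autoImplicit false

namespace Pool.Agent.W808.HB

namespace DC

theorem rf_nat (n : ℕ) : rf (n : ℤ) = ((n.factorial : ℚ))⁻¹ := by
  unfold rf
  rw [if_neg (by omega), Int.toNat_natCast]

theorem rf_neg (k : ℤ) (h : k < 0) : rf k = 0 := by
  unfold rf
  rw [if_pos h]

theorem choose_rf (n j : ℕ) : ((n.choose j : ℕ) : ℚ) = n.factorial * rf j * rf ((n : ℤ) - j) := by
  by_cases h : j ≤ n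
  · have e : ((n : ℤ) - j) = ((n - j : ℕ) : ℤ) := by omega
    rw [e, rf_nat, rf_nat, Nat.choose_eq_factorial_div_factorial h,
      Nat.cast_div (Nat.factorial_mul_factorial_dvd_factorial h) (by positivity)]
    push_cast
    field_simp
  · rw [Nat.choose_eq_zero_of_lt (by omega), rf_neg ((n : ℤ) - j) (by omega)]
    simp

theorem cc_eq (m k l : ℕ) : ((cc m k l : ℕ) : ℚ) =
    (m + 3 * l + 2) * (((m + k + l).factorial : ℚ) * rf (1 + 2 * l - k) * rf (m - l + 2 * k)) := by
  unfold cc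
  have h1 : (((if k ≤ 2 * l + 1 then (m + k + l).choose (2 * l + 1 - k) else 0 : ℕ)) : ℚ) =
      (m + k + l).factorial * rf (1 + 2 * l - k) * rf (m - l + 2 * k - 1) := by
    split_ifs with h
    · rw [choose_rf]
      congr 2
      · congr 1; omega
      · omega
    · rw [rf_neg (1 + 2 * l - k) (by omega)]; simp
  have h2 : (((if k ≤ 2 * l then (m + k + l).choose (2 * l - k) else 0 : ℕ)) : ℚ) =
      (m + k + l).factorial * rf (1 + 2 * l - k - 1) * rf (m - l + 2 * k) := by
    split_ifs with h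
    · rw [choose_rf]
      congr 2
      · congr 1; omega
      · omega
    · rw [rf_neg (1 + 2 * l - k - 1) (by omega)]; simp
  rw [Nat.cast_add, Nat.cast_mul, h1, h2, ← KR.rf_mul, ← KR.rf_mul]
  push_cast
  ring

theorem prod_shift (a i : ℕ) : (∏ t ∈ Finset.range i, ((a : ℚ) + 1 + t)) * a.factorial = (a + i).factorial := by
  induction i with
  | zero => simp
  | succ i ih =>
    rw [Finset.prod_range_succ, ← add_assoc, Nat.factorial_succ]
    push_cast
    linear_combination ((a : ℚ) + 1 + i) * ih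

theorem Dc_eq (m M : ℕ) : Dc m M =
    (((∏ l : Fin M, ((m : ℚ) + 3 * (l : ℕ) + 2)) * (KM M 1 m).det : ℚ) : ℝ) := by
  have h : (Matrix.of fun k l : Fin M => ((cc m k l : ℕ) : ℚ)) =
      Matrix.of fun k l : Fin M => ((m : ℚ) + 3 * (l : ℕ) + 2) * (KM M 1 m).transpose k l := by
    ext k l
    simp only [Matrix.of_apply, Matrix.transpose_apply, KM]
    rw [cc_eq]
    have e : (1 + (m : ℤ) + ((l : ℕ) : ℤ) + ((k : ℕ) : ℤ) - 1).toNat = m + k + l := by omega
    rw [e]
  have h2 : (Matrix.of fun k l : Fin M => (cc m k l : ℝ)) =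
      (Matrix.of fun k l : Fin M => ((cc m k l : ℕ) : ℚ)).map (Rat.castHom ℝ) := by
    ext k l
    simp
  unfold Dc
  rw [h2]
  have h3 := (RingHom.map_det (Rat.castHom ℝ) (Matrix.of fun k l : Fin M => ((cc m k l : ℕ) : ℚ))).symm
  rw [RingHom.mapMatrix_apply] at h3
  rw [h3, h, Matrix.det_mul_row, Matrix.det_transpose]
  simp

theorem dc_main (h : S_KR) : S_DC := by
  intro m M
  rw [Dc_eq, h M 1 m (by omega)]
  unfold Cn KP
  rw [Fin.prod_univ_eq_prod_range (fun l => ((m : ℚ) + 3 * (l : ℕ) + 2)) M, ← Finset.prod_mul_distrib]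
  rw [Rat.cast_prod]
  refine Finset.prod_congr rfl fun i _ => ?_
  have e1 : (1 + (m : ℤ) + (i : ℤ) - 1).toNat = m + i := by omega
  have e2 : rf (1 + 2 * (i : ℤ)) = (((2 * i + 1).factorial : ℚ))⁻¹ := by
    rw [← rf_nat]; congr 1; push_cast; ring
  have e3 : rf ((m : ℤ) + 2 * (i : ℤ)) = (((m + 2 * i).factorial : ℚ))⁻¹ := by
    rw [← rf_nat]; congr 1
  have p1 := prod_shift (m + 2 * i + 1) i
  have p2 := prod_shift (2 * m + 2 * i) i
  have e4 : (∏ t ∈ Finset.range i, ((2 * 1 + (m : ℤ) + 2 * i + t : ℤ) * (1 + 2 * (m : ℤ) + 2 * i + t : ℤ) : ℚ)) =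
      ((m + 3 * i + 1).factorial : ℚ) / (m + 2 * i + 1).factorial *
        (((2 * m + 3 * i).factorial : ℚ) / (2 * m + 2 * i).factorial) := by
    rw [Finset.prod_mul_distrib]
    congr 1
    · rw [eq_div_iff (by positivity), show m + 3 * i + 1 = m + 2 * i + 1 + i by ring, ← p1]
      congr 1
      refine Finset.prod_congr rfl fun t _ => ?_
      push_cast; ring
    · rw [eq_div_iff (by positivity), show 2 * m + 3 * i = 2 * m + 2 * i + i by ring, ← p2]
      congr 1
      refine Finset.prod_congr rfl fun t _ => ?_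
      push_cast; ring
  have e5 : ((m + 3 * i + 2).factorial : ℝ) = ((m : ℝ) + 3 * i + 2) * (m + 3 * i + 1).factorial := by
    rw [show m + 3 * i + 2 = (m + 3 * i + 1) + 1 by ring, Nat.factorial_succ]
    push_cast; ring
  rw [e1, e2, e3, e4, e5]
  push_cast
  field_simp

end DC

/-- the evaluation of the determinant -/
theorem t_DC (h : S_KR) : S_DC := DC.dc_main h

end Pool.Agent.W808.HB
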