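import Pool.Agent.W808.HB.T_Eb

/-!
# Legs at the boundary: the indicator satisfies the axioms of the leg functional
-/

set_option autoImplicit false

namespace Pool.Agent.W808.HB
open Pool.Agent.H863R2.Cyl
open Pool.Agent.H988R2.Perc (Word PD)

theorem t_E (hz : S_Ez) (hi : S_Ei) (hc : S_Ec) (hs : S_Es) (hb : S_Eb) : S_E := by
  have hcongr : ∀ (m : ℕ) (v w : Word), (Gd m v ↔ Gd m w) → el m v = el m w := by
    intro m v w h
    unfold el
    by_cases h1 : Gd m v
    · rw [if_pos h1, if_pos (h.1 h1)]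
    · rw [if_neg h1, if_neg fun h2 => h1 (h.2 h2)]
  refine ⟨?_, ?_, ?_, ?_, ?_, ?_, ?_⟩
  · intro m M i u hu hl him
    exact if_neg (hz m M i u hu hl him)
  · intro m M i u hu hl him hil
    exact hcongr m _ _ (hi m M i u hu hl him hil)
  · intro m M j w hw hl hj
    exact hcongr m _ _ (hc m M j w hw hl hj)
  · intro m M u hu hl hm
    exact hcongr m _ _ (hs m M u hu hl hm)
  · intro m
    exact if_pos (hb.1 m)
  · intro M w hw hl
    exact if_pos (hb.2.1 M w hw hl)
  · intro M w hw hl
    exact if_pos (hb.2.2 M w hw hl)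

end Pool.Agent.W808.HB
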