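import Pool.Agent.W808.HB.Stm
import Pool.Agent.H863R2.Cyl.Lst

/-!
# Legs at the boundary: base values of the leg functional
-/

set_option autoImplicit false

namespace Pool.Agent.W808.HB
open Pool.Agent.H863R2.Cyl
open Pool.Agent.H988R2.Perc (Word PD)

namespace TEb

theorem length_bwm (m : ℕ) : (bwm m).length = m := by
  unfold bwm
  simp
  omega

/-- repeated closures end with an admissible word of length `m` -/
theorem capit_spec (m M : ℕ) : ∀ w : Word, Ok w → w.length = m + 2 * M →
    Ok (capit m M w) ∧ (capit m M w).length = m := by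
  induction M with
  | zero =>
    intro w hw hl
    exact ⟨hw, by simpa [capit] using hl⟩
  | succ M ih =>
    intro w hw hl
    have h1 : m + 2 ≤ w.length := by omega
    have h2 := length_cap (i := m) (w := w) h1
    exact ih (cap m w) (ok_cap hw h1) (by omega)

end TEb

theorem t_Eb : S_Eb := by
  refine ⟨fun m => ?_, fun M w hw hl => ?_, fun M w hw hl => ?_⟩
  · unfold Gd
    rw [TEb.length_bwm]
    simp [capit]
  · unfold Gd
    have hM : (w.length - 0) / 2 = M := by omega
    rw [hM]
    have h := TEb.capit_spec 0 M w hw (by omega)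
    have h1 : capit 0 M w = [] := List.length_eq_zero_iff.1 h.2
    rw [h1]
    simp [bwm]
  · unfold Gd
    have hM : (w.length - 1) / 2 = M := by omega
    rw [hM]
    have h := TEb.capit_spec 1 M w hw (by omega)
    obtain ⟨b, hb⟩ := List.length_eq_one_iff.1 h.2
    have h3 := h.1
    rw [hb] at h3 ⊢
    unfold Ok at h3
    cases b
    · simp at h3
    · simp [bwm]

end Pool.Agent.W808.HB
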