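import Pool.Agent.W808.HB.Stm

/-! HB-E2 (helper120): commutation of far caps -/

set_option autoImplicit false

namespace Pool.Agent.W808.HB
open Pool.Agent.H863R2.Cyl
open Pool.Agent.H988R2.Perc (Word PD)

namespace Ec

theorem capit_cap (m : ℕ) : ∀ (M j : ℕ) (w : Word), w.length = m + 2 * M + 2 → j ≤ M →
    capit m M (cap (m + 2 * j) w) = capit m M (cap m w) := by
  intro M
  induction M with
  | zero =>
    intro j w hw hj
    obtain rfl : j = 0 := by omega
    rfl
  | succ M ih =>
    intro j w hw hj
    rcases j with _ | j
    · rfl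
    have h1 : cap m (cap (m + 2 * (j + 1)) w) = cap (m + 2 * j) (cap m w) := by
      have h2 := cap_cap (i := m) (j := m + 2 * j) (w := w) (by omega) (by omega)
      rw [(by ring : m + 2 * (j + 1) = m + 2 * j + 2)]
      exact h2
    have hl := length_cap (i := m) (w := w) (by omega)
    show capit m M (cap m (cap (m + 2 * (j + 1)) w)) = capit m M (cap m (cap m w))
    rw [h1]
    exact ih j (cap m w) (by omega) (by omega)

end Ec

theorem t_Ec : S_Ec := by
  intro m M j w _ hlen hj
  have hl := length_cap (i := m + 2 * j) (w := w) (by omega)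
  unfold Gd
  rw [(by omega : ((cap (m + 2 * j) w).length - m) / 2 = M),
    (by omega : (w.length - m) / 2 = M + 1), Ec.capit_cap m M j w hlen hj]
  rfl

end Pool.Agent.W808.HB
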