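import Pool.Agent.W808.HB.Stm

/-! HB-E1 (helper120): a small arc beyond the legs -/

set_option autoImplicit false

namespace Pool.Agent.W808.HB
open Pool.Agent.H863R2.Cyl
open Pool.Agent.H988R2.Perc (Word PD)

namespace Ei

theorem capit_lins (m : ℕ) : ∀ (M i : ℕ) (u : Word), u.length = m + 2 * M → m ≤ i + 1 →
    i ≤ u.length → capit m (M + 1) (lins i u) = capit m M u := by
  intro M
  induction M with
  | zero =>
    intro i u hu hm hi
    show cap m (lins i u) = u
    rcases (by omega : m = i + 1 ∨ m = i) with rfl | rfl
    · exact cap_succ_lins (by omega)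
    · exact cap_lins_self hi
  | succ M ih =>
    intro i u hu hm hi
    show capit m (M + 1) (cap m (lins i u)) = capit m (M + 1) u
    rcases (by omega : m = i + 1 ∨ m = i ∨ i = m + 1 ∨ m + 2 ≤ i) with rfl | rfl | rfl | h
    · rw [cap_succ_lins (by omega)]
    · rw [cap_lins_self hi]
    · rw [cap_lins_succ (by omega)]
    · have hl := length_cap (i := m) (w := u) (by omega)
      rw [cap_lins_right h hi, ih (i - 2) (cap m u) (by omega) (by omega) (by omega)]
      rfl

end Ei

theorem t_Ei : S_Ei := by
  intro m M i u _ hlen hm hi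
  have hl : (lins i u).length = u.length + 2 := Pool.Agent.H988R2.Perc.length_ins i u
  unfold Gd
  rw [(by omega : ((lins i u).length - m) / 2 = M + 1), (by omega : (u.length - m) / 2 = M),
    Ei.capit_lins m M i u hlen hm hi]

end Pool.Agent.W808.HB
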