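import Pool.Agent.W808.HB.T_Ec

/-! HB-E2 (helper120): seam -/

set_option autoImplicit false

namespace Pool.Agent.W808.HB
open Pool.Agent.H863R2.Cyl
open Pool.Agent.H988R2.Perc (Word PD)

theorem t_Es : S_Es := by
  intro m M u hu hlen hm
  have hs : (seam u).length = u.length + 2 := by simp [seam]
  have h1 := t_Ec m M M (seam u) (ok_seam.2 hu) (by omega) le_rfl
  rw [← h1, ← hlen, cap_last_seam (by omega)]

end Pool.Agent.W808.HB
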