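import Pool.Agent.W808.HB.Stm

/-! HB-E1 (helper120): a small arc between two legs -/

set_option autoImplicit false

namespace Pool.Agent.W808.HB
open Pool.Agent.H863R2.Cyl
open Pool.Agent.H988R2.Perc (Word PD)

namespace Ez

theorem capit_lins (m i : ℕ) (hi : i + 2 ≤ m) : ∀ (M : ℕ) (u : Word), u.length + 2 = m + 2 * M →
    ∃ v : Word, v.length + 2 = m ∧ capit m M (lins i u) = lins i v := by
  intro M
  induction M with
  | zero =>
    intro u hu
    exact ⟨u, by omega, rfl⟩
  | succ M ih =>
    intro u hu
    have hl := length_cap (i := m - 2) (w := u) (by omega)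
    obtain ⟨v, hv, h⟩ := ih (cap (m - 2) u) (by omega)
    refine ⟨v, hv, ?_⟩
    show capit m M (cap m (lins i u)) = lins i v
    rw [cap_lins_left hi (by omega), h]

theorem bwm_ne (m i : ℕ) (v : Word) (hi : i + 2 ≤ m) (hv : v.length + 2 = m) :
    lins i v ≠ bwm m := by
  intro h
  obtain ⟨a, b, rfl, ha⟩ := Pool.Agent.H988R2.Perc.exists_split (i := i) (w := v) (by omega)
  rw [lins, Pool.Agent.H988R2.Perc.ins_app _ _ ha] at h
  unfold bwm at h
  have h0 : (a ++ true :: false :: b)[i]? = some true := by
    rw [List.getElem?_append_right (by omega)]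
    simp [ha]
  have h1 : (a ++ true :: false :: b)[i + 1]? = some false := by
    rw [List.getElem?_append_right (by omega)]
    simp [ha]
  rw [h] at h0 h1
  rcases Nat.lt_or_ge i (m / 2) with h2 | h2
  · rw [List.getElem?_append_left (by simpa using h2)] at h0
    rw [List.getElem?_replicate_of_lt h2] at h0
    simp at h0
  · rw [List.getElem?_append_right (by simp; omega)] at h1
    rw [List.getElem?_replicate] at h1
    split at h1 <;> simp at h1

end Ez

theorem t_Ez : S_Ez := by
  intro m M i u _ hlen hi h
  unfold Gd at h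
  have hl : (lins i u).length = u.length + 2 := Pool.Agent.H988R2.Perc.length_ins i u
  rw [(by omega : ((lins i u).length - m) / 2 = M)] at h
  obtain ⟨v, hv, h2⟩ := Ez.capit_lins m i hi M u hlen
  rw [h2] at h
  exact Ez.bwm_ne m i v hi hv h

end Pool.Agent.W808.HB
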