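import Pool.Agent.W808.HB.Stm
import Pool.Agent.H863R2.Cyl.GProp

/-!
# Task HV: the homogeneous value
-/

set_option autoImplicit false

namespace Pool.Agent.W808.HB
open Pool.Agent.H863R2.Cyl
open Pool.Agent.H988R2.Perc (Word PD)
open Pool.Agent.H160R2.ML (pfq Gn)
open Pool.Agent.H160R2
open Filter Topology

namespace THV

theorem prs_cons (x : ℂ) (l : List ℂ) : prs (x :: l) = x :: x⁻¹ :: prs l := by
  simp [prs]

theorem prs_length (l : List ℂ) : (prs l).length = 2 * l.length := by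
  induction l with
  | nil => simp [prs]
  | cons x l ih => rw [prs_cons]; simp only [List.length_cons, ih]; ring

theorem prs_replicate (M : ℕ) : prs (List.replicate M 1) = List.replicate (2 * M) 1 := by
  induction M with
  | zero => simp [prs]
  | succ M ih =>
    rw [List.replicate_succ, prs_cons, ih, show 2 * (M + 1) = 2 * M + 1 + 1 by ring,
      List.replicate_succ, List.replicate_succ, inv_one]

theorem prs_getD (l : List ℂ) (k : ℕ) :
    (prs l).getD k 0 = if k % 2 = 0 then l.getD (k / 2) 0 else (l.getD (k / 2) 0)⁻¹ := by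
  induction l generalizing k with
  | nil => simp [prs]
  | cons x l ih =>
    rw [prs_cons]
    match k with
    | 0 => simp
    | 1 => simp
    | (k + 2) =>
      have h1 : (k + 2) / 2 = k / 2 + 1 := by omega
      have h2 : (k + 2) % 2 = k % 2 := by omega
      rw [h1, h2, List.getD_cons_succ, List.getD_cons_succ, List.getD_cons_succ, ih]

theorem getD_ofFn_cont {M : ℕ} (j : ℕ) :
    Continuous (fun x : Fin M → ℂ => (List.ofFn x).getD j 0) := by
  by_cases hj : j < M
  · have h1 : (fun x : Fin M → ℂ => (List.ofFn x).getD j 0) = fun x => x ⟨j, hj⟩ := by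
      funext x
      rw [List.getD_eq_getElem _ _ (by simpa using hj)]
      simp
    rw [h1]
    exact continuous_apply _
  · have h1 : (fun x : Fin M → ℂ => (List.ofFn x).getD j 0) = fun _ => 0 := by
      funext x
      rw [List.getD_eq_default _ _ (by simpa using hj)]
    rw [h1]
    exact continuous_const

theorem contAt_pd {n d : ℕ} {G : List ℂ → ℂ} (h : PD n d G) (A : List ℂ) (M : ℕ)
    (hl : A.length + 2 * M = n) :
    ContinuousAt (fun x : Fin M → ℂ => G (A ++ prs (List.ofFn x))) (fun _ => 1) := by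
  obtain ⟨p, -, hp⟩ := h
  have h1 : (fun x : Fin M → ℂ => G (A ++ prs (List.ofFn x))) = fun x =>
      MvPolynomial.eval (fun i : Fin n => (A ++ prs (List.ofFn x)).getD i 0) p := by
    funext x
    exact hp _ (by simp [prs_length, hl])
  rw [h1]
  refine ContinuousAt.comp (f := fun x : Fin M → ℂ =>
      (fun i : Fin n => (A ++ prs (List.ofFn x)).getD i 0))
    (g := fun v : Fin n → ℂ => MvPolynomial.eval v p)
    (MvPolynomial.continuous_eval p).continuousAt (continuousAt_pi.2 fun i => ?_)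
  by_cases hi : (i : ℕ) < A.length
  · have h2 : (fun x : Fin M → ℂ => (A ++ prs (List.ofFn x)).getD i 0) = fun _ => A.getD i 0 := by
      funext x
      exact List.getD_append _ _ _ _ hi
    rw [h2]
    exact continuousAt_const
  · have h2 : (fun x : Fin M → ℂ => (A ++ prs (List.ofFn x)).getD i 0) =
        fun x => if ((i : ℕ) - A.length) % 2 = 0 then
          (List.ofFn x).getD (((i : ℕ) - A.length) / 2) 0
          else ((List.ofFn x).getD (((i : ℕ) - A.length) / 2) 0)⁻¹ := by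
      funext x
      rw [List.getD_append_right _ _ _ _ (not_lt.1 hi), prs_getD]
    rw [h2]
    have hjM : ((i : ℕ) - A.length) / 2 < M := by
      have := i.2
      omega
    split_ifs with h3
    · exact (getD_ofFn_cont _).continuousAt
    · refine (getD_ofFn_cont _).continuousAt.inv₀ ?_
      rw [List.getD_eq_getElem _ _ (by simpa using hjM)]
      simp

/-- the linear form as a finite sum -/
theorem lin_eq (e : ℕ → Word → ℂ) (m : ℕ) {v : VW} {N : ℕ} (hv : v ∈ VN N) :
    Finsupp.linearCombination ℂ (e m) v = ∑ w ∈ GPropAux.WS N, e m w * v w := by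
  rw [Finsupp.linearCombination_apply, Finsupp.sum_of_support_subset _ (GPropAux.supp_sub hv)]
  · refine Finset.sum_congr rfl fun w _ => ?_
    simp only [smul_eq_mul]
    ring
  · intro w _; simp

theorem contAt_GG {q : ℂ} {e : ℕ → Word → ℂ} {Ψ : List ℂ → VW} (hD : Dat q e Ψ) (A : List ℂ)
    (M : ℕ) :
    ContinuousAt (fun x : Fin M → ℂ => GG e Ψ A (prs (List.ofFn x))) (fun _ => 1) := by
  have h1 : (fun x : Fin M → ℂ => GG e Ψ A (prs (List.ofFn x))) = fun x =>
      ∑ w ∈ GPropAux.WS (A.length + 2 * M), e A.length w * Ψ (A ++ prs (List.ofFn x)) w := by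
    funext x
    have m1 := hD.h.mem (A ++ prs (List.ofFn x))
    rw [List.length_append, prs_length, List.length_ofFn] at m1
    exact lin_eq e A.length m1
  rw [h1]
  refine tendsto_finsetSum _ fun w _ => ?_
  exact (contAt_pd (hD.h.deg _ w) A M rfl).const_mul _

theorem norms {q : ℂ} (hq : q ^ 2 + q + 1 = 0) :
    ‖q‖ = 1 ∧ ‖1 - q‖ = Real.sqrt 3 ∧ ‖q - 1‖ = Real.sqrt 3 ∧
      ‖q - q ^ 2‖ = Real.sqrt 3 := by
  have hq3 : q ^ 3 = 1 := by linear_combination (q - 1) * hq
  have h1 : ‖q‖ = 1 := by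
    have : ‖q‖ ^ 3 = 1 := by rw [← norm_pow, hq3, norm_one]
    exact (pow_eq_one_iff_of_nonneg (norm_nonneg _) (by norm_num)).1 this
  have h2 : ‖1 - q‖ = Real.sqrt 3 := by
    have e1 : (1 - q) ^ 2 = -3 * q := by linear_combination hq
    have e2 : ‖1 - q‖ ^ 2 = 3 := by
      rw [← norm_pow, e1, norm_mul, h1]
      norm_num
    rw [← e2, Real.sqrt_sq (norm_nonneg _)]
  have h4 : ‖q - q ^ 2‖ = Real.sqrt 3 := by
    have e1 : q - q ^ 2 = q * (1 - q) := by ring
    rw [e1, norm_mul, h1, h2, one_mul]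
  exact ⟨h1, h2, by rw [norm_sub_rev, h2], h4⟩

theorem pfq_norm {q : ℂ} (hq : q ^ 2 + q + 1 = 0) (m : ℕ) :
    ‖pfq q (List.replicate m 1)‖ ^ 2 = Real.sqrt 3 ^ (m * (m - 1)) := by
  induction m with
  | zero => simp [pfq]
  | succ k ih =>
    have h1 : pfq q (List.replicate (k + 1) 1) =
        (q - q ^ 2) ^ k * pfq q (List.replicate k 1) := by
      rw [List.replicate_succ]
      simp [pfq]
    rw [h1, norm_mul, norm_pow, (norms hq).2.2.2, mul_pow, ih, ← pow_mul, ← pow_add]
    congr 1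
    rcases k with _ | k
    · simp
    · simp only [Nat.add_sub_cancel]
      ring

theorem kap_norm {q : ℂ} (hq : q ^ 2 + q + 1 = 0) (m : ℕ) :
    ‖kap q m‖ = Real.sqrt 3 ^ (m / 2) := by
  unfold kap
  split_ifs
  · rw [norm_pow, (norms hq).2.2.1]
  · rw [norm_pow, (norms hq).2.1]

theorem expo (m M : ℕ) :
    m * (m - 1) + 4 * (M * (M - 1)) + 4 * (m * M) = 4 * ((m + 2 * M - 1) ^ 2 / 4) + 2 * (m / 2) := by
  rcases Nat.even_or_odd' m with ⟨k, rfl | rfl⟩
  · have h0 : 2 * k / 2 = k := by omega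
    rw [h0]
    rcases Nat.eq_zero_or_pos (k + M) with h | h
    · have hk : k = 0 := by omega
      have hM : M = 0 := by omega
      subst hk hM
      simp
    · obtain ⟨s, hs⟩ : ∃ s, k + M = s + 1 := ⟨k + M - 1, by omega⟩
      have e1 : 2 * k + 2 * M - 1 = 2 * s + 1 := by omega
      have e2 : (2 * s + 1) ^ 2 / 4 = s ^ 2 + s := by
        have : (2 * s + 1) ^ 2 = 4 * (s ^ 2 + s) + 1 := by ring
        omega
      rw [e1, e2]
      have hs' : (s : ℤ) = k + M - 1 := by omega
      rcases k with _ | k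
      · rcases M with _ | M
        · omega
        · have : s = M := by omega
          subst this
          simp only [Nat.add_sub_cancel]
          ring
      · rcases M with _ | M
        · have : s = k := by omega
          subst this
          simp only [Nat.mul_zero, Nat.zero_mul, Nat.add_zero]
          have e3 : 2 * (s + 1) - 1 = 2 * s + 1 := by omega
          rw [e3]
          ring
        · have : s = k + M + 1 := by omega
          subst this
          simp only [Nat.add_sub_cancel]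
          have e3 : 2 * (k + 1) - 1 = 2 * k + 1 := by omega
          rw [e3]
          ring
  · have h0 : (2 * k + 1) / 2 = k := by omega
    rw [h0]
    have e1 : 2 * k + 1 + 2 * M - 1 = 2 * (k + M) := by omega
    have e2 : (2 * (k + M)) ^ 2 / 4 = (k + M) ^ 2 := by
      have : (2 * (k + M)) ^ 2 = 4 * (k + M) ^ 2 := by ring
      omega
    rw [e1, e2]
    rcases M with _ | M
    · simp only [Nat.mul_zero, Nat.zero_mul, Nat.add_zero, Nat.add_sub_cancel]
      ring
    · simp only [Nat.add_sub_cancel]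
      ring

/-! ### the substitution -/

theorem bet_ne {Y : ℝ} (hY : 0 < Y) : (1 : ℂ) + bet Y ≠ 0 := by
  have h1 : (1 : ℂ) + bet Y = ((1 + (Y - 1) ^ 2 / Y : ℝ) : ℂ) := by
    unfold bet; push_cast; ring
  rw [h1]
  have : (0 : ℝ) < 1 + (Y - 1) ^ 2 / Y := by positivity
  exact_mod_cast this.ne'

theorem qY_ne {q : ℂ} (hq : q ^ 2 + q + 1 = 0) (Y : ℝ) (hY : 0 < Y) :
    q + Y ≠ 0 ∧ 1 + q * Y ≠ 0 := by
  have hq3 : q ^ 3 = 1 := by linear_combination (q - 1) * hq
  have hqr : ∀ r : ℝ, q ≠ r := by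
    intro r hr
    rw [hr] at hq
    have h1 : (r ^ 2 + r + 1 : ℝ) = 0 := by exact_mod_cast hq
    nlinarith [sq_nonneg (r + 1 / 2)]
  refine ⟨fun h => hqr (-Y) (by push_cast; linear_combination h), fun h => ?_⟩
  have h2 : q * Y = -1 := by linear_combination h
  have h3 : q = ((-(1 / Y) : ℝ) : ℂ) := by
    have hY0 : (Y : ℂ) ≠ 0 := by exact_mod_cast hY.ne'
    push_cast
    field_simp
    linear_combination h2
  exact hqr _ h3

theorem xY_ne {q : ℂ} (hq : q ^ 2 + q + 1 = 0) (Y : ℝ) (hY : 0 < Y) : xY q Y ≠ 0 :=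
  div_ne_zero (qY_ne hq Y hY).2 (qY_ne hq Y hY).1

/-- `X = 3/(1+β) - 1` -/
theorem Xf_xY {q : ℂ} (hq : q ^ 2 + q + 1 = 0) (Y : ℝ) (hY : 0 < Y) :
    Xf (xY q Y) = 3 / (1 + bet Y) - 1 := by
  obtain ⟨h1, h2⟩ := qY_ne hq Y hY
  have h3 := bet_ne hY
  have hY0 : (Y : ℂ) ≠ 0 := by exact_mod_cast hY.ne'
  have h4 : (1 : ℂ) + bet Y = (Y ^ 2 - Y + 1) / Y := by
    unfold bet; field_simp; ring
  have h5 : (Y : ℂ) ^ 2 - Y + 1 ≠ 0 := by
    intro h
    rw [h4, h, zero_div] at h3
    exact h3 rfl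
  have h6 : (3 : ℂ) / ((Y ^ 2 - Y + 1) / Y) - 1 = (3 * Y - (Y ^ 2 - Y + 1)) / (Y ^ 2 - Y + 1) := by
    rw [div_div_eq_mul_div, sub_div, div_self h5]
  rw [h4, h6]
  unfold Xf xY
  rw [inv_div, div_add_div _ _ h1 h2, div_eq_div_iff (mul_ne_zero h1 h2) h5]
  linear_combination ((1 + (Y : ℂ) ^ 2) ^ 2 - 4 * (Y : ℂ) ^ 2) * hq

theorem Xf_sub {q : ℂ} (hq : q ^ 2 + q + 1 = 0) (Y Y' : ℝ) (hY : 0 < Y) (hY' : 0 < Y') :
    Xf (xY q Y) - Xf (xY q Y') = 3 * (bet Y' - bet Y) / ((1 + bet Y) * (1 + bet Y')) := by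
  rw [Xf_xY hq Y hY, Xf_xY hq Y' hY']
  have h1 := bet_ne hY
  have h2 := bet_ne hY'
  field_simp
  ring

theorem cubes (x y : ℂ) (hx : x ≠ 0) (hy : y ≠ 0) :
    x ^ 3 + x⁻¹ ^ 3 - (y ^ 3 + y⁻¹ ^ 3) =
      (Xf x - Xf y) * (Xf x ^ 2 + Xf x * Xf y + Xf y ^ 2 - 3) := by
  unfold Xf
  field_simp
  ring

theorem mem_prs_cube {l : List ℂ} {c : ℂ} (h : c ∈ (prs l).map (fun x => x ^ 3)) :
    ∃ y ∈ l, c = y ^ 3 ∨ c = (y⁻¹) ^ 3 := by
  rw [List.mem_map] at h
  obtain ⟨z, hz, rfl⟩ := h
  unfold prs at hz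
  rw [List.mem_flatMap] at hz
  obtain ⟨y, hy, hz⟩ := hz
  refine ⟨y, hy, ?_⟩
  simp only [List.mem_cons, List.not_mem_nil, or_false] at hz
  rcases hz with rfl | rfl
  · exact Or.inl rfl
  · exact Or.inr rfl

theorem gn_prs (l : List ℂ) (h0 : ∀ x ∈ l, x ≠ 0) (h1 : ∀ x ∈ l, x ^ 3 ≠ x⁻¹ ^ 3)
    (h2 : l.Pairwise (fun x y => x ^ 3 ≠ y ^ 3 ∧ x ^ 3 ≠ y⁻¹ ^ 3)) : Gn (prs l) := by
  constructor
  · intro x hx
    unfold prs at hx
    rw [List.mem_flatMap] at hx
    obtain ⟨y, hy, hx⟩ := hx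
    simp only [List.mem_cons, List.not_mem_nil, or_false] at hx
    rcases hx with rfl | rfl
    · exact h0 _ hy
    · exact inv_ne_zero (h0 _ hy)
  · induction l with
    | nil => simp [prs]
    | cons x l ih =>
      rw [List.pairwise_cons] at h2
      rw [prs_cons, List.map_cons, List.map_cons, List.nodup_cons, List.nodup_cons]
      refine ⟨?_, ?_, ih (fun y hy => h0 y (List.mem_cons_of_mem _ hy))
        (fun y hy => h1 y (List.mem_cons_of_mem _ hy)) h2.2⟩
      · intro h
        rcases List.mem_cons.1 h with h | h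
        · exact h1 x List.mem_cons_self h
        · obtain ⟨y, hy, h3 | h3⟩ := mem_prs_cube h
          · exact (h2.1 y hy).1 h3
          · exact (h2.1 y hy).2 h3
      · intro h
        obtain ⟨y, hy, h3 | h3⟩ := mem_prs_cube h
        · apply (h2.1 y hy).2
          rw [inv_pow, inv_eq_iff_eq_inv] at h3
          rw [inv_pow]
          exact h3
        · apply (h2.1 y hy).1
          rw [inv_pow, inv_pow, inv_inj] at h3
          exact h3

end THV

open THV in
theorem t_HV (h2 : S_M2) (h0 : S_M0) (hT : S_TK) (hK : S_KL) : S_HV := by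
  intro q e Ψ hD m M
  classical
  have hq := hD.hq
  have hq3 : q ^ 3 = 1 := by linear_combination (q - 1) * hq
  have hq1 : q + 1 ≠ 0 := by
    intro h
    have : q ^ 2 = 0 := by linear_combination hq - h
    rw [pow_eq_zero_iff (by norm_num)] at this
    rw [this] at hq3
    norm_num at hq3
  -- the general formula
  have hform : ∀ x : Fin M → ℂ, Gn (prs (List.ofFn x)) →
      GG e Ψ (List.replicate m 1) (prs (List.ofFn x)) * kap q m * vdx x ^ 2 =
        pfq q (List.replicate m 1) * (wdx x * TT q (List.replicate m 1) x) := by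
    intro x hx
    rcases Nat.eq_zero_or_pos m with rfl | hm
    · have h3 := h0 q e Ψ hD M x hx
      have h4 : kap q 0 = 1 := by simp [kap]
      have h5 : pfq q (List.replicate 0 1) = 1 := by simp [pfq]
      rw [h4, h5, mul_one, one_mul]
      exact h3
    · exact h2 q e Ψ hD m M hm (List.replicate m 1) x (by simp) hx
  set A : List ℂ := List.replicate m 1 with hA
  set l : Filter ℝ := 𝓝[>] (0 : ℝ) with hl
  have hpos : ∀ᶠ t in l, (0 : ℝ) < t := self_mem_nhdsWithin
  set Yr : ℝ → ℕ → ℝ := fun t i => 1 + t * (i + 1) with hYr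
  set x : ℝ → Fin M → ℂ := fun t i => xY q (Yr t i) with hx
  have hYc : ∀ i : ℕ, Tendsto (fun t => ((Yr t i : ℝ) : ℂ)) l (𝓝 1) := by
    intro i
    have h1 : Continuous (fun t : ℝ => ((Yr t i : ℝ) : ℂ)) := by
      simp only [hYr]
      fun_prop
    have h3 := h1.tendsto 0
    have h4 : ((Yr 0 i : ℝ) : ℂ) = 1 := by simp [hYr]
    rw [h4] at h3
    exact h3.mono_left nhdsWithin_le_nhds
  have hbc : ∀ i : ℕ, Tendsto (fun t => bet (Yr t i)) l (𝓝 0) := by
    intro i
    have h1 : ContinuousAt bet 1 := by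
      unfold bet
      exact ((continuousAt_id.sub continuousAt_const).pow 2).div continuousAt_id one_ne_zero
    have h3 := h1.tendsto.comp (hYc i)
    have h4 : bet 1 = 0 := by simp [bet]
    rw [h4] at h3
    exact h3
  have hxc : ∀ i : Fin M, Tendsto (fun t => x t i) l (𝓝 1) := by
    intro i
    have h1 : ContinuousAt (xY q) 1 := by
      unfold xY
      exact (continuousAt_const.add (continuousAt_const.mul continuousAt_id)).div
        (continuousAt_const.add continuousAt_id) hq1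
    have h3 := h1.tendsto.comp (hYc i)
    have h4 : xY q 1 = 1 := by
      unfold xY
      rw [mul_one, add_comm 1 q]
      exact div_self hq1
    rw [h4] at h3
    exact h3
  have hXc : ∀ i : Fin M, Tendsto (fun t => Xf (x t i)) l (𝓝 2) := by
    intro i
    have h1 := (hxc i).add ((hxc i).inv₀ one_ne_zero)
    have h3 : (1 : ℂ) + 1⁻¹ = 2 := by norm_num
    rw [h3] at h1
    exact h1
  have hxt : Tendsto x l (𝓝 (fun _ => (1 : ℂ))) := tendsto_pi_nhds.2 hxc
  have hG : Tendsto (fun t => GG e Ψ A (prs (List.ofFn (x t)))) l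
      (𝓝 (GG e Ψ A (prs (List.ofFn (fun _ : Fin M => (1 : ℂ)))))) :=
    (contAt_GG hD A M).tendsto.comp hxt
  rw [List.ofFn_const, prs_replicate] at hG
  -- eventual conditions
  have hYpos : ∀ t : ℝ, 0 < t → ∀ i, 0 < Yr t i := by
    intro t ht i
    simp only [hYr]
    positivity
  have hYne : ∀ t : ℝ, 0 < t → ∀ i, Yr t i ≠ 1 := by
    intro t ht i
    simp only [hYr]
    have : 0 < t * ((i : ℝ) + 1) := by positivity
    linarith
  have hbinj : ∀ t : ℝ, 0 < t → ∀ i j : ℕ, bet (Yr t i) = bet (Yr t j) → i = j := by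
    intro t ht i j hij
    have hi := hYpos t ht i
    have hj := hYpos t ht j
    have h3 : (Yr t i - 1) ^ 2 / Yr t i = (Yr t j - 1) ^ 2 / Yr t j := by
      unfold bet at hij
      exact_mod_cast hij
    rw [div_eq_div_iff hi.ne' hj.ne'] at h3
    have h4 : (Yr t i - Yr t j) * (Yr t i * Yr t j - 1) = 0 := by linear_combination h3
    have hi1 : 1 < Yr t i := by
      simp only [hYr]
      have : 0 < t * ((i : ℝ) + 1) := by positivity
      linarith
    have hj1 : 1 < Yr t j := by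
      simp only [hYr]
      have : 0 < t * ((j : ℝ) + 1) := by positivity
      linarith
    have h5 : Yr t i * Yr t j - 1 ≠ 0 := by nlinarith
    have h6 := (mul_eq_zero.1 h4).resolve_right h5
    simp only [hYr] at h6
    have h7 : t * ((i : ℝ) - j) = 0 := by linear_combination h6
    have h8 := (mul_eq_zero.1 h7).resolve_left ht.ne'
    have h9 : (i : ℝ) = j := by linarith
    exact_mod_cast h9
  have hb0 : ∀ t : ℝ, 0 < t → ∀ i, bet (Yr t i) ≠ 0 := by
    intro t ht i h
    unfold bet at h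
    have hi : ((Yr t i : ℝ) : ℂ) ≠ 0 := by exact_mod_cast (hYpos t ht i).ne'
    rw [div_eq_zero_iff] at h
    have h3 := h.resolve_right hi
    rw [pow_eq_zero_iff (by norm_num)] at h3
    have h4 : ((Yr t i : ℝ) : ℂ) = 1 := by linear_combination h3
    exact hYne t ht i (by exact_mod_cast h4)
  have e1 : ∀ᶠ t in l, ∀ i j : Fin M,
      (1 : ℂ) - bet (Yr t i) * ((Yr t j : ℂ) * (Yr t j - 1)) ≠ 0 := by
    refine eventually_all.2 fun i => eventually_all.2 fun j => ?_
    have h3 : Tendsto (fun t => (1 : ℂ) - bet (Yr t i) * ((Yr t j : ℂ) * (Yr t j - 1))) l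
        (𝓝 (1 - 0 * (1 * (1 - 1)))) :=
      ((hbc i).mul ((hYc j).mul ((hYc j).sub_const 1))).const_sub 1
    exact h3.eventually_ne (by norm_num)
  have e2 : ∀ᶠ t in l, ∀ i j : Fin M,
      (1 : ℂ) - bet (Yr t i) * ((Yr t j : ℂ)⁻¹ * ((Yr t j : ℂ)⁻¹ - 1)) ≠ 0 := by
    refine eventually_all.2 fun i => eventually_all.2 fun j => ?_
    have h3 : Tendsto (fun t => (1 : ℂ) - bet (Yr t i) * ((Yr t j : ℂ)⁻¹ * ((Yr t j : ℂ)⁻¹ - 1))) l
        (𝓝 (1 - 0 * (1⁻¹ * (1⁻¹ - 1)))) :=
      ((hbc i).mul (((hYc j).inv₀ one_ne_zero).mul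
        (((hYc j).inv₀ one_ne_zero).sub_const 1))).const_sub 1
    exact h3.eventually_ne (by norm_num)
  have e3 : ∀ᶠ t in l, ∀ i j : Fin M, x t i ^ 2 + x t i * x t j + x t j ^ 2 ≠ 0 := by
    refine eventually_all.2 fun i => eventually_all.2 fun j => ?_
    have h3 : Tendsto (fun t => x t i ^ 2 + x t i * x t j + x t j ^ 2) l
        (𝓝 (1 ^ 2 + 1 * 1 + 1 ^ 2)) :=
      (((hxc i).pow 2).add ((hxc i).mul (hxc j))).add ((hxc j).pow 2)
    exact h3.eventually_ne (by norm_num)
  have e4 : ∀ᶠ t in l, ∀ i j : Fin M, x t i ^ 2 + x t i * (x t j)⁻¹ + (x t j)⁻¹ ^ 2 ≠ 0 := by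
    refine eventually_all.2 fun i => eventually_all.2 fun j => ?_
    have h3 : Tendsto (fun t => x t i ^ 2 + x t i * (x t j)⁻¹ + (x t j)⁻¹ ^ 2) l
        (𝓝 (1 ^ 2 + 1 * 1⁻¹ + 1⁻¹ ^ 2)) :=
      (((hxc i).pow 2).add ((hxc i).mul ((hxc j).inv₀ one_ne_zero))).add
        (((hxc j).inv₀ one_ne_zero).pow 2)
    exact h3.eventually_ne (by norm_num)
  have e5 : ∀ᶠ t in l, ∀ i : Fin M, x t i + 1 ≠ 0 := by
    refine eventually_all.2 fun i => ?_
    have h3 : Tendsto (fun t => x t i + 1) l (𝓝 (1 + 1)) := (hxc i).add_const 1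
    exact h3.eventually_ne (by norm_num)
  -- the pieces
  set c : ℕ := ∑ i : Fin M, (Finset.Ioi i).card with hc
  have hc2 : 2 * c = M * (M - 1) := by
    have h3 : c = ∑ i : Fin M, (M - 1 - (i : ℕ)) := by
      rw [hc]
      refine Finset.sum_congr rfl fun i _ => ?_
      rw [Fin.card_Ioi]
    rw [h3, Fin.sum_univ_eq_sum_range (fun i => M - 1 - i) M, Finset.sum_range_reflect (fun i => i) M,
      mul_comm, Finset.sum_range_id_mul_two]
  have hconst : ∀ a : ℂ, (∏ i : Fin M, ∏ _j ∈ Finset.Ioi i, a) = a ^ c := by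
    intro a
    simp only [Finset.prod_const]
    rw [Finset.prod_pow_eq_pow_sum]
  set SS : ℝ → ℂ := fun t => ∏ i : Fin M, ∏ j ∈ Finset.Ioi i,
    (Xf (x t i) ^ 2 + Xf (x t i) * Xf (x t j) + Xf (x t j) ^ 2 - 3) ^ 2 with hSS
  set RR : ℝ → ℂ := fun t => ∏ i : Fin M, ∏ j ∈ Finset.Ioi i,
    ((1 + bet (Yr t i)) * (1 + bet (Yr t j))) ^ 2 with hRR
  have hSSt : Tendsto SS l (𝓝 (81 ^ c)) := by
    have h3 : Tendsto SS l (𝓝 (∏ i : Fin M, ∏ _j ∈ Finset.Ioi i,
        ((2 : ℂ) ^ 2 + 2 * 2 + 2 ^ 2 - 3) ^ 2)) := by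
      refine tendsto_finsetProd _ fun i _ => tendsto_finsetProd _ fun j _ => ?_
      exact (((((hXc i).pow 2).add ((hXc i).mul (hXc j))).add ((hXc j).pow 2)).sub_const 3).pow 2
    rw [hconst] at h3
    have h4 : ((2 : ℂ) ^ 2 + 2 * 2 + 2 ^ 2 - 3) ^ 2 = 81 := by norm_num
    rw [h4] at h3
    exact h3
  have hRRt : Tendsto RR l (𝓝 1) := by
    have h3 : Tendsto RR l (𝓝 (∏ i : Fin M, ∏ _j ∈ Finset.Ioi i,
        (((1 : ℂ) + 0) * (1 + 0)) ^ 2)) := by
      refine tendsto_finsetProd _ fun i _ => tendsto_finsetProd _ fun j _ => ?_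
      exact (((hbc i).const_add 1).mul ((hbc j).const_add 1)).pow 2
    rw [hconst] at h3
    have h4 : (((1 : ℂ) + 0) * (1 + 0)) ^ 2 = 1 := by norm_num
    rw [h4, one_pow] at h3
    exact h3
  have hP1 : Tendsto (fun t => ∏ j : Fin M, (1 - 2 * bet (Yr t j))) l (𝓝 1) := by
    have h3 : Tendsto (fun t => ∏ j : Fin M, (1 - 2 * bet (Yr t j))) l
        (𝓝 (∏ _j : Fin M, (1 - 2 * (0 : ℂ)))) :=
      tendsto_finsetProd _ fun j _ => ((hbc j).const_mul 2).const_sub 1
    simpa using h3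
  have hP2 : Tendsto (fun t => ∏ j : Fin M, (1 + bet (Yr t j)) ^ m) l (𝓝 1) := by
    have h3 : Tendsto (fun t => ∏ j : Fin M, (1 + bet (Yr t j)) ^ m) l
        (𝓝 (∏ _j : Fin M, (1 + (0 : ℂ)) ^ m)) :=
      tendsto_finsetProd _ fun j _ => ((hbc j).const_add 1).pow m
    simpa using h3
  have hKL := hK m M
  set W : ℝ → ℂ := fun t => (Matrix.of fun i j : Fin M => Kf m (bet (Yv t i)) (Yv t j)).det
      / (Matrix.vandermonde (fun i : Fin M => bet (Yv t i))).det ^ 2 with hW
  have heq : ∀ᶠ t in l, GG e Ψ A (prs (List.ofFn (x t))) * kap q m * 9 ^ c =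
      pfq q A * (SS t * ((-q * 3 ^ m) ^ M * (∏ j : Fin M, (1 - 2 * bet (Yr t j))) * W t /
        (∏ j : Fin M, (1 + bet (Yr t j)) ^ m)) * RR t) := by
    filter_upwards [hpos, e1, e2, e3, e4, e5] with t ht g1 g2 g3 g4 g5
    have hx0 : ∀ i, x t i ≠ 0 := fun i => xY_ne hq _ (hYpos t ht i)
    have hXd : ∀ i j : Fin M, Xf (x t i) - Xf (x t j) =
        3 * (bet (Yr t j) - bet (Yr t i)) / ((1 + bet (Yr t i)) * (1 + bet (Yr t j))) :=
      fun i j => Xf_sub hq _ _ (hYpos t ht i) (hYpos t ht j)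
    have hb1 : ∀ i : ℕ, (1 : ℂ) + bet (Yr t i) ≠ 0 := fun i => bet_ne (hYpos t ht i)
    have hXne : ∀ i j : Fin M, i ≠ j → Xf (x t i) - Xf (x t j) ≠ 0 := by
      intro i j hij
      rw [hXd]
      refine div_ne_zero (mul_ne_zero (by norm_num) ?_) (mul_ne_zero (hb1 _) (hb1 _))
      intro h
      exact hij (Fin.ext (hbinj t ht i j (by linear_combination -h)))
    have hGn : Gn (prs (List.ofFn (x t))) := by
      apply gn_prs
      · intro y hy
        rw [List.mem_ofFn] at hy
        obtain ⟨i, rfl⟩ := hy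
        exact hx0 i
      · intro y hy
        rw [List.mem_ofFn] at hy
        obtain ⟨i, rfl⟩ := hy
        intro h
        have h3 : (x t i - (x t i)⁻¹) * (x t i ^ 2 + x t i * (x t i)⁻¹ + (x t i)⁻¹ ^ 2) = 0 := by
          linear_combination h
        have h4 := (mul_eq_zero.1 h3).resolve_right (g4 i i)
        have h5 : (x t i - 1) * (x t i + 1) = 0 := by
          have h6 : x t i * (x t i)⁻¹ = 1 := mul_inv_cancel₀ (hx0 i)
          linear_combination x t i * h4 + h6
        have h6 := (mul_eq_zero.1 h5).resolve_right (g5 i)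
        have h7 : x t i = 1 := by linear_combination h6
        have h8 := Xf_xY hq _ (hYpos t ht i)
        have h9 : Xf (x t i) = 2 := by rw [h7]; unfold Xf; norm_num
        have h10 : (3 : ℂ) / (1 + bet (Yr t i)) - 1 = 2 := h8.symm.trans h9
        have h11 : bet (Yr t i) = 0 := by
          have := hb1 i
          field_simp at h10
          linear_combination -(1 / 3) * h10
        exact hb0 t ht i h11
      · rw [List.pairwise_ofFn]
        intro i j hij
        constructor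
        · intro h
          have h3 : (x t i - x t j) * (x t i ^ 2 + x t i * x t j + x t j ^ 2) = 0 := by
            linear_combination h
          have h4 := (mul_eq_zero.1 h3).resolve_right (g3 i j)
          have h5 : x t i = x t j := by linear_combination h4
          exact hXne i j hij.ne (by rw [h5, sub_self])
        · intro h
          have h3 : (x t i - (x t j)⁻¹) * (x t i ^ 2 + x t i * (x t j)⁻¹ + (x t j)⁻¹ ^ 2) = 0 := by
            linear_combination h
          have h4 := (mul_eq_zero.1 h3).resolve_right (g4 i j)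
          have h5 : x t i = (x t j)⁻¹ := by linear_combination h4
          apply hXne i j hij.ne
          unfold Xf
          rw [h5, inv_inv]
          ring
    have h1 := hform (x t) hGn
    have hTK := hT q hq m M (fun i => Yr t i) (fun i => hYpos t ht i) (fun i => hYne t ht i) g1 g2
    -- `wdx = vdx * SS`
    have hwd : wdx (x t) = vdx (x t) * SS t := by
      simp only [wdx, vdx, hSS, ← Finset.prod_mul_distrib]
      refine Finset.prod_congr rfl fun i _ => Finset.prod_congr rfl fun j _ => ?_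
      rw [cubes _ _ (hx0 i) (hx0 j), mul_pow]
    have hV : (Matrix.vandermonde (fun i : Fin M => bet (Yr t i))).det ≠ 0 := by
      rw [Matrix.det_vandermonde_ne_zero_iff]
      intro i j hij
      exact Fin.ext (hbinj t ht i j hij)
    have hvd : vdx (x t) * RR t =
        9 ^ c * (Matrix.vandermonde (fun i : Fin M => bet (Yr t i))).det ^ 2 := by
      rw [sq, ← HL.HomogAux.vand_sq, ← hconst]
      simp only [vdx, hRR, ← Finset.prod_mul_distrib]
      refine Finset.prod_congr rfl fun i _ => Finset.prod_congr rfl fun j _ => ?_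
      rw [hXd]
      have := hb1 i
      have := hb1 j
      field_simp
      ring
    have hRne : RR t ≠ 0 := by
      simp only [hRR]
      refine Finset.prod_ne_zero_iff.2 fun i _ => Finset.prod_ne_zero_iff.2 fun j _ => ?_
      exact pow_ne_zero _ (mul_ne_zero (hb1 _) (hb1 _))
    have hvne : vdx (x t) ≠ 0 := by
      simp only [vdx]
      refine Finset.prod_ne_zero_iff.2 fun i _ => Finset.prod_ne_zero_iff.2 fun j hj => ?_
      refine pow_ne_zero _ (hXne i j ?_)
      exact (Finset.mem_Ioi.1 hj).ne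
    have hPne : (∏ j : Fin M, (1 + bet (Yr t j)) ^ m) ≠ 0 :=
      Finset.prod_ne_zero_iff.2 fun j _ => pow_ne_zero _ (hb1 _)
    have hWt : W t * (Matrix.vandermonde (fun i : Fin M => bet (Yr t i))).det ^ 2 =
        (Matrix.of fun i j : Fin M => Kf m (bet (Yr t i)) (Yr t j)).det :=
      div_mul_cancel₀ _ (pow_ne_zero 2 hV)
    rw [hwd] at h1
    have h3 : GG e Ψ A (prs (List.ofFn (x t))) * kap q m * vdx (x t) =
        pfq q A * (SS t * TT q A (x t)) := by
      apply mul_left_cancel₀ hvne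
      linear_combination h1
    have hTK' : TT q A (x t) * (∏ j : Fin M, (1 + bet (Yr t j)) ^ m) =
        (-q * 3 ^ m) ^ M * (∏ j : Fin M, (1 - 2 * bet (Yr t j)))
          * (Matrix.of fun i j : Fin M => Kf m (bet (Yr t i)) (Yr t j)).det := hTK
    rw [← hWt] at hTK'
    rw [mul_comm (SS t), mul_assoc, mul_assoc, div_mul_eq_mul_div, mul_div_assoc', eq_div_iff hPne]
    apply mul_left_cancel₀ (pow_ne_zero 2 hV)
    linear_combination (-(GG e Ψ A (prs (List.ofFn (x t))) * kap q m *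
        (∏ j : Fin M, (1 + bet (Yr t j)) ^ m))) * hvd
      + (RR t * (∏ j : Fin M, (1 + bet (Yr t j)) ^ m)) * h3 + pfq q A * SS t * RR t * hTK'
  have hL := ((hG.mul_const (kap q m)).mul_const (9 ^ c)).congr' heq
  have hR : Tendsto (fun t => pfq q A * (SS t * ((-q * 3 ^ m) ^ M *
      (∏ j : Fin M, (1 - 2 * bet (Yr t j))) * W t /
        (∏ j : Fin M, (1 + bet (Yr t j)) ^ m)) * RR t)) l
      (𝓝 (pfq q A * (81 ^ c * ((-q * 3 ^ m) ^ M * 1 *
        (Matrix.of fun k l : Fin M => (cc m k l : ℂ)).det / 1) * 1))) :=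
    ((hSSt.mul (((hP1.const_mul _).mul hKL).div hP2 one_ne_zero)).mul hRRt).const_mul _
  have hfin := tendsto_nhds_unique hL hR
  -- norms
  have hdet : (Matrix.of fun k l : Fin M => (cc m k l : ℂ)).det = ((Dc m M : ℝ) : ℂ) := by
    unfold Dc
    have h3 := RingHom.map_det Complex.ofRealHom (Matrix.of fun k l : Fin M => (cc m k l : ℝ))
    have h4 : (Complex.ofRealHom.mapMatrix (Matrix.of fun k l : Fin M => (cc m k l : ℝ))) =
        Matrix.of fun k l : Fin M => (cc m k l : ℂ) := by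
      ext k l
      simp
    rw [h4] at h3
    exact h3.symm
  have hn := congrArg norm hfin
  simp only [norm_mul, norm_pow, norm_neg, hdet, Complex.norm_real,
    (norms hq).1, kap_norm hq, mul_one, div_one, one_mul, Real.norm_eq_abs] at hn
  have n9 : ‖(9 : ℂ)‖ = 9 := by norm_num
  have n3 : ‖(3 : ℂ)‖ = 3 := by norm_num
  have n81 : ‖(81 : ℂ)‖ = 81 := by norm_num
  rw [n9, n3, n81] at hn
  have hs : 0 < Real.sqrt 3 := Real.sqrt_pos.2 (by norm_num)
  have hs2 : Real.sqrt 3 ^ 2 = 3 := Real.sq_sqrt (by norm_num)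
  have hpf := pfq_norm hq m
  have hex := expo m M
  rw [← hA] at hpf
  have hp1 : ‖pfq q A‖ = Real.sqrt 3 ^ (m * (m - 1) / 2) := by
    have h3 : Real.sqrt 3 ^ (m * (m - 1)) = (Real.sqrt 3 ^ (m * (m - 1) / 2)) ^ 2 := by
      rw [← pow_mul]
      congr 1
      have := (Nat.even_mul_pred_self m).two_dvd
      omega
    rw [h3] at hpf
    exact (pow_left_inj₀ (norm_nonneg _) (by positivity) (by norm_num)).1 hpf
  rw [hp1] at hn
  obtain ⟨k, hk⟩ : ∃ k, m * (m - 1) = 2 * k := (Nat.even_mul_pred_self m).two_dvd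
  have hk2 : m * (m - 1) / 2 = k := by omega
  rw [hk2] at hn
  rw [← hc2, hk] at hex
  generalize (m + 2 * M - 1) ^ 2 / 4 = E at hex ⊢
  generalize ‖GG e Ψ A (List.replicate (2 * M) 1)‖ = g at hn ⊢
  generalize |Dc m M| = D at hn ⊢
  generalize Real.sqrt 3 = s at *
  have h9 : (9 : ℝ) = s ^ 4 := by
    rw [show (4 : ℕ) = 2 * 2 by norm_num, pow_mul, hs2]; norm_num
  have h81 : (81 : ℝ) = s ^ 8 := by
    rw [show (8 : ℕ) = 2 * 4 by norm_num, pow_mul, hs2]; norm_num
  have h3' : (3 : ℝ) = s ^ 2 := hs2.symm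
  rw [h9, h81, h3'] at hn
  rw [h3']
  have hne : s ^ (m / 2) * (s ^ 4) ^ c ≠ 0 := by positivity
  apply mul_right_cancel₀ hne
  have f1 : s ^ k * ((s ^ 8) ^ c * ((s ^ 2) ^ m) ^ M) =
      (s ^ 2) ^ E * (s ^ (m / 2) * (s ^ 4) ^ c) := by
    rw [← pow_mul, ← pow_mul, ← pow_mul, ← pow_mul, ← pow_mul, ← pow_add, ← pow_add, ← pow_add,
      ← pow_add]
    congr 1
    omega
  linear_combination hn + D * f1

end Pool.Agent.W808.HB
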