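import Pool.Agent.W808.HB.Stm
import Pool.Agent.H863R2.Cyl.Hom

/-! KL: the limit of the determinant at the homogeneous point. -/

set_option autoImplicit false

namespace Pool.Agent.W808.HB
open Pool.Agent.H863R2.Cyl
open Pool.Agent.H863R2.Cyl.HomLim (LL LL_add LL_smul LL_sum LL_mono det_LL det_vandermonde_smul
  inv_one_sub)
open Filter Topology Matrix

namespace KL

/-- the scale -/
noncomputable def ep (t : ℝ) : ℂ := (t : ℂ) ^ 2

/-- a path `A` of matrices with `A * V(α) = 1` -/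
structure Path {N : ℕ} (A : ℝ → Matrix (Fin N) (Fin N) ℂ) (α : ℝ → Fin N → ℂ) : Prop where
  al : ∀ i, ∃ a0, Tendsto (fun t => α t i) (𝓝[>] 0) (𝓝 a0)
  mat : ∀ k i, ∃ a0, Tendsto (fun t => A t k i) (𝓝[>] 0) (𝓝 a0)
  inv : ∀ᶠ t in 𝓝[>] (0 : ℝ), A t * vandermonde (α t) = 1

lemma tendsto_t : Tendsto (fun t : ℝ => (t : ℂ)) (𝓝[>] 0) (𝓝 0) := by
  have : Tendsto (fun t : ℝ => (t : ℂ)) (𝓝 0) (𝓝 ((0 : ℝ) : ℂ)) :=
    Complex.continuous_ofReal.tendsto 0
  rw [Complex.ofReal_zero] at this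
  exact this.mono_left nhdsWithin_le_nhds

lemma tendsto_eps : Tendsto ep (𝓝[>] 0) (𝓝 0) := by
  have := tendsto_t.pow 2
  rw [zero_pow (by norm_num)] at this
  exact this

lemma eventually_pos : ∀ᶠ t in 𝓝[>] (0 : ℝ), 0 < t := eventually_mem_nhdsWithin

lemma eventually_ne : ∀ᶠ t in 𝓝[>] (0 : ℝ), ep t ≠ 0 := by
  filter_upwards [eventually_pos] with t ht
  exact pow_ne_zero _ (by exact_mod_cast ht.ne')

lemma tendsto_pow_mul {g : ℝ → ℂ} {g0 : ℂ} (hg : Tendsto g (𝓝[>] 0) (𝓝 g0)) {m : ℕ} (hm : 0 < m) :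
    Tendsto (fun t => ep t ^ m * g t) (𝓝[>] 0) (𝓝 0) := by
  have h1 : Tendsto (fun t : ℝ => ep t ^ m) (𝓝[>] 0) (𝓝 (0 ^ m)) := tendsto_eps.pow m
  rw [zero_pow hm.ne'] at h1
  simpa using h1.mul hg

lemma Path.tendsto {N : ℕ} {A : ℝ → Matrix (Fin N) (Fin N) ℂ} {α : ℝ → Fin N → ℂ}
    (h : Path A α) (k : Fin N) (m : ℕ) :
    Tendsto (fun t => (ep t ^ (k : ℕ))⁻¹ * ∑ i, A t k i * (ep t * α t i) ^ m) (𝓝[>] 0)
      (𝓝 (if m = k then 1 else 0)) := by
  by_cases hm : m < N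
  · apply tendsto_const_nhds.congr'
    filter_upwards [h.inv, eventually_ne] with t ht h0
    have h1 := congrFun (congrFun ht k) ⟨m, hm⟩
    rw [Matrix.mul_apply, Matrix.one_apply] at h1
    simp only [vandermonde_apply] at h1
    have h2 : ∑ i, A t k i * (ep t * α t i) ^ m = ep t ^ m * ∑ i, A t k i * α t i ^ m := by
      rw [Finset.mul_sum]
      apply Finset.sum_congr rfl; intro i _
      rw [mul_pow]; ring
    rw [h2, h1]
    by_cases hk : m = k
    · subst hk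
      rw [if_pos rfl, if_pos (by ext; rfl)]
      field_simp
    · rw [if_neg hk, if_neg (by intro h'; apply hk; rw [h'])]
      simp
  · have hk : (k : ℕ) < m := lt_of_lt_of_le k.2 (not_lt.mp hm)
    rw [if_neg (ne_of_gt hk)]
    obtain ⟨S, hS⟩ : ∃ S, Tendsto (fun t => ∑ i, A t k i * α t i ^ m) (𝓝[>] 0) (𝓝 S) := by
      choose a ha using h.al
      choose b hb using h.mat k
      exact ⟨_, tendsto_finsetSum _ (fun i _ => (hb i).mul ((ha i).pow m))⟩
    apply (tendsto_pow_mul hS (Nat.sub_pos_of_lt hk)).congr'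
    filter_upwards [eventually_ne] with t h0
    have h2 : ∑ i, A t k i * (ep t * α t i) ^ m = ep t ^ m * ∑ i, A t k i * α t i ^ m := by
      rw [Finset.mul_sum]
      apply Finset.sum_congr rfl; intro i _
      rw [mul_pow]; ring
    rw [h2, ← mul_assoc]
    congr 1
    rw [eq_comm, inv_mul_eq_iff_eq_mul₀ (pow_ne_zero _ h0), ← pow_add]
    congr 1; omega

lemma tendsto_mono {N : ℕ} {A : ℝ → Matrix (Fin N) (Fin N) ℂ} {α : ℝ → Fin N → ℂ}
    (hA : Path A α) (k l : Fin N) (m n : ℕ) :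
    Tendsto (fun t => LL (A t) (A t) (ep t) k l
        (fun i j => (ep t * α t i) ^ m * (ep t * α t j) ^ n))
      (𝓝[>] 0) (𝓝 (if (k : ℕ) = m ∧ (l : ℕ) = n then 1 else 0)) := by
  have h := (hA.tendsto k m).mul (hA.tendsto l n)
  simp only [LL_mono]
  convert h using 2
  by_cases h1 : m = k <;> by_cases h2 : n = l <;> simp [h1, h2, eq_comm]

lemma tendsto_rem {N : ℕ} {A : ℝ → Matrix (Fin N) (Fin N) ℂ} {α : ℝ → Fin N → ℂ}
    (hA : Path A α) (k l : Fin N) (ρ : ℝ → Fin N → Fin N → ℂ)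
    (hρ : ∀ i j, ∃ r0, Tendsto (fun t => ρ t i j) (𝓝[>] 0) (𝓝 r0)) :
    Tendsto (fun t => LL (A t) (A t) (ep t) k l (fun i j => ep t ^ (2 * N) * ρ t i j))
      (𝓝[>] 0) (𝓝 0) := by
  obtain ⟨S, hS⟩ : ∃ S, Tendsto (fun t => ∑ i, ∑ j, A t k i * A t l j * ρ t i j)
      (𝓝[>] 0) (𝓝 S) := by
    choose a ha using hA.mat k
    choose b hb using hA.mat l
    choose c hc using hρ
    exact ⟨_, tendsto_finsetSum _ (fun i _ => tendsto_finsetSum _ (fun j _ =>
      ((ha i).mul (hb j)).mul (hc i j)))⟩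
  have hk := k.2
  have hl := l.2
  apply (tendsto_pow_mul hS (m := 2 * N - (k + l)) (by omega)).congr'
  filter_upwards [eventually_ne] with t h0
  rw [LL_smul (φ := fun i j => ρ t i j)]
  unfold LL
  rw [← mul_assoc]
  congr 1
  rw [← mul_inv, ← pow_add, eq_comm, ← div_eq_mul_inv,
    div_eq_iff (pow_ne_zero _ h0), ← pow_add]
  congr 1; omega

lemma path_of {N : ℕ} {α : ℝ → Fin N → ℂ} {a0 : Fin N → ℂ}
    (hα : ∀ i, Tendsto (fun t => α t i) (𝓝[>] 0) (𝓝 (a0 i))) (hinj : Function.Injective a0) :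
    Path (fun t => (vandermonde (α t))⁻¹) α := by
  have hV : Tendsto (fun t => vandermonde (α t)) (𝓝[>] 0) (𝓝 (vandermonde a0)) := by
    apply tendsto_pi_nhds.mpr; intro i
    apply tendsto_pi_nhds.mpr; intro j
    simp only [vandermonde_apply]
    exact (hα i).pow _
  have hdet : Tendsto (fun t => (vandermonde (α t)).det) (𝓝[>] 0) (𝓝 (vandermonde a0).det) :=
    ((Continuous.matrix_det continuous_id).tendsto _).comp hV
  have h0 : (vandermonde a0).det ≠ 0 := det_vandermonde_ne_zero_iff.mpr hinj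
  have hadj : Tendsto (fun t => (vandermonde (α t)).adjugate) (𝓝[>] 0)
      (𝓝 (vandermonde a0).adjugate) :=
    ((Continuous.matrix_adjugate continuous_id).tendsto _).comp hV
  refine ⟨fun i => ⟨_, hα i⟩, fun k i => ⟨((vandermonde a0)⁻¹) k i, ?_⟩, ?_⟩
  · have : Tendsto (fun t => ((vandermonde (α t)).det)⁻¹ * (vandermonde (α t)).adjugate k i) (𝓝[>] 0)
        (𝓝 (((vandermonde a0).det)⁻¹ * (vandermonde a0).adjugate k i)) := by
      apply (hdet.inv₀ h0).mul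
      have h1 := tendsto_pi_nhds.mp hadj k
      exact tendsto_pi_nhds.mp h1 i
    simpa [Matrix.inv_def, Ring.inverse_eq_inv'] using this
  · filter_upwards [hdet.eventually_ne h0] with t ht
    exact Matrix.nonsing_inv_mul _ (isUnit_iff_ne_zero.mpr ht)

/-! ### the data -/

lemma cc_zero {m k l : ℕ} (h : m + 2 * k + 1 ≤ l) : cc m k l = 0 := by
  unfold cc
  rw [Nat.choose_eq_zero_of_lt (by omega), Nat.choose_eq_zero_of_lt (by omega)]
  simp

/-- the points in scaled form -/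
noncomputable def al {M : ℕ} (t : ℝ) (i : Fin M) : ℂ := ((i : ℕ) + 1 : ℂ) ^ 2 / Yv t i

lemma Yv_eq (t : ℝ) (i : ℕ) : Yv t i = 1 + t * (i + 1) := by
  unfold Yv; push_cast; ring

lemma Yv_tendsto (i : ℕ) : Tendsto (fun t => Yv t i) (𝓝[>] 0) (𝓝 1) := by
  have h := (tendsto_t.mul_const ((i : ℂ) + 1)).const_add 1
  simp only [zero_mul, add_zero] at h
  exact h.congr fun t => (Yv_eq t i).symm

lemma Yv_ne {t : ℝ} (ht : 0 < t) (i : ℕ) : Yv t i ≠ 0 := by
  unfold Yv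
  have : (0 : ℝ) < 1 + t * (i + 1) := by positivity
  exact_mod_cast this.ne'

lemma bet_eq {M : ℕ} (t : ℝ) (i : Fin M) : bet (Yv t i) = ep t * al t i := by
  unfold bet al ep
  have : Yv t i - 1 = t * ((i : ℕ) + 1) := by rw [Yv_eq]; ring
  rw [this]
  ring

lemma al_tendsto {M : ℕ} (i : Fin M) :
    Tendsto (fun t => al t i) (𝓝[>] 0) (𝓝 (((i : ℕ) + 1 : ℂ) ^ 2)) := by
  have h := (tendsto_const_nhds (x := ((i : ℕ) + 1 : ℂ) ^ 2)).div (Yv_tendsto i) one_ne_zero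
  rw [div_one] at h
  exact h

lemma al_inj {M : ℕ} : Function.Injective (fun i : Fin M => (((i : ℕ) + 1 : ℂ) ^ 2)) := by
  intro i j h
  have h1 : (((i : ℕ) + 1) ^ 2 : ℕ) = (((j : ℕ) + 1) ^ 2 : ℕ) := by
    have h' : ((((i : ℕ) + 1) ^ 2 : ℕ) : ℂ) = ((((j : ℕ) + 1) ^ 2 : ℕ) : ℂ) := by
      push_cast
      exact h
    exact_mod_cast h'
  have h2 := Nat.pow_left_injective (n := 2) (by norm_num) h1
  apply Fin.ext
  have h3 : (i : ℕ) + 1 = (j : ℕ) + 1 := h2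
  omega

/-- `Y (Y - 1)` -/
noncomputable def aa (Y : ℂ) : ℂ := Y * (Y - 1)

/-- the remainder of the geometric series -/
noncomputable def Rm (m K : ℕ) (b Y : ℂ) : ℂ :=
  ((2 * Y - 1) * Y ^ m * (aa Y ^ K * (1 - b * aa Y)⁻¹)
    - (2 * Y⁻¹ - 1) * Y⁻¹ ^ m * (aa Y⁻¹ ^ K * (1 - b * aa Y⁻¹)⁻¹)) / (Y - Y⁻¹)

lemma Kf_expand (h : S_U) (m K : ℕ) (b Y : ℂ) (hY : Y ≠ 0) (hY1 : Y - Y⁻¹ ≠ 0)
    (h1 : 1 - b * aa Y ≠ 0) (h2 : 1 - b * aa Y⁻¹ ≠ 0) :
    Kf m b Y = (∑ k ∈ Finset.range K, ∑ l ∈ Finset.range (m + 2 * k + 1),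
      (cc m k l : ℂ) * (b ^ k * bet Y ^ l)) + b ^ K * Rm m K b Y := by
  have e1 := inv_one_sub h1 K
  have e2 := inv_one_sub h2 K
  have e3 : ∀ k ∈ Finset.range K, ∑ l ∈ Finset.range (m + 2 * k + 1),
      (cc m k l : ℂ) * (b ^ k * bet Y ^ l) = b ^ k * (((2 * Y - 1) * Y ^ m * (Y * (Y - 1)) ^ k
        - (2 * Y⁻¹ - 1) * Y⁻¹ ^ m * (Y⁻¹ * (Y⁻¹ - 1)) ^ k) / (Y - Y⁻¹)) := by
    intro k _
    rw [h m k Y hY hY1, Finset.mul_sum]
    refine Finset.sum_congr rfl fun l _ => ?_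
    ring
  rw [Finset.sum_congr rfl e3]
  unfold Kf Rm
  have e4 : (2 * Y - 1) * Y ^ m / (1 - b * (Y * (Y - 1))) =
      (2 * Y - 1) * Y ^ m * (1 - b * aa Y)⁻¹ := by
    rw [div_eq_mul_inv]; rfl
  have e5 : (2 * Y⁻¹ - 1) * Y⁻¹ ^ m / (1 - b * (Y⁻¹ * (Y⁻¹ - 1))) =
      (2 * Y⁻¹ - 1) * Y⁻¹ ^ m * (1 - b * aa Y⁻¹)⁻¹ := by
    rw [div_eq_mul_inv]; rfl
  rw [e4, e5]
  have e6 : ∑ k ∈ Finset.range K, b ^ k * (((2 * Y - 1) * Y ^ m * (Y * (Y - 1)) ^ k
        - (2 * Y⁻¹ - 1) * Y⁻¹ ^ m * (Y⁻¹ * (Y⁻¹ - 1)) ^ k) / (Y - Y⁻¹)) =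
      ((2 * Y - 1) * Y ^ m * (∑ k ∈ Finset.range K, (b * aa Y) ^ k)
        - (2 * Y⁻¹ - 1) * Y⁻¹ ^ m * (∑ k ∈ Finset.range K, (b * aa Y⁻¹) ^ k)) / (Y - Y⁻¹) := by
    rw [Finset.mul_sum, Finset.mul_sum, ← Finset.sum_sub_distrib, Finset.sum_div]
    refine Finset.sum_congr rfl fun k _ => ?_
    rw [mul_pow b (aa Y), mul_pow b (aa Y⁻¹)]
    have f1 : (Y * (Y - 1)) ^ k = aa Y ^ k := rfl
    have f2 : (Y⁻¹ * (Y⁻¹ - 1)) ^ k = aa Y⁻¹ ^ k := rfl
    rw [f1, f2]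
    ring
  rw [e6]
  set u := (1 - b * aa Y)⁻¹
  set v := (1 - b * aa Y⁻¹)⁻¹
  set S1 := ∑ k ∈ Finset.range K, (b * aa Y) ^ k
  set S2 := ∑ k ∈ Finset.range K, (b * aa Y⁻¹) ^ k
  rw [mul_pow] at e1 e2
  linear_combination ((2 * Y - 1) * Y ^ m / (Y - Y⁻¹)) * e1
    - ((2 * Y⁻¹ - 1) * Y⁻¹ ^ m / (Y - Y⁻¹)) * e2

lemma Rm_tendsto {M : ℕ} (m K : ℕ) (hK : 0 < K) (i j : Fin M) :
    ∃ r0, Tendsto (fun t => Rm m K (bet (Yv t i)) (Yv t j)) (𝓝[>] 0) (𝓝 r0) := by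
  have hY := Yv_tendsto j
  have hYi : Tendsto (fun t => (Yv t j)⁻¹) (𝓝[>] 0) (𝓝 1) := by
    simpa using hY.inv₀ one_ne_zero
  have hb : Tendsto (fun t => bet (Yv t i)) (𝓝[>] 0) (𝓝 0) := by
    have h1 : Tendsto (fun t => ep t * al t i) (𝓝[>] 0) (𝓝 (0 * (((i : ℕ) + 1 : ℂ) ^ 2))) :=
      tendsto_eps.mul (al_tendsto i)
    rw [zero_mul] at h1
    exact h1.congr fun t => (bet_eq t i).symm
  have ha : Tendsto (fun t => aa (Yv t j)) (𝓝[>] 0) (𝓝 0) := by
    have h1 := hY.mul (hY.sub_const 1)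
    simp only [sub_self, mul_zero] at h1
    exact h1
  have ha' : Tendsto (fun t => aa (Yv t j)⁻¹) (𝓝[>] 0) (𝓝 0) := by
    have h1 := hYi.mul (hYi.sub_const 1)
    simp only [sub_self, mul_zero] at h1
    exact h1
  -- the quotients by `Y - 1/Y`
  have hq : Tendsto (fun t => Yv t j ^ 2 / (Yv t j + 1)) (𝓝[>] 0) (𝓝 (1 ^ 2 / (1 + 1))) :=
    (hY.pow 2).div (hY.add_const 1) (by norm_num)
  have hq' : Tendsto (fun t => (Yv t j)⁻¹ / (Yv t j + 1)) (𝓝[>] 0) (𝓝 (1 / (1 + 1))) :=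
    hYi.div (hY.add_const 1) (by norm_num)
  have h1 : Tendsto (fun t => 1 - bet (Yv t i) * aa (Yv t j)) (𝓝[>] 0) (𝓝 1) := by
    have := (hb.mul ha).const_sub 1
    simpa using this
  have h2 : Tendsto (fun t => 1 - bet (Yv t i) * aa (Yv t j)⁻¹) (𝓝[>] 0) (𝓝 1) := by
    have := (hb.mul ha').const_sub 1
    simpa using this
  refine ⟨_, Tendsto.congr' ?_ ((((((hY.const_mul 2).sub_const 1).mul (hY.pow m)).mul
    ((ha.pow (K - 1)).mul (h1.inv₀ one_ne_zero))).mul hq).add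
    (((((hYi.const_mul 2).sub_const 1).mul (hYi.pow m)).mul
    ((ha'.pow (K - 1)).mul (h2.inv₀ one_ne_zero))).mul hq'))⟩
  filter_upwards [eventually_pos] with t ht
  obtain ⟨K', rfl⟩ : ∃ K', K = K' + 1 := ⟨K - 1, by omega⟩
  have hY0 := Yv_ne ht (j : ℕ)
  have hY1 : Yv t j - 1 ≠ 0 := by
    have : Yv t j - 1 = ((t * ((j : ℕ) + 1) : ℝ) : ℂ) := by rw [Yv_eq]; push_cast; ring
    rw [this]
    have : (0 : ℝ) < t * ((j : ℕ) + 1) := by positivity
    exact_mod_cast this.ne'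
  have hY2 : Yv t j + 1 ≠ 0 := by
    have : Yv t j + 1 = ((2 + t * ((j : ℕ) + 1) : ℝ) : ℂ) := by rw [Yv_eq]; push_cast; ring
    rw [this]
    have : (0 : ℝ) < 2 + t * ((j : ℕ) + 1) := by positivity
    exact_mod_cast this.ne'
  unfold Rm
  simp only [Nat.add_sub_cancel]
  set Y := Yv t j
  have e1 : Y - Y⁻¹ = (Y - 1) * (Y + 1) * Y⁻¹ := by field_simp; ring
  have e2 : aa Y = Y * (Y - 1) := rfl
  have e3 : aa Y⁻¹ = -(Y⁻¹ ^ 2 * (Y - 1)) := by
    unfold aa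
    field_simp
    ring
  have e4 : aa Y ^ (K' + 1) / (Y - Y⁻¹) = aa Y ^ K' * (Y ^ 2 / (Y + 1)) := by
    rw [pow_succ, e1]
    nth_rewrite 2 [e2]
    field_simp
  have e5 : aa Y⁻¹ ^ (K' + 1) / (Y - Y⁻¹) = -(aa Y⁻¹ ^ K' * (Y⁻¹ / (Y + 1))) := by
    rw [pow_succ, e1]
    nth_rewrite 2 [e3]
    field_simp
  have e6 : ∀ p r u v : ℂ, (p * (aa Y ^ (K' + 1) * u) - r * (aa Y⁻¹ ^ (K' + 1) * v)) / (Y - Y⁻¹) =
      p * u * (aa Y ^ (K' + 1) / (Y - Y⁻¹)) - r * v * (aa Y⁻¹ ^ (K' + 1) / (Y - Y⁻¹)) := by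
    intro p r u v
    ring
  rw [e6, e4, e5]
  ring

end KL

open KL in
theorem t_KL (h : S_U) : S_KL := by
  intro m M
  have hP : Path (fun t => (vandermonde (al (M := M) t))⁻¹) (fun t => al t) :=
    path_of al_tendsto al_inj
  set A : ℝ → Matrix (Fin M) (Fin M) ℂ := fun t => (vandermonde (al (M := M) t))⁻¹ with hA
  set F : ℝ → Matrix (Fin M) (Fin M) ℂ := fun t =>
    Matrix.of fun i j => Kf m (bet (Yv t i)) (Yv t j) with hF
  -- the entries
  have hlim : ∀ k l : Fin M, Tendsto (fun t => LL (A t) (A t) (ep t) k l (F t)) (𝓝[>] 0)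
      (𝓝 (cc m k l : ℂ)) := by
    intro k l
    have h1 : Tendsto (fun t => ∑ p ∈ Finset.range (2 * M), ∑ r ∈ Finset.range (m + 2 * p + 1),
        (cc m p r : ℂ) * LL (A t) (A t) (ep t) k l
          (fun i j => (ep t * al t i) ^ p * (ep t * al t j) ^ r)) (𝓝[>] 0)
        (𝓝 (cc m k l : ℂ)) := by
      have h2 := tendsto_finsetSum (Finset.range (2 * M)) (fun p _ =>
        tendsto_finsetSum (Finset.range (m + 2 * p + 1)) (fun r _ =>
          (tendsto_mono hP k l p r).const_mul ((cc m p r : ℂ))))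
      convert h2 using 2
      rw [Finset.sum_eq_single (k : ℕ)]
      · by_cases hl : (l : ℕ) < m + 2 * k + 1
        · rw [Finset.sum_eq_single (l : ℕ)]
          · simp
          · intro b _ hb
            rw [if_neg (fun h' => hb h'.2.symm), mul_zero]
          · intro h'
            exact absurd (Finset.mem_range.2 hl) h'
        · rw [cc_zero (not_lt.1 hl), Nat.cast_zero, eq_comm]
          apply Finset.sum_eq_zero
          intro r hr
          rw [if_neg, mul_zero]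
          rintro ⟨-, h'⟩
          apply hl
          rw [h']
          exact Finset.mem_range.1 hr
      · intro b _ hb
        apply Finset.sum_eq_zero
        intro r _
        rw [if_neg (fun h' => hb h'.1.symm), mul_zero]
      · intro h'
        exfalso
        apply h'
        rw [Finset.mem_range]
        have := k.2
        omega
    have h3 := tendsto_rem hP k l
      (fun t i j => al t i ^ (2 * M) * Rm m (2 * M) (bet (Yv t i)) (Yv t j)) (fun i j => by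
        obtain ⟨r0, hr0⟩ := Rm_tendsto m (2 * M) (by have := i.2; omega) i j
        exact ⟨_, ((al_tendsto i).pow (2 * M)).mul hr0⟩)
    have h4 := h1.add h3
    rw [add_zero] at h4
    apply h4.congr'
    have hb : ∀ i : Fin M, Tendsto (fun t => bet (Yv t i)) (𝓝[>] 0) (𝓝 0) := by
      intro i
      have h1 : Tendsto (fun t => ep t * al t i) (𝓝[>] 0) (𝓝 (0 * (((i : ℕ) + 1 : ℂ) ^ 2))) :=
        tendsto_eps.mul (al_tendsto i)
      rw [zero_mul] at h1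
      exact h1.congr fun t => (bet_eq t i).symm
    have hne : ∀ᶠ t in 𝓝[>] (0 : ℝ), ∀ i j : Fin M, 1 - bet (Yv t i) * aa (Yv t j) ≠ 0 := by
      rw [eventually_all]; intro i; rw [eventually_all]; intro j
      have hY := Yv_tendsto (j : ℕ)
      have h1 := ((hb i).mul (hY.mul (hY.sub_const 1))).const_sub 1
      simp only [zero_mul, sub_zero] at h1
      exact h1.eventually_ne one_ne_zero
    have hne' : ∀ᶠ t in 𝓝[>] (0 : ℝ), ∀ i j : Fin M, 1 - bet (Yv t i) * aa (Yv t j)⁻¹ ≠ 0 := by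
      rw [eventually_all]; intro i; rw [eventually_all]; intro j
      have hY : Tendsto (fun t => (Yv t j)⁻¹) (𝓝[>] 0) (𝓝 1) := by
        simpa using (Yv_tendsto (j : ℕ)).inv₀ one_ne_zero
      have h1 := ((hb i).mul (hY.mul (hY.sub_const 1))).const_sub 1
      simp only [zero_mul, sub_zero] at h1
      exact h1.eventually_ne one_ne_zero
    filter_upwards [hne, hne', eventually_pos] with t e1 e2 ht
    have e3 : (F t : Fin M → Fin M → ℂ) = fun i j : Fin M =>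
        (∑ p ∈ Finset.range (2 * M), ∑ r ∈ Finset.range (m + 2 * p + 1),
          (cc m p r : ℂ) * ((ep t * al t i) ^ p * (ep t * al t j) ^ r)) +
        ep t ^ (2 * M) * (al t i ^ (2 * M) * Rm m (2 * M) (bet (Yv t i)) (Yv t j)) := by
      funext i j
      have hY0 := Yv_ne ht (j : ℕ)
      have hY1 : Yv t j - (Yv t j)⁻¹ ≠ 0 := by
        intro h0
        have h5 : Yv t j ^ 2 = 1 := by
          field_simp at h0
          linear_combination h0
        have h6 : Yv t j = ((1 + t * ((j : ℕ) + 1) : ℝ) : ℂ) := rfl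
        rw [h6] at h5
        have h7 : (1 + t * ((j : ℕ) + 1) : ℝ) ^ 2 = 1 := by exact_mod_cast h5
        have h8 : 0 < t * ((j : ℕ) + 1 : ℝ) := by positivity
        nlinarith
      show Kf m (bet (Yv t i)) (Yv t j) = _
      rw [Kf_expand h m (2 * M) _ _ hY0 hY1 (e1 i j) (e2 i j), bet_eq t i, bet_eq t j]
      ring
    rw [e3, LL_add, LL_sum]
    congr 1
    refine Finset.sum_congr rfl fun p _ => ?_
    rw [LL_sum]
    refine Finset.sum_congr rfl fun r _ => ?_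
    rw [LL_smul]
  have hdetlim : Tendsto (fun t => (Matrix.of fun k l : Fin M =>
      LL (A t) (A t) (ep t) k l (F t)).det) (𝓝[>] 0)
      (𝓝 (Matrix.of fun k l : Fin M => (cc m k l : ℂ)).det) := by
    refine ((Continuous.matrix_det continuous_id).tendsto _).comp ?_
    apply tendsto_pi_nhds.mpr; intro k
    apply tendsto_pi_nhds.mpr; intro l
    exact hlim k l
  apply hdetlim.congr'
  have hV : Tendsto (fun t => (vandermonde (al (M := M) t)).det) (𝓝[>] 0)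
      (𝓝 (vandermonde (fun i : Fin M => (((i : ℕ) + 1 : ℂ) ^ 2))).det) := by
    refine ((Continuous.matrix_det continuous_id).tendsto _).comp ?_
    apply tendsto_pi_nhds.mpr; intro i
    apply tendsto_pi_nhds.mpr; intro j
    exact (al_tendsto i).pow _
  have hV0 : (vandermonde (fun i : Fin M => (((i : ℕ) + 1 : ℂ) ^ 2))).det ≠ 0 :=
    det_vandermonde_ne_zero_iff.mpr al_inj
  filter_upwards [hP.inv, eventually_ne, hV.eventually_ne hV0] with t h1 h2 h3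
  have h4 := det_LL (A t) (A t) (vandermonde (al t)) (vandermonde (al t)) h1 h1 h2 (F t)
  have h5 : (vandermonde (fun i : Fin M => bet (Yv t i))).det =
      (∏ k : Fin M, ep t ^ (k : ℕ)) * (vandermonde (al (M := M) t)).det := by
    rw [← det_vandermonde_smul]
    congr 2
    funext i
    exact bet_eq t i
  have h6 : (∏ k : Fin M, ep t ^ (k : ℕ)) ≠ 0 :=
    Finset.prod_ne_zero_iff.2 fun k _ => pow_ne_zero _ h2
  show _ = (F t).det / (vandermonde (fun i : Fin M => bet (Yv t i))).det ^ 2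
  rw [h4, h5]
  field_simp

end Pool.Agent.W808.HB
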