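import Pool.Agent.W808.HB.T_B2

/-!
# HB: the lower bound in the half-plane
-/

set_option autoImplicit false

namespace Pool.Agent.W808.HB
open Filter Topology MeasureTheory

theorem t_LB (h1 : S_B1) (h2 : S_B2) (h7 : S_X7) (hA : S_AS) : S_LB := by
  intro m hm
  obtain ⟨c, C, hc, hC, hb⟩ := hA m
  obtain ⟨s, hs⟩ : ∃ s : ℝ, s = (m : ℝ) * (m - 1) / 6 := ⟨_, rfl⟩
  have hs0 : 0 ≤ s := by
    have : (1 : ℝ) ≤ m := by exact_mod_cast (by omega : 1 ≤ m)
    rw [hs]
    have : 0 ≤ (m : ℝ) - 1 := by linarith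
    positivity
  refine ⟨c * (4 : ℝ) ^ (-s), by positivity, fun R hR => ?_⟩
  rw [← hs]
  have e : m + 2 * (2 * R + m) = 4 * R + 3 * m := by ring
  have h3 : coinsH.real {ω | LegEv (m + 2 * (2 * R + m)) m ω} ≤
      coinsH.real {ω | HArm m R (fun p => ω (p.1 % ((m + 2 * (2 * R + m) : ℕ) : ℤ), p.2))} := by
    refine measureReal_mono ?_
    intro ω hω
    refine h1 _ m R hR (by omega) ?_ ω hω
    rw [Nat.add_sub_cancel_left]
    exact even_two_mul _
  rw [h7 m (2 * R + m) (by omega), h2 _ m R (by omega)] at h3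
  have h4 := (hb (2 * R + m)).1
  rw [← hs] at h4
  refine le_trans ?_ (h4.trans h3)
  have hR0 : (0 : ℝ) < R := by exact_mod_cast (by omega : 0 < R)
  rw [mul_assoc, ← Real.mul_rpow (by norm_num) hR0.le]
  refine mul_le_mul_of_nonneg_left ?_ hc.le
  refine Real.rpow_le_rpow_of_nonpos (by positivity) ?_ (by linarith)
  push_cast
  have h5 : (m : ℝ) ≤ R := by exact_mod_cast hR
  have h6 : (1 : ℝ) ≤ R := by exact_mod_cast (by omega : 1 ≤ R)
  linarith

end Pool.Agent.W808.HB
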