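import Pool.Agent.W808.HB.Stm

/-!
# The exact formula with legs at the boundary (task HB-T3)
-/

set_option autoImplicit false

namespace Pool.Agent.W808.HB
open Pool.Agent.H863R2.Cyl
open Pool.Agent.H988R2.Perc (Word PD)
open Pool.Agent.H160R2.ML (pfq Gn)

namespace TM1

/-! ### roots of unity -/

theorem q3 {q : ℂ} (hq : q ^ 2 + q + 1 = 0) : q ^ 3 = 1 := by linear_combination (q - 1) * hq

theorem q_ne {q : ℂ} (hq : q ^ 2 + q + 1 = 0) : q ≠ 0 := by
  rintro rfl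
  norm_num at hq

theorem q_ne1 {q : ℂ} (hq : q ^ 2 + q + 1 = 0) : q ≠ 1 := by
  rintro rfl
  norm_num at hq

/-! ### lists -/

theorem pfq_append (q x : ℂ) (A : List ℂ) :
    pfq q (A ++ [x]) = pfq q A * (A.map (fun a => q * x - q ^ 2 * a)).prod := by
  induction A with
  | nil => simp [pfq]
  | cons a A ih =>
    rw [List.cons_append, pfq, pfq, ih, List.map_append, List.prod_append, List.map_cons,
      List.prod_cons]
    simp only [List.map_cons, List.map_nil, List.prod_cons, List.prod_nil]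
    ring

theorem map_scale (A : List ℂ) (f g : ℂ → ℂ) (c : ℂ) (h : ∀ a, f a = c * g a) :
    (A.map f).prod = c ^ A.length * (A.map g).prod := by
  induction A with
  | nil => simp
  | cons a A ih =>
    rw [List.map_cons, List.prod_cons, ih, List.map_cons, List.prod_cons, List.length_cons, h a,
      pow_succ]
    ring

theorem map_mul (A : List ℂ) (f g h : ℂ → ℂ) (hf : ∀ a, f a = g a * h a) :
    (A.map f).prod = (A.map g).prod * (A.map h).prod := by
  induction A with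
  | nil => simp
  | cons a A ih =>
    rw [List.map_cons, List.prod_cons, ih, List.map_cons, List.prod_cons, List.map_cons,
      List.prod_cons, hf a]
    ring

theorem map_sq (A : List ℂ) (f g : ℂ → ℂ) (h : ∀ a, f a = g a ^ 2) :
    (A.map f).prod = (A.map g).prod ^ 2 := by
  rw [map_mul A f g g (fun a => by rw [h a]; ring)]
  ring

/-! ### pairs -/

theorem prs_nil : prs [] = [] := rfl

theorem prs_cons (x : ℂ) (l : List ℂ) : prs (x :: l) = x :: x⁻¹ :: prs l := rfl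

theorem prs_append (l m : List ℂ) : prs (l ++ m) = prs l ++ prs m := by
  unfold prs
  rw [List.flatMap_append]

theorem prs_len (l : List ℂ) : (prs l).length = 2 * l.length := by
  induction l with
  | nil => rfl
  | cons x l ih =>
    rw [prs_cons, List.length_cons, List.length_cons, ih, List.length_cons]
    ring

theorem prs_even (l : List ℂ) : Even (prs l).length := by
  rw [prs_len]
  exact even_two_mul _

theorem prs_perm {l l' : List ℂ} (h : l.Perm l') : (prs l).Perm (prs l') := by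
  induction h with
  | nil => exact List.Perm.refl _
  | cons x _ ih =>
    rw [prs_cons, prs_cons]
    exact (ih.cons _).cons _
  | swap x y l =>
    have e : ∀ u v : ℂ, prs (u :: v :: l) = [u, u⁻¹] ++ ([v, v⁻¹] ++ prs l) := fun _ _ => rfl
    rw [e, e, ← List.append_assoc, ← List.append_assoc]
    exact List.Perm.append_right _ List.perm_append_comm
  | trans _ _ ih1 ih2 => exact ih1.trans ih2

theorem mem_prs {u : ℂ} {l : List ℂ} (h : u ∈ prs l) : ∃ x ∈ l, u = x ∨ u = x⁻¹ := by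
  unfold prs at h
  rw [List.mem_flatMap] at h
  obtain ⟨x, hx, hu⟩ := h
  refine ⟨x, hx, ?_⟩
  simpa using hu

theorem prs_prod (f : ℂ → ℂ) (l : List ℂ) :
    ((prs l).map f).prod = (l.map (fun x => f x * f x⁻¹)).prod := by
  induction l with
  | nil => rfl
  | cons x l ih =>
    rw [prs_cons, List.map_cons, List.map_cons, List.prod_cons, List.prod_cons, ih, List.map_cons,
      List.prod_cons]
    ring

/-! ### generic lists -/

theorem Gn_perm {l l' : List ℂ} (h : l.Perm l') (hl : Gn l) : Gn l' :=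
  ⟨fun x hx => hl.1 x (h.mem_iff.2 hx), (h.map _).nodup_iff.1 hl.2⟩

theorem Gn_sub {l l' : List ℂ} (h : l'.Sublist l) (hl : Gn l) : Gn l' :=
  ⟨fun x hx => hl.1 x (h.subset hx), (h.map _).nodup hl.2⟩

theorem Gn_cons {a : ℂ} {l : List ℂ} (hl : Gn (a :: l)) : ∀ b ∈ l, a ^ 3 ≠ b ^ 3 := by
  intro b hb h
  have h2 := hl.2
  rw [List.map_cons, List.nodup_cons] at h2
  apply h2.1
  rw [h]
  exact List.mem_map_of_mem (f := fun x : ℂ => x ^ 3) hb

theorem Gn_append {l m : List ℂ} (hl : Gn (l ++ m)) : ∀ a ∈ l, ∀ b ∈ m, a ^ 3 ≠ b ^ 3 := by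
  intro a ha b hb h
  have h2 := hl.2
  rw [List.map_append, List.nodup_append] at h2
  exact h2.2.2 (a ^ 3) (List.mem_map_of_mem (f := fun x : ℂ => x ^ 3) ha) (b ^ 3)
    (List.mem_map_of_mem (f := fun x : ℂ => x ^ 3) hb) h

theorem Gn_inj {l : List ℂ} (hl : Gn l) {a b : ℂ} (ha : a ∈ l) (hb : b ∈ l) (h : a ^ 3 = b ^ 3) :
    a = b :=
  List.inj_on_of_nodup_map hl.2 ha hb h

/-! ### moving a leg -/

theorem move {q : ℂ} {e : ℕ → Word → ℂ} {Ψ : List ℂ → VW} (hL : S_legx)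
    (D : Dat q e Ψ) (z : List ℂ) (hz : Even z.length) (x : ℂ) (v : List ℂ) : ∀ u : List ℂ,
    (v.map (fun a => q * a - q ^ 2 * x)).prod * GG e Ψ (u ++ v ++ [x]) z =
      (v.map (fun a => q * x - q ^ 2 * a)).prod * GG e Ψ (u ++ x :: v) z := by
  induction v with
  | nil => intro u; simp
  | cons a v ih =>
    intro u
    have h1 := ih (u ++ [a])
    have h2 := hL q e Ψ D u v z x a hz
    have e2 : u ++ [a] ++ v ++ [x] = u ++ (a :: v) ++ [x] := by simp
    have e3 : u ++ [a] ++ x :: v = u ++ a :: x :: v := by simp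
    rw [e2, e3] at h1
    rw [List.map_cons, List.prod_cons, List.map_cons, List.prod_cons, mul_assoc, h1]
    linear_combination (v.map (fun a => q * x - q ^ 2 * a)).prod * h2

/-- the partition function vanishes if the last leg is `q` times another leg -/
theorem van {q : ℂ} {e : ℕ → Word → ℂ} {Ψ : List ℂ → VW} (hL : S_legx)
    (D : Dat q e Ψ) (z : List ℂ) (hz : Even z.length) (A : List ℂ) (hA : Gn A) (a : ℂ)
    (ha : a ∈ A) :
    GG e Ψ (A ++ [q * a]) z = 0 := by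
  have hq := D.hq
  have h3 : q ^ 3 = 1 := q3 hq
  obtain ⟨u, v, rfl⟩ := List.append_of_mem ha
  have hGv : ∀ b ∈ v, a ^ 3 ≠ b ^ 3 := Gn_cons (Gn_sub (List.sublist_append_right u (a :: v)) hA)
  have h1 := move hL D z hz (q * a) v (u ++ [a])
  have h2 := hL q e Ψ D u v z (q * a) a hz
  have ha0 : a ≠ 0 := hA.1 a ha
  have h4 : GG e Ψ (u ++ a :: (q * a) :: v) z = 0 := by
    have h5 : (q * a - q ^ 2 * (q * a)) * GG e Ψ (u ++ a :: (q * a) :: v) z = 0 := by
      rw [h2]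
      ring
    rcases mul_eq_zero.1 h5 with h6 | h6
    · exfalso
      have h7 : (q - 1) * a = 0 := by linear_combination h6 + a * h3
      rcases mul_eq_zero.1 h7 with h8 | h8
      · exact q_ne1 hq (sub_eq_zero.1 h8)
      · exact ha0 h8
    · exact h6
  have e2 : u ++ [a] ++ v ++ [q * a] = u ++ (a :: v) ++ [q * a] := by simp
  have e3 : u ++ [a] ++ (q * a) :: v = u ++ a :: (q * a) :: v := by simp
  rw [e2, e3, h4, mul_zero] at h1
  rcases mul_eq_zero.1 h1 with h6 | h6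
  · exfalso
    rw [List.prod_eq_zero_iff, List.mem_map] at h6
    obtain ⟨b, hb, h7⟩ := h6
    apply hGv b hb
    have h8 : a = q * b := by linear_combination -h7 - a * h3
    rw [h8, mul_pow, h3, one_mul]
  · exact h6

/-! ### Vandermonde products -/

/-- `∏_{i<j} (f i - f j)²` -/
noncomputable def V2 {M : ℕ} (f : Fin M → ℂ) : ℂ := ∏ i, ∏ j ∈ Finset.Ioi i, (f i - f j) ^ 2

theorem V2_eq {M : ℕ} (f : Fin M → ℂ) : V2 f = (Matrix.vandermonde f).det ^ 2 := by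
  rw [V2, Matrix.det_vandermonde, ← Finset.prod_pow]
  refine Finset.prod_congr rfl fun i _ => ?_
  rw [← Finset.prod_pow]
  refine Finset.prod_congr rfl fun j _ => ?_
  ring

theorem V2_perm {M : ℕ} (f : Fin M → ℂ) (s : Equiv.Perm (Fin M)) : V2 (f ∘ s) = V2 f := by
  have h : Matrix.vandermonde (f ∘ s) = (Matrix.vandermonde f).submatrix s id := rfl
  rw [V2_eq, V2_eq, h, Matrix.det_permute, mul_pow]
  have h2 : (((Equiv.Perm.sign s : ℤˣ) : ℤ) : ℂ) ^ 2 = 1 := by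
    rcases Int.units_eq_one_or (Equiv.Perm.sign s) with h | h <;> rw [h] <;> simp
  rw [h2, one_mul]

theorem V2_cons {M : ℕ} (a : ℂ) (f : Fin M → ℂ) :
    V2 (Fin.cons a f : Fin (M + 1) → ℂ) = (∏ j, (a - f j) ^ 2) * V2 f := by
  rw [V2, V2, Fin.prod_univ_succ, Fin.prod_Ioi_zero]
  simp only [Fin.cons_zero, Fin.cons_succ, Fin.prod_Ioi_succ]

/-- `x³ + x⁻³` -/
noncomputable def ef (x : ℂ) : ℂ := x ^ 3 + x⁻¹ ^ 3

theorem vdx_eq {M : ℕ} (x : Fin M → ℂ) : vdx x = V2 (fun i => Xf (x i)) := rfl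

theorem wdx_eq {M : ℕ} (x : Fin M → ℂ) : wdx x = V2 (fun i => ef (x i)) := rfl

theorem vdx_perm {M : ℕ} (x : Fin M → ℂ) (s : Equiv.Perm (Fin M)) : vdx (x ∘ s) = vdx x :=
  V2_perm (fun i => Xf (x i)) s

theorem wdx_perm {M : ℕ} (x : Fin M → ℂ) (s : Equiv.Perm (Fin M)) : wdx (x ∘ s) = wdx x :=
  V2_perm (fun i => ef (x i)) s

theorem comp_cons {M : ℕ} (g : ℂ → ℂ) (a : ℂ) (x : Fin M → ℂ) :
    (fun i => g ((Fin.cons a x : Fin (M + 1) → ℂ) i)) = (Fin.cons (g a) (fun i => g (x i)) :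
      Fin (M + 1) → ℂ) := by
  funext i
  refine Fin.cases ?_ (fun i => ?_) i <;> simp

theorem vdx_cons {M : ℕ} (a : ℂ) (x : Fin M → ℂ) :
    vdx (Fin.cons a x : Fin (M + 1) → ℂ) = (∏ j, (Xf a - Xf (x j)) ^ 2) * vdx x := by
  rw [vdx_eq, comp_cons, V2_cons, vdx_eq]

theorem wdx_cons {M : ℕ} (a : ℂ) (x : Fin M → ℂ) :
    wdx (Fin.cons a x : Fin (M + 1) → ℂ) = (∏ j, (ef a - ef (x j)) ^ 2) * wdx x := by
  rw [wdx_eq, comp_cons, V2_cons, wdx_eq]

theorem Xf_inv (x : ℂ) : Xf x⁻¹ = Xf x := by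
  unfold Xf
  rw [inv_inv]
  ring

theorem ef_inv (x : ℂ) : ef x⁻¹ = ef x := by
  unfold ef
  rw [inv_inv]
  ring

/-! ### the equation -/

/-- the formula for the legs `A` and the pairs `x` -/
def EQ (q : ℂ) (e : ℕ → Word → ℂ) (Ψ : List ℂ → VW) (m : ℕ) (A : List ℂ) {M : ℕ}
    (x : Fin M → ℂ) : Prop :=
  GG e Ψ A (prs (List.ofFn x)) * kap q m * vdx x ^ 2 = pfq q A * (wdx x * TT q A x)

theorem EQ_perm {q : ℂ} {e : ℕ → Word → ℂ} {Ψ : List ℂ → VW} (hsy : S_sym) (hTP : S_TP)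
    (D : Dat q e Ψ) {m : ℕ} {A : List ℂ} {M : ℕ} {x : Fin M → ℂ}
    (hG : Gn (prs (List.ofFn x))) (s : Equiv.Perm (Fin M)) :
    EQ q e Ψ m A (x ∘ s) ↔ EQ q e Ψ m A x := by
  have hpm : (List.ofFn (x ∘ s)).Perm (List.ofFn x) := Equiv.Perm.ofFn_comp_perm s x
  unfold EQ
  rw [← (hsy q e Ψ D A (List.ofFn x) hG).1 _ hpm.symm, vdx_perm, wdx_perm,
    (hTP q A M x).2.2.1 s]

theorem ofFn_cons {M : ℕ} (a : ℂ) (x : Fin M → ℂ) :
    List.ofFn (Fin.cons a x : Fin (M + 1) → ℂ) = a :: List.ofFn x := by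
  rw [List.ofFn_succ]
  simp

theorem EQ_inv {q : ℂ} {e : ℕ → Word → ℂ} {Ψ : List ℂ → VW} (hsy : S_sym) (hTP : S_TP)
    (D : Dat q e Ψ) {m : ℕ} {A : List ℂ} {M : ℕ} {x0 : ℂ} {x : Fin M → ℂ}
    (hG : Gn (prs (x0 :: List.ofFn x))) :
    EQ q e Ψ m A (Fin.cons x0⁻¹ x : Fin (M + 1) → ℂ) ↔
      EQ q e Ψ m A (Fin.cons x0 x : Fin (M + 1) → ℂ) := by
  have hx0 : x0 ≠ 0 := hG.1 x0 (by rw [prs_cons]; exact List.mem_cons_self)
  unfold EQ
  have h1 : GG e Ψ A (prs (x0⁻¹ :: List.ofFn x)) = GG e Ψ A (prs (x0 :: List.ofFn x)) :=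
    (hsy q e Ψ D A (x0 :: List.ofFn x) hG).2 [] (List.ofFn x) x0 rfl
  have h2 := (hTP q A (M + 1) (Fin.cons x0 x : Fin (M + 1) → ℂ)).2.2.2.1 0
    (by rw [Fin.cons_zero]; exact hx0)
  rw [Fin.cons_zero, Fin.update_cons_zero] at h2
  rw [ofFn_cons, ofFn_cons, h1, h2, vdx_cons, vdx_cons, wdx_cons, wdx_cons, Xf_inv, ef_inv]

/-! ### identities -/

theorem e_fac {q : ℂ} (hq : q ^ 2 + q + 1 = 0) {y x : ℂ} (hy : y ≠ 0) (hx : x ≠ 0) :
    ef y - ef x = (Xf y - Xf x) * ((Xf x - Yf q y) * (Xf x - Yf q y⁻¹)) := by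
  have h3 : q ^ 3 = 1 := q3 hq
  have hy1 : y * y⁻¹ = 1 := mul_inv_cancel₀ hy
  have hx1 : x * x⁻¹ = 1 := mul_inv_cancel₀ hx
  unfold ef Xf Yf
  rw [inv_inv]
  generalize y⁻¹ = Y at *
  generalize x⁻¹ = X at *
  have e1 : ((x + X) - (q ^ 2 * y + q * Y)) * ((x + X) - (q ^ 2 * Y + q * y))
      = (x + X) ^ 2 + (y + Y) * (x + X) + (y + Y) ^ 2 - 3 := by
    linear_combination (-(y + Y) * (x + X) + (q ^ 2 - q + 1)) * hq + (y ^ 2 + Y ^ 2) * h3
      + (q ^ 4 + q ^ 2 - 2) * hy1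
  have e2 : y ^ 3 + Y ^ 3 = (y + Y) ^ 3 - 3 * (y + Y) := by
    linear_combination (-3 * (y + Y)) * hy1
  have e3 : x ^ 3 + X ^ 3 = (x + X) ^ 3 - 3 * (x + X) := by
    linear_combination (-3 * (x + X)) * hx1
  linear_combination e2 - e3 - ((y + Y) - (x + X)) * e1

theorem q_fac1 {q : ℂ} (hq : q ^ 2 + q + 1 = 0) {x0 x : ℂ} (h0 : x0 ≠ 0) (hx : x ≠ 0) :
    (x - q * x0) * (x⁻¹ - q * x0) = -(q * x0) * (Xf x - Yf q x0⁻¹) := by
  have h3 : q ^ 3 = 1 := q3 hq
  have hy1 : x0 * x0⁻¹ = 1 := mul_inv_cancel₀ h0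
  have hx1 : x * x⁻¹ = 1 := mul_inv_cancel₀ hx
  unfold Xf Yf
  rw [inv_inv]
  linear_combination hx1 - q ^ 3 * hy1 - h3

theorem q_fac2 {q : ℂ} (hq : q ^ 2 + q + 1 = 0) {x0 x : ℂ} (h0 : x0 ≠ 0) (hx : x ≠ 0) :
    (x - q ^ 2 * x0⁻¹) * (x⁻¹ - q ^ 2 * x0⁻¹) = -(q ^ 2 * x0⁻¹) * (Xf x - Yf q x0⁻¹) := by
  have h3 : q ^ 3 = 1 := q3 hq
  have hy1 : x0 * x0⁻¹ = 1 := mul_inv_cancel₀ h0
  have hx1 : x * x⁻¹ = 1 := mul_inv_cancel₀ hx
  unfold Xf Yf
  rw [inv_inv]
  linear_combination hx1 - q ^ 3 * hy1 - h3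

/-! ### the fields of the recursion -/

/-- `∏_j (X_j - Y)` -/
noncomputable def YY {M : ℕ} (x : Fin M → ℂ) (Y : ℂ) : ℂ := ∏ j, (Xf (x j) - Y)

theorem wdx_cons' {q : ℂ} (hq : q ^ 2 + q + 1 = 0) {M : ℕ} {a : ℂ} {x : Fin M → ℂ} (ha : a ≠ 0)
    (hx : ∀ j, x j ≠ 0) :
    wdx (Fin.cons a x : Fin (M + 1) → ℂ) =
      (∏ j, (Xf a - Xf (x j)) ^ 2) * (YY x (Yf q a) ^ 2 * YY x (Yf q a⁻¹) ^ 2) * wdx x := by
  rw [wdx_cons]
  congr 1
  rw [YY, YY, ← Finset.prod_pow, ← Finset.prod_pow, ← Finset.prod_mul_distrib,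
    ← Finset.prod_mul_distrib]
  refine Finset.prod_congr rfl fun j _ => ?_
  rw [e_fac hq ha (hx j)]
  ring

theorem sq_prod {M : ℕ} (x : Fin M → ℂ) (t c Y : ℂ)
    (h : ∀ j, (x j - t) * ((x j)⁻¹ - t) = c * (Xf (x j) - Y)) :
    ((prs (List.ofFn x)).map (fun y => (y - t) ^ 2)).prod = c ^ (2 * M) * YY x Y ^ 2 := by
  rw [prs_prod, List.map_ofFn, List.prod_ofFn, YY, ← Finset.prod_pow]
  have e : c ^ (2 * M) = ∏ _j : Fin M, c ^ 2 := by
    rw [Finset.prod_const, Finset.card_univ, Fintype.card_fin, ← pow_mul]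
  rw [e, ← Finset.prod_mul_distrib]
  refine Finset.prod_congr rfl fun j _ => ?_
  simp only [Function.comp]
  rw [← mul_pow, h j]
  ring

/-! ### evaluation at `q² x₀` -/

/-- the statement for `M` pairs and `m` legs -/
def Form (q : ℂ) (e : ℕ → Word → ℂ) (Ψ : List ℂ → VW) (m M : ℕ) : Prop :=
  ∀ (A : List ℂ) (x : Fin M → ℂ), A.length = m → Gn (A ++ prs (List.ofFn x)) → EQ q e Ψ m A x

theorem evR {q : ℂ} {e : ℕ → Word → ℂ} {Ψ : List ℂ → VW} (hR : S_mvR) (hTP : S_TP) (hTR : S_TR)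
    (D : Dat q e Ψ) {m M p : ℕ} (hm : p + 1 = m) (hF : Form q e Ψ m M)
    (A : List ℂ) (x0 : ℂ) (x : Fin M → ℂ) (hA : A.length = p)
    (hG : Gn (A ++ prs (x0 :: List.ofFn x))) :
    EQ q e Ψ m (A ++ [q ^ 2 * x0]) (Fin.cons x0 x : Fin (M + 1) → ℂ) := by
  have hq := D.hq
  have h3 : q ^ 3 = 1 := q3 hq
  have hGp : Gn (prs (x0 :: List.ofFn x)) := Gn_sub (List.sublist_append_right _ _) hG
  have hx0 : x0 ≠ 0 := hGp.1 x0 (by rw [prs_cons]; exact List.mem_cons_self)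
  have hx : ∀ j, x j ≠ 0 := fun j => hGp.1 (x j) (by
    unfold prs
    rw [List.mem_flatMap]
    exact ⟨x j, List.mem_cons_of_mem _ (List.mem_ofFn.2 ⟨j, rfl⟩), List.mem_cons_self⟩)
  have e0 : q * (q ^ 2 * x0) = x0 := by linear_combination x0 * h3
  have hmv := hR q e Ψ D A (prs (List.ofFn x)) (q ^ 2 * x0) x0⁻¹ (prs_even _)
  rw [e0] at hmv
  have hIH := hF (A ++ [x0⁻¹]) x (by rw [List.length_append, List.length_singleton, hA]; exact hm)
    (by
      refine Gn_sub ?_ hG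
      rw [List.append_assoc, prs_cons]
      refine List.Sublist.append_left ?_ A
      exact List.sublist_cons_self _ _)
  have hT := hTR q hq A M x0 x hGp
  have hT1 : TT q (A ++ [q ^ 2 * x0]) (Fin.cons x0 x : Fin (M + 1) → ℂ) =
      TT q ((q ^ 2 * x0) :: A) (Fin.cons x0 x : Fin (M + 1) → ℂ) :=
    (hTP q (A ++ [q ^ 2 * x0]) (M + 1) _).2.1 _ (List.perm_append_singleton _ _)
  have hT2 : TT q (A ++ [x0⁻¹]) x = TT q (x0⁻¹ :: A) x :=
    (hTP q (A ++ [x0⁻¹]) M x).2.1 _ (List.perm_append_singleton _ _)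
  have hfac : fac q (q ^ 2 * x0) (A ++ x0⁻¹ :: prs (List.ofFn x)) =
      q ^ 2 * x0 * (((A.map (fun b => b - q * x0)).prod) ^ 2 * ((x0⁻¹ - q * x0) ^ 2 *
        ((-(q * x0)) ^ (2 * M) * YY x (Yf q x0⁻¹) ^ 2))) := by
    have e4 : q ^ 2 * (q ^ 2 * x0) = q * x0 := by linear_combination (q * x0) * h3
    unfold fac
    rw [List.map_append, List.prod_append, List.map_cons, List.prod_cons, e4,
      map_sq A _ (fun b => b - q * x0) (fun b => rfl),
      sq_prod x (q * x0) (-(q * x0)) (Yf q x0⁻¹) (fun j => q_fac1 hq hx0 (hx j))]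
  have hp1 : pfq q (A ++ [x0⁻¹]) = pfq q A * ((-q ^ 2) ^ p *
      (A.map (fun b => b - q ^ 2 * x0⁻¹)).prod) := by
    rw [pfq_append, map_scale A _ (fun b => b - q ^ 2 * x0⁻¹) (-q ^ 2) (fun b => by
      linear_combination (-q * x0⁻¹) * h3), hA]
  have hp2 : pfq q (A ++ [q ^ 2 * x0]) = pfq q A * ((-q ^ 2) ^ p *
      (A.map (fun b => b - q * x0)).prod) := by
    rw [pfq_append, map_scale A _ (fun b => b - q * x0) (-q ^ 2) (fun b => by ring), hA]
  have hlp : lp q A x0 = (A.map (fun b => b - q * x0)).prod *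
      (A.map (fun b => b - q ^ 2 * x0⁻¹)).prod :=
    map_mul A _ _ _ (fun b => rfl)
  have hY : ∏ j, (Xf (x j) - Yf q x0) ^ 2 = YY x (Yf q x0) ^ 2 := by
    rw [YY, ← Finset.prod_pow]
  unfold EQ at hIH ⊢
  rw [ofFn_cons, prs_cons, hmv, hfac, hT1, hp2, vdx_cons, wdx_cons' hq hx0 hx]
  rw [hT2, hp1] at hIH
  rw [hY, hlp] at hT
  have e5 : (-(q * x0)) ^ (2 * M) = q ^ (2 * M) * x0 ^ (2 * M) := by
    rw [Even.neg_pow (even_two_mul M), mul_pow]
  rw [e5]
  have e6 : q ^ (2 * M + 2) = q ^ (2 * M) * q ^ 2 := pow_add _ _ _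
  have e7 : x0 ^ (2 * M + 1) = x0 ^ (2 * M) * x0 := pow_succ _ _
  rw [e6, e7] at hT
  generalize GG e Ψ (A ++ [x0⁻¹]) (prs (List.ofFn x)) = G at *
  generalize TT q ((q ^ 2 * x0) :: A) (Fin.cons x0 x : Fin (M + 1) → ℂ) = T1 at *
  generalize TT q (x0⁻¹ :: A) x = T2 at *
  generalize YY x (Yf q x0) = Y1 at *
  generalize YY x (Yf q x0⁻¹) = Y2 at *
  generalize (∏ j, (Xf x0 - Xf (x j)) ^ 2) = E at *
  generalize (A.map (fun b => b - q * x0)).prod = LA at *
  generalize (A.map (fun b => b - q ^ 2 * x0⁻¹)).prod = LB at *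
  generalize (-q ^ 2) ^ p = qp at *
  generalize q ^ (2 * M) = qm at *
  generalize x0 ^ (2 * M) = xm at *
  linear_combination (q ^ 2 * x0 * LA ^ 2 * (x0⁻¹ - q * x0) ^ 2 * qm * xm * Y2 ^ 2 * E ^ 2) * hIH -
    (pfq q A * qp * LA * E * Y2 ^ 2 * wdx x) * hT

/-! ### evaluation at `q / x₀` -/

theorem evL {q : ℂ} {e : ℕ → Word → ℂ} {Ψ : List ℂ → VW} (hlx : S_legx) (hsy : S_sym)
    (hL : S_mvL) (hTP : S_TP) (hTR : S_TR)
    (D : Dat q e Ψ) {m M p : ℕ} (hm : p + 1 = m) (hF : Form q e Ψ m M)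
    (A : List ℂ) (x0 : ℂ) (x : Fin M → ℂ) (hA : A.length = p)
    (hG : Gn (A ++ prs (x0 :: List.ofFn x))) :
    EQ q e Ψ m (A ++ [q * x0⁻¹]) (Fin.cons x0 x : Fin (M + 1) → ℂ) := by
  have hq := D.hq
  have h3 : q ^ 3 = 1 := q3 hq
  have hq0 : q ≠ 0 := q_ne hq
  have hGp : Gn (prs (x0 :: List.ofFn x)) := Gn_sub (List.sublist_append_right _ _) hG
  have hx0 : x0 ≠ 0 := hGp.1 x0 (by rw [prs_cons]; exact List.mem_cons_self)
  have hx : ∀ j, x j ≠ 0 := fun j => hGp.1 (x j) (by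
    unfold prs
    rw [List.mem_flatMap]
    exact ⟨x j, List.mem_cons_of_mem _ (List.mem_ofFn.2 ⟨j, rfl⟩), List.mem_cons_self⟩)
  have hsym := (hsy q e Ψ D ((q * x0⁻¹) :: A) (x0 :: List.ofFn x) hGp).1 (List.ofFn x ++ [x0])
    (List.perm_append_singleton x0 (List.ofFn x)).symm
  have hpr : prs (List.ofFn x ++ [x0]) = prs (List.ofFn x) ++ [x0, x0⁻¹] := by
    rw [prs_append, prs_cons, prs_nil]
  have hmv := hL q e Ψ D A (prs (List.ofFn x)) x0 x0⁻¹ (prs_even _)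
  have hmove := move hlx D (prs (x0 :: List.ofFn x)) (prs_even _) (q * x0⁻¹) A []
  rw [List.nil_append, List.nil_append, hsym, hpr, hmv] at hmove
  have hL0 : (A.map (fun a => q * a - q ^ 2 * (q * x0⁻¹))).prod =
      q ^ p * (A.map (fun b => b - q ^ 2 * x0⁻¹)).prod := by
    rw [map_scale A _ (fun a => a - q ^ 2 * x0⁻¹) q (fun a => by ring), hA]
  have hLne : (A.map (fun b => b - q ^ 2 * x0⁻¹)).prod ≠ 0 := by
    rw [Ne, List.prod_eq_zero_iff, List.mem_map]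
    rintro ⟨a, ha, h0⟩
    have h1 := Gn_append hG a ha x0⁻¹ (by
      rw [prs_cons]
      exact List.mem_cons_of_mem _ List.mem_cons_self)
    apply h1
    rw [sub_eq_zero.1 h0]
    calc (q ^ 2 * x0⁻¹) ^ 3 = (q ^ 3) ^ 2 * x0⁻¹ ^ 3 := by ring
      _ = x0⁻¹ ^ 3 := by rw [h3]; ring
  have hIH := hF (x0 :: A) x (by rw [List.length_cons, hA]; exact hm)
    (by
      refine Gn_perm (List.perm_middle (l₁ := A) (l₂ := prs (List.ofFn x)) (a := x0)) ?_
      refine Gn_sub ?_ hG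
      refine List.Sublist.append_left ?_ A
      rw [prs_cons]
      exact (List.sublist_cons_self _ _).cons_cons _)
  have hT := hTR q hq A M x0 x hGp
  have hcx : ∀ i, (Fin.cons x0 x : Fin (M + 1) → ℂ) i ≠ 0 := by
    intro i
    refine Fin.cases ?_ (fun i => ?_) i
    · rw [Fin.cons_zero]; exact hx0
    · rw [Fin.cons_succ]; exact hx i
  have hT1 : TT q (A ++ [q * x0⁻¹]) (Fin.cons x0 x : Fin (M + 1) → ℂ) =
      TT q ((q * x0⁻¹) :: A) (Fin.cons x0 x : Fin (M + 1) → ℂ) :=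
    (hTP q (A ++ [q * x0⁻¹]) (M + 1) _).2.1 _ (List.perm_append_singleton _ _)
  have hT3 := (hTP q A (M + 1) (Fin.cons x0 x : Fin (M + 1) → ℂ)).2.2.2.2.1 hq hcx (q * x0⁻¹)
    (mul_ne_zero hq0 (inv_ne_zero hx0))
  have ei : (q * x0⁻¹)⁻¹ = q ^ 2 * x0 := by
    rw [mul_inv, inv_inv]
    have : q⁻¹ = q ^ 2 := inv_eq_of_mul_eq_one_right (by linear_combination h3)
    rw [this]
  rw [ei] at hT3
  have hT2 := (hTP q A M x).2.2.2.2.1 hq hx x0 hx0
  have hfac : fac q x0⁻¹ (A ++ prs (List.ofFn x) ++ [x0]) =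
      x0⁻¹ * (((A.map (fun b => b - q ^ 2 * x0⁻¹)).prod) ^ 2 *
        ((-(q ^ 2 * x0⁻¹)) ^ (2 * M) * YY x (Yf q x0⁻¹) ^ 2) * (x0 - q ^ 2 * x0⁻¹) ^ 2) := by
    unfold fac
    rw [List.map_append, List.prod_append, List.map_append, List.prod_append, List.map_singleton,
      List.prod_singleton, map_sq A _ (fun b => b - q ^ 2 * x0⁻¹) (fun b => rfl),
      sq_prod x (q ^ 2 * x0⁻¹) (-(q ^ 2 * x0⁻¹)) (Yf q x0⁻¹) (fun j => q_fac2 hq hx0 (hx j))]
  have hp1 : pfq q (x0 :: A) = q ^ p * (A.map (fun b => b - q * x0)).prod * pfq q A := by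
    rw [pfq, map_scale A _ (fun b => b - q * x0) q (fun b => by ring), hA]
  have hp2 : pfq q (A ++ [q * x0⁻¹]) = pfq q A *
      (A.map (fun a => q * (q * x0⁻¹) - q ^ 2 * a)).prod := pfq_append _ _ _
  have hlp : lp q A x0 = (A.map (fun b => b - q * x0)).prod *
      (A.map (fun b => b - q ^ 2 * x0⁻¹)).prod :=
    map_mul A _ _ _ (fun b => rfl)
  have hY : ∏ j, (Xf (x j) - Yf q x0) ^ 2 = YY x (Yf q x0) ^ 2 := by
    rw [YY, ← Finset.prod_pow]
  have e5 : (-(q ^ 2 * x0⁻¹)) ^ (2 * M) = (q ^ (2 * M)) ^ 2 * x0⁻¹ ^ (2 * M) := by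
    rw [Even.neg_pow (even_two_mul M), mul_pow, ← pow_mul, ← pow_mul, mul_comm 2 (2 * M)]
  have e6 : q ^ (2 * M + 2) = q ^ (2 * M) * q ^ 2 := pow_add _ _ _
  have e7 : x0 ^ (2 * M + 1) = x0 ^ (2 * M) * x0 := pow_succ _ _
  have e8 : (q * x0⁻¹) ^ (2 * (M + 1)) = q ^ (2 * M) * x0⁻¹ ^ (2 * M) * (q ^ 2 * x0⁻¹ ^ 2) := by
    ring
  have hyx : x0⁻¹ * x0 = 1 := inv_mul_cancel₀ hx0
  rw [e8] at hT3
  rw [hL0, hfac, e5] at hmove
  rw [hY, hlp, e6, e7] at hT
  unfold EQ at hIH ⊢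
  rw [hp1, ← hT2] at hIH
  rw [ofFn_cons, hT1, ← hT3, hp2, vdx_cons, wdx_cons' hq hx0 hx]
  have hne : q ^ p * (A.map (fun b => b - q ^ 2 * x0⁻¹)).prod ≠ 0 :=
    mul_ne_zero (pow_ne_zero _ hq0) hLne
  refine mul_left_cancel₀ hne ?_
  generalize GG e Ψ (A ++ [q * x0⁻¹]) (prs (x0 :: List.ofFn x)) = G0 at *
  generalize GG e Ψ (x0 :: A) (prs (List.ofFn x)) = G at *
  generalize TT q ((q ^ 2 * x0) :: A) (Fin.cons x0 x : Fin (M + 1) → ℂ) = T1 at *
  generalize TT q (x0⁻¹ :: A) x = T2 at *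
  generalize YY x (Yf q x0) = Y1 at *
  generalize YY x (Yf q x0⁻¹) = Y2 at *
  generalize (∏ j, (Xf x0 - Xf (x j)) ^ 2) = E at *
  generalize (A.map (fun b => b - q * x0)).prod = LC at *
  generalize (A.map (fun b => b - q ^ 2 * x0⁻¹)).prod = LB at *
  generalize (A.map (fun a => q * (q * x0⁻¹) - q ^ 2 * a)).prod = Pi at *
  generalize q ^ p = qp at *
  generalize q ^ (2 * M) = qm at *
  generalize x0 ^ (2 * M) = xm at *
  generalize x0⁻¹ ^ (2 * M) = ym at *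
  linear_combination (kap q m * E ^ 2 * vdx x ^ 2) * hmove +
    (Pi * x0⁻¹ * LB ^ 2 * qm ^ 2 * ym * Y2 ^ 2 * (x0 - q ^ 2 * x0⁻¹) ^ 2 * E ^ 2) * hIH -
    (qp * LB * pfq q A * Pi * E * Y2 ^ 2 * wdx x * (qm * ym * (q ^ 2 * x0⁻¹ ^ 2))) * hT +
    (Pi * LB ^ 2 * qm ^ 2 * ym * xm * Y2 ^ 2 * E ^ 2 * qp * LC * pfq q A * wdx x * T2 * x0⁻¹) *
      (-(q ^ 4 * (x0⁻¹ - q * x0) ^ 2) * hyx - x0 * (x0 + q ^ 3 * x0 - 2 * q ^ 2 * x0⁻¹) * h3)

/-! ### interpolation -/

theorem deg_lin (q : ℂ) (A : List ℂ) :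
    ((A.map (fun a => Polynomial.C q * Polynomial.X - Polynomial.C (q ^ 2 * a))).prod).natDegree
      ≤ A.length := by
  induction A with
  | nil => simp
  | cons a A ih =>
    rw [List.map_cons, List.prod_cons, List.length_cons]
    refine Polynomial.natDegree_mul_le.trans ?_
    have h : (Polynomial.C q * Polynomial.X - Polynomial.C (q ^ 2 * a)).natDegree ≤ 1 := by
      compute_degree
    omega

theorem eval_lin (q x : ℂ) (A : List ℂ) :
    ((A.map (fun a => Polynomial.C q * Polynomial.X - Polynomial.C (q ^ 2 * a))).prod).eval x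
      = (A.map (fun a => q * x - q ^ 2 * a)).prod := by
  induction A with
  | nil => simp
  | cons a A ih =>
    rw [List.map_cons, List.prod_cons, Polynomial.eval_mul, ih, List.map_cons, List.prod_cons]
    simp

theorem step {q : ℂ} {e : ℕ → Word → ℂ} {Ψ : List ℂ → VW} (hlx : S_legx) (hsy : S_sym)
    (hR : S_mvR) (hL : S_mvL) (hd : S_deg) (hTP : S_TP) (hTR : S_TR)
    (D : Dat q e Ψ) {m M : ℕ} (hm : 1 ≤ m) (hF : Form q e Ψ m M) : Form q e Ψ m (M + 1) := by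
  intro A0 x hA0 hG
  have hq := D.hq
  have h3 : q ^ 3 = 1 := q3 hq
  have hq0 : q ≠ 0 := q_ne hq
  obtain ⟨A, a, rfl⟩ : ∃ A a, A0 = A ++ [a] := by
    rcases List.eq_nil_or_concat A0 with h | ⟨A, a, h⟩
    · rw [h, List.length_nil] at hA0
      omega
    · exact ⟨A, a, by rw [h, List.concat_eq_append]⟩
  obtain ⟨p, hp⟩ : ∃ p, p + 1 = m := ⟨m - 1, by omega⟩
  have hA : A.length = p := by
    rw [List.length_append, List.length_singleton] at hA0
    omega
  have hG' : Gn (A ++ prs (List.ofFn x)) := by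
    refine Gn_sub ?_ hG
    rw [List.append_assoc]
    exact List.Sublist.append_left (List.sublist_append_right [a] _) A
  have hGA : Gn A := Gn_sub (List.sublist_append_left A _) hG'
  have hGz : Gn (prs (List.ofFn x)) := Gn_sub (List.sublist_append_right _ _) hG'
  have hGAz : ∀ b ∈ A, ∀ c ∈ prs (List.ofFn x), b ^ 3 ≠ c ^ 3 := Gn_append hG'
  -- the values
  have key0 : ∀ (x0 : ℂ) (x1 : Fin M → ℂ), Gn (A ++ prs (x0 :: List.ofFn x1)) →
      EQ q e Ψ m (A ++ [q ^ 2 * x0]) (Fin.cons x0 x1 : Fin (M + 1) → ℂ) :=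
    fun x0 x1 h => evR hR hTP hTR D hp hF A x0 x1 hA h
  have hsw : ∀ j : Fin (M + 1), ∃ x1 : Fin M → ℂ,
      (Fin.cons (x j) x1 : Fin (M + 1) → ℂ) = x ∘ Equiv.swap 0 j ∧
      (x j :: List.ofFn x1).Perm (List.ofFn x) := by
    intro j
    have e1 : (x ∘ Equiv.swap 0 j) 0 = x j := by simp
    have e2 : (Fin.cons (x j) (Fin.tail (x ∘ Equiv.swap 0 j)) : Fin (M + 1) → ℂ) =
        x ∘ Equiv.swap 0 j := by
      rw [← e1]
      exact Fin.cons_self_tail _
    refine ⟨Fin.tail (x ∘ Equiv.swap 0 j), e2, ?_⟩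
    rw [← ofFn_cons, e2]
    exact Equiv.Perm.ofFn_comp_perm (Equiv.swap 0 j) x
  have keyj : ∀ j : Fin (M + 1), EQ q e Ψ m (A ++ [q ^ 2 * x j]) x := by
    intro j
    obtain ⟨x1, h1, h2⟩ := hsw j
    have h := key0 (x j) x1 (Gn_perm (List.Perm.append_left A (prs_perm h2.symm)) hG')
    rw [h1, EQ_perm hsy hTP D hGz] at h
    exact h
  have keyj' : ∀ j : Fin (M + 1), EQ q e Ψ m (A ++ [q ^ 2 * (x j)⁻¹]) x := by
    intro j
    obtain ⟨x1, h1, h2⟩ := hsw j
    have h := key0 (x j)⁻¹ x1 (by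
      refine Gn_perm ?_ hG'
      refine (List.Perm.append_left A (prs_perm h2.symm)).trans (List.Perm.append_left A ?_)
      rw [prs_cons, prs_cons, inv_inv]
      exact List.Perm.swap _ _ _)
    rw [EQ_inv hsy hTP D (Gn_perm (prs_perm h2.symm) hGz), h1, EQ_perm hsy hTP D hGz] at h
    exact h
  have keyL : EQ q e Ψ m (A ++ [q * (x 0)⁻¹]) x := by
    have e1 : List.ofFn x = x 0 :: List.ofFn (Fin.tail x) := List.ofFn_succ
    have e2 : (Fin.cons (x 0) (Fin.tail x) : Fin (M + 1) → ℂ) = x := Fin.cons_self_tail x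
    have h := evL hlx hsy hL hTP hTR D hp hF A (x 0) (Fin.tail x) hA (by rw [← e1]; exact hG')
    rw [e2] at h
    exact h
  have keyA : ∀ b ∈ A, EQ q e Ψ m (A ++ [q * b]) x := by
    intro b hb
    have h1 := van hlx D (prs (List.ofFn x)) (prs_even _) A hGA b hb
    have h2 : pfq q (A ++ [q * b]) = 0 := by
      rw [pfq_append]
      have h4 : (A.map (fun a => q * (q * b) - q ^ 2 * a)).prod = 0 := by
        rw [List.prod_eq_zero_iff, List.mem_map]
        exact ⟨b, hb, by ring⟩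
      rw [h4, mul_zero]
    unfold EQ
    rw [h1, h2]
    ring
  -- the polynomial
  obtain ⟨P1, hP1d, hP1⟩ := hd q e Ψ D A [] (prs (List.ofFn x))
  obtain ⟨⟨PT, hPTd, hPT⟩, -⟩ := hTP q A (M + 1) x
  have hlen : (prs (List.ofFn x)).length = 2 * (M + 1) := by rw [prs_len, List.length_ofFn]
  rw [hA, List.length_nil, hlen] at hP1d
  set K : ℂ := pfq q A * wdx x with hK
  set P : Polynomial ℂ := P1 * Polynomial.C (kap q m * vdx x ^ 2) - Polynomial.C K *
    ((A.map (fun a => Polynomial.C q * Polynomial.X - Polynomial.C (q ^ 2 * a))).prod * PT) with hPdef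
  have hPd : P.natDegree ≤ p + 2 * (M + 1) := by
    refine (Polynomial.natDegree_sub_le _ _).trans (max_le ?_ ?_)
    · exact (Polynomial.natDegree_mul_C_le _ _).trans (by omega)
    · refine (Polynomial.natDegree_C_mul_le _ _).trans (Polynomial.natDegree_mul_le.trans ?_)
      have := deg_lin q A
      rw [hA] at this
      omega
  have hPe : ∀ y, P.eval y = GG e Ψ (A ++ [y]) (prs (List.ofFn x)) * kap q m * vdx x ^ 2 -
      pfq q (A ++ [y]) * (wdx x * TT q (A ++ [y]) x) := by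
    intro y
    have hT1 : TT q (A ++ [y]) x = TT q (y :: A) x :=
      (hTP q (A ++ [y]) (M + 1) x).2.1 _ (List.perm_append_singleton _ _)
    rw [hPdef, Polynomial.eval_sub, Polynomial.eval_mul, Polynomial.eval_C, Polynomial.eval_mul,
      Polynomial.eval_C, Polynomial.eval_mul, hP1, hPT, eval_lin, pfq_append, hT1, hK]
    ring
  have hzero : P = 0 := by
    set L : List ℂ := A.map (fun a => q * a) ++ ((prs (List.ofFn x)).map (fun u => q ^ 2 * u) ++
      [q * (x 0)⁻¹]) with hLd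
    have hinj : ∀ u v : ℂ, u ^ 3 ≠ v ^ 3 → ∀ i j : ℕ, q ^ i * u ≠ q ^ j * v := by
      intro u v huv i j h
      apply huv
      have h4 : (q ^ i * u) ^ 3 = (q ^ j * v) ^ 3 := by rw [h]
      have h5 : (q ^ i * u) ^ 3 = (q ^ 3) ^ i * u ^ 3 := by ring
      have h6 : (q ^ j * v) ^ 3 = (q ^ 3) ^ j * v ^ 3 := by ring
      rw [h5, h6, h3, one_pow, one_pow, one_mul, one_mul] at h4
      exact h4
    have hz0 : (x 0)⁻¹ ∈ prs (List.ofFn x) := by
      unfold prs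
      rw [List.mem_flatMap]
      exact ⟨x 0, List.mem_ofFn.2 ⟨0, rfl⟩, List.mem_cons_of_mem _ List.mem_cons_self⟩
    have hnd : L.Nodup := by
      rw [hLd, List.nodup_append, List.nodup_append]
      refine ⟨?_, ⟨?_, List.nodup_singleton _, ?_⟩, ?_⟩
      · exact (List.Nodup.of_map _ hGA.2).map (mul_right_injective₀ hq0)
      · exact (List.Nodup.of_map _ hGz.2).map (mul_right_injective₀ (pow_ne_zero 2 hq0))
      · intro b hb c hc
        rw [List.mem_map] at hb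
        obtain ⟨u, hu, rfl⟩ := hb
        rw [List.mem_singleton] at hc
        subst hc
        by_cases hj : u ^ 3 = (x 0)⁻¹ ^ 3
        · have h0 := Gn_inj hGz hu hz0 hj
          subst h0
          intro h
          have h5 : q * (x 0)⁻¹ * (q - 1) = 0 := by linear_combination h
          rcases mul_eq_zero.1 h5 with h6 | h6
          · exact mul_ne_zero hq0 (hGz.1 _ hz0) h6
          · exact q_ne1 hq (sub_eq_zero.1 h6)
        · have := hinj _ _ hj 2 1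
          rw [pow_one] at this
          exact this
      · intro b hb c hc
        rw [List.mem_map] at hb
        obtain ⟨u, hu, rfl⟩ := hb
        rw [List.mem_append, List.mem_map, List.mem_singleton] at hc
        rcases hc with ⟨v, hv, rfl⟩ | hc
        · have := hinj _ _ (hGAz u hu v hv) 1 2
          rw [pow_one] at this
          exact this
        · subst hc
          have := hinj _ _ (hGAz u hu _ hz0) 1 1
          rw [pow_one] at this
          exact this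
    refine Polynomial.eq_zero_of_natDegree_lt_card_of_eval_eq_zero' P L.toFinset ?_ ?_
    · intro y hyL
      rw [List.mem_toFinset, hLd, List.mem_append, List.mem_append, List.mem_map, List.mem_map,
        List.mem_singleton] at hyL
      rw [hPe y, sub_eq_zero]
      rcases hyL with ⟨b, hb, rfl⟩ | ⟨u, hu, rfl⟩ | rfl
      · exact keyA b hb
      · obtain ⟨v, hv, h⟩ := mem_prs hu
        obtain ⟨j, rfl⟩ := List.mem_ofFn.1 hv
        rcases h with rfl | rfl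
        · exact keyj j
        · exact keyj' j
      · exact keyL
    · rw [List.toFinset_card_of_nodup hnd, hLd, List.length_append, List.length_append,
        List.length_map, List.length_map, hA, hlen, List.length_singleton]
      omega
  have h := hPe a
  rw [hzero, Polynomial.eval_zero] at h
  exact sub_eq_zero.1 h.symm

theorem base {q : ℂ} {e : ℕ → Word → ℂ} {Ψ : List ℂ → VW} (hb : S_bs) (D : Dat q e Ψ) {m : ℕ} :
    Form q e Ψ m 0 := by
  intro A x hA hG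
  have e0 : prs (List.ofFn x) = [] := by
    rw [List.ofFn_zero]
    rfl
  rw [e0, List.append_nil] at hG
  have h := hb q e Ψ D A hG
  have h1 : vdx x = 1 := by simp [vdx]
  have h2 : wdx x = 1 := by simp [wdx]
  have h4 : TT q A x = 1 := by
    unfold TT
    exact Matrix.det_isEmpty
  unfold EQ
  rw [e0, h1, h2, h4, ← h, hA]
  ring

end TM1

/-- **The exact formula** (generic parameters). -/
theorem t_M1 (hlx : S_legx) (hsy : S_sym) (hR : S_mvR) (hL : S_mvL) (hd : S_deg) (hb : S_bs)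
    (hTP : S_TP) (hTR : S_TR) : S_M1 := by
  intro q e Ψ D m M hm
  have h : TM1.Form q e Ψ m M := by
    induction M with
    | zero => exact TM1.base hb D
    | succ M ih => exact TM1.step hlx hsy hR hL hd hTP hTR D hm ih
  exact h

end Pool.Agent.W808.HB
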