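import Pool.Agent.W808.HB.Stm
import Pool.Agent.H160R2.ML.T_TB

/-! Task T4: the exact formula for arbitrary legs. -/

set_option autoImplicit false

namespace Pool.Agent.W808.HB
open Pool.Agent.H863R2.Cyl
open Pool.Agent.H988R2.Perc (Word PD)
open Pool.Agent.H160R2.ML (pfq Gn)

namespace M2aux
open Pool.Agent.H160R2.ML

theorem lin_eq (f : Word → ℂ) {v : VW} {N : ℕ} (hv : v ∈ VN N) :
    Finsupp.linearCombination ℂ f v = ∑ w ∈ TB.WS N, f w * v w := by
  rw [Finsupp.linearCombination_apply, Finsupp.sum_of_support_subset _ (TB.supp_sub hv)]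
  · refine Finset.sum_congr rfl fun w _ => ?_
    rw [smul_eq_mul, mul_comm]
  · intro w _; simp

theorem GG_cont {q : ℂ} {Ψ : List ℂ → VW} (h : Fam q Ψ)
    (e : ℕ → Word → ℂ) (p N : ℕ) (a : ℂ → Fin p → ℂ)
    (ha : ∀ i, Continuous fun t => a t i) (z : Fin N → ℂ) :
    Continuous fun t => HB.GG e Ψ (List.ofFn (a t)) (List.ofFn z) := by
  have h1 : (fun t => HB.GG e Ψ (List.ofFn (a t)) (List.ofFn z)) = fun t =>
      ∑ w ∈ TB.WS (p + N), e p w * Ψ (List.ofFn (a t) ++ List.ofFn z) w := by
    funext t
    have m1 := h.mem (List.ofFn (a t) ++ List.ofFn z)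
    rw [List.length_append, List.length_ofFn, List.length_ofFn] at m1
    unfold HB.GG
    rw [List.length_ofFn, lin_eq _ m1]
  rw [h1]
  refine continuous_finsetSum _ fun w _ => ?_
  exact continuous_const.mul (TB.psi_cont h p N a ha z w)

theorem lp_cont (p : ℕ) (v : ℂ → Fin p → ℂ) (hv : ∀ i, Continuous fun t => v t i) (q x : ℂ) :
    Continuous fun t => lp q (List.ofFn (v t)) x := by
  have h1 : (fun t => lp q (List.ofFn (v t)) x) =
      fun t => ∏ i, ((v t i - q * x) * (v t i - q ^ 2 * x⁻¹)) := by
    funext t
    rw [lp, List.map_ofFn, List.prod_ofFn]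
    rfl
  rw [h1]
  exact continuous_finsetProd _ fun i _ =>
    ((hv i).sub continuous_const).mul ((hv i).sub continuous_const)

end M2aux

theorem t_M2 (h1 : S_M1) (_ : S_deg) (_ : S_TP) : S_M2 := by
  intro q e Ψ D m M hm A x hA hz
  subst hA
  -- the pairs
  set zl : List ℂ := prs (List.ofFn x) with hzl
  let z : Fin zl.length → ℂ := zl.get
  have hzz : List.ofFn z = zl := List.ofFn_get zl
  -- the moving legs
  let a : ℂ → Fin A.length → ℂ := fun t i => A.get i + t * ((i : ℕ) + 1 : ℂ)
  have ha : ∀ i, Continuous fun t => a t i := fun i =>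
    continuous_const.add (continuous_id.mul continuous_const)
  have ha0 : List.ofFn (a 0) = A := by
    have : a 0 = A.get := by
      funext i
      simp [a]
    rw [this, List.ofFn_get]
  -- the difference of the two sides
  let f : ℂ → ℂ := fun t =>
    GG e Ψ (List.ofFn (a t)) (List.ofFn z) * kap q A.length * vdx x ^ 2 -
      pfq q (List.ofFn (a t)) * (wdx x * TT q (List.ofFn (a t)) x)
  have hf : Continuous f := by
    have c1 := M2aux.GG_cont D.h e _ _ a ha z
    have c2 := Pool.Agent.H160R2.ML.TB.pfq_cont q _ a ha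
    have c4 : Continuous fun t => TT q (List.ofFn (a t)) x := by
      unfold TT
      refine Continuous.matrix_det ?_
      refine continuous_matrix fun i j => ?_
      have c5 : ∀ y : ℂ, Continuous fun t => lp q (List.ofFn (a t)) y := fun y =>
        M2aux.lp_cont _ a ha q y
      exact ((continuous_const.mul (c5 _)).div_const _).add
        ((continuous_const.mul (c5 _)).div_const _)
    exact ((c1.mul continuous_const).mul continuous_const).sub (c2.mul (continuous_const.mul c4))
  -- all entries
  let cc : Fin (A.length + zl.length) → ℂ := Fin.append A.get z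
  let dd : Fin (A.length + zl.length) → ℂ := fun m =>
    if (m : ℕ) < A.length then ((m : ℕ) + 1 : ℂ) else 0
  have hlist : ∀ t, List.ofFn (a t) ++ List.ofFn z = List.ofFn fun m => cc m + t * dd m := by
    intro t
    have h1 : (fun m => cc m + t * dd m) = Fin.append (a t) z := by
      funext m
      refine Fin.addCases (fun m => ?_) (fun m => ?_) m
      · simp only [cc, dd, Fin.append_left, a]
        rw [if_pos (by simp)]
        simp
      · simp only [cc, dd, Fin.append_right]
        rw [if_neg (by simp)]
        simp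
    rw [h1, List.ofFn_fin_append]
  have hz' : Gn (List.ofFn z) := by rw [hzz]; exact hz
  have hzinj : ∀ i j, i ≠ j → (z i) ^ 3 ≠ (z j) ^ 3 := by
    have h2 := hz'.2
    rw [List.map_ofFn, List.nodup_ofFn] at h2
    intro i j hij h
    exact hij (h2 h)
  have hz0 : ∀ i, z i ≠ 0 := fun i => hz'.1 _ (by
    rw [List.mem_ofFn]
    exact ⟨i, rfl⟩)
  have hfin : {t : ℂ | ¬ Gn (List.ofFn fun m => cc m + t * dd m)}.Finite := by
    refine Pool.Agent.H160R2.ML.TB.bad_finite _ cc dd ?_ ?_
    · intro m
      refine Fin.addCases (fun m => ?_) (fun m => ?_) m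
      · intro h
        exfalso
        simp only [dd] at h
        rw [if_pos (by simp)] at h
        exact Nat.cast_add_one_ne_zero _ h
      · intro _
        simp only [cc, Fin.append_right]
        exact hz0 m
    · intro m m' hne h
      have key : ∀ m : Fin (A.length + zl.length), (m : ℕ) < A.length →
          dd m = ((((m : ℕ) + 1 : ℕ)) : ℂ) := by
        intro m hm
        simp only [dd]
        rw [if_pos hm]
        push_cast
        rfl
      have key2 : ∀ m : Fin (A.length + zl.length), ¬ (m : ℕ) < A.length → dd m = 0 := by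
        intro m hm
        simp only [dd]
        rw [if_neg hm]
      by_cases hm : (m : ℕ) < A.length
      · exfalso
        by_cases hm' : (m' : ℕ) < A.length
        · rw [key m hm, key m' hm'] at h
          have h3 : ((m : ℕ) + 1) ^ 3 = ((m' : ℕ) + 1) ^ 3 := by exact_mod_cast h
          have h4 := Nat.pow_left_injective (by norm_num : 3 ≠ 0) h3
          apply hne
          apply Fin.ext
          omega
        · rw [key m hm, key2 m' hm'] at h
          have h3 : ((m : ℕ) + 1) ^ 3 = 0 := by
            have : ((((m : ℕ) + 1 : ℕ)) : ℂ) ^ 3 = ((0 : ℕ) : ℂ) := by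
              rw [h]; norm_num
            exact_mod_cast this
          have := Nat.pow_pos (n := 3) (show 0 < (m : ℕ) + 1 by omega)
          omega
      · by_cases hm' : (m' : ℕ) < A.length
        · exfalso
          rw [key2 m hm, key m' hm'] at h
          have h3 : ((m' : ℕ) + 1) ^ 3 = 0 := by
            have : ((((m' : ℕ) + 1 : ℕ)) : ℂ) ^ 3 = ((0 : ℕ) : ℂ) := by
              rw [← h]; norm_num
            exact_mod_cast this
          have := Nat.pow_pos (n := 3) (show 0 < (m' : ℕ) + 1 by omega)
          omega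
        · refine ⟨key2 m hm, key2 m' hm', ?_⟩
          obtain ⟨i, rfl⟩ : ∃ i : Fin zl.length, Fin.natAdd A.length i = m :=
            ⟨⟨m - A.length, by omega⟩, by apply Fin.ext; simp; omega⟩
          obtain ⟨i', rfl⟩ : ∃ i : Fin zl.length, Fin.natAdd A.length i = m' :=
            ⟨⟨m' - A.length, by omega⟩, by apply Fin.ext; simp; omega⟩
          simp only [cc, Fin.append_right]
          exact hzinj i i' (fun h => hne (by rw [h]))
  have h0 := Pool.Agent.H160R2.ML.TB.eq_zero_of_ne hf _ hfin (fun t ht => by
    have hG : Gn (List.ofFn fun m => cc m + t * dd m) := by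
      by_contra hcon
      exact ht hcon
    rw [← hlist, hzz] at hG
    have h2 := h1 q e Ψ D A.length M hm (List.ofFn (a t)) x (by simp) hG
    show GG e Ψ (List.ofFn (a t)) (List.ofFn z) * kap q A.length * vdx x ^ 2 -
      pfq q (List.ofFn (a t)) * (wdx x * TT q (List.ofFn (a t)) x) = 0
    rw [hzz, h2, sub_self]) 0
  have h2 : GG e Ψ (List.ofFn (a 0)) (List.ofFn z) * kap q A.length * vdx x ^ 2 -
      pfq q (List.ofFn (a 0)) * (wdx x * TT q (List.ofFn (a 0)) x) = 0 := h0
  rw [ha0, hzz] at h2
  exact sub_eq_zero.1 h2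

end Pool.Agent.W808.HB
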