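import Pool.Agent.W808.HB.Stm
import Pool.Agent.H863R2.Cyl.Value
import Pool.Agent.H863R2.Cyl.FamEx

/-! # Legs at the boundary, task P1: the stationary probability -/

set_option autoImplicit false

namespace Pool.Agent.W808.HB
open Pool.Agent.H863R2.Cyl
open Pool.Agent.H988R2.Perc (Word PD)

namespace TPW

lemma Cn_pos (m M : ℕ) : 0 < Cn m M := by
  unfold Cn
  apply Finset.prod_pos
  intro i _
  positivity

lemma GG_eq {q : ℂ} {Ψ : List ℂ → VW} (hΨ : Fam q Ψ) (n m M : ℕ) (hn : n + 1 = m + 2 * M)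
    (μ : Wd (n + 1) → ℝ) (hμ : ∑ σ, μ σ = 1)
    (hst : ∀ σ, ∑ c : Fin (n + 1) → Bool, push (Tc n c) μ σ = 2 ^ (n + 1) * μ σ) :
    GG el Ψ (List.replicate m 1) (List.replicate (2 * M) 1) =
      tot (Ψ (List.replicate (n + 1) 1)) *
        ((∑ σ : Wd (n + 1), (if Gd m σ.1 then μ σ else 0) : ℝ) : ℂ) := by
  have hmem : Ψ (List.replicate (n + 1) 1) ∈ VN (n + 1) := by
    have := hΨ.mem (List.replicate (n + 1) 1)
    rwa [List.length_replicate] at this
  unfold GG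
  rw [← List.replicate_add, ← hn, List.length_replicate, ValueAux.lc_eq _ hmem]
  push_cast
  rw [Finset.mul_sum]
  apply Finset.sum_congr rfl
  intro σ _
  rw [smul_eq_mul, ValueAux.eq_mu hΨ n μ hμ hst σ]
  unfold el
  split_ifs <;> push_cast <;> ring

end TPW

theorem t_PW (hE : S_E) (hV : S_HV) (hD : S_DC) : S_PW := by
  intro n m M hn μ hμ0 hμ hst
  obtain ⟨q, hq⟩ : ∃ q : ℂ, q ^ 2 + q + 1 = 0 := ⟨_, Pool.Agent.H988R2.Perc.q_spec⟩
  obtain ⟨Ψ, hΨ⟩ := exists_Fam q hq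
  have hDat : Dat q el Ψ := ⟨hq, hE, hΨ⟩
  have hN : n + 1 = m % 2 + 2 * (M + m / 2) := by omega
  have g1 := TPW.GG_eq hΨ n m M hn μ hμ hst
  have g2 := TPW.GG_eq hΨ n (m % 2) (M + m / 2) hN μ hμ hst
  have v1 := hV q el Ψ hDat m M
  have v2 := hV q el Ψ hDat (m % 2) (M + m / 2)
  have s2 : (∑ σ : Wd (n + 1), (if Gd (m % 2) σ.1 then μ σ else 0)) = 1 := by
    rw [← hμ]
    apply Finset.sum_congr rfl
    intro σ _
    have hG : Gd (m % 2) σ.1 := by
      have hσ := σ.2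
      have h1 : el (m % 2) σ.1 = 1 := by
        rcases Nat.mod_two_eq_zero_or_one m with h | h
        · rw [h]
          exact hE.tot0 (M + m / 2) σ.1 hσ.2 (by rw [hσ.1, hN, h, zero_add])
        · rw [h]
          exact hE.tot1 (M + m / 2) σ.1 hσ.2 (by rw [hσ.1, hN, h, add_comm])
      by_contra hc
      unfold el at h1
      rw [if_neg hc] at h1
      exact zero_ne_one h1
    rw [if_pos hG]
  rw [g1] at v1
  rw [g2, s2] at v2
  have hP0 : 0 ≤ ∑ σ : Wd (n + 1), (if Gd m σ.1 then μ σ else 0) := by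
    apply Finset.sum_nonneg
    intro σ _
    split_ifs
    · exact hμ0 σ
    · exact le_refl _
  rw [hD, abs_of_pos (TPW.Cn_pos _ _), norm_mul] at v1 v2
  rw [Complex.norm_real, Real.norm_of_nonneg hP0] at v1
  have hex : (m % 2 + 2 * (M + m / 2) - 1) ^ 2 / 4 = (m + 2 * M - 1) ^ 2 / 4 := by
    rw [← hN, hn]
  rw [hex] at v2
  have h1 : ‖((1 : ℝ) : ℂ)‖ = 1 := by norm_num
  rw [h1, mul_one] at v2
  have h3 : (0 : ℝ) < 3 ^ ((m + 2 * M - 1) ^ 2 / 4) := by positivity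
  have hC := TPW.Cn_pos (m % 2) (M + m / 2)
  unfold Pn
  rw [eq_div_iff hC.ne']
  rw [v2] at v1
  apply mul_left_cancel₀ h3.ne'
  linear_combination v1

end Pool.Agent.W808.HB
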