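import Pool.Agent.W808.HB.Stm

/-!
# Task TP: elementary properties of the determinant `TT`
-/

set_option autoImplicit false

namespace Pool.Agent.W808.HB

namespace TTP

theorem lp_cons (q b : ℂ) (C : List ℂ) (x : ℂ) :
    lp q (b :: C) x = (b - q * x) * (b - q ^ 2 * x⁻¹) * lp q C x := by
  unfold lp
  simp

theorem lp_perm {C C' : List ℂ} (h : C.Perm C') (q x : ℂ) : lp q C x = lp q C' x := by
  unfold lp
  exact (h.map _).prod_eq

theorem Xf_inv (x : ℂ) : Xf x⁻¹ = Xf x := by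
  unfold Xf
  rw [inv_inv]
  ring

/-- a determinant of polynomials of degree at most two -/
theorem det_deg {M : ℕ} (A : Matrix (Fin M) (Fin M) (Polynomial ℂ))
    (hA : ∀ i j, (A i j).natDegree ≤ 2) : A.det.natDegree ≤ 2 * M := by
  rw [Matrix.det_apply]
  refine Polynomial.natDegree_sum_le_of_forall_le _ _ ?_
  intro s _
  refine (Polynomial.natDegree_smul_le _ _).trans ?_
  refine (Polynomial.natDegree_prod_le _ _).trans ?_
  refine (Finset.sum_le_sum (fun i _ => hA (s i) i)).trans ?_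
  simp [mul_comm]

/-- the entry -/
noncomputable def ent (q : ℂ) (C : List ℂ) {M : ℕ} (x : Fin M → ℂ) (i j : Fin M) : ℂ :=
  gp q (x j) * lp q C (x j) / (Xf (x i) - Yf q (x j))
    + gp q (x j)⁻¹ * lp q C (x j)⁻¹ / (Xf (x i) - Yf q (x j)⁻¹)

theorem TT_eq (q : ℂ) (C : List ℂ) {M : ℕ} (x : Fin M → ℂ) :
    TT q C x = (Matrix.of (ent q C x)).det := rfl

/-- the polynomial entry -/
noncomputable def pent (q : ℂ) (C : List ℂ) {M : ℕ} (x : Fin M → ℂ) (i j : Fin M) : Polynomial ℂ :=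
  Polynomial.C (gp q (x j) * lp q C (x j) / (Xf (x i) - Yf q (x j))) *
      ((Polynomial.X - Polynomial.C (q * x j)) * (Polynomial.X - Polynomial.C (q ^ 2 * (x j)⁻¹)))
    + Polynomial.C (gp q (x j)⁻¹ * lp q C (x j)⁻¹ / (Xf (x i) - Yf q (x j)⁻¹)) *
      ((Polynomial.X - Polynomial.C (q * (x j)⁻¹)) * (Polynomial.X - Polynomial.C (q ^ 2 * (x j)⁻¹⁻¹)))

theorem quad_deg (c a b : ℂ) : (Polynomial.C c *
    ((Polynomial.X - Polynomial.C a) * (Polynomial.X - Polynomial.C b)) : Polynomial ℂ).natDegree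
      ≤ 2 := by
  refine (Polynomial.natDegree_C_mul_le _ _).trans ?_
  refine Polynomial.natDegree_mul_le.trans ?_
  rw [Polynomial.natDegree_X_sub_C, Polynomial.natDegree_X_sub_C]

theorem pent_deg (q : ℂ) (C : List ℂ) {M : ℕ} (x : Fin M → ℂ) (i j : Fin M) :
    (pent q C x i j).natDegree ≤ 2 := by
  unfold pent
  exact (Polynomial.natDegree_add_le _ _).trans (max_le (quad_deg _ _ _) (quad_deg _ _ _))

theorem pent_eval (q : ℂ) (C : List ℂ) {M : ℕ} (x : Fin M → ℂ) (i j : Fin M) (a : ℂ) :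
    (pent q C x i j).eval a = ent q (a :: C) x i j := by
  unfold pent ent
  simp only [lp_cons, Polynomial.eval_add, Polynomial.eval_mul, Polynomial.eval_C,
    Polynomial.eval_sub, Polynomial.eval_X]
  ring

end TTP

open TTP in
theorem t_TP : S_TP := by
  intro q C M x
  refine ⟨?_, ?_, ?_, ?_, ?_, ?_⟩
  · refine ⟨(Matrix.of (pent q C x)).det, det_deg _ (fun i j => pent_deg q C x i j), ?_⟩
    intro a
    rw [TT_eq, ← Polynomial.coe_evalRingHom, RingHom.map_det]
    congr 1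
    ext i j
    simp only [RingHom.mapMatrix_apply, Matrix.map_apply, Matrix.of_apply,
      Polynomial.coe_evalRingHom, pent_eval]
  · intro C' h
    unfold TT
    simp only [lp_perm h]
  · intro s
    rw [TT_eq, TT_eq, ← Matrix.det_submatrix_equiv_self s (Matrix.of (ent q C x))]
    rfl
  · intro i _
    rw [TT_eq, TT_eq]
    congr 1
    ext a b
    simp only [Matrix.of_apply]
    have hX : ∀ k, Xf (Function.update x i (x i)⁻¹ k) = Xf (x k) := by
      intro k
      by_cases hk : k = i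
      · subst hk
        rw [Function.update_self, Xf_inv]
      · rw [Function.update_of_ne hk]
    unfold ent
    rw [hX a]
    by_cases hb : b = i
    · subst hb
      rw [Function.update_self, inv_inv]
      ring
    · rw [Function.update_of_ne hb]
  · intro hq hx a ha
    have h3 : q ^ 3 = 1 := by linear_combination (q - 1) * hq
    have key : ∀ y : ℂ, y ≠ 0 → (a⁻¹ - q * y) * (a⁻¹ - q ^ 2 * y⁻¹) * a ^ 2 =
        (a - q * y) * (a - q ^ 2 * y⁻¹) := by
      intro y hy
      have e1 : (a⁻¹ - q * y) * (a⁻¹ - q ^ 2 * y⁻¹) * a ^ 2 =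
          (a⁻¹ * a) ^ 2 - (a⁻¹ * a) * a * (q * y + q ^ 2 * y⁻¹) + q ^ 3 * (y * y⁻¹) * a ^ 2 := by
        ring
      have e2 : (a - q * y) * (a - q ^ 2 * y⁻¹) =
          a ^ 2 - a * (q * y + q ^ 2 * y⁻¹) + q ^ 3 * (y * y⁻¹) := by ring
      rw [e1, e2, inv_mul_cancel₀ ha, mul_inv_cancel₀ hy, h3]
      ring
    have e : Matrix.of (ent q (a :: C) x) = (a ^ 2) • Matrix.of (ent q (a⁻¹ :: C) x) := by
      ext i j
      simp only [Matrix.of_apply, Matrix.smul_apply, smul_eq_mul, ent, lp_cons]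
      rw [← key (x j) (hx j), ← key (x j)⁻¹ (inv_ne_zero (hx j))]
      ring
    rw [TT_eq q (a :: C) x, e, Matrix.det_smul, Fintype.card_fin, TT_eq, ← pow_mul]
    ring
  · intro hq hx
    have h3 : q ^ 3 = 1 := by linear_combination (q - 1) * hq
    have key : ∀ y : ℂ, y ≠ 0 → (0 - q * y) * (0 - q ^ 2 * y⁻¹) = 1 := by
      intro y hy
      have e1 : (0 - q * y) * (0 - q ^ 2 * y⁻¹) = q ^ 3 * (y * y⁻¹) := by ring
      rw [e1, mul_inv_cancel₀ hy, h3]
      ring
    rw [TT_eq, TT_eq]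
    congr 1
    ext i j
    simp only [Matrix.of_apply, ent, lp_cons]
    rw [key (x j) (hx j), key (x j)⁻¹ (inv_ne_zero (hx j)), one_mul, one_mul]

end Pool.Agent.W808.HB
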