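import Pool.Agent.W808.HB.Stm

/-!
# The recursion of the determinant (`a = q² x₀`)
-/

set_option autoImplicit false

namespace Pool.Agent.W808.HB
open Pool.Agent.H160R2.ML (Gn)

namespace T_TRaux

theorem det_col0 {N : ℕ} (M : Matrix (Fin (N + 1)) (Fin (N + 1)) ℂ) (c : Fin N → ℂ)
    (hc : ∀ i, M i.succ 0 = c i * M 0 0) :
    M.det = M 0 0 * (Matrix.of fun i j : Fin N => M i.succ j.succ - c i * M 0 j.succ).det := by
  set c' : Fin (N + 1) → ℂ := Fin.cons 0 c with hc'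
  set B : Matrix (Fin (N + 1)) (Fin (N + 1)) ℂ := Matrix.of fun i j => M i j - c' i * M 0 j
    with hB
  have h00 : c' 0 = 0 := rfl
  have hs : ∀ i : Fin N, c' i.succ = c i := fun i => rfl
  have hB0 : ∀ j, B 0 j = M 0 j := by
    intro j
    rw [hB, Matrix.of_apply, h00, zero_mul, sub_zero]
  have h1 : M.det = B.det := by
    apply Matrix.det_eq_of_forall_row_eq_smul_add_const c' 0 h00
    intro i j
    rw [hB0, hB, Matrix.of_apply]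
    ring
  rw [h1, Matrix.det_succ_column_zero, Fin.sum_univ_succ]
  have h2 : ∀ i : Fin N, B i.succ 0 = 0 := by
    intro i
    rw [hB, Matrix.of_apply, hs, hc, sub_self]
  have h3 : ∑ i : Fin N, (-1 : ℂ) ^ ((i.succ : Fin (N + 1)) : ℕ) * B i.succ 0 *
      (B.submatrix (i.succ).succAbove Fin.succ).det = 0 := by
    refine Finset.sum_eq_zero fun i _ => ?_
    rw [h2, mul_zero, zero_mul]
  rw [h3, add_zero, Fin.val_zero, pow_zero, one_mul, hB0]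
  congr 2

theorem q3 {q : ℂ} (hq : q ^ 2 + q + 1 = 0) : q ^ 3 = 1 := by
  linear_combination (q - 1) * hq

theorem q0 {q : ℂ} (hq : q ^ 2 + q + 1 = 0) : q ≠ 0 := by
  rintro rfl
  norm_num at hq

theorem q1 {q : ℂ} (hq : q ^ 2 + q + 1 = 0) : q ≠ 1 := by
  rintro rfl
  norm_num at hq

/-- the condition on one variable -/
def Nz (x : ℂ) : Prop := x ≠ 0 ∧ x ^ 3 ≠ x⁻¹ ^ 3

/-- the condition on two variables -/
def Df (x y : ℂ) : Prop := x ^ 3 ≠ y ^ 3 ∧ x ^ 3 ≠ y⁻¹ ^ 3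

theorem Df.symm {x y : ℂ} (h : Df x y) : Df y x := by
  refine ⟨fun e => h.1 e.symm, fun e => h.2 ?_⟩
  have : (y ^ 3)⁻¹ = x ^ 3 := by rw [e, inv_pow, inv_inv]
  rw [inv_pow, this]

theorem gn {n : ℕ} {z : Fin n → ℂ} (h : Gn (prs (List.ofFn z))) :
    (∀ i, Nz (z i)) ∧ ∀ i j, i ≠ j → Df (z i) (z j) := by
  obtain ⟨h0, h1⟩ := h
  have e : (prs (List.ofFn z)).map (fun x => x ^ 3) =
      (List.ofFn z).flatMap (fun x => [x ^ 3, x⁻¹ ^ 3]) := by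
    rw [prs, List.map_flatMap]
    rfl
  rw [e, List.nodup_flatMap] at h1
  obtain ⟨h1, h2⟩ := h1
  have hz : ∀ i, Nz (z i) := by
    intro i
    have hm : z i ∈ List.ofFn z := by simp
    refine ⟨h0 _ ?_, ?_⟩
    · rw [prs, List.mem_flatMap]
      exact ⟨z i, hm, by simp⟩
    · have := h1 _ hm
      simpa using this
  have hd : ∀ i j, i < j → Df (z i) (z j) := by
    intro i j hij
    rw [List.pairwise_ofFn] at h2
    have := h2 hij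
    simp only [Function.onFun] at this
    refine ⟨fun e => this (a := z i ^ 3) (by simp) (by simp [e]), fun e =>
      this (a := z i ^ 3) (by simp) (by rw [e]; simp)⟩
  refine ⟨hz, fun i j hij => ?_⟩
  rcases lt_or_gt_of_ne hij with h | h
  · exact hd i j h
  · exact (hd j i h).symm

theorem inv_sub {x y : ℂ} (hx : x ≠ 0) (hy : y ≠ 0) (h : Df x y) :
    x ^ 3 + x⁻¹ ^ 3 - (y ^ 3 + y⁻¹ ^ 3) ≠ 0 := by
  have e : x ^ 3 + x⁻¹ ^ 3 - (y ^ 3 + y⁻¹ ^ 3) = (x ^ 3 - y ^ 3) * (x ^ 3 - y⁻¹ ^ 3) * x⁻¹ ^ 3 := by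
    field_simp
    ring
  rw [e]
  exact mul_ne_zero (mul_ne_zero (sub_ne_zero.2 h.1) (sub_ne_zero.2 h.2))
    (pow_ne_zero _ (inv_ne_zero hx))

/-- `X`, `Y₊`, `Y₋` are the roots of `t³ - 3t - (x³ + x⁻³)` -/
theorem root {q x : ℂ} (hq : q ^ 2 + q + 1 = 0) (hx : x ≠ 0) (t : ℂ) :
    (t - Xf x) * (t - Yf q x) * (t - Yf q x⁻¹) = t ^ 3 - 3 * t - (x ^ 3 + x⁻¹ ^ 3) := by
  have e3 := q3 hq
  have hxx : x * x⁻¹ = 1 := mul_inv_cancel₀ hx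
  simp only [Xf, Yf, inv_inv]
  generalize x⁻¹ = y at *
  linear_combination (-(x + y) * t ^ 2 + ((x + y) ^ 2 + x * y) * t - (x + y) * (x * y)) * hq +
    ((x ^ 2 + y ^ 2 + q * x * y) * t - (x + y) * (x ^ 2 + y ^ 2 + q * x * y)) * e3 - 3 * t * hxx

theorem rX {x : ℂ} (hx : x ≠ 0) : Xf x ^ 3 - 3 * Xf x = x ^ 3 + x⁻¹ ^ 3 := by
  have hxx : x * x⁻¹ = 1 := mul_inv_cancel₀ hx
  simp only [Xf]
  linear_combination (3 * x + 3 * x⁻¹) * hxx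

theorem rY {q x : ℂ} (hq : q ^ 2 + q + 1 = 0) (hx : x ≠ 0) :
    Yf q x ^ 3 - 3 * Yf q x = x ^ 3 + x⁻¹ ^ 3 := by
  have e3 := q3 hq
  have hxx : x * x⁻¹ = 1 := mul_inv_cancel₀ hx
  simp only [Yf]
  generalize x⁻¹ = y at *
  linear_combination ((q ^ 3 + 1) * x ^ 3 + y ^ 3 + 3 * q ^ 2 * x + 3 * q * y) * e3 +
    (3 * q ^ 5 * x + 3 * q ^ 4 * y) * hxx

theorem ne3 {q x y : ℂ} (hq : q ^ 2 + q + 1 = 0) (hx : x ≠ 0) (hy : y ≠ 0) (h : Df x y) :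
    Xf x - Xf y ≠ 0 ∧ Xf x - Yf q y ≠ 0 ∧ Xf x - Yf q y⁻¹ ≠ 0 := by
  have e := root hq hy (Xf x)
  rw [rX hx] at e
  have hn := inv_sub hx hy h
  rw [← e] at hn
  exact ⟨fun h => hn (by rw [h]; ring), fun h => hn (by rw [h]; ring), fun h => hn (by rw [h]; ring)⟩

theorem ne1 {q x : ℂ} (hq : q ^ 2 + q + 1 = 0) (h : Nz x) :
    x⁻¹ - x ≠ 0 ∧ x⁻¹ - q * x ≠ 0 ∧ x⁻¹ - q ^ 2 * x ≠ 0 ∧ Xf x - Yf q x ≠ 0 ∧
      Xf x - Yf q x⁻¹ ≠ 0 := by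
  obtain ⟨hx, h3⟩ := h
  have e3 := q3 hq
  have hxx : x * x⁻¹ = 1 := mul_inv_cancel₀ hx
  have e : (x⁻¹ - x) * (x⁻¹ - q * x) * (x⁻¹ - q ^ 2 * x) = x⁻¹ ^ 3 - x ^ 3 := by
    generalize x⁻¹ = y at *
    linear_combination (-x * y ^ 2 + x ^ 2 * y * q) * hq - x ^ 3 * e3
  have hn : x⁻¹ ^ 3 - x ^ 3 ≠ 0 := sub_ne_zero.2 (Ne.symm h3)
  rw [← e] at hn
  have h1 : x⁻¹ - x ≠ 0 := fun h => hn (by rw [h]; ring)
  have h2 : x⁻¹ - q * x ≠ 0 := fun h => hn (by rw [h]; ring)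
  have h4 : x⁻¹ - q ^ 2 * x ≠ 0 := fun h => hn (by rw [h]; ring)
  refine ⟨h1, h2, h4, ?_, ?_⟩
  · have : Xf x - Yf q x = (1 - q) * (x⁻¹ - q ^ 2 * x) := by
      simp only [Xf, Yf]
      generalize x⁻¹ = y at *
      linear_combination (x) * hq - (x * q + x) * hq + x * q * hq - (x * e3)
    rw [this]
    exact mul_ne_zero (sub_ne_zero.2 (Ne.symm (q1 hq))) h4
  · have : Xf x - Yf q x⁻¹ = (q - 1) * q ^ 2 * (x⁻¹ - q * x) := by
      simp only [Xf, Yf, inv_inv]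
      generalize x⁻¹ = y at *
      linear_combination (-y + (q - 1) * x) * e3
    rw [this]
    exact mul_ne_zero (mul_ne_zero (sub_ne_zero.2 (q1 hq)) (pow_ne_zero _ (q0 hq))) h2

theorem lp_cons (q a : ℂ) (C : List ℂ) (x : ℂ) :
    lp q (a :: C) x = (a - q * x) * (a - q ^ 2 * x⁻¹) * lp q C x := by
  simp [lp]

/-- a leg `b` -/
theorem leg {q x b : ℂ} (hq : q ^ 2 + q + 1 = 0) (hx : x ≠ 0) (hb : b ≠ 0) :
    (b - q * x) * (b - q ^ 2 * x⁻¹) = b * (Xf b - Yf q x⁻¹) := by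
  have e3 := q3 hq
  have hxx : x * x⁻¹ = 1 := mul_inv_cancel₀ hx
  have hbb : b * b⁻¹ = 1 := mul_inv_cancel₀ hb
  simp only [Xf, Yf, inv_inv]
  generalize x⁻¹ = y at *
  generalize b⁻¹ = c at *
  linear_combination q ^ 3 * hxx + e3 - hbb

theorem XP {q x : ℂ} (hq : q ^ 2 + q + 1 = 0) (hx : x ≠ 0) : Xf (q ^ 2 * x) = Yf q x := by
  have e3 := q3 hq
  have hxx : x * x⁻¹ = 1 := mul_inv_cancel₀ hx
  have : (q ^ 2 * x)⁻¹ = q * x⁻¹ := by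
    apply inv_eq_of_mul_eq_one_right
    linear_combination q ^ 3 * hxx + e3
  rw [Xf, this, Yf]

theorem ent {X0 Xi P Yp Ym A B a : ℂ} (h1 : Xi - Yp ≠ 0) (h2 : Xi - Ym ≠ 0) (h3 : X0 - Yp ≠ 0)
    (h4 : X0 - Ym ≠ 0) (h5 : Xi - P ≠ 0) (Xj : ℂ) (h6 : Xj - P ≠ 0) 
    (hr : (X0 - Xj) * (X0 - Yp) * (X0 - Ym) = (P - Xj) * (P - Yp) * (P - Ym)) :
    (A * (a * (P - Ym)) / (Xi - Yp) + B * (a * (P - Yp)) / (Xi - Ym)) -
      (X0 - P) / (Xi - P) * (A * (a * (P - Ym)) / (X0 - Yp) + B * (a * (P - Yp)) / (X0 - Ym)) =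
    (X0 - Xi) / (Xi - P) * ((a * (X0 - Xj) / (Xj - P)) *
      (A * (X0 - Ym) / (Xi - Yp) + B * (X0 - Yp) / (Xi - Ym))) := by
  have e1 : ∀ Y, Xi - Y ≠ 0 → X0 - Y ≠ 0 → 
      1 / (Xi - Y) - (X0 - P) / (Xi - P) / (X0 - Y) = (X0 - Xi) * (Y - P) / ((Xi - Y) * (X0 - Y) * (Xi - P)) := by
    intro Y h h'
    field_simp
    ring
  have e2 : (X0 - Xj) / (Xj - P) = - ((P - Yp) * (P - Ym)) / ((X0 - Yp) * (X0 - Ym)) := by
    rw [div_eq_div_iff h6 (mul_ne_zero h3 h4)]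
    linear_combination hr
  have f1 := e1 Yp h1 h3
  have f2 := e1 Ym h2 h4
  rw [mul_div_assoc a, e2]
  have g1 : (X0 - Xi) * (Yp - P) / ((Xi - Yp) * (X0 - Yp) * (Xi - P)) * (P - Ym) = 
      (X0 - Xi) / (Xi - P) * (- ((P - Yp) * (P - Ym)) / ((X0 - Yp) * (X0 - Ym)) * ((X0 - Ym) / (Xi - Yp))) := by
    field_simp
    ring
  have g2 : (X0 - Xi) * (Ym - P) / ((Xi - Ym) * (X0 - Ym) * (Xi - P)) * (P - Yp) = 
      (X0 - Xi) / (Xi - P) * (- ((P - Yp) * (P - Ym)) / ((X0 - Yp) * (X0 - Ym)) * ((X0 - Yp) / (Xi - Ym))) := by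
    field_simp
    ring
  linear_combination A * a * (P - Ym) * f1 + B * a * (P - Yp) * f2 + A * a * g1 + B * a * g2

end T_TRaux

open T_TRaux in
theorem t_TR : S_TR := by
  intro q hq C M x0 x hG
  have hG' : Gn (prs (List.ofFn (Fin.cons x0 x : Fin (M + 1) → ℂ))) := by
    rw [List.ofFn_succ]
    simpa using hG
  obtain ⟨hz, hd⟩ := gn hG'
  have h0 : Nz x0 := by simpa using hz 0
  have hx : ∀ j, Nz (x j) := fun j => by simpa using hz j.succ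
  have d0 : ∀ j, Df x0 (x j) := fun j => by
    simpa using hd 0 j.succ (Fin.succ_ne_zero j).symm
  have dx : ∀ i j, i ≠ j → Df (x i) (x j) := fun i j hij => by
    simpa using hd i.succ j.succ (fun h => hij (Fin.succ_injective _ h))
  clear hz hd hG' hG
  have e3 := q3 hq
  have hq0 := q0 hq
  have hq1 := q1 hq
  obtain ⟨n1, n2, n4, n5, n6⟩ := ne1 hq h0
  have hx0 : x0 ≠ 0 := h0.1
  have ha : q ^ 2 * x0 ≠ 0 := mul_ne_zero (pow_ne_zero _ hq0) hx0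
  have hxx0 : x0 * x0⁻¹ = 1 := mul_inv_cancel₀ hx0
  have yne : ∀ i j, Xf (x i) - Yf q (x j) ≠ 0 ∧ Xf (x i) - Yf q (x j)⁻¹ ≠ 0 := by
    intro i j
    by_cases h : i = j
    · subst h
      obtain ⟨-, -, -, a, b⟩ := ne1 hq (hx i)
      exact ⟨a, b⟩
    · exact (ne3 hq (hx i).1 (hx j).1 (dx i j h)).2
  have y0 : ∀ j, Xf x0 - Yf q (x j) ≠ 0 ∧ Xf x0 - Yf q (x j)⁻¹ ≠ 0 := fun j =>
    (ne3 hq hx0 (hx j).1 (d0 j)).2
  have yP : ∀ j, Xf (x j) - Yf q x0 ≠ 0 := fun j =>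
    (ne3 hq (hx j).1 hx0 (d0 j).symm).2.1
  unfold TT
  set N : Matrix (Fin (M + 1)) (Fin (M + 1)) ℂ := Matrix.of fun i j : Fin (M + 1) =>
    gp q ((Fin.cons x0 x : Fin (M + 1) → ℂ) j) *
        lp q (q ^ 2 * x0 :: C) ((Fin.cons x0 x : Fin (M + 1) → ℂ) j) /
        (Xf ((Fin.cons x0 x : Fin (M + 1) → ℂ) i) -
          Yf q ((Fin.cons x0 x : Fin (M + 1) → ℂ) j)) +
      gp q ((Fin.cons x0 x : Fin (M + 1) → ℂ) j)⁻¹ *
        lp q (q ^ 2 * x0 :: C) ((Fin.cons x0 x : Fin (M + 1) → ℂ) j)⁻¹ /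
        (Xf ((Fin.cons x0 x : Fin (M + 1) → ℂ) i) -
          Yf q ((Fin.cons x0 x : Fin (M + 1) → ℂ) j)⁻¹)
    with hN
  have hl0 : lp q (q ^ 2 * x0 :: C) x0⁻¹ = 0 := by
    rw [lp_cons, inv_inv, sub_self, mul_zero, zero_mul]
  have hK : gp q x0 * lp q (q ^ 2 * x0 :: C) x0 / (Xf x0 - Yf q x0) =
      q ^ 2 * x0 * (x0⁻¹ - q * x0) ^ 2 * lp q C x0 := by
    rw [div_eq_iff n5, lp_cons]
    have hD : Xf x0 - Yf q x0 = (1 - q) * (x0⁻¹ - q ^ 2 * x0) := by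
      simp only [Xf, Yf]
      linear_combination (-x0) * e3
    rw [hD, gp, div_mul_eq_mul_div, div_eq_iff n1]
    linear_combination (-(q ^ 2 * (x0⁻¹ - q * x0) ^ 2 * (x0⁻¹ - q ^ 2 * x0) * lp q C x0 * x0 * (q - 1) *
      (x0⁻¹ - x0))) * e3
  have hN00 : N 0 0 = q ^ 2 * x0 * (x0⁻¹ - q * x0) ^ 2 * lp q C x0 := by
    rw [hN, Matrix.of_apply, Fin.cons_zero, hl0, mul_zero, zero_div, add_zero, hK]
  have hNs0 : ∀ i : Fin M, N i.succ 0 = (Xf x0 - Yf q x0) / (Xf (x i) - Yf q x0) * N 0 0 := by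
    intro i
    rw [hN00, ← hK, hN, Matrix.of_apply, Fin.cons_zero, Fin.cons_succ, hl0, mul_zero, zero_div,
      add_zero, div_mul_div_comm, mul_comm (Xf x0 - Yf q x0), mul_div_mul_right _ _ n5]
  rw [det_col0 N _ hNs0, hN00]
  have hent : (Matrix.of fun i j : Fin M => N i.succ j.succ -
      (Xf x0 - Yf q x0) / (Xf (x i) - Yf q x0) * N 0 j.succ) =
      Matrix.of fun i j : Fin M => ((Xf x0 - Xf (x i)) / (Xf (x i) - Yf q x0)) *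
        (Matrix.of fun i j : Fin M =>
          (q ^ 2 * x0 * x0 * (Xf x0 - Xf (x j)) / (Xf (x j) - Yf q x0)) *
          (Matrix.of fun i j : Fin M =>
            gp q (x j) * lp q (x0⁻¹ :: C) (x j) / (Xf (x i) - Yf q (x j))
            + gp q (x j)⁻¹ * lp q (x0⁻¹ :: C) (x j)⁻¹ / (Xf (x i) - Yf q (x j)⁻¹)) i j) i j := by
    ext i j
    simp only [Matrix.of_apply, hN, Fin.cons_succ, Fin.cons_zero]
    rw [lp_cons, lp_cons, lp_cons, lp_cons, leg hq (hx j).1 ha, leg hq (inv_ne_zero (hx j).1) ha,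
      leg hq (hx j).1 (inv_ne_zero hx0), leg hq (inv_ne_zero (hx j).1) (inv_ne_zero hx0), XP hq hx0]
    have hXi : Xf x0⁻¹ = Xf x0 := by
      simp only [Xf, inv_inv]
      ring
    rw [hXi, inv_inv]
    have hr : (Xf x0 - Xf (x j)) * (Xf x0 - Yf q (x j)) * (Xf x0 - Yf q (x j)⁻¹) =
        (Yf q x0 - Xf (x j)) * (Yf q x0 - Yf q (x j)) * (Yf q x0 - Yf q (x j)⁻¹) := by
      rw [root hq (hx j).1, root hq (hx j).1, rX hx0, rY hq hx0]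
    have := ent (A := gp q (x j) * lp q C (x j)) (B := gp q (x j)⁻¹ * lp q C (x j)⁻¹)
      (a := q ^ 2 * x0) (yne i j).1 (yne i j).2 (y0 j).1 (y0 j).2 (yP i) (Xf (x j)) (yP j) hr
    have hxx : x0⁻¹ * x0 = 1 := inv_mul_cancel₀ hx0
    linear_combination this - ((Xf x0 - Xf (x i)) / (Xf (x i) - Yf q x0) *
      (q ^ 2 * x0 * (Xf x0 - Xf (x j)) / (Xf (x j) - Yf q x0) *
      (gp q (x j) * lp q C (x j) * (Xf x0 - Yf q (x j)⁻¹) / (Xf (x i) - Yf q (x j)) +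
        gp q (x j)⁻¹ * lp q C (x j)⁻¹ * (Xf x0 - Yf q (x j)) / (Xf (x i) - Yf q (x j)⁻¹)))) * hxx
  rw [hent, Matrix.det_mul_column, Matrix.det_mul_row]
  have hprod : (∏ i : Fin M, (Xf x0 - Xf (x i)) / (Xf (x i) - Yf q x0)) *
      (∏ j : Fin M, q ^ 2 * x0 * x0 * (Xf x0 - Xf (x j)) / (Xf (x j) - Yf q x0)) *
      (∏ j : Fin M, (Xf (x j) - Yf q x0) ^ 2) =
      (q ^ 2 * x0 * x0) ^ M * ∏ j : Fin M, (Xf x0 - Xf (x j)) ^ 2 := by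
    have hc : (q ^ 2 * x0 * x0) ^ M = ∏ _j : Fin M, (q ^ 2 * x0 * x0) := by simp
    rw [hc, ← Finset.prod_mul_distrib, ← Finset.prod_mul_distrib, ← Finset.prod_mul_distrib]
    refine Finset.prod_congr rfl fun j _ => ?_
    have hj := yP j
    generalize Xf (x j) - Yf q x0 = D at hj ⊢
    field_simp
  have hpw : q ^ 2 * x0 * (q ^ 2 * x0 * x0) ^ M = q ^ (2 * M + 2) * x0 ^ (2 * M + 1) := by
    rw [mul_pow, mul_pow, ← pow_mul]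
    ring
  linear_combination (q ^ 2 * x0 * (x0⁻¹ - q * x0) ^ 2 * lp q C x0 *
    (Matrix.of fun i j : Fin M =>
            gp q (x j) * lp q (x0⁻¹ :: C) (x j) / (Xf (x i) - Yf q (x j))
            + gp q (x j)⁻¹ * lp q (x0⁻¹ :: C) (x j)⁻¹ / (Xf (x i) - Yf q (x j)⁻¹)).det) * hprod +
    ((x0⁻¹ - q * x0) ^ 2 * lp q C x0 * (∏ j : Fin M, (Xf x0 - Xf (x j)) ^ 2) *
    (Matrix.of fun i j : Fin M =>
            gp q (x j) * lp q (x0⁻¹ :: C) (x j) / (Xf (x i) - Yf q (x j))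
            + gp q (x j)⁻¹ * lp q (x0⁻¹ :: C) (x j)⁻¹ / (Xf (x i) - Yf q (x j)⁻¹)).det) * hpw

end Pool.Agent.W808.HB
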