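import Pool.Agent.W808.HB.Stm

/-!
# HB-H1: expansions in `bet Y` (`S_U`)
-/

set_option autoImplicit false

namespace Pool.Agent.W808.HB
namespace TU

/-- the antisymmetrised monomial `Y^a (Y-1)^k` -/
noncomputable def Ph (Y : ℂ) (a k : ℕ) : ℂ :=
  (Y ^ a * (Y - 1) ^ k - Y⁻¹ ^ a * (Y⁻¹ - 1) ^ k) / (Y - Y⁻¹)

/-- its coefficients -/
def co (a k l : ℕ) : ℕ := if k ≤ 2 * l + 1 then (a + l).choose (2 * l + 1 - k) else 0

theorem ph_zero (Y : ℂ) : Ph Y 0 0 = 0 := by simp [Ph]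

theorem ph_zero_one (Y : ℂ) (h : Y - Y⁻¹ ≠ 0) : Ph Y 0 1 = 1 := by
  unfold Ph
  rw [div_eq_one_iff_eq h]
  ring

theorem ph_succ (Y : ℂ) (a k : ℕ) : Ph Y (a + 1) k = Ph Y a k + Ph Y a (k + 1) := by
  unfold Ph
  rw [← add_div]
  congr 1
  ring

theorem ph_two (Y : ℂ) (h0 : Y ≠ 0) (a k : ℕ) : Ph Y a (k + 2) = bet Y * Ph Y (a + 1) k := by
  unfold Ph bet
  rw [← mul_div_assoc]
  congr 1
  have h1 : (Y⁻¹ - 1) ^ 2 = (Y - 1) ^ 2 / Y * Y⁻¹ := by field_simp; ring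
  have h2 : (Y - 1) ^ 2 = (Y - 1) ^ 2 / Y * Y := by field_simp
  calc Y ^ a * (Y - 1) ^ (k + 2) - Y⁻¹ ^ a * (Y⁻¹ - 1) ^ (k + 2)
      = Y ^ a * (Y - 1) ^ k * (Y - 1) ^ 2 - Y⁻¹ ^ a * (Y⁻¹ - 1) ^ k * (Y⁻¹ - 1) ^ 2 := by ring
    _ = Y ^ a * (Y - 1) ^ k * ((Y - 1) ^ 2 / Y * Y)
        - Y⁻¹ ^ a * (Y⁻¹ - 1) ^ k * ((Y - 1) ^ 2 / Y * Y⁻¹) := by rw [h1, ← h2]
    _ = _ := by ring

theorem co_succ (a l : ℕ) : co (a + 1) 0 l = co a 0 l + co a 1 l := by
  simp only [co]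
  rw [if_pos (by omega), if_pos (by omega), if_pos (by omega)]
  have : a + 1 + l = (a + l) + 1 := by ring
  rw [this]
  have h2 : 2 * l + 1 - 0 = (2 * l) + 1 := by omega
  have h3 : 2 * l + 1 - 1 = 2 * l := by omega
  rw [h2, h3, Nat.choose_succ_succ]
  ring

theorem co_two_zero (a k : ℕ) : co a (k + 2) 0 = 0 := by
  simp [co]

theorem co_two_succ (a k l : ℕ) : co a (k + 2) (l + 1) = co (a + 1) k l := by
  simp only [co]
  by_cases h : k ≤ 2 * l + 1
  · rw [if_pos h, if_pos (by omega)]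
    congr 1 <;> omega
  · rw [if_neg h, if_neg (by omega)]

theorem co_one_succ (a l : ℕ) : co (a + 1) 1 (l + 1) = co a 1 (l + 1) + co (a + 1) 0 l := by
  simp only [co]
  rw [if_pos (by omega), if_pos (by omega), if_pos (by omega)]
  have h1 : a + 1 + (l + 1) = (a + l + 1) + 1 := by ring
  have h2 : a + (l + 1) = a + l + 1 := by ring
  have h3 : a + 1 + l = a + l + 1 := by ring
  have h4 : 2 * (l + 1) + 1 - 1 = (2 * l + 1) + 1 := by omega
  have h5 : 2 * l + 1 - 0 = 2 * l + 1 := by omega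
  rw [h1, h2, h3, h4, h5, Nat.choose_succ_succ (a + l + 1)]
  ring

theorem co_one_zero (a : ℕ) : co a 1 0 = 1 := by simp [co]

theorem base (Y : ℂ) (h0 : Y ≠ 0) (h : Y - Y⁻¹ ≠ 0) (a : ℕ) :
    (∀ L, a ≤ L → Ph Y a 0 = ∑ l ∈ Finset.range L, (co a 0 l : ℂ) * bet Y ^ l) ∧
    (∀ L, a + 1 ≤ L → Ph Y a 1 = ∑ l ∈ Finset.range L, (co a 1 l : ℂ) * bet Y ^ l) := by
  induction a with
  | zero =>
    refine ⟨fun L _ => ?_, fun L hL => ?_⟩
    · rw [ph_zero, Finset.sum_eq_zero]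
      intro l _
      have : co 0 0 l = 0 := by
        simp only [co]
        rw [if_pos (by omega)]
        exact Nat.choose_eq_zero_of_lt (by omega)
      rw [this]; simp
    · rw [ph_zero_one Y h]
      obtain ⟨L, rfl⟩ : ∃ L', L = L' + 1 := ⟨L - 1, by omega⟩
      rw [Finset.sum_range_succ', Finset.sum_eq_zero]
      · simp [co_one_zero]
      · intro l _
        have : co 0 1 (l + 1) = 0 := by
          simp only [co]
          rw [if_pos (by omega)]
          exact Nat.choose_eq_zero_of_lt (by omega)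
        rw [this]; simp
  | succ a ih =>
    obtain ⟨ih1, ih2⟩ := ih
    have hU : ∀ L, a + 1 ≤ L →
        Ph Y (a + 1) 0 = ∑ l ∈ Finset.range L, (co (a + 1) 0 l : ℂ) * bet Y ^ l := by
      intro L hL
      rw [ph_succ, ih1 L (by omega), zero_add, ih2 L hL, ← Finset.sum_add_distrib]
      refine Finset.sum_congr rfl fun l _ => ?_
      rw [co_succ]; push_cast; ring
    refine ⟨hU, fun L hL => ?_⟩
    obtain ⟨L, rfl⟩ : ∃ L', L = L' + 1 := ⟨L - 1, by omega⟩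
    rw [ph_succ, ph_two Y h0, ih2 (L + 1) (by omega), hU L (by omega),
      Finset.sum_range_succ', Finset.sum_range_succ', Finset.mul_sum]
    rw [show ∀ x y z : ℂ, x + y + z = (x + z) + y from fun x y z => by ring,
      ← Finset.sum_add_distrib]
    congr 1
    · refine Finset.sum_congr rfl fun l _ => ?_
      rw [co_one_succ]; push_cast; ring
    · simp [co_one_zero]

theorem gen (Y : ℂ) (h0 : Y ≠ 0) (h : Y - Y⁻¹ ≠ 0) (k : ℕ) :
    ∀ a L : ℕ, a + k ≤ L → Ph Y a k = ∑ l ∈ Finset.range L, (co a k l : ℂ) * bet Y ^ l := by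
  induction k using Nat.strong_induction_on with
  | _ k ih =>
    match k, ih with
    | 0, _ => intro a L hL; exact (base Y h0 h a).1 L (by omega)
    | 1, _ => intro a L hL; exact (base Y h0 h a).2 L (by omega)
    | k + 2, ih =>
      intro a L hL
      obtain ⟨L, rfl⟩ : ∃ L', L = L' + 1 := ⟨L - 1, by omega⟩
      rw [ph_two Y h0, ih k (by omega) (a + 1) L (by omega), Finset.sum_range_succ',
        Finset.mul_sum, co_two_zero]
      simp only [Nat.cast_zero, zero_mul, add_zero]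
      refine Finset.sum_congr rfl fun l _ => ?_
      rw [co_two_succ]; ring

theorem co_cc (m k l : ℕ) : cc m k l = co (m + k) k l + 2 * co (m + k) (k + 1) l := by
  simp only [cc, co]
  congr 2
  by_cases h : k ≤ 2 * l
  · rw [if_pos h, if_pos (by omega)]
    congr 1; omega
  · rw [if_neg h, if_neg (by omega)]

end TU

open TU in
theorem t_U : S_U := by
  intro m k Y h0 h
  have e : ((2 * Y - 1) * Y ^ m * (Y * (Y - 1)) ^ k
    - (2 * Y⁻¹ - 1) * Y⁻¹ ^ m * (Y⁻¹ * (Y⁻¹ - 1)) ^ k) / (Y - Y⁻¹)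
      = Ph Y (m + k) k + 2 * Ph Y (m + k) (k + 1) := by
    unfold Ph
    rw [← mul_div_assoc, ← add_div]
    congr 1
    rw [mul_pow, mul_pow, pow_add, pow_add]
    ring
  rw [e, gen Y h0 h k (m + k) (m + 2 * k + 1) (by omega),
    gen Y h0 h (k + 1) (m + k) (m + 2 * k + 1) (by omega), Finset.mul_sum,
    ← Finset.sum_add_distrib]
  refine Finset.sum_congr rfl fun l _ => ?_
  rw [co_cc]; push_cast; ring

end Pool.Agent.W808.HB
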