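import Pool.Agent.W808.HB.Stm

/-! # Legs at the boundary, task P2: words and connections -/

set_option autoImplicit false

namespace Pool.Agent.W808.HB
open Pool.Agent.H863R2.Cyl
open Pool.Agent.H988R2.Perc (Word PD)

namespace TWG

open Pool.Agent.H863R2.Cyl.Sem1Aux (Inc exists_ht RH Rw_iff sg_nat sg_per ep lsum lsum_append
  lsum_count ht_take)
open Pool.Agent.H863R2.Cyl.Sem4Aux (ct sm iso sec ct_eq iso_iff sec_spec rw_lins rw_peak)

/-! ### indices -/

theorem small {m N : ℕ} (hm : m ≤ N) (s : ℤ) (c : ℕ) (hc : c ≤ m) :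
    ¬ iso N m (s * ((N + 2 : ℕ) : ℤ) + c) ∧ sm N m (s * ((N + 2 : ℕ) : ℤ) + c) = s * N + c := by
  have e : s * ((N + 2 : ℕ) : ℤ) + c = (N + 2) * s + ((N : ℤ) - m + c) - (N - m) := by
    push_cast; ring
  refine ⟨?_, ?_⟩
  · rw [iso_iff e (by omega) (by omega)]
    omega
  · unfold sm
    rw [ct_eq e (by omega) (by omega)]
    push_cast
    ring

theorem big {m N : ℕ} (_hm : m ≤ N) (s : ℤ) (i : ℕ) (hi : m + 2 * i ≤ N) :
    ¬ iso N m (s * ((N + 2 : ℕ) : ℤ) + m + 2 * i + 2) ∧
      sm N m (s * ((N + 2 : ℕ) : ℤ) + m + 2 * i + 2) = s * N + m + 2 * i := by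
  have e : s * ((N + 2 : ℕ) : ℤ) + m + 2 * i + 2 = (N + 2) * (s + 1) + (2 * i : ℤ) - (N - m) := by
    push_cast; ring
  refine ⟨?_, ?_⟩
  · rw [iso_iff e (by omega) (by omega)]
    omega
  · unfold sm
    rw [ct_eq e (by omega) (by omega)]
    push_cast
    ring

/-- the connections of `cap m w` -/
theorem hcap {w : Word} {m N : ℕ} (hw : Ok w) (hl : w.length = N + 2) (hN : 1 ≤ N) (hm : m ≤ N)
    (a b : ℤ) (ha : ¬ iso N m a) (hb : ¬ iso N m b) :
    Rw (cap m w) (sm N m a) (sm N m b) ↔
      Relation.EqvGen (fun x y => (¬ isol w m x ∧ ¬ isol w m y ∧ Rw w x y) ∨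
        ∃ k : ℤ, x = m + k * w.length ∧ y = m + 2 + k * w.length) a b := by
  have hact : act m w = lins m (cap m w) := act_eq (by omega)
  have hclen : (cap m w).length = N := by
    have := length_cap (i := m) (w := w) (by omega)
    omega
  have hisol : ∀ a, isol w m a ↔ iso N m a := by
    intro a
    unfold isol iso
    rw [hl]
    push_cast
    rfl
  have h1 := rw_lins (u := cap m w) (i := m) (by omega) (by omega) a b
  have h2 := Rw_act (i := m) hw (by omega) a b
  rw [hact, h1, hisol, hisol, hclen] at h2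
  constructor
  · intro h
    rcases h2.1 (Or.inr ⟨ha, hb, h⟩) with h3 | h3
    · rw [h3]
      exact Relation.EqvGen.refl _
    · exact h3.2.2
  · intro h
    rcases h2.2 (Or.inr ⟨ha, hb, h⟩) with h3 | h3
    · rw [h3]
      exact (Rw_equiv _).refl _
    · exact h3.2.2

/-- one cap -/
theorem step {w : Word} {m M N : ℕ} (hw : Ok w) (hl : w.length = N + 2) (hN : 1 ≤ N)
    (hm : N = m + 2 * M) (a b : ℤ) (ha : ¬ iso N m a) (hb : ¬ iso N m b) :
    Relation.EqvGen (Lw (N + 2) m w) a b ↔
      Relation.EqvGen (Lw N m (cap m w)) (sm N m a) (sm N m b) := by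
  have hmN : m ≤ N := by omega
  have hisol : ∀ a, isol w m a ↔ iso N m a := by
    intro a
    unfold isol iso
    rw [hl]
    push_cast
    rfl
  have hR1 := Relation.EqvGen.is_equivalence (Lw (N + 2) m w)
  have hR2 := Relation.EqvGen.is_equivalence (Lw N m (cap m w))
  have hcap' := fun a b ha hb => hcap (m := m) hw hl hN hmN a b ha hb
  constructor
  · intro h
    set Q : ℤ → ℤ → Prop := fun a b => Rw w a b ∨ ∃ a' b', ¬ iso N m a' ∧ ¬ iso N m b' ∧
      Rw w a a' ∧ Relation.EqvGen (Lw N m (cap m w)) (sm N m a') (sm N m b') ∧ Rw w b' b with hQ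
    have hh : ∀ a b, ¬ iso N m a → ¬ iso N m b → Rw w a b →
        Relation.EqvGen (Lw N m (cap m w)) (sm N m a) (sm N m b) := by
      intro a b ha hb hab
      apply Relation.EqvGen.rel
      apply Lw.rw
      rw [hcap' a b ha hb]
      apply Relation.EqvGen.rel
      left
      rw [hisol, hisol]
      exact ⟨ha, hb, hab⟩
    have hMe : Equivalence Q := by
      refine ⟨fun a => Or.inl ((Rw_equiv _).refl a), ?_, ?_⟩
      · rintro a b (h | ⟨a', b', h1, h2, h3, h4, h5⟩)
        · exact Or.inl ((Rw_equiv _).symm h)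
        · exact Or.inr ⟨b', a', h2, h1, (Rw_equiv _).symm h5, hR2.symm h4, (Rw_equiv _).symm h3⟩
      · rintro a b c (h | ⟨a', b', h1, h2, h3, h4, h5⟩) (k | ⟨b'', c', k1, k2, k3, k4, k5⟩)
        · exact Or.inl ((Rw_equiv _).trans h k)
        · exact Or.inr ⟨b'', c', k1, k2, (Rw_equiv _).trans h k3, k4, k5⟩
        · exact Or.inr ⟨a', b', h1, h2, h3, h4, (Rw_equiv _).trans h5 k⟩
        · exact Or.inr ⟨a', c', h1, k2, h3, hR2.trans h4 (hR2.trans
            (hh _ _ h2 k1 ((Rw_equiv _).trans h5 k3)) k4), k5⟩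
    have key : ∀ a b, Relation.EqvGen (Lw (N + 2) m w) a b → Q a b := by
      intro a b hab
      induction hab with
      | rel a b h =>
        rcases h with ⟨a, b, h⟩ | ⟨s, i, h⟩
        · exact Or.inl h
        · obtain ⟨t1, t2⟩ := big hmN s i (by omega)
          rcases i with _ | i
          · obtain ⟨t3, t4⟩ := small hmN s m (le_refl _)
            refine Or.inr ⟨_, _, ?_, t1, (Rw_equiv _).refl _, ?_, (Rw_equiv _).refl _⟩
            · simpa using t3
            · rw [t2]
              simp only [Nat.cast_zero, mul_zero, add_zero]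
              rw [t4]
              exact Relation.EqvGen.refl _
          · obtain ⟨t3, t4⟩ := big hmN s i (by omega)
            have e : s * ((N + 2 : ℕ) : ℤ) + m + 2 * ((i + 1 : ℕ) : ℤ)
                = s * ((N + 2 : ℕ) : ℤ) + m + 2 * i + 2 := by push_cast; ring
            refine Or.inr ⟨_, _, ?_, t1, (Rw_equiv _).refl _, ?_, (Rw_equiv _).refl _⟩
            · rw [e]; exact t3
            · rw [t2, e, t4]
              have e2 : s * (N : ℤ) + m + 2 * ((i + 1 : ℕ) : ℤ) = s * N + m + 2 * i + 2 := by
                push_cast; ring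
              rw [e2]
              exact Relation.EqvGen.rel _ _ (Lw.wire s i (by omega))
      | refl a => exact hMe.refl _
      | symm a b _ ih => exact hMe.symm ih
      | trans a b c _ _ ih1 ih2 => exact hMe.trans ih1 ih2
    rcases key _ _ h with h1 | ⟨a', b', h1, h2, h3, h4, h5⟩
    · exact hh _ _ ha hb h1
    · exact hR2.trans (hh _ _ ha h1 h3) (hR2.trans h4 (hh _ _ h2 hb h5))
  · intro h
    have hgen : ∀ a b, Relation.EqvGen (fun x y => (¬ isol w m x ∧ ¬ isol w m y ∧ Rw w x y) ∨
        ∃ k : ℤ, x = m + k * w.length ∧ y = m + 2 + k * w.length) a b →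
        Relation.EqvGen (Lw (N + 2) m w) a b := by
      intro a b h1
      induction h1 with
      | rel a b h =>
        rcases h with h | ⟨k, h1, h2⟩
        · exact Relation.EqvGen.rel _ _ (Lw.rw _ _ h.2.2)
        · have := Lw.wire (N := N + 2) (m := m) (w := w) k 0 (by omega)
          have e1 : k * ((N + 2 : ℕ) : ℤ) + m + 2 * ((0 : ℕ) : ℤ) = a := by
            rw [h1, hl]; push_cast; ring
          have e2 : k * ((N + 2 : ℕ) : ℤ) + m + 2 * ((0 : ℕ) : ℤ) + 2 = b := by
            rw [h2, hl]; push_cast; ring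
          rw [e2, e1] at this
          exact Relation.EqvGen.rel _ _ this
      | refl a => exact Relation.EqvGen.refl _
      | symm a b _ ih => exact Relation.EqvGen.symm _ _ ih
      | trans a b c _ _ ih1 ih2 => exact Relation.EqvGen.trans _ _ _ ih1 ih2
    have hsame : ∀ a b, ¬ iso N m a → ¬ iso N m b → sm N m a = sm N m b →
        Relation.EqvGen (Lw (N + 2) m w) a b := by
      intro a b ha hb hab
      apply hgen
      rw [← hcap' a b ha hb, hab]
      exact (Rw_equiv _).refl _
    have key : ∀ x y, Relation.EqvGen (Lw N m (cap m w)) x y →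
        Relation.EqvGen (Lw (N + 2) m w) (sec N m x) (sec N m y) := by
      intro x y hxy
      induction hxy with
      | rel x y h =>
        rcases h with ⟨x, y, h⟩ | ⟨s, i, h⟩
        · obtain ⟨t1, t2⟩ := sec_spec (i := m) hN x
          obtain ⟨t3, t4⟩ := sec_spec (i := m) hN y
          exact hgen _ _ ((hcap' _ _ t1 t3).1 (by rw [t2, t4]; exact h))
        · obtain ⟨t1, t2⟩ := sec_spec (i := m) hN (s * (N : ℤ) + m + 2 * i)
          obtain ⟨t3, t4⟩ := sec_spec (i := m) hN (s * (N : ℤ) + m + 2 * i + 2)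
          obtain ⟨t5, t6⟩ := big hmN s i (by omega)
          obtain ⟨t7, t8⟩ := big hmN s (i + 1) (by omega)
          have h1 := hsame _ _ t1 t5 (by rw [t2, t6])
          have e2 : s * (N : ℤ) + m + 2 * ((i + 1 : ℕ) : ℤ) = s * N + m + 2 * i + 2 := by
            push_cast; ring
          have h2 := hsame _ _ t7 t3 (by rw [t8, t4, e2])
          have h3 := Lw.wire (N := N + 2) (m := m) (w := w) s (i + 1) (by omega)
          have e3 : s * ((N + 2 : ℕ) : ℤ) + m + 2 * ((i + 1 : ℕ) : ℤ)
              = s * ((N + 2 : ℕ) : ℤ) + m + 2 * i + 2 := by push_cast; ring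
          rw [e3] at h3 h2
          exact hR1.trans h1 (hR1.trans (Relation.EqvGen.rel _ _ h3) h2)
      | refl a => exact Relation.EqvGen.refl _
      | symm a b _ ih => exact Relation.EqvGen.symm _ _ ih
      | trans a b c _ _ ih1 ih2 => exact Relation.EqvGen.trans _ _ _ ih1 ih2
    obtain ⟨t1, t2⟩ := sec_spec (i := m) hN (sm N m a)
    obtain ⟨t3, t4⟩ := sec_spec (i := m) hN (sm N m b)
    exact hR1.trans (hsame _ _ ha t1 t2.symm) (hR1.trans (key _ _ h) (hsame _ _ t3 hb t4))

/-- one cap, sectors -/
theorem step_Sec {w : Word} {m M N : ℕ} (hw : Ok w) (hl : w.length = N + 2) (hN : 1 ≤ N)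
    (hm : N = m + 2 * M) :
    Sec m (N + 2) (Relation.EqvGen (Lw (N + 2) m w)) ↔
      Sec m N (Relation.EqvGen (Lw N m (cap m w))) := by
  have hmN : m ≤ N := by omega
  have key : ∀ (c d : ℕ) (s : ℤ), c ≤ m → d ≤ m →
      (Relation.EqvGen (Lw (N + 2) m w) (c : ℤ) (s * ((N + 2 : ℕ) : ℤ) + d) ↔
        Relation.EqvGen (Lw N m (cap m w)) (c : ℤ) (s * (N : ℤ) + d)) := by
    intro c d s hc hd
    obtain ⟨t1, t2⟩ := small hmN 0 c hc
    obtain ⟨t3, t4⟩ := small hmN s d hd
    have := step hw hl hN hm _ _ t1 t3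
    rw [t2, t4] at this
    simpa only [zero_mul, zero_add] using this
  unfold Sec
  constructor
  · rintro ⟨h1, h2⟩
    refine ⟨?_, ?_⟩
    · intro c d hc hcm hd hcd hC
      apply h1 c d hc hcm hd hcd
      have := (key c d 0 hcm.le hd).2 (by simpa only [zero_mul, zero_add] using hC)
      simpa only [zero_mul, zero_add] using this
    · intro c hc hcm
      obtain ⟨s, hs, d, hd, hdm, hC⟩ := h2 c hc hcm
      exact ⟨s, hs, d, hd, hdm, (key c d s hcm.le hdm.le).1 hC⟩
  · rintro ⟨h1, h2⟩
    refine ⟨?_, ?_⟩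
    · intro c d hc hcm hd hcd hC
      apply h1 c d hc hcm hd hcd
      have := (key c d 0 hcm.le hd).1 (by simpa only [zero_mul, zero_add] using hC)
      simpa only [zero_mul, zero_add] using this
    · intro c hc hcm
      obtain ⟨s, hs, d, hd, hdm, hC⟩ := h2 c hc hcm
      exact ⟨s, hs, d, hd, hdm, (key c d s hcm.le hdm.le).2 hC⟩

/-! ### no closed strands -/

theorem lsum_rep (n : ℕ) (b : Bool) : lsum (List.replicate n b) = if b then (n : ℤ) else -n := by
  rw [lsum_count, List.length_replicate, List.count_replicate]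
  cases b
  · simp
  · simp; ring

/-- partial heights of `bwm m` -/
theorem take_bwm {m r : ℕ} (hr : r ≤ m) :
    lsum ((bwm m).take r) = if r ≤ m / 2 then -(r : ℤ) else (r : ℤ) - 2 * (m / 2 : ℕ) := by
  unfold bwm
  rw [List.take_append, List.take_replicate, List.take_replicate, List.length_replicate,
    lsum_append, lsum_rep, lsum_rep]
  simp only [Bool.false_eq_true, if_false, if_true]
  split_ifs with h
  · rw [min_eq_left h, min_eq_left (by omega), Nat.sub_eq_zero_of_le h]
    simp
  · rw [min_eq_right (by omega), min_eq_left (by omega)]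
    rw [Nat.cast_sub (by omega)]
    ring

theorem length_bwm (m : ℕ) : (bwm m).length = m := by
  unfold bwm
  rw [List.length_append, List.length_replicate, List.length_replicate]
  omega

theorem base_mp {m : ℕ} (hm : 1 ≤ m) : Sec m m (Rw (bwm m)) := by
  obtain ⟨H, hH, h0⟩ := exists_ht (sg (bwm m))
  have hlen := length_bwm m
  have hA : ∀ (k : ℤ) (r : ℕ), r ≤ m → H (k * m + r) = H (k * m) +
      (if r ≤ m / 2 then -(r : ℤ) else (r : ℤ) - 2 * (m / 2 : ℕ)) := by
    intro k r hr
    have := ht_take hH k r (by rw [hlen]; exact hr)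
    rw [hlen, take_bwm hr] at this
    exact this
  have hA0 : ∀ r : ℕ, r ≤ m → H r =
      (if r ≤ m / 2 then -(r : ℤ) else (r : ℤ) - 2 * (m / 2 : ℕ)) := by
    intro r hr
    have := hA 0 r hr
    simpa [h0] using this
  have hm' : H m = (m : ℤ) - 2 * (m / 2 : ℕ) := by
    rw [hA0 m (le_refl _), if_neg (by omega)]
  have hmm : H (-m) = -((m : ℤ) - 2 * (m / 2 : ℕ)) := by
    have := hA (-1) m (le_refl _)
    rw [if_neg (by omega)] at this
    have e1 : (-1 : ℤ) * m + m = 0 := by ring
    have e2 : (-1 : ℤ) * m = -m := by ring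
    rw [e1, e2, h0] at this
    omega
  refine ⟨?_, ?_⟩
  · intro c d hc hcm hd hcd hC
    rw [Rw_iff hH] at hC
    obtain ⟨h1, h2⟩ := hC
    have h3 := h2 (m / 2 : ℕ)
    rw [hA0 c hcm.le, hA0 d hd] at h1
    rw [hA0 c hcm.le, hA0 (m / 2) (by omega)] at h3
    split_ifs at h1 h3 <;> omega
  · intro c hc hcm
    by_cases hch : c ≤ m / 2
    · refine ⟨-1, by norm_num, m - c, by omega, by omega, ?_⟩
      rw [Rw_iff hH]
      have e : (-1 : ℤ) * m + ((m - c : ℕ) : ℤ) = -c := by
        rw [Nat.cast_sub hcm.le]; ring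
      have hneg : ∀ j : ℕ, j ≤ c → H (-j) = -j := by
        intro j hj
        have h4 := hA (-1) (m - j) (by omega)
        have e1 : (-1 : ℤ) * m + ((m - j : ℕ) : ℤ) = -j := by
          rw [Nat.cast_sub (by omega)]; ring
        have e2 : (-1 : ℤ) * m = -m := by ring
        rw [e1, e2, hmm] at h4
        rw [h4]
        split_ifs <;> omega
      rw [e]
      refine ⟨?_, ?_⟩
      · rw [hneg c (le_refl _), hA0 c hcm.le, if_pos hch]
      · intro l hl
        rw [hA0 c hcm.le, if_pos hch]
        rcases le_or_gt 0 l with h5 | h5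
        · obtain ⟨r, rfl⟩ := Int.eq_ofNat_of_zero_le h5
          rw [hA0 r (by omega), if_pos (by omega)]
          omega
        · obtain ⟨r, hr⟩ := Int.eq_ofNat_of_zero_le (show 0 ≤ -l by omega)
          have e3 : l = -(r : ℤ) := by omega
          rw [e3, hneg r (by omega)]
          omega
    · refine ⟨1, by norm_num, m - c, by omega, by omega, ?_⟩
      rw [Rw_iff hH]
      have hpos : ∀ j : ℕ, j ≤ m - c → H (1 * m + j) = (m : ℤ) - 2 * (m / 2 : ℕ) - j := by
        intro j hj
        rw [hA 1 j (by omega), one_mul, hm', if_pos (by omega)]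
        ring
      refine ⟨?_, ?_⟩
      · rw [hpos _ (le_refl _), hA0 c hcm.le, if_neg hch]
        omega
      · intro l hl
        rw [hA0 c hcm.le, if_neg hch]
        rcases le_or_gt (m : ℤ) l with h5 | h5
        · obtain ⟨r, hr⟩ := Int.eq_ofNat_of_zero_le (show 0 ≤ l - m by omega)
          have e3 : l = 1 * (m : ℤ) + r := by omega
          rw [e3, hpos r (by omega)]
          omega
        · obtain ⟨r, rfl⟩ := Int.eq_ofNat_of_zero_le (show 0 ≤ l by omega)
          rw [hA0 r (by omega)]
          split_ifs <;> omega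

theorem base_mpr {m : ℕ} (hm : 1 ≤ m) {w : Word} (hw : Ok w) (hl : w.length = m)
    (h : Sec m m (Rw w)) : w = bwm m := by
  obtain ⟨h1, h2⟩ := h
  rcases L2Aux.dich w with ⟨a, b, rfl⟩ | ⟨p, q, rfl⟩
  · exfalso
    set w := a ++ true :: false :: b with hwd
    have hlen : a.length + 2 ≤ m := by
      rw [← hl, hwd]; simp
    have s1 : sg w (a.length : ℤ) = 1 := by
      rw [sg_nat (by omega), hwd]
      simp [ep]
    have s2 : sg w ((a.length : ℤ) + 1) = -1 := by
      have := sg_nat (w := w) (r := a.length + 1) (by omega)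
      push_cast at this
      rw [this, hwd]
      simp [ep]
    obtain ⟨H, hH, h0⟩ := exists_ht (sg w)
    have hR : Rw w (a.length : ℤ) ((a.length : ℤ) + 2) := by
      rw [Rw_iff hH]
      have g1 := hH (a.length : ℤ)
      have g2 := hH ((a.length : ℤ) + 1)
      rw [s1] at g1
      rw [s2] at g2
      have e : (a.length : ℤ) + 1 + 1 = a.length + 2 := by ring
      rw [e] at g2
      refine ⟨by omega, ?_⟩
      intro l hl
      have : l = a.length ∨ l = (a.length : ℤ) + 1 ∨ l = (a.length : ℤ) + 2 := by omega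
      rcases this with rfl | rfl | rfl <;> omega
    rcases Nat.eq_zero_or_pos a.length with h3 | h3
    · rcases (show m = 2 ∨ 2 < m by omega) with h4 | h4
      · subst h4
        obtain ⟨s, hs, d, hd, hdm, hC⟩ := h2 1 (le_refl _) (by omega)
        have hd1 : d = 1 := by omega
        subst hd1
        rw [h3] at s1 s2
        have := rw_peak (w := w) (a := 1) (b := s * (2 : ℕ) + (1 : ℕ)) (by simpa using s2)
          (by simpa using s1) (by simpa using hC)
        apply hs
        push_cast at this
        omega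
      · apply h1 2 0 (by omega) h4 (by omega) (by omega)
        rw [h3] at hR
        have := (Rw_equiv _).symm hR
        simpa using this
    · apply h1 a.length (a.length + 2) h3 (by omega) hlen (by omega)
      push_cast
      exact hR
  · unfold Ok at hw
    rw [hl] at hw
    simp only [List.length_append, List.length_replicate] at hl
    rw [List.count_append, List.count_replicate, List.count_replicate] at hw
    simp at hw
    unfold bwm
    congr 2 <;> omega

theorem Lw_nowire {m : ℕ} {w : Word} (a b : ℤ) :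
    Relation.EqvGen (Lw m m w) a b ↔ Rw w a b := by
  constructor
  · intro h
    induction h with
    | rel a b h =>
      rcases h with ⟨a, b, h⟩ | ⟨s, i, h⟩
      · exact h
      · omega
    | refl a => exact (Rw_equiv _).refl _
    | symm a b _ ih => exact (Rw_equiv _).symm ih
    | trans a b c _ _ ih1 ih2 => exact (Rw_equiv _).trans ih1 ih2
  · intro h
    exact Relation.EqvGen.rel _ _ (Lw.rw _ _ h)

theorem main {m : ℕ} (hm : 1 ≤ m) : ∀ (M : ℕ) (w : Word), Ok w → w.length = m + 2 * M →
    (capit m M w = bwm m ↔ Sec m (m + 2 * M) (Relation.EqvGen (Lw (m + 2 * M) m w))) := by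
  intro M
  induction M with
  | zero =>
    intro w hw hl
    have e : Relation.EqvGen (Lw (m + 2 * 0) m w) = Rw w := by
      funext a b
      exact propext (Lw_nowire a b)
    rw [e]
    constructor
    · intro h
      change w = bwm m at h
      rw [h]
      exact base_mp hm
    · intro h
      exact base_mpr hm hw hl h
  | succ M ih =>
    intro w hw hl
    have hl' : w.length = (m + 2 * M) + 2 := by omega
    have hc := length_cap (i := m) (w := w) (by omega)
    have h1 := ih (cap m w) (ok_cap hw (by omega)) (by omega)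
    have h2 := step_Sec (M := M) hw hl' (by omega) rfl
    have e : m + 2 * (M + 1) = m + 2 * M + 2 := by ring
    rw [e, h2, ← h1]
    rfl

end TWG

theorem t_WG : S_WG := by
  intro m M w hw hl h1
  unfold Gd
  have hM : (w.length - m) / 2 = M := by omega
  rw [hM]
  rcases Nat.eq_zero_or_pos m with h0 | h0
  · subst h0
    constructor
    · intro _
      exact ⟨fun c d _ hc => absurd hc (by omega), fun c _ hc => absurd hc (by omega)⟩
    · intro _
      have key : ∀ (M : ℕ) (w : Word), w.length = 0 + 2 * M → (capit 0 M w).length = 0 := by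
        intro M
        induction M with
        | zero => intro w hw; simpa [capit] using hw
        | succ M ih =>
          intro w hw
          have := length_cap (i := 0) (w := w) (by omega)
          exact ih (cap 0 w) (by omega)
      have := key M w hl
      rw [List.length_eq_zero_iff] at this
      rw [this]
      rfl
  · rw [hl]
    exact TWG.main h0 M w hw hl

end Pool.Agent.W808.HB
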