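import Pool.Agent.W808.HB.Stm

/-! Task P3 (`S_X1`): the finite half cylinder versus words (helper590; simplification of
`H160R2/LE/T_X1.lean`). -/

set_option autoImplicit false

namespace Pool.Agent.W808.HB
open Pool.Agent.H863R2.Cyl
open Pool.Agent.H988R2.Perc (Word PD)

namespace TX1

theorem Lw_of_Lk {n : ℕ} (hn : 1 ≤ n) (M m : ℕ) (c : ℕ → Fin (n + 1) → Bool) (σ : Wd (n + 1))
    (a b : ℤ) (h : Relation.EqvGen (Lk n c M σ.1) (a, M) (b, M)) :
    Relation.EqvGen (Lw (n + 1) m (rows n c M σ).1) a b :=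
  Relation.EqvGen.rel _ _ (Lw.rw a b ((Rw_rows _ hn _ _ _ _ _).2 h))

theorem mapB {n M m : ℕ} {c : ℕ → Fin (n + 1) → Bool} {σ : Word}
    {p q : ℤ × ℕ} (h : Relation.EqvGen (Lk n c M σ) p q) :
    Relation.EqvGen (BH n M m c σ) p q := by
  induction h with
  | rel x y h => exact Relation.EqvGen.rel _ _ (BH.low x y h)
  | refl x => exact Relation.EqvGen.refl _
  | symm x y _ h => exact Relation.EqvGen.symm _ _ h
  | trans x y z _ _ h1 h2 => exact Relation.EqvGen.trans _ _ _ h1 h2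

theorem key {n : ℕ} (hn : 1 ≤ n) (M m : ℕ) (c : ℕ → Fin (n + 1) → Bool) (σ : Wd (n + 1))
    (x y : ℤ × ℕ) (h : Relation.EqvGen (BH n M m c σ.1) x y) :
    Relation.EqvGen (Lk n c M σ.1) x y ∨
    ∃ a b : ℤ, Relation.EqvGen (Lk n c M σ.1) x (a, M) ∧ Relation.EqvGen (Lk n c M σ.1) y (b, M) ∧
      Relation.EqvGen (Lw (n + 1) m (rows n c M σ).1) a b := by
  induction h with
  | rel x y h =>
    cases h with
    | low x y h => exact Or.inl (Relation.EqvGen.rel _ _ h)
    | wire s i hi =>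
      exact Or.inr ⟨_, _, Relation.EqvGen.refl _, Relation.EqvGen.refl _,
        Relation.EqvGen.rel _ _ (Lw.wire s i hi)⟩
  | refl x => exact Or.inl (Relation.EqvGen.refl _)
  | symm x y _ h =>
    rcases h with h1 | ⟨a, b, h1, h2, h3⟩
    · exact Or.inl (Relation.EqvGen.symm _ _ h1)
    · exact Or.inr ⟨b, a, h2, h1, Relation.EqvGen.symm _ _ h3⟩
  | trans x y z _ _ h1 h2 =>
    rcases h1 with h1 | ⟨a, b, h11, h12, h13⟩
    · rcases h2 with h2 | ⟨a', b', h21, h22, h23⟩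
      · exact Or.inl (Relation.EqvGen.trans _ _ _ h1 h2)
      · exact Or.inr ⟨a', b', Relation.EqvGen.trans _ _ _ h1 h21, h22, h23⟩
    · rcases h2 with h2 | ⟨a', b', h21, h22, h23⟩
      · exact Or.inr ⟨a, b, h11, Relation.EqvGen.trans _ _ _ (Relation.EqvGen.symm _ _ h2) h12, h13⟩
      · exact Or.inr ⟨a, b', h11, h22, Relation.EqvGen.trans _ _ _ h13
          (Relation.EqvGen.trans _ _ _ (Lw_of_Lk hn M m c σ b a'
            (Relation.EqvGen.trans _ _ _ (Relation.EqvGen.symm _ _ h12) h21)) h23)⟩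

theorem back {n : ℕ} (hn : 1 ≤ n) (M m : ℕ) (c : ℕ → Fin (n + 1) → Bool) (σ : Wd (n + 1))
    (a b : ℤ) (h : Relation.EqvGen (Lw (n + 1) m (rows n c M σ).1) a b) :
    Relation.EqvGen (BH n M m c σ.1) (a, M) (b, M) := by
  induction h with
  | rel x y h =>
    cases h with
    | rw a b h => exact mapB ((Rw_rows _ hn _ _ _ _ _).1 h)
    | wire s i hi => exact Relation.EqvGen.rel _ _ (BH.wire s i hi)
  | refl x => exact Relation.EqvGen.refl _
  | symm x y _ h => exact Relation.EqvGen.symm _ _ h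
  | trans x y z _ _ h1 h2 => exact Relation.EqvGen.trans _ _ _ h1 h2

end TX1

open TX1 in
theorem t_X1 : S_X1 := by
  intro n M m hn c σ a b
  constructor
  · intro h
    rcases key hn M m c σ _ _ h with h1 | ⟨a', b', h1, h2, h3⟩
    · exact Lw_of_Lk hn M m c σ a b h1
    · exact Relation.EqvGen.trans _ _ _ (Lw_of_Lk hn M m c σ a a' h1)
        (Relation.EqvGen.trans _ _ _ h3 (Relation.EqvGen.symm _ _ (Lw_of_Lk hn M m c σ b b' h2)))
  · exact back hn M m c σ a b

end Pool.Agent.W808.HB
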