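import Pool.Agent.W808.HB.Stm
import Pool.Agent.H863R2.Cyl.Markov

/-! Task P6: the exact probability on the half-infinite cylinder. -/

set_option autoImplicit false

namespace Pool.Agent.W808.HB
open Pool.Agent.H863R2.Cyl
open Pool.Agent.H988R2.Perc (Word PD)
open MeasureTheory

theorem t_X7 (hP : S_PW) (hW : S_WG) (h3 : S_X3) (h5 : S_X5) (h6 : S_X6) : S_X7 := by
  intro m M hmM
  have hprob : IsProbabilityMeasure coinsH := by
    unfold coinsH
    infer_instance
  obtain ⟨n, hn⟩ : ∃ n, n + 1 = m + 2 * M := ⟨m + 2 * M - 1, by omega⟩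
  rcases Nat.eq_zero_or_pos n with hn0 | hn1
  · -- circumference one
    have hm : m = 1 := by omega
    have hM : M = 0 := by omega
    subst hm hM
    have e1 : {ω | LegEv (1 + 2 * 0) 1 ω} = Set.univ := by
      ext ω
      simp only [Set.mem_ofPred_eq, Set.mem_univ, iff_true]
      refine ⟨?_, ?_⟩
      · intro c d h1 h2
        omega
      · intro c h1 h2
        omega
    rw [e1, probReal_univ]
    simp [Pn, Cn]
  · rw [← hn]
    obtain ⟨μ, hμ0, hμ1, hst, -, -⟩ := markov_exists n
    rw [← hP n m M hn μ hμ0 hμ1 hst]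
    refine eq_of_forall_dist_le ?_
    intro ε hε
    obtain ⟨K, hK⟩ := h6 n ε hε
    rw [← h5 n K m μ hst, Real.dist_eq]
    set P := coinsH.real {ω | LegEv (n + 1) m ω} with hPd
    have key : ∀ ω : ℤ × ℕ → Bool, (∃ t < K, Alt (n + 1) ω t) → ∀ σ : Wd (n + 1),
        (LegEv (n + 1) m ω ↔ Gd m (rows n (crow (n + 1) K ω) K σ).1) := by
      rintro ω ⟨t, ht, hA⟩ σ
      set w := rows n (crow (n + 1) K ω) K σ with hw
      have hl : w.1.length = n + 1 := w.2.1
      rw [hW m M w.1 w.2.2 (by rw [hl, hn]) (by rw [hl]; omega), hl]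
      have e : (fun a b : ℤ => Relation.EqvGen (HL (n + 1) m ω) (a, 0) (b, 0)) =
          Relation.EqvGen (Lw (n + 1) m w.1) := by
        funext a b
        exact propext (h3 n K m t hn1 ht ω hA σ a b)
      unfold LegEv
      rw [e]
    have h1 : P = ∑ σ, μ σ * P := by
      rw [← Finset.sum_mul, hμ1, one_mul]
    have h2 : ∀ σ : Wd (n + 1),
        |P - coinsH.real {ω | Gd m (rows n (crow (n + 1) K ω) K σ).1}| ≤ ε := by
      intro σ
      have s1 : {ω | LegEv (n + 1) m ω} ⊆
          {ω | Gd m (rows n (crow (n + 1) K ω) K σ).1} ∪ {ω | ¬ ∃ t < K, Alt (n + 1) ω t} := by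
        intro ω hω
        by_cases hb : ∃ t < K, Alt (n + 1) ω t
        · left
          exact (key ω hb σ).1 hω
        · right
          exact hb
      have s2 : {ω | Gd m (rows n (crow (n + 1) K ω) K σ).1} ⊆
          {ω | LegEv (n + 1) m ω} ∪ {ω | ¬ ∃ t < K, Alt (n + 1) ω t} := by
        intro ω hω
        by_cases hb : ∃ t < K, Alt (n + 1) ω t
        · left
          exact (key ω hb σ).2 hω
        · right
          exact hb
      have t1 := (measureReal_mono (μ := coinsH) s1).trans (measureReal_union_le _ _)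
      have t2 := (measureReal_mono (μ := coinsH) s2).trans (measureReal_union_le _ _)
      rw [abs_le]
      constructor <;> linarith
    calc |P - ∑ σ, μ σ * coinsH.real {ω | Gd m (rows n (crow (n + 1) K ω) K σ).1}|
        = |∑ σ, μ σ * (P - coinsH.real {ω | Gd m (rows n (crow (n + 1) K ω) K σ).1})| := by
          congr 1
          conv_lhs => rw [h1]
          rw [← Finset.sum_sub_distrib]
          refine Finset.sum_congr rfl fun σ _ => ?_
          ring
      _ ≤ ∑ σ, μ σ * ε := by
          refine (Finset.abs_sum_le_sum_abs _ _).trans ?_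
          refine Finset.sum_le_sum fun σ _ => ?_
          rw [abs_mul, abs_of_nonneg (hμ0 σ)]
          exact mul_le_mul_of_nonneg_left (h2 σ) (hμ0 σ)
      _ = ε := by rw [← Finset.sum_mul, hμ1, one_mul]

end Pool.Agent.W808.HB
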