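import Pool.Agent.W808.HB.Stm
import Pool.Agent.H863R2.Cyl.Braid
import Pool.Agent.H988R2.Perc.T03

/-!
# The partition function is a polynomial in a leg
-/

set_option autoImplicit false

namespace Pool.Agent.W808.HB
open Pool.Agent.H863R2.Cyl
open Pool.Agent.H988R2.Perc (Word PD)

theorem t_deg : S_deg := by
  intro q e Ψ hD A B z
  have hPD : ∀ w : Word, ∃ P : Polynomial ℂ, P.natDegree ≤ A.length + B.length + z.length ∧
      ∀ x, Ψ (A ++ x :: (B ++ z)) w = P.eval x := by
    intro w
    have h := hD.h.deg (A.length + (B ++ z).length + 1) w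
    obtain ⟨P, hP, hPe⟩ := Pool.Agent.H988R2.Perc.PD.univ h A (B ++ z) rfl
    refine ⟨P, ?_, hPe⟩
    rw [List.length_append] at hP
    omega
  choose P hPd hPe using hPD
  have hlen : ∀ x, (A ++ x :: (B ++ z)).length = A.length + B.length + z.length + 1 := by
    intro x
    simp only [List.length_append, List.length_cons]; omega
  refine ⟨∑ w ∈ BLAux.SN (A.length + B.length + z.length + 1),
    Polynomial.C (e (A.length + B.length + 1) w) * P w, ?_, ?_⟩
  · refine Polynomial.natDegree_sum_le_of_forall_le _ _ fun w _ => ?_
    exact (Polynomial.natDegree_C_mul_le _ _).trans (hPd w)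
  · intro x
    have hmem := hD.h.mem (A ++ x :: (B ++ z))
    rw [hlen] at hmem
    have hex := BLAux.expand hmem
    have hA : A ++ x :: B ++ z = A ++ x :: (B ++ z) := by simp
    have hl1 : (A ++ x :: B).length = A.length + B.length + 1 := by
      simp only [List.length_append, List.length_cons]; omega
    unfold GG
    rw [hA, hl1, hex, map_sum, Polynomial.eval_finsetSum]
    refine Finset.sum_congr rfl fun w _ => ?_
    rw [map_smul, Polynomial.eval_mul, Polynomial.eval_C, ← hPe w x, smul_eq_mul, mul_comm]
    unfold bs
    rw [Finsupp.linearCombination_single, one_smul]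

end Pool.Agent.W808.HB
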