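import Pool.Agent.W808.HB.T_legx

/-!
# Exchange inside a pair
-/

set_option autoImplicit false

namespace Pool.Agent.W808.HB
open Pool.Agent.H863R2.Cyl
open Pool.Agent.H988R2.Perc (Word PD)

open Tlegx in
theorem t_flip : S_flip := by
  intro q e Ψ D A u v x y hu hv hne
  have hq := D.hq
  have h1 := D.h.exch (A ++ u) v x y
  have e1 : A ++ (u ++ y :: x :: v) = (A ++ u) ++ y :: x :: v := by simp
  have e2 : A ++ (u ++ x :: y :: v) = (A ++ u) ++ x :: y :: v := by simp
  unfold GG
  rw [e1, e2]
  obtain ⟨j, hj⟩ := hu
  obtain ⟨k, hk⟩ := hv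
  have h2 := congrArg (Finsupp.linearCombination ℂ (e A.length)) h1
  have hm := D.h.mem ((A ++ u) ++ x :: y :: v)
  have hz : Finsupp.linearCombination ℂ (e A.length)
      (lin (act (A ++ u).length) (Ψ ((A ++ u) ++ x :: y :: v))) =
      Finsupp.linearCombination ℂ (e A.length) (Ψ ((A ++ u) ++ x :: y :: v)) := by
    rw [lc_lin]
    refine lc_congr hm ?_
    intro w hw hok
    have h5 : (A ++ u).length + 2 ≤ w.length := by
      rw [hw]; simp only [List.length_append, List.length_cons]; omega
    have h6 := length_cap h5
    have h7 : w.length = A.length + 2 * (j + k) + 2 := by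
      rw [hw]; simp only [List.length_append, List.length_cons]; omega
    have h8 : (A ++ u).length = A.length + 2 * j := by
      rw [List.length_append]; omega
    rw [act_eq h5, D.he.ins A.length (j + k) _ _ (ok_cap hok h5) (by omega) (by omega) (by omega),
      h8]
    exact D.he.cap _ (j + k) j w hok h7 (by omega)
  rw [map_add, map_smul, map_smul, map_smul, hz, smul_eq_mul, smul_eq_mul, smul_eq_mul] at h2
  apply mul_left_cancel₀ hne
  rw [h2]
  generalize Finsupp.linearCombination ℂ (e A.length) (Ψ ((A ++ u) ++ x :: y :: v)) = G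
  linear_combination (x - y) * G * hq

end Pool.Agent.W808.HB
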