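import Pool.Agent.W808.HB.Stm

/-!
# Exchange of two legs
-/

set_option autoImplicit false

namespace Pool.Agent.W808.HB
open Pool.Agent.H863R2.Cyl
open Pool.Agent.H988R2.Perc (Word PD)

namespace Tlegx

/-- a functional applied to the image of a vector under a map of words -/
theorem lc_lin {f : Word → ℂ} {g : Word → Word} (v : VW) :
    Finsupp.linearCombination ℂ f (lin g v) = Finsupp.linearCombination ℂ (fun w => f (g w)) v := by
  unfold lin
  rw [Finsupp.lmapDomain_apply, Finsupp.linearCombination_mapDomain]
  rfl

theorem lc_congr {f g : Word → ℂ} {v : VW} {N : ℕ} (hv : v ∈ VN N)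
    (h : ∀ w : Word, w.length = N → Ok w → f w = g w) :
    Finsupp.linearCombination ℂ f v = Finsupp.linearCombination ℂ g v := by
  rw [Finsupp.linearCombination_apply, Finsupp.linearCombination_apply]
  refine Finsupp.sum_congr fun w hw => ?_
  have := (Finsupp.mem_supported ℂ v).1 hv hw
  rw [h w this.1 this.2]

end Tlegx

open Tlegx in
theorem t_legx : S_legx := by
  intro q e Ψ D u v z x y hE
  have h1 := D.h.exch u (v ++ z) x y
  have e1 : (u ++ y :: x :: v) ++ z = u ++ y :: x :: (v ++ z) := by simp
  have e2 : (u ++ x :: y :: v) ++ z = u ++ x :: y :: (v ++ z) := by simp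
  have l1 : (u ++ y :: x :: v).length = u.length + v.length + 2 := by
    simp only [List.length_append, List.length_cons]; omega
  have l2 : (u ++ x :: y :: v).length = u.length + v.length + 2 := by
    simp only [List.length_append, List.length_cons]; omega
  unfold GG
  rw [l1, l2, e1, e2]
  obtain ⟨M, hM⟩ := hE
  have h2 := congrArg (Finsupp.linearCombination ℂ (e (u.length + v.length + 2))) h1
  have hm := D.h.mem (u ++ x :: y :: (v ++ z))
  have hz : Finsupp.linearCombination ℂ (e (u.length + v.length + 2))
      (lin (act u.length) (Ψ (u ++ x :: y :: (v ++ z)))) = 0 := by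
    rw [lc_lin, lc_congr (g := fun _ => (0 : ℂ)) hm]
    · rw [Finsupp.linearCombination_apply]
      simp
    · intro w hw hok
      have h5 : u.length + 2 ≤ w.length := by
        rw [hw]; simp only [List.length_append, List.length_cons]; omega
      have h6 := length_cap h5
      have h7 : w.length = u.length + v.length + 2 + 2 * M := by
        rw [hw]; simp only [List.length_append, List.length_cons]; omega
      rw [act_eq h5]
      exact D.he.zero _ M _ _ (ok_cap hok h5) (by omega) (by omega)
  rw [map_add, map_smul, map_smul, map_smul, hz, smul_zero, add_zero, smul_eq_mul,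
    smul_eq_mul] at h2
  exact h2

end Pool.Agent.W808.HB
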