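import Pool.Agent.W808.HB.T_legx
import Pool.Agent.H863R2.Cyl.Braid

/-!
# Moving a leg across the seam
-/

set_option autoImplicit false

namespace Pool.Agent.W808.HB
open Pool.Agent.H863R2.Cyl
open Pool.Agent.H988R2.Perc (Word PD)

open Tlegx in
theorem t_mvL : S_mvL := by
  intro q e Ψ D A z x y hE
  obtain ⟨M, hM⟩ := hE
  have e1 : (q * y) :: A ++ (z ++ [x, y]) = (q * y) :: ((A ++ z ++ [x]) ++ [y]) := by simp
  have e2 : x :: A ++ z = x :: (A ++ z) := by simp
  unfold GG
  rw [e1, e2, List.length_cons, List.length_cons, BLAux.seam_form D.h, map_smul, smul_eq_mul,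
    D.h.rot x (A ++ z), lc_lin, lc_lin]
  congr 1
  refine lc_congr (D.h.mem _) ?_
  intro w hw hok
  have h1 : w.length = (A.length + 1) + 2 * M := by
    rw [hw]; simp only [List.length_append, List.length_cons, List.length_nil]; omega
  exact D.he.seam (A.length + 1) M w hok h1 (by omega)

end Pool.Agent.W808.HB
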