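import Pool.Agent.W808.HB.T_legx

/-!
# Moving a leg across a pair (right)
-/

set_option autoImplicit false

namespace Pool.Agent.W808.HB
open Pool.Agent.H863R2.Cyl
open Pool.Agent.H988R2.Perc (Word PD)

open Tlegx in
theorem t_mvR : S_mvR := by
  intro q e Ψ D A z x y hE
  obtain ⟨M, hM⟩ := hE
  have e1 : (A ++ [x]) ++ (q * x) :: y :: z = A ++ x :: (q * x) :: (y :: z) := by simp
  have e2 : (A ++ [y]) ++ z = A ++ y :: z := by simp
  have l1 : (A ++ [x]).length = A.length + 1 := by simp
  have l2 : (A ++ [y]).length = A.length + 1 := by simp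
  unfold GG
  rw [e1, e2, l1, l2, D.h.recu A (y :: z) x, map_smul, smul_eq_mul, lc_lin]
  congr 1
  refine lc_congr (D.h.mem _) ?_
  intro w hw hok
  have h1 : w.length = (A.length + 1) + 2 * M := by
    rw [hw]; simp only [List.length_append, List.length_cons]; omega
  exact D.he.ins (A.length + 1) M A.length w hok h1 (by omega) (by omega)

end Pool.Agent.W808.HB
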