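import Pool.Agent.W808.HB.Stm
import Pool.Agent.H863R2.Cyl.GProp

/-! Task G2 (helper809): exchange of pairs. -/

set_option autoImplicit false

namespace Pool.Agent.W808.HB
open Pool.Agent.H863R2.Cyl
open Pool.Agent.H988R2.Perc (Word PD)
open Pool.Agent.H160R2.ML (pfq Gn)

namespace Tpex

open Pool.Agent.H863R2.Cyl.PairAux (lin_bs VN_induction)

/-- two linear forms agreeing on admissible words agree on `VN N` -/
theorem ext_VN {N : ℕ} {f g : VW →ₗ[ℂ] ℂ}
    (h : ∀ w : Word, w.length = N → Ok w → f (bs w) = g (bs w)) {v : VW} (hv : v ∈ VN N) :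
    f v = g v := by
  refine VN_induction (p := fun v => f v = g v) ?_ ?_ ?_ ?_ hv
  · rw [map_zero, map_zero]
  · intro v v' h1 h2
    rw [map_add, map_add, h1, h2]
  · intro c v h1
    rw [map_smul, map_smul, h1]
  · intro w h1 h2
    exact h w h1 h2

/-- the leg functional as a linear form -/
noncomputable def fe (e : ℕ → Word → ℂ) (m : ℕ) : VW →ₗ[ℂ] ℂ :=
  Finsupp.linearCombination ℂ (e m)

theorem fe_bs (e : ℕ → Word → ℂ) (m : ℕ) (w : Word) : fe e m (bs w) = e m w := by
  unfold fe bs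
  rw [Finsupp.linearCombination_single, one_smul]

variable {e : ℕ → Word → ℂ}

/-- closing and inserting an aligned pair does not change the functional -/
theorem e_act (he : ESp e) {m M j : ℕ} {w : Word} (hw : Ok w) (hl : w.length = m + 2 * M + 2)
    (hj : j ≤ M) : e m (act (m + 2 * j) w) = e m w := by
  have h1 : m + 2 * j + 2 ≤ w.length := by omega
  have h2 := length_cap h1
  rw [act_eq h1, he.ins m M (m + 2 * j) _ (ok_cap hw h1) (by omega) (by omega) (by omega),
    he.cap m M j w hw hl hj]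

/-- the middle generator after an aligned one -/
theorem e_mid_left (he : ESp e) {m M j : ℕ} {w : Word} (hw : Ok w)
    (hl : w.length = m + 2 * M + 4) (hj : j ≤ M) :
    e m (act (m + 2 * j + 1) (act (m + 2 * j) w)) = e m w := by
  have h1 : m + 2 * j + 2 ≤ w.length := by omega
  have h2 := length_cap h1
  have o1 := ok_cap hw h1
  have h3 : (m + 2 * j + 1) + 2 ≤ (act (m + 2 * j) w).length := by rw [length_act]; omega
  have h4 : cap (m + 2 * j + 1) (act (m + 2 * j) w) = cap (m + 2 * j) w := by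
    rw [act_eq h1]
    exact cap_succ_lins (by omega)
  rw [act_eq h3, h4, he.ins m (M + 1) (m + 2 * j + 1) _ o1 (by omega) (by omega) (by omega)]
  exact he.cap m (M + 1) j w hw (by omega) (by omega)

theorem e_mid_right (he : ESp e) {m M j : ℕ} {w : Word} (hw : Ok w)
    (hl : w.length = m + 2 * M + 4) (hj : j ≤ M) :
    e m (act (m + 2 * j + 1) (act (m + 2 * j + 2) w)) = e m w := by
  have h1 : (m + 2 * j + 2) + 2 ≤ w.length := by omega
  have h2 := length_cap h1
  have o1 := ok_cap hw h1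
  have h3 : (m + 2 * j + 1) + 2 ≤ (act (m + 2 * j + 2) w).length := by rw [length_act]; omega
  have h4 : cap (m + 2 * j + 1) (act (m + 2 * j + 2) w) = cap (m + 2 * j + 2) w := by
    rw [act_eq h1]
    exact cap_lins_succ (i := m + 2 * j + 1) (by omega)
  rw [act_eq h3, h4, he.ins m (M + 1) (m + 2 * j + 1) _ o1 (by omega) (by omega) (by omega)]
  have := he.cap m (M + 1) (j + 1) w hw (by omega) (by omega)
  have e2 : m + 2 * (j + 1) = m + 2 * j + 2 := by ring
  rwa [e2] at this

theorem e_mid_mid {m i : ℕ} {w : Word} (hl : i + 2 ≤ w.length) :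
    e m (act i (act i w)) = e m (act i w) := by
  have h3 : i + 2 ≤ (act i w).length := by rw [length_act]; omega
  have h2 := length_cap hl
  congr 1
  rw [act_eq h3, act_eq hl, cap_lins_self (by omega)]

end Tpex

open Tpex in
theorem t_pex : S_pex := by
  intro q e Ψ D A u v x y hu hv hG
  obtain ⟨hq, he, hΨ⟩ := D
  have hq3 : q ^ 3 = 1 := by linear_combination (q - 1) * hq
  have hx0 : x ≠ 0 := hG.1 x (by simp)
  have hy0 : y ≠ 0 := hG.1 y (by simp)
  -- the denominators do not vanish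
  have hden : ∀ a b : ℂ, a ^ 3 ≠ b ^ 3 → q * b - q ^ 2 * a ≠ 0 := by
    intro a b hab h0
    apply hab
    have hq0 : q ≠ 0 := by
      rintro rfl
      norm_num at hq
    have h1 : b = q * a := by
      have : q * (b - q * a) = 0 := by linear_combination h0
      rcases mul_eq_zero.1 this with h2 | h2
      · exact absurd h2 hq0
      · linear_combination h2
    rw [h1]
    linear_combination (-a ^ 3) * hq3
  obtain ⟨-, hnd⟩ := hG
  simp only [List.map_cons, List.map_nil, List.nodup_cons, List.mem_cons, List.not_mem_nil,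
    or_false, not_or, not_false_eq_true, List.nodup_nil, and_true] at hnd
  obtain ⟨⟨n12, n13, n14⟩, ⟨n23, n24⟩, n34⟩ := hnd
  set m := A.length with hm
  obtain ⟨j, hj⟩ := hu
  obtain ⟨k, hk⟩ := hv
  set N := m + 2 * (j + k) + 4 with hN
  set i := m + 2 * j with hi
  -- the vectors
  have key : ∀ a b c d : ℂ, (Ψ (A ++ (u ++ a :: b :: c :: d :: v))) ∈ VN N := by
    intro a b c d
    have := hΨ.mem (A ++ (u ++ a :: b :: c :: d :: v))
    have h2 : (A ++ (u ++ a :: b :: c :: d :: v)).length = N := by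
      simp only [List.length_append, List.length_cons]
      omega
    rwa [h2] at this
  -- exchange at the three positions
  have ex1 : ∀ a b c d : ℂ, (q * b - q ^ 2 * a) • Ψ (A ++ (u ++ b :: a :: c :: d :: v)) =
      (q * a - q ^ 2 * b) • Ψ (A ++ (u ++ a :: b :: c :: d :: v)) +
      (a - b) • lin (act i) (Ψ (A ++ (u ++ a :: b :: c :: d :: v))) := by
    intro a b c d
    have := hΨ.exch (A ++ u) (c :: d :: v) a b
    rw [List.append_assoc, List.append_assoc, List.length_append] at this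
    have h2 : A.length + u.length = i := by omega
    rwa [h2] at this
  have ex2 : ∀ a b c d : ℂ, (q * c - q ^ 2 * b) • Ψ (A ++ (u ++ a :: c :: b :: d :: v)) =
      (q * b - q ^ 2 * c) • Ψ (A ++ (u ++ a :: b :: c :: d :: v)) +
      (b - c) • lin (act (i + 1)) (Ψ (A ++ (u ++ a :: b :: c :: d :: v))) := by
    intro a b c d
    have := hΨ.exch (A ++ (u ++ [a])) (d :: v) b c
    simp only [List.append_assoc, List.cons_append, List.nil_append, List.length_append,
      List.length_cons, List.length_nil] at this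
    have h2 : A.length + (u.length + (0 + 1)) = i + 1 := by omega
    rwa [h2] at this
  have ex3 : ∀ a b c d : ℂ, (q * d - q ^ 2 * c) • Ψ (A ++ (u ++ a :: b :: d :: c :: v)) =
      (q * c - q ^ 2 * d) • Ψ (A ++ (u ++ a :: b :: c :: d :: v)) +
      (c - d) • lin (act (i + 2)) (Ψ (A ++ (u ++ a :: b :: c :: d :: v))) := by
    intro a b c d
    have := hΨ.exch (A ++ (u ++ [a, b])) v c d
    simp only [List.append_assoc, List.cons_append, List.nil_append, List.length_append,
      List.length_cons, List.length_nil] at this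
    have h2 : A.length + (u.length + (0 + 1 + 1)) = i + 2 := by omega
    rwa [h2] at this
  -- the two functionals
  obtain ⟨f, hf⟩ : ∃ f : VW →ₗ[ℂ] ℂ, f = fe e m := ⟨_, rfl⟩
  obtain ⟨g, hg⟩ : ∃ g : VW →ₗ[ℂ] ℂ, g = (fe e m).comp (lin (act (i + 1))) := ⟨_, rfl⟩
  have f1 : ∀ V ∈ VN N, f (lin (act i) V) = f V := by
    intro V hV
    refine ext_VN (N := N) (f := f.comp (lin (act i))) (g := f) ?_ hV
    intro w hw1 hw2
    rw [LinearMap.comp_apply, PairAux.lin_bs, hf, fe_bs, fe_bs]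
    exact e_act he (M := j + k + 1) hw2 (by omega) (by omega)
  have f3 : ∀ V ∈ VN N, f (lin (act (i + 2)) V) = f V := by
    intro V hV
    refine ext_VN (N := N) (f := f.comp (lin (act (i + 2)))) (g := f) ?_ hV
    intro w hw1 hw2
    rw [LinearMap.comp_apply, PairAux.lin_bs, hf, fe_bs, fe_bs]
    exact e_act he (M := j + k + 1) (j := j + 1) hw2 (by omega) (by omega)
  have f2 : ∀ V : VW, f (lin (act (i + 1)) V) = g V := by
    intro V
    rw [hf, hg]
    rfl
  have g1 : ∀ V ∈ VN N, g (lin (act i) V) = f V := by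
    intro V hV
    refine ext_VN (N := N) (f := g.comp (lin (act i))) (g := f) ?_ hV
    intro w hw1 hw2
    rw [LinearMap.comp_apply, PairAux.lin_bs, hg, LinearMap.comp_apply, PairAux.lin_bs, hf,
      fe_bs, fe_bs]
    exact e_mid_left he (M := j + k) hw2 (by omega) (by omega)
  have g3 : ∀ V ∈ VN N, g (lin (act (i + 2)) V) = f V := by
    intro V hV
    refine ext_VN (N := N) (f := g.comp (lin (act (i + 2)))) (g := f) ?_ hV
    intro w hw1 hw2
    rw [LinearMap.comp_apply, PairAux.lin_bs, hg, LinearMap.comp_apply, PairAux.lin_bs, hf,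
      fe_bs, fe_bs]
    exact e_mid_right he (M := j + k) hw2 (by omega) (by omega)
  have g2 : ∀ V ∈ VN N, g (lin (act (i + 1)) V) = g V := by
    intro V hV
    refine ext_VN (N := N) (f := g.comp (lin (act (i + 1)))) (g := g) ?_ hV
    intro w hw1 hw2
    rw [LinearMap.comp_apply, PairAux.lin_bs, hg, LinearMap.comp_apply, LinearMap.comp_apply,
      PairAux.lin_bs, PairAux.lin_bs, fe_bs, fe_bs]
    exact e_mid_mid (by omega)
  -- scalar form of the exchanges
  have F1 : ∀ a b c d : ℂ, a ^ 3 ≠ b ^ 3 →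
      f (Ψ (A ++ (u ++ b :: a :: c :: d :: v))) = f (Ψ (A ++ (u ++ a :: b :: c :: d :: v))) := by
    intro a b c d hab
    have h1 := congrArg f (ex1 a b c d)
    rw [map_smul, map_add, map_smul, map_smul, f1 _ (key a b c d)] at h1
    simp only [smul_eq_mul] at h1
    apply mul_left_cancel₀ (hden a b hab)
    linear_combination h1 + (a - b) * f (Ψ (A ++ (u ++ a :: b :: c :: d :: v))) * hq
  have F3 : ∀ a b c d : ℂ, c ^ 3 ≠ d ^ 3 →
      f (Ψ (A ++ (u ++ a :: b :: d :: c :: v))) = f (Ψ (A ++ (u ++ a :: b :: c :: d :: v))) := by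
    intro a b c d hab
    have h1 := congrArg f (ex3 a b c d)
    rw [map_smul, map_add, map_smul, map_smul, f3 _ (key a b c d)] at h1
    simp only [smul_eq_mul] at h1
    apply mul_left_cancel₀ (hden c d hab)
    linear_combination h1 + (c - d) * f (Ψ (A ++ (u ++ a :: b :: c :: d :: v))) * hq
  have G2 : ∀ a b c d : ℂ, b ^ 3 ≠ c ^ 3 →
      g (Ψ (A ++ (u ++ a :: c :: b :: d :: v))) = g (Ψ (A ++ (u ++ a :: b :: c :: d :: v))) := by
    intro a b c d hab
    have h1 := congrArg g (ex2 a b c d)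
    rw [map_smul, map_add, map_smul, map_smul, g2 _ (key a b c d)] at h1
    simp only [smul_eq_mul] at h1
    apply mul_left_cancel₀ (hden b c hab)
    linear_combination h1 + (b - c) * g (Ψ (A ++ (u ++ a :: b :: c :: d :: v))) * hq
  have sc : ∀ (a b P0 P1 P2 G : ℂ), a ≠ 0 → b ≠ 0 → a ^ 3 ≠ b ^ 3 →
      (q * b - q ^ 2 * a) * P1 = (q * a - q ^ 2 * b) * P0 + (a - b) * G →
      (q * b⁻¹ - q ^ 2 * a⁻¹) * P2 = (q * a⁻¹ - q ^ 2 * b⁻¹) * P1 + (a⁻¹ - b⁻¹) * G → P2 = P0 := by
    intro a b P0 P1 P2 G ha hb hab h1 h2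
    apply mul_left_cancel₀ (hden b a (Ne.symm hab))
    have h3 : (q * a - q ^ 2 * b) * P2 = (q * b - q ^ 2 * a) * P1 + (b - a) * G := by
      have h4 : a * b * ((q * b⁻¹ - q ^ 2 * a⁻¹) * P2) =
          a * b * ((q * a⁻¹ - q ^ 2 * b⁻¹) * P1 + (a⁻¹ - b⁻¹) * G) := by rw [h2]
      have e1 : a * b * ((q * b⁻¹ - q ^ 2 * a⁻¹) * P2) = (q * a - q ^ 2 * b) * P2 := by
        field_simp
      have e2 : a * b * ((q * a⁻¹ - q ^ 2 * b⁻¹) * P1 + (a⁻¹ - b⁻¹) * G) =
          (q * b - q ^ 2 * a) * P1 + (b - a) * G := by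
        field_simp
      rw [← e1, h4, e2]
    linear_combination h3 + h1
  have hinv : ∀ a : ℂ, (a⁻¹)⁻¹ = a := inv_inv
  -- step 1
  have s1f := congrArg f (ex2 x x⁻¹ y y⁻¹)
  have s1g := G2 x x⁻¹ y y⁻¹ n23
  rw [map_smul, map_add, map_smul, map_smul, f2] at s1f
  simp only [smul_eq_mul] at s1f
  -- step 2
  have s2f := F1 x y x⁻¹ y⁻¹ n13
  have s2g := congrArg g (ex1 x y x⁻¹ y⁻¹)
  rw [map_smul, map_add, map_smul, map_smul, g1 _ (key _ _ _ _)] at s2g
  simp only [smul_eq_mul] at s2g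
  -- step 3
  have s3f := F3 y x x⁻¹ y⁻¹ n24
  have s3g := congrArg g (ex3 y x x⁻¹ y⁻¹)
  rw [map_smul, map_add, map_smul, map_smul, g3 _ (key _ _ _ _), s2f] at s3g
  simp only [smul_eq_mul] at s3g
  have s3 := sc x y _ _ _ _ hx0 hy0 n13 s2g s3g
  -- step 4
  have s4f := congrArg f (ex2 y x y⁻¹ x⁻¹)
  rw [map_smul, map_add, map_smul, map_smul, f2, s3f, s2f, s3, s1g] at s4f
  simp only [smul_eq_mul] at s4f
  have fin := sc x⁻¹ y (f (Ψ (A ++ (u ++ x :: x⁻¹ :: y :: y⁻¹ :: v))))
    (f (Ψ (A ++ (u ++ x :: y :: x⁻¹ :: y⁻¹ :: v)))) (f (Ψ (A ++ (u ++ y :: y⁻¹ :: x :: x⁻¹ :: v))))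
    (g (Ψ (A ++ (u ++ x :: x⁻¹ :: y :: y⁻¹ :: v)))) (inv_ne_zero hx0) hy0 n23 s1f
    (by rw [hinv]; exact s4f)
  have hGG : ∀ z : List ℂ, GG e Ψ A z = f (Ψ (A ++ z)) := by
    intro z
    rw [hf]
    rfl
  rw [hGG, hGG]
  exact fin.symm

end Pool.Agent.W808.HB
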