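import Pool.Agent.W808.HB.Stm

/-! Task G2 (helper809): symmetry in the pairs. -/

set_option autoImplicit false

namespace Pool.Agent.W808.HB
open Pool.Agent.H863R2.Cyl
open Pool.Agent.H988R2.Perc (Word PD)
open Pool.Agent.H160R2.ML (pfq Gn)

namespace Tsym

theorem prs_append (l l' : List ℂ) : prs (l ++ l') = prs l ++ prs l' := by
  unfold prs
  rw [List.flatMap_append]

theorem prs_cons (x : ℂ) (l : List ℂ) : prs (x :: l) = x :: x⁻¹ :: prs l := rfl

theorem length_prs (l : List ℂ) : (prs l).length = 2 * l.length := by
  induction l with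
  | nil => rfl
  | cons x l ih => rw [prs_cons]; simp only [List.length_cons, ih]; ring

theorem even_prs (l : List ℂ) : Even (prs l).length := by
  rw [length_prs]; exact even_two_mul _

theorem Gn_perm {l l' : List ℂ} (h : l.Perm l') (hl : Gn l) : Gn l' :=
  ⟨fun x hx => hl.1 x (h.mem_iff.2 hx), (h.map _).nodup_iff.1 hl.2⟩

theorem Gn_sublist {l l' : List ℂ} (h : l'.Sublist l) (hl : Gn l) : Gn l' :=
  ⟨fun x hx => hl.1 x (h.subset hx), (h.map _).nodup hl.2⟩

theorem prs_perm {l l' : List ℂ} (h : l.Perm l') : (prs l).Perm (prs l') :=
  h.flatMap_right _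

end Tsym

open Tsym in
theorem t_sym (h1 : S_flip) (h2 : S_pex) : S_sym := by
  intro q e Ψ D A l hG
  have hq := D.hq
  have hq3 : q ^ 3 = 1 := by linear_combination (q - 1) * hq
  have hden : ∀ a b : ℂ, a ^ 3 ≠ b ^ 3 → q * b - q ^ 2 * a ≠ 0 := by
    intro a b hab h0
    apply hab
    have hq0 : q ≠ 0 := by
      rintro rfl
      norm_num at hq
    have h1 : b = q * a := by
      have : q * (b - q * a) = 0 := by linear_combination h0
      rcases mul_eq_zero.1 this with h2 | h2
      · exact absurd h2 hq0
      · linear_combination h2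
    rw [h1]
    linear_combination (-a ^ 3) * hq3
  constructor
  · intro l' hp
    have key : ∀ u : List ℂ, Gn (prs (u ++ l)) →
        GG e Ψ A (prs (u ++ l)) = GG e Ψ A (prs (u ++ l')) := by
      clear hG
      induction hp with
      | nil => intro u _; rfl
      | cons x _ ih =>
        intro u hu
        have := ih (u ++ [x]) (by simpa using hu)
        simpa using this
      | swap x y l =>
        intro u hu
        rw [prs_append, prs_append, prs_cons, prs_cons, prs_cons, prs_cons]
        refine h2 q e Ψ D A (prs u) (prs l) y x (even_prs _) (even_prs _) ?_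
        rw [prs_append, prs_cons, prs_cons] at hu
        refine Gn_sublist ?_ hu
        refine List.Sublist.trans ?_ (List.sublist_append_right _ _)
        exact (((List.nil_sublist _).cons_cons _).cons_cons _).cons_cons _ |>.cons_cons _
      | trans p1 p2 ih1 ih2 =>
        intro u hu
        rw [ih1 u hu, ih2 u (Gn_perm (prs_perm (p1.append_left u)) hu)]
    exact key [] hG
  · intro u v x hl
    subst hl
    rw [prs_append, prs_append, prs_cons, prs_cons, inv_inv]
    refine h1 q e Ψ D A (prs u) (prs v) x x⁻¹ (even_prs _) (even_prs _) ?_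
    apply hden
    rw [prs_append, prs_cons] at hG
    have h3 : Gn [x, x⁻¹] := by
      refine Gn_sublist ?_ hG
      refine List.Sublist.trans ?_ (List.sublist_append_right _ _)
      exact ((List.nil_sublist _).cons_cons _).cons_cons _
    have h4 := h3.2
    simp only [List.map_cons, List.map_nil, List.nodup_cons, List.mem_cons, List.not_mem_nil,
      or_false, not_false_eq_true, List.nodup_nil, and_true] at h4
    exact h4

end Pool.Agent.W808.HB
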