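import Pool.Agent.W808.HB.T_AS
import Pool.Agent.W808.HB.T_B1
import Pool.Agent.W808.HB.T_B2
import Pool.Agent.W808.HB.T_DC
import Pool.Agent.W808.HB.T_E
import Pool.Agent.W808.HB.T_Eb
import Pool.Agent.W808.HB.T_Ec
import Pool.Agent.W808.HB.T_Ei
import Pool.Agent.W808.HB.T_Es
import Pool.Agent.W808.HB.T_Ez
import Pool.Agent.W808.HB.T_HV
import Pool.Agent.W808.HB.T_KL
import Pool.Agent.W808.HB.T_KR
import Pool.Agent.W808.HB.T_LB
import Pool.Agent.W808.HB.T_M0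
import Pool.Agent.W808.HB.T_M1
import Pool.Agent.W808.HB.T_M2
import Pool.Agent.W808.HB.T_PW
import Pool.Agent.W808.HB.T_TK
import Pool.Agent.W808.HB.T_TP
import Pool.Agent.W808.HB.T_TR
import Pool.Agent.W808.HB.T_U
import Pool.Agent.W808.HB.T_WG
import Pool.Agent.W808.HB.T_X1
import Pool.Agent.W808.HB.T_X3
import Pool.Agent.W808.HB.T_X5
import Pool.Agent.W808.HB.T_X6
import Pool.Agent.W808.HB.T_X7
import Pool.Agent.W808.HB.T_bs
import Pool.Agent.W808.HB.T_comp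
import Pool.Agent.W808.HB.T_deg
import Pool.Agent.W808.HB.T_flip
import Pool.Agent.W808.HB.T_legx
import Pool.Agent.W808.HB.T_mvL
import Pool.Agent.W808.HB.T_mvR
import Pool.Agent.W808.HB.T_pex
import Pool.Agent.W808.HB.T_sym

/-!
# Legs at the boundary of the half-infinite cylinder: assembly
-/

set_option autoImplicit false

namespace Pool.Agent.W808.HB

theorem a_E : S_E := t_E t_Ez t_Ei t_Ec t_Es t_Eb
theorem a_pex : S_pex := t_pex
theorem a_sym : S_sym := t_sym t_flip a_pex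
theorem a_bs : S_bs := t_bs t_comp
theorem a_M1 : S_M1 := t_M1 t_legx a_sym t_mvR t_mvL t_deg a_bs t_TP t_TR
theorem a_M2 : S_M2 := t_M2 a_M1 t_deg t_TP
theorem a_M0 : S_M0 := t_M0 a_M2 t_TP
theorem a_KL : S_KL := t_KL t_U
theorem a_HV : S_HV := t_HV a_M2 a_M0 t_TK a_KL
theorem a_DC : S_DC := t_DC t_KR
theorem a_PW : S_PW := t_PW a_E a_HV a_DC
theorem a_X3 : S_X3 := t_X3 t_X1
theorem a_X7 : S_X7 := t_X7 a_PW t_WG a_X3 t_X5 t_X6
theorem a_LB : S_LB := t_LB t_B1 t_B2 a_X7 t_AS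

end Pool.Agent.W808.HB
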