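import Pool.Agent.H160R2.ML.Defs

/-!
# Legs at the boundary of the half-infinite cylinder: definitions

`m + 2 M` strands end at the boundary; the strands `0, …, m-1` are legs, the strands
`m + 2 j, m + 2 j + 1` are closed by a small arc (free boundary condition).
-/

set_option autoImplicit false

namespace Pool.Agent.W808.HB
open Pool.Agent.H863R2.Cyl
open Pool.Agent.H988R2.Perc (Word PD)
open Pool.Agent.H160R2.ML (pfq Gn)
open Filter Topology

/-! ## the leg functional -/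

/-- close the strands `m, m+1`, `M` times -/
def capit (m : ℕ) : ℕ → Word → Word
  | 0, w => w
  | (M + 1), w => capit m M (cap m w)

/-- the word of length `m` all of whose arcs cross the seam -/
def bwm (m : ℕ) : Word := List.replicate (m / 2) false ++ List.replicate (m - m / 2) true

/-- the legs `0, …, m-1` go around the cylinder when the other strands are closed pairwise -/
def Gd (m : ℕ) (w : Word) : Prop := capit m ((w.length - m) / 2) w = bwm m

instance (m : ℕ) (w : Word) : Decidable (Gd m w) := inferInstanceAs (Decidable (_ = _))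

/-- its indicator -/
def el (m : ℕ) (w : Word) : ℂ := if Gd m w then 1 else 0

/-- axioms of the leg functional -/
structure ESp (e : ℕ → Word → ℂ) : Prop where
  zero : ∀ (m M i : ℕ) (u : Word), Ok u → u.length + 2 = m + 2 * M → i + 2 ≤ m →
    e m (lins i u) = 0
  ins : ∀ (m M i : ℕ) (u : Word), Ok u → u.length = m + 2 * M → m ≤ i + 1 → i ≤ u.length →
    e m (lins i u) = e m u
  cap : ∀ (m M j : ℕ) (w : Word), Ok w → w.length = m + 2 * M + 2 → j ≤ M →
    e m (cap (m + 2 * j) w) = e m w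
  seam : ∀ (m M : ℕ) (u : Word), Ok u → u.length = m + 2 * M → 1 ≤ m →
    e m (seam u) = e m (rotr u)
  base : ∀ m : ℕ, e m (bwm m) = 1
  tot0 : ∀ (M : ℕ) (w : Word), Ok w → w.length = 2 * M → e 0 w = 1
  tot1 : ∀ (M : ℕ) (w : Word), Ok w → w.length = 2 * M + 1 → e 1 w = 1

/-- the partition function with the legs `A` and the other strands `z` -/
noncomputable def GG (e : ℕ → Word → ℂ) (Ψ : List ℂ → VW) (A z : List ℂ) : ℂ :=
  Finsupp.linearCombination ℂ (e A.length) (Ψ (A ++ z))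

/-- pairs `x, 1/x` -/
noncomputable def prs (l : List ℂ) : List ℂ := l.flatMap fun x => [x, x⁻¹]

/-- the common data -/
structure Dat (q : ℂ) (e : ℕ → Word → ℂ) (Ψ : List ℂ → VW) : Prop where
  hq : q ^ 2 + q + 1 = 0
  he : ESp e
  h : Fam q Ψ

/-- the normalisation with `m` legs -/
noncomputable def kap (q : ℂ) (m : ℕ) : ℂ := if Even m then (q - 1) ^ (m / 2) else (1 - q) ^ (m / 2)

/-! ## the determinant -/

noncomputable def Xf (x : ℂ) : ℂ := x + x⁻¹
noncomputable def Yf (q x : ℂ) : ℂ := q ^ 2 * x + q * x⁻¹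

/-- `∏_{b ∈ C} (b - q x) (b - q² / x)` -/
noncomputable def lp (q : ℂ) (C : List ℂ) (x : ℂ) : ℂ :=
  (C.map (fun b => (b - q * x) * (b - q ^ 2 * x⁻¹))).prod

noncomputable def gp (q x : ℂ) : ℂ :=
  q ^ 2 * (x⁻¹ - q * x) ^ 2 * (x⁻¹ - q ^ 2 * x) / (x⁻¹ - x)

/-- the determinant with the legs `C` -/
noncomputable def TT (q : ℂ) (C : List ℂ) {M : ℕ} (x : Fin M → ℂ) : ℂ :=
  (Matrix.of fun i j : Fin M => gp q (x j) * lp q C (x j) / (Xf (x i) - Yf q (x j))
    + gp q (x j)⁻¹ * lp q C (x j)⁻¹ / (Xf (x i) - Yf q (x j)⁻¹)).det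

noncomputable def wdx {M : ℕ} (x : Fin M → ℂ) : ℂ :=
  ∏ i, ∏ j ∈ Finset.Ioi i, (x i ^ 3 + (x i)⁻¹ ^ 3 - (x j ^ 3 + (x j)⁻¹ ^ 3)) ^ 2

noncomputable def vdx {M : ℕ} (x : Fin M → ℂ) : ℂ :=
  ∏ i, ∏ j ∈ Finset.Ioi i, (Xf (x i) - Xf (x j)) ^ 2

/-! ## the homogeneous limit -/

/-- the coefficients -/
def cc (m k l : ℕ) : ℕ := (if k ≤ 2 * l + 1 then (m + k + l).choose (2 * l + 1 - k) else 0)
  + 2 * (if k ≤ 2 * l then (m + k + l).choose (2 * l - k) else 0)

noncomputable def bet (Y : ℂ) : ℂ := (Y - 1) ^ 2 / Y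

/-- the point of parameter `Y` -/
noncomputable def xY (q Y : ℂ) : ℂ := (1 + q * Y) / (q + Y)

noncomputable def Kf (m : ℕ) (b Y : ℂ) : ℂ :=
  ((2 * Y - 1) * Y ^ m / (1 - b * (Y * (Y - 1)))
    - (2 * Y⁻¹ - 1) * Y⁻¹ ^ m / (1 - b * (Y⁻¹ * (Y⁻¹ - 1)))) / (Y - Y⁻¹)

/-- the path to the homogeneous point -/
noncomputable def Yv (t : ℝ) (i : ℕ) : ℂ := ((1 + t * (i + 1) : ℝ) : ℂ)

/-- the determinant of the coefficients -/
noncomputable def Dc (m M : ℕ) : ℝ := (Matrix.of fun k l : Fin M => (cc m k l : ℝ)).det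

/-- its value -/
noncomputable def Cn (m M : ℕ) : ℝ := ∏ i ∈ Finset.range M,
  (((m + 3 * i + 2).factorial : ℝ) * i.factorial * (m + i).factorial * (2 * m + 3 * i).factorial) /
    (((2 * i + 1).factorial : ℝ) * (m + 2 * i).factorial * (m + 2 * i + 1).factorial *
      (2 * m + 2 * i).factorial)

/-- the probability of `m` legs, circumference `m + 2 M` -/
noncomputable def Pn (m M : ℕ) : ℝ := Cn m M / Cn (m % 2) (M + m / 2)

/-- inverse factorial -/
def rf (k : ℤ) : ℚ := if k < 0 then 0 else ((k.toNat.factorial : ℚ))⁻¹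

/-- a determinant of Krattenthaler -/
def KM (n : ℕ) (x y : ℤ) : Matrix (Fin n) (Fin n) ℚ := Matrix.of fun i j =>
  ((x + y + i.val + j.val - 1).toNat.factorial : ℚ) * rf (x + 2 * i.val - j.val)
    * rf (y - i.val + 2 * j.val)

def KP (n : ℕ) (x y : ℤ) : ℚ := ∏ i ∈ Finset.range n,
  ((i.factorial : ℚ) * ((x + y + i - 1).toNat.factorial : ℚ) * rf (x + 2 * i) * rf (y + 2 * i)
    * ∏ t ∈ Finset.range i, ((2 * x + y + 2 * i + t : ℤ) * (x + 2 * y + 2 * i + t : ℤ) : ℚ))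

/-! ## connections -/

/-- the connections of the faces `a ∈ ℤ` of the universal cover (face `a` is at the left of the
strand `a`): by the word and around the small arcs -/
inductive Lw (N m : ℕ) (w : Word) : ℤ → ℤ → Prop
  | rw (a b : ℤ) : Rw w a b → Lw N m w a b
  | wire (s : ℤ) (i : ℕ) : m + 2 * i + 2 ≤ N →
      Lw N m w (s * N + m + 2 * i) (s * N + m + 2 * i + 2)

/-- the inner sectors `1, …, m-1` are not connected to each other nor to the outer sectors `0`, `m`,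
and each of them is connected to an inner sector of another sheet -/
def Sec (m N : ℕ) (C : ℤ → ℤ → Prop) : Prop :=
  (∀ c d : ℕ, 1 ≤ c → c < m → d ≤ m → c ≠ d → ¬ C c d) ∧
  (∀ c : ℕ, 1 ≤ c → c < m → ∃ s : ℤ, s ≠ 0 ∧ ∃ d : ℕ, 1 ≤ d ∧ d < m ∧ C c (s * N + d))

/-- the finite half cylinder: `M` rows `c`, word `σ` at the far end (level `0`), the boundary is the
level `M` -/
inductive BH (n M m : ℕ) (c : ℕ → Fin (n + 1) → Bool) (σ : Word) : ℤ × ℕ → ℤ × ℕ → Prop
  | low (x y : ℤ × ℕ) : Lk n c M σ x y → BH n M m c σ x y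
  | wire (s : ℤ) (i : ℕ) : m + 2 * i + 2 ≤ n + 1 →
      BH n M m c σ (s * (n + 1 : ℕ) + m + 2 * i, M) (s * (n + 1 : ℕ) + m + 2 * i + 2, M)

/-- the half-infinite cylinder of circumference `N` (universal cover, heights `t ≥ 0`): the unit
square `[j,j+1] × [t,t+1]` has the diagonal from its lower left corner (`false`) or from its lower
right corner (`true`), periodically; the points `m, m+2, …, N` of the boundary are wired -/
inductive HL (N m : ℕ) (ω : ℤ × ℕ → Bool) : ℤ × ℕ → ℤ × ℕ → Prop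
  | rise (j : ℤ) (t : ℕ) : ω (j % N, t) = false → HL N m ω (j, t) (j + 1, t + 1)
  | fall (j : ℤ) (t : ℕ) : ω (j % N, t) = true → HL N m ω (j + 1, t) (j, t + 1)
  | wire (s : ℤ) (i : ℕ) : m + 2 * i + 2 ≤ N →
      HL N m ω (s * N + m + 2 * i, 0) (s * N + m + 2 * i + 2, 0)

/-- the `m` leg event -/
def LegEv (N m : ℕ) (ω : ℤ × ℕ → Bool) : Prop :=
  Sec m N (fun a b => Relation.EqvGen (HL N m ω) (a, 0) (b, 0))

/-- the rows of heights `M - 1, …, 0` -/
def crow (N M : ℕ) (ω : ℤ × ℕ → Bool) : ℕ → Fin N → Bool := fun t j => !(ω ((j.val : ℤ), M - 1 - t))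

/-- alternating row at height `t` -/
def Alt (N : ℕ) (ω : ℤ × ℕ → Bool) (t : ℕ) : Prop :=
  ∀ j : ℕ, j < N → ω ((j : ℤ), t) = decide (j % 2 = 1)

open MeasureTheory in
/-- fair coins -/
noncomputable def coinsH : Measure (ℤ × ℕ → Bool) :=
  Measure.infinitePi (fun _ => ProbabilityTheory.bernoulliMeasure true false
    ⟨1/2, by norm_num, by norm_num⟩)

/-! ## the half-plane -/

/-- the box `|j| ≤ R`, `t ≤ R` of the half-plane, the boundary is wired at `…, -2, 0` and at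
`m, m+2, …` -/
inductive BL (m R : ℕ) (ω : ℤ × ℕ → Bool) : ℤ × ℕ → ℤ × ℕ → Prop
  | rise (j : ℤ) (t : ℕ) : ω (j, t) = false → -(R : ℤ) ≤ j → j + 1 ≤ R → t + 1 ≤ R →
      BL m R ω (j, t) (j + 1, t + 1)
  | fall (j : ℤ) (t : ℕ) : ω (j, t) = true → -(R : ℤ) ≤ j → j + 1 ≤ R → t + 1 ≤ R →
      BL m R ω (j + 1, t) (j, t + 1)
  | wireL (i : ℕ) : 2 * i + 2 ≤ R → BL m R ω (-(2 * i : ℤ) - 2, 0) (-(2 * i : ℤ), 0)
  | wireR (i : ℕ) : m + 2 * i + 2 ≤ R → BL m R ω ((m : ℤ) + 2 * i, 0) ((m : ℤ) + 2 * i + 2, 0)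

/-- the sectors `1, …, m - 1` reach distance `R` and are not connected to each other nor to the outer
sectors -/
def HArm (m R : ℕ) (ω : ℤ × ℕ → Bool) : Prop :=
  (∀ c d : ℕ, 1 ≤ c → c < m → d ≤ m → c ≠ d →
    ¬ Relation.EqvGen (BL m R ω) ((c : ℤ), 0) ((d : ℤ), 0)) ∧
  (∀ c : ℕ, 1 ≤ c → c < m → ∃ y : ℤ × ℕ, (|y.1| = R ∨ y.2 = R) ∧
    Relation.EqvGen (BL m R ω) ((c : ℤ), 0) y)

end Pool.Agent.W808.HB
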