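import Pool.Agent.W808.HB.Stm

set_option autoImplicit false

/-! HB-D3 : asymptotics of `Pn`. -/

namespace Pool.Agent.W808.HB

namespace AS

/-- `|log (x + b) - log x - b / x| ≤ b² / x²` -/
lemma log_add_bound {x b : ℝ} (hx : 0 < x) (hb : 0 ≤ b) :
    |Real.log (x + b) - Real.log x - b / x| ≤ b ^ 2 / x ^ 2 := by
  have ht : 0 ≤ b / x := by positivity
  have e : Real.log (x + b) - Real.log x = Real.log (1 + b / x) := by
    rw [← Real.log_div (by positivity) hx.ne']
    congr 1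
    field_simp
  rw [e]
  have h1 : Real.log (1 + b / x) ≤ b / x := by
    have := Real.log_le_sub_one_of_pos (show 0 < 1 + b / x by positivity)
    linarith
  have h2 : 1 - (1 + b / x)⁻¹ ≤ Real.log (1 + b / x) :=
    Real.one_sub_inv_le_log_of_pos (by positivity)
  have h3 : b / x - (b / x) ^ 2 ≤ 1 - (1 + b / x)⁻¹ := by
    have h4 : 0 < 1 + b / x := by positivity
    rw [show 1 - (1 + b / x)⁻¹ = (b / x) / (1 + b / x) by field_simp; ring, le_div_iff₀ h4]
    nlinarith [pow_nonneg ht 3]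
  rw [← div_pow, abs_le]
  constructor
  · linarith
  · nlinarith [sq_nonneg (b / x)]

/-- growth of a sequence with given quotients -/
lemma compare (u : ℕ → ℝ) (hu : ∀ M, 0 < u M) (s K : ℝ)
    (h : ∀ M : ℕ, |Real.log (u (M + 1)) - Real.log (u M) +
      s * (Real.log ((M : ℝ) + 2) - Real.log ((M : ℝ) + 1))| ≤ K / ((M : ℝ) + 1) ^ 2) :
    ∃ c C : ℝ, 0 < c ∧ 0 < C ∧ ∀ M : ℕ,
      c * ((M : ℝ) + 1) ^ (-s) ≤ u M ∧ u M ≤ C * ((M : ℝ) + 1) ^ (-s) := by
  have hK : 0 ≤ K := by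
    have := (abs_nonneg _).trans (h 0)
    simpa using this
  set v : ℕ → ℝ := fun M => Real.log (u M) + s * Real.log ((M : ℝ) + 1) with hv
  have hb : ∀ M : ℕ, |v M - v 0| ≤ K * (2 - 1 / (M : ℝ)) := by
    intro M
    induction M with
    | zero => simp; exact hK
    | succ M ih =>
      have h1 : |v (M + 1) - v M| ≤ K / ((M : ℝ) + 1) ^ 2 := by
        refine le_trans (le_of_eq ?_) (h M)
        congr 1
        simp only [hv]
        push_cast
        rw [show (M : ℝ) + 1 + 1 = (M : ℝ) + 2 by ring]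
        ring
      rcases Nat.eq_zero_or_pos M with rfl | hM
      · have h2 : |v (0 + 1) - v 0| ≤ K / (((0:ℕ) : ℝ) + 1) ^ 2 := h1
        refine h2.trans (le_of_eq ?_)
        norm_num
      · have hM' : (1:ℝ) ≤ M := by exact_mod_cast hM
        have h2 : |v (M + 1) - v 0| ≤ |v (M + 1) - v M| + |v M - v 0| := by
          have := abs_add_le (v (M + 1) - v M) (v M - v 0)
          simpa using this
        have h3 : K / ((M : ℝ) + 1) ^ 2 + K * (2 - 1 / (M : ℝ)) ≤
            K * (2 - 1 / ((M + 1 : ℕ) : ℝ)) := by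
          push_cast
          have h4 : 1 / ((M : ℝ) + 1) ^ 2 ≤ 1 / (M : ℝ) - 1 / ((M : ℝ) + 1) := by
            rw [div_sub_div _ _ (by positivity) (by positivity), div_le_div_iff₀ (by positivity)
              (by positivity)]
            nlinarith
          have h5 := mul_le_mul_of_nonneg_left h4 hK
          calc K / ((M : ℝ) + 1) ^ 2 + K * (2 - 1 / (M : ℝ))
              = K * (1 / ((M : ℝ) + 1) ^ 2) + K * (2 - 1 / (M : ℝ)) := by ring
            _ ≤ K * (1 / (M : ℝ) - 1 / ((M : ℝ) + 1)) + K * (2 - 1 / (M : ℝ)) := by linarith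
            _ = _ := by ring
        linarith
  have hb2 : ∀ M : ℕ, |v M - v 0| ≤ 2 * K := by
    intro M
    refine (hb M).trans ?_
    have : 0 ≤ 1 / (M : ℝ) := by positivity
    nlinarith
  refine ⟨Real.exp (v 0 - 2 * K), Real.exp (v 0 + 2 * K), Real.exp_pos _, Real.exp_pos _,
    fun M => ?_⟩
  have hM0 : (0:ℝ) < (M : ℝ) + 1 := by positivity
  have e1 : u M = Real.exp (v M) * ((M : ℝ) + 1) ^ (-s) := by
    rw [Real.rpow_def_of_pos hM0, ← Real.exp_add]
    simp only [hv]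
    rw [show Real.log (u M) + s * Real.log ((M : ℝ) + 1) + Real.log ((M : ℝ) + 1) * -s =
      Real.log (u M) by ring, Real.exp_log (hu M)]
  have h1 := abs_le.mp (hb2 M)
  have hr : 0 < ((M : ℝ) + 1) ^ (-s) := Real.rpow_pos_of_pos hM0 _
  rw [e1]
  constructor
  · exact mul_le_mul_of_nonneg_right (Real.exp_le_exp.mpr (by linarith)) hr.le
  · exact mul_le_mul_of_nonneg_right (Real.exp_le_exp.mpr (by linarith)) hr.le

/-- the factors of `Cn` -/
noncomputable def hf (m i : ℕ) : ℝ :=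
  (((m + 3 * i + 2).factorial : ℝ) * i.factorial * (m + i).factorial * (2 * m + 3 * i).factorial) /
    (((2 * i + 1).factorial : ℝ) * (m + 2 * i).factorial * (m + 2 * i + 1).factorial *
      (2 * m + 2 * i).factorial)

lemma Cn_eq (m M : ℕ) : Cn m M = ∏ i ∈ Finset.range M, hf m i := rfl

lemma hf_pos (m i : ℕ) : 0 < hf m i := by
  unfold hf
  positivity

lemma Cn_pos (m M : ℕ) : 0 < Cn m M := Finset.prod_pos fun i _ => hf_pos m i

/-- `R(M) = P(m+2, M) / P(m, M+1)` -/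
noncomputable def R (m M : ℕ) : ℝ := Cn (m + 2) M / Cn m (M + 1)

lemma R_pos (m M : ℕ) : 0 < R m M := div_pos (Cn_pos _ _) (Cn_pos _ _)

lemma hf_ratio (m M : ℕ) : hf (m + 2) M * ((3 * M + m + 5) * (2 * M + 2 * m + 3)) =
    hf m (M + 1) * ((3 * M + 2 * m + 4) * (2 * M + 3)) := by
  unfold hf
  rw [show m + 2 + 3 * M + 2 = m + 3 * M + 4 by ring,
    show m + 2 + M = (m + M + 1) + 1 by ring,
    show 2 * (m + 2) + 3 * M = (2 * m + 3 * M + 3) + 1 by ring,
    show m + 2 + 2 * M = m + 2 * M + 2 by ring,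
    show m + 2 * M + 2 + 1 = m + 2 * M + 3 by ring,
    show 2 * (m + 2) + 2 * M = (2 * m + 2 * M + 2) + 1 + 1 by ring,
    show m + 3 * (M + 1) + 2 = (m + 3 * M + 4) + 1 by ring,
    show m + (M + 1) = m + M + 1 by ring,
    show 2 * m + 3 * (M + 1) = 2 * m + 3 * M + 3 by ring,
    show 2 * (M + 1) + 1 = (2 * M + 1) + 1 + 1 by ring,
    show m + 2 * (M + 1) = m + 2 * M + 2 by ring,
    show m + 2 * M + 2 + 1 = m + 2 * M + 3 by ring,
    show 2 * m + 2 * (M + 1) = 2 * m + 2 * M + 2 by ring]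
  rw [Nat.factorial_succ (m + M + 1), Nat.factorial_succ (2 * m + 3 * M + 3),
    Nat.factorial_succ (2 * m + 2 * M + 2 + 1), Nat.factorial_succ (2 * m + 2 * M + 2),
    Nat.factorial_succ (m + 3 * M + 4), Nat.factorial_succ M, Nat.factorial_succ (2 * M + 1 + 1),
    Nat.factorial_succ (2 * M + 1)]
  push_cast
  have f1 : (0:ℝ) < (m + M + 1).factorial := by positivity
  have f2 : (0:ℝ) < (2 * m + 3 * M + 3).factorial := by positivity
  have f3 : (0:ℝ) < (2 * m + 2 * M + 2).factorial := by positivity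
  have f4 : (0:ℝ) < (m + 3 * M + 4).factorial := by positivity
  have f5 : (0:ℝ) < M.factorial := by positivity
  have f6 : (0:ℝ) < (2 * M + 1).factorial := by positivity
  have f7 : (0:ℝ) < (m + 2 * M + 2).factorial := by positivity
  have f8 : (0:ℝ) < (m + 2 * M + 3).factorial := by positivity
  field_simp
  ring

lemma R_ratio (m M : ℕ) : R m (M + 1) * ((3 * M + m + 5) * (2 * M + 2 * m + 3)) =
    R m M * ((3 * M + 2 * m + 4) * (2 * M + 3)) := by
  have h := hf_ratio m M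
  unfold R
  rw [Cn_eq (m + 2) (M + 1), Finset.prod_range_succ, ← Cn_eq, Cn_eq m (M + 1 + 1),
    Finset.prod_range_succ, ← Cn_eq]
  have h1 := Cn_pos (m + 2) M
  have h2 := Cn_pos m (M + 1)
  have h3 := hf_pos m (M + 1)
  rw [div_mul_eq_mul_div, div_mul_eq_mul_div, div_eq_div_iff (by positivity) (by positivity)]
  linear_combination (Cn (m + 2) M * Cn m (M + 1)) * h

/-- asymptotics of `R` -/
lemma R_asymp (m : ℕ) : ∃ c C : ℝ, 0 < c ∧ 0 < C ∧ ∀ M : ℕ,
    c * ((M : ℝ) + 1) ^ (-((2 * m + 1) / 3 : ℝ)) ≤ R m M ∧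
      R m M ≤ C * ((M : ℝ) + 1) ^ (-((2 * m + 1) / 3 : ℝ)) := by
  refine compare (R m) (R_pos m) ((2 * m + 1) / 3)
    (((2 * m + 1) / 3) ^ 2 + ((m + 2) / 3) ^ 2 + (1 / 2) ^ 2 + (m + 1 / 2) ^ 2 + (2 * m + 1) / 3)
    fun M => ?_
  have hm : (0:ℝ) ≤ m := Nat.cast_nonneg m
  have hM : (0:ℝ) ≤ M := Nat.cast_nonneg M
  set x : ℝ := (M : ℝ) + 1 with hx
  have hx0 : 0 < x := by positivity
  have e : Real.log (R m (M + 1)) - Real.log (R m M) =
      Real.log (x + (2 * m + 1) / 3) + Real.log (x + 1 / 2) - Real.log (x + (m + 2) / 3)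
        - Real.log (x + (m + 1 / 2)) := by
    have h := congrArg Real.log (R_ratio m M)
    rw [Real.log_mul (R_pos _ _).ne' (by positivity), Real.log_mul (R_pos _ _).ne' (by positivity),
      show (3 * (M:ℝ) + m + 5) * (2 * M + 2 * m + 3) =
        6 * ((x + (m + 2) / 3) * (x + (m + 1 / 2))) by rw [hx]; ring,
      show (3 * (M:ℝ) + 2 * m + 4) * (2 * M + 3) =
        6 * ((x + (2 * m + 1) / 3) * (x + 1 / 2)) by rw [hx]; ring,
      Real.log_mul (by norm_num) (by positivity), Real.log_mul (by positivity) (by positivity),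
      Real.log_mul (by norm_num) (by positivity), Real.log_mul (by positivity) (by positivity)] at h
    linarith
  have b1 := abs_le.mp (log_add_bound hx0 (show (0:ℝ) ≤ (2 * m + 1) / 3 by positivity))
  have b2 := abs_le.mp (log_add_bound hx0 (show (0:ℝ) ≤ 1 / 2 by positivity))
  have b3 := abs_le.mp (log_add_bound hx0 (show (0:ℝ) ≤ (m + 2) / 3 by positivity))
  have b4 := abs_le.mp (log_add_bound hx0 (show (0:ℝ) ≤ m + 1 / 2 by positivity))
  have b5 := abs_le.mp (log_add_bound hx0 (show (0:ℝ) ≤ 1 by positivity))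
  have e2 : (M : ℝ) + 2 = x + 1 := by rw [hx]; ring
  rw [e, e2]
  have e3 : ((2 * (m:ℝ) + 1) / 3) / x + (1 / 2) / x - ((m + 2) / 3) / x - (m + 1 / 2) / x +
      (2 * m + 1) / 3 * (1 / x) = 0 := by field_simp; ring
  have e4 : (((2 * (m:ℝ) + 1) / 3) ^ 2 + ((m + 2) / 3) ^ 2 + (1 / 2) ^ 2 + (m + 1 / 2) ^ 2 +
      (2 * m + 1) / 3) / x ^ 2 = ((2 * (m:ℝ) + 1) / 3) ^ 2 / x ^ 2 + ((m + 2) / 3) ^ 2 / x ^ 2 +
        (1 / 2) ^ 2 / x ^ 2 + (m + 1 / 2) ^ 2 / x ^ 2 + (2 * m + 1) / 3 * (1 ^ 2 / x ^ 2) := by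
    ring
  have hs : (0:ℝ) ≤ (2 * m + 1) / 3 := by positivity
  have b5l := mul_le_mul_of_nonneg_left b5.1 hs
  have b5u := mul_le_mul_of_nonneg_left b5.2 hs
  rw [e4, abs_le]
  constructor
  · nlinarith [b1.1, b2.1, b3.2, b4.2, b5l]
  · nlinarith [b1.2, b2.2, b3.1, b4.1, b5u]

lemma Pn_step (m M : ℕ) : Pn (m + 2) M = Pn m (M + 1) * R m M := by
  unfold Pn R
  rw [show (m + 2) % 2 = m % 2 by omega, show M + (m + 2) / 2 = M + 1 + m / 2 by omega]
  have h1 := Cn_pos m (M + 1)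
  have h2 := Cn_pos (m % 2) (M + 1 + m / 2)
  field_simp

lemma pow_compare {e : ℝ} (he : 0 ≤ e) (M : ℕ) :
    2 ^ (-e) * ((M : ℝ) + 1) ^ (-e) ≤ ((M : ℝ) + 2) ^ (-e) ∧
      ((M : ℝ) + 2) ^ (-e) ≤ ((M : ℝ) + 1) ^ (-e) := by
  have hM : (0:ℝ) ≤ M := Nat.cast_nonneg M
  constructor
  · rw [← Real.mul_rpow (by norm_num) (by positivity)]
    exact Real.rpow_le_rpow_of_nonpos (by positivity) (by linarith) (by linarith)
  · exact Real.rpow_le_rpow_of_nonpos (by positivity) (by linarith) (by linarith)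

end AS

open AS in
theorem t_AS : S_AS := by
  intro m
  induction m using Nat.strong_induction_on with
  | _ m ih =>
  rcases Nat.lt_or_ge m 2 with h | h
  · refine ⟨1, 1, one_pos, one_pos, fun M => ?_⟩
    have hP : Pn m M = 1 := by
      unfold Pn
      have h2 : m % 2 = m := Nat.mod_eq_of_lt h
      have h3 : m / 2 = 0 := by omega
      rw [h2, h3, add_zero, div_self (Cn_pos m M).ne']
    have he : -((m : ℝ) * (m - 1) / 6) = 0 := by
      interval_cases m <;> norm_num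
    rw [hP, he, Real.rpow_zero]
    norm_num
  · obtain ⟨k, rfl⟩ : ∃ k, m = k + 2 := ⟨m - 2, by omega⟩
    obtain ⟨c1, C1, hc1, hC1, h1⟩ := ih k (by omega)
    obtain ⟨c2, C2, hc2, hC2, h2⟩ := R_asymp k
    have he : (0:ℝ) ≤ (k : ℝ) * (k - 1) / 6 := by
      rcases Nat.eq_zero_or_pos k with rfl | hk
      · simp
      · have : (1:ℝ) ≤ k := by exact_mod_cast hk
        have : (0:ℝ) ≤ (k : ℝ) * (k - 1) := by nlinarith
        positivity
    refine ⟨c1 * 2 ^ (-((k : ℝ) * (k - 1) / 6)) * c2, C1 * C2, by positivity, by positivity,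
      fun M => ?_⟩
    have h3 := h1 (M + 1)
    push_cast at h3
    rw [show (M : ℝ) + 1 + 1 = (M : ℝ) + 2 by ring] at h3
    have h4 := pow_compare he M
    have h5 := h2 M
    have hM0 : (0:ℝ) < (M : ℝ) + 1 := by positivity
    have e1 : ((M : ℝ) + 1) ^ (-(((k + 2 : ℕ) : ℝ) * (((k + 2 : ℕ) : ℝ) - 1) / 6)) =
        ((M : ℝ) + 1) ^ (-((k : ℝ) * (k - 1) / 6)) * ((M : ℝ) + 1) ^ (-((2 * k + 1) / 3 : ℝ)) := by
      rw [← Real.rpow_add hM0]
      congr 1
      push_cast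
      ring
    rw [e1, Pn_step]
    set A := ((M : ℝ) + 1) ^ (-((k : ℝ) * (k - 1) / 6)) with hA
    set B := ((M : ℝ) + 1) ^ (-((2 * k + 1) / 3 : ℝ)) with hB
    have hA0 : 0 < A := Real.rpow_pos_of_pos hM0 _
    have hB0 : 0 < B := Real.rpow_pos_of_pos hM0 _
    have hR := R_pos k M
    constructor
    · calc c1 * 2 ^ (-((k : ℝ) * (k - 1) / 6)) * c2 * (A * B)
          = (c1 * (2 ^ (-((k : ℝ) * (k - 1) / 6)) * A)) * (c2 * B) := by ring
        _ ≤ Pn k (M + 1) * R k M := by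
          refine mul_le_mul ?_ h5.1 (by positivity) ?_
          · exact le_trans (mul_le_mul_of_nonneg_left h4.1 hc1.le) h3.1
          · exact le_trans (by positivity) h3.1
    · calc Pn k (M + 1) * R k M ≤ (C1 * A) * (C2 * B) := by
            refine mul_le_mul ?_ h5.2 hR.le (by positivity)
            exact le_trans h3.2 (mul_le_mul_of_nonneg_left h4.2 hC1.le)
        _ = _ := by ring

end Pool.Agent.W808.HB
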