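import Pool.Agent.W808.HB.Stm
import Pool.Agent.H863R2.Cyl.Braid
import Pool.Agent.H863R2.Cyl.KEx
import Pool.Agent.H863R2.Cyl.KRel

/-! Task T4: no legs. -/

set_option autoImplicit false

namespace Pool.Agent.W808.HB
open Pool.Agent.H863R2.Cyl
open Pool.Agent.H988R2.Perc (Word PD)
open Pool.Agent.H160R2.ML (pfq Gn)

namespace M0aux

theorem tot_lin (f : Word → Word) (v : VW) : tot (lin f v) = tot v := by
  unfold tot lin
  rw [Finsupp.lmapDomain_apply, Finsupp.linearCombination_mapDomain]
  rfl

theorem tot_bs (w : Word) : tot (bs w) = 1 := by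
  simp [tot]

/-- on words of even length the operator `K` preserves the sum of the coefficients -/
theorem tot_K_bs {q : ℂ} (hq : q ^ 2 + q + 1 = 0) {K : VW →ₗ[ℂ] VW} (hK : KSpec q K) :
    ∀ (M : ℕ) (w : Word), w.length = 2 * M → Ok w → tot (K (bs w)) = 1 := by
  intro M
  induction M with
  | zero =>
    intro w hw _
    rw [KRelAux.eq_nil (by omega : w.length = 0), hK.nil, tot_bs]
  | succ M ih =>
    intro w hw hok
    rcases exists_arc hok (by omega) with ⟨i, u, hi, hu, rfl, _, _⟩ | ⟨u, hu, rfl, _⟩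
    · have hl := KRelAux.length_lins i u
      rw [hK.ins i u hu hi, tot_lin]
      exact ih u (by omega) hu
    · have hl := KRelAux.length_seam u
      have h1 := ih u (by omega) hu
      rw [hK.seam u hu, map_neg, map_add, map_smul, map_smul, tot_lin, tot_lin, tot_lin, h1,
        smul_eq_mul, smul_eq_mul]
      linear_combination -hq

theorem tot_K {q : ℂ} (hq : q ^ 2 + q + 1 = 0) {K : VW →ₗ[ℂ] VW} (hK : KSpec q K) {M : ℕ}
    {v : VW} (hv : v ∈ VN (2 * M)) : tot (K v) = tot v := by
  have h := KRelAux.ext_VN (A := tot ∘ₗ K) (B := tot) (N := 2 * M)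
    (fun w h1 h2 => by
      rw [LinearMap.comp_apply, tot_K_bs hq hK M w h1 h2, tot_bs]) hv
  exact h

theorem lin_one {f : Word → ℂ} {N : ℕ} (hf : ∀ w : Word, Ok w → w.length = N → f w = 1) {v : VW}
    (hv : v ∈ VN N) : Finsupp.linearCombination ℂ f v = tot v := by
  have h := KRelAux.ext_VN (A := Finsupp.linearCombination ℂ f) (B := tot) (N := N)
    (fun w h1 h2 => by
      rw [tot_bs]
      simp [hf w h2 h1]) hv
  exact h

theorem length_prs (l : List ℂ) : (prs l).length = 2 * l.length := by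
  induction l with
  | nil => rfl
  | cons a l ih =>
    have : prs (a :: l) = a :: a⁻¹ :: prs l := by simp [prs]
    rw [this, List.length_cons, List.length_cons, List.length_cons, ih]
    ring

theorem prod_prs (l : List ℂ) (h : ∀ x ∈ l, x ≠ 0) : (prs l).prod = 1 := by
  induction l with
  | nil => rfl
  | cons a l ih =>
    have : prs (a :: l) = a :: a⁻¹ :: prs l := by simp [prs]
    rw [this, List.prod_cons, List.prod_cons, ih fun x hx => h x (List.mem_cons_of_mem _ hx),
      mul_one, mul_inv_cancel₀ (h a List.mem_cons_self)]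

theorem mem_prs {l : List ℂ} {x : ℂ} (hx : x ∈ l) : x ∈ prs l := by
  unfold prs
  rw [List.mem_flatMap]
  exact ⟨x, hx, List.mem_cons_self⟩

end M0aux
open M0aux

theorem t_M0 (h2 : S_M2) (hTP : S_TP) : S_M0 := by
  intro q e Ψ D M x hG
  have hx0 : ∀ i, x i ≠ 0 := fun i => hG.1 _ (mem_prs (by
    rw [List.mem_ofFn]
    exact ⟨i, rfl⟩))
  have key := h2 q e Ψ D 1 M le_rfl [0] x rfl hG
  have e1 : kap q 1 = 1 := by
    unfold kap
    rw [if_neg (by decide)]
    simp
  have e2 : pfq q [0] = 1 := by simp [pfq]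
  obtain ⟨-, -, -, -, -, e3⟩ := hTP q [] M x
  have e4 : GG e Ψ [0] (prs (List.ofFn x)) = GG e Ψ [] (prs (List.ofFn x)) := by
    set z := prs (List.ofFn x) with hz
    have hlen : z.length = 2 * M := by
      rw [hz, length_prs, List.length_ofFn]
    have hprod : z.prod = 1 := prod_prs _ (fun y hy => by
      rw [List.mem_ofFn] at hy
      obtain ⟨i, rfl⟩ := hy
      exact hx0 i)
    obtain ⟨K, hK⟩ := exists_K q
    have m0 := D.h.mem z
    rw [hlen] at m0
    have m1 := D.h.mem (0 :: z)
    rw [List.length_cons, hlen] at m1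
    unfold GG
    change Finsupp.linearCombination ℂ (e 1) (Ψ (0 :: z)) =
      Finsupp.linearCombination ℂ (e 0) (Ψ z)
    rw [lin_one (fun w h1 h2 => D.he.tot1 M w h1 h2) m1,
      lin_one (fun w h1 h2 => D.he.tot0 M w h1 h2) m0, braid_limit D.hq D.h hK z, hprod, one_smul,
      tot_K D.hq hK m0]
  rw [e1, e2, e3 D.hq hx0, e4] at key
  linear_combination key

end Pool.Agent.W808.HB
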